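import Pool.Agent.Work.MP_1c6e58_ag.COV.StmtsL

/-!
MP_1c6e58_ag, project COV, item LGF (helper67): facts on the function gI.
-/

set_option autoImplicit false

open Finset

namespace Pool.Agent.COV

open Pool.Agent.SH

namespace XLLGF

variable {Q : Type} [Fintype Q] (A B ρ : Q → ℕ)

theorem le' (c : ℕ × ℕ) (k : ℤ) : k ≤ gI A B ρ c ↔ (k ≤ (c.1 : ℤ) + 1 ∧ k ≤ (c.2 : ℤ) + 1 ∧
    ∀ q, k ≤ (ρ q : ℤ) + max ((c.1 : ℤ) + 1 - A q) ((c.2 : ℤ) + 1 - B q)) := by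
  unfold gI
  rw [Finset.le_inf'_iff]
  constructor
  · intro h
    have h0 := h none (mem_univ _)
    simp only [gterm] at h0
    refine ⟨?_, ?_, fun q => ?_⟩
    · have := min_le_left (c.1 : ℤ) (c.2 : ℤ); omega
    · have := min_le_right (c.1 : ℤ) (c.2 : ℤ); omega
    · have := h (some q) (mem_univ _)
      simpa only [gterm] using this
  · rintro ⟨h1, h2, h3⟩ b -
    cases b with
    | none =>
      simp only [gterm]
      have : k - 1 ≤ min (c.1 : ℤ) (c.2 : ℤ) := le_min (by omega) (by omega)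
      omega
    | some q => simpa only [gterm] using h3 q

theorem mono' (c c' : ℕ × ℕ) (h1 : c.1 ≤ c'.1) (h2 : c.2 ≤ c'.2) :
    gI A B ρ c ≤ gI A B ρ c' := by
  obtain ⟨k1, k2, k3⟩ := (le' A B ρ c (gI A B ρ c)).1 le_rfl
  refine (le' A B ρ c' _).2 ⟨?_, ?_, fun q => (k3 q).trans ?_⟩
  · have : (c.1 : ℤ) ≤ c'.1 := by exact_mod_cast h1
    omega
  · have : (c.2 : ℤ) ≤ c'.2 := by exact_mod_cast h2
    omega
  · have e1 : (c.1 : ℤ) ≤ c'.1 := by exact_mod_cast h1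
    have e2 : (c.2 : ℤ) ≤ c'.2 := by exact_mod_cast h2
    have : max ((c.1 : ℤ) + 1 - A q) ((c.2 : ℤ) + 1 - B q) ≤
        max ((c'.1 : ℤ) + 1 - A q) ((c'.2 : ℤ) + 1 - B q) :=
      max_le_max (by omega) (by omega)
    omega

theorem le_diag (c : ℕ × ℕ) (k : ℤ) :
    k ≤ gI A B ρ (c.1 + 1, c.2 + 1) ↔ k - 1 ≤ gI A B ρ c := by
  rw [le', le']
  have hm : ∀ q, max (((c.1 + 1 : ℕ) : ℤ) + 1 - A q) (((c.2 + 1 : ℕ) : ℤ) + 1 - B q) =
      max ((c.1 : ℤ) + 1 - A q) ((c.2 : ℤ) + 1 - B q) + 1 := by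
    intro q
    rw [← max_add_add_right]
    congr 1 <;> push_cast <;> ring
  simp only [hm]
  constructor
  · rintro ⟨h1, h2, h3⟩
    refine ⟨by push_cast at h1; omega, by push_cast at h2; omega, fun q => ?_⟩
    have := h3 q
    omega
  · rintro ⟨h1, h2, h3⟩
    refine ⟨by push_cast; omega, by push_cast; omega, fun q => ?_⟩
    have := h3 q
    omega

theorem diag' (c : ℕ × ℕ) : gI A B ρ (c.1 + 1, c.2 + 1) = gI A B ρ c + 1 := by
  apply le_antisymm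
  · have := (le_diag A B ρ c _).1 (le_refl (gI A B ρ (c.1 + 1, c.2 + 1)))
    omega
  · exact (le_diag A B ρ c _).2 (by omega)

theorem lt' (c c' : ℕ × ℕ) (h : dlt c c') : gI A B ρ c < gI A B ρ c' := by
  have h1 := diag' A B ρ c
  have h2 := mono' A B ρ (c.1 + 1, c.2 + 1) c' h.1 h.2
  omega

theorem rect' (q : Q) (c : ℕ × ℕ) (h1 : c.1 < A q) (h2 : c.2 < B q) : gI A B ρ c ≤ ρ q := by
  obtain ⟨-, -, k3⟩ := (le' A B ρ c (gI A B ρ c)).1 le_rfl
  have := k3 q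
  have hm : max ((c.1 : ℤ) + 1 - A q) ((c.2 : ℤ) + 1 - B q) ≤ 0 :=
    max_le (by omega) (by omega)
  omega

theorem good' : GoodF A B ρ (FL A B ρ) := by
  refine ⟨?_, fun c => (gI A B ρ c).toNat, ?_, ?_, ?_⟩
  · intro c hc
    have h := (mem_filter.1 hc).1
    unfold YF at h
    obtain ⟨q, -, hq⟩ := mem_biUnion.1 h
    rw [mem_product, mem_range, mem_range] at hq
    exact ⟨q, hq⟩
  · intro c hc
    have h := (mem_filter.1 hc).2
    show 1 ≤ (gI A B ρ c).toNat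
    omega
  · intro c hc c' hc' hd
    have h := (mem_filter.1 hc).2
    have h2 := lt' A B ρ c c' hd
    show (gI A B ρ c).toNat < (gI A B ρ c').toNat
    omega
  · intro q c hc h1 h2
    have h := rect' A B ρ q c h1 h2
    show (gI A B ρ c).toNat ≤ ρ q
    omega

end XLLGF

theorem I_LGF : St_LGF := by
  intro Q _ A B ρ
  exact ⟨XLLGF.le' A B ρ, XLLGF.mono' A B ρ, XLLGF.diag' A B ρ, XLLGF.lt' A B ρ,
    XLLGF.rect' A B ρ, XLLGF.good' A B ρ⟩

end Pool.Agent.COV
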