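import Pool.Agent.Work.MP_1c6e58_ag.COV.StmtsL

/-!
MP_1c6e58_ag, project COV, item LLEV: a set which is not good contains a long chain.
-/

set_option autoImplicit false

open Finset

namespace Pool.Agent.COV

open Pool.Agent.SH

namespace XLLLEV

/-- There is a chain of `m` elements of `F` which ends at `c`. -/
def Ch (F : Finset (ℕ × ℕ)) (c : ℕ × ℕ) (m : ℕ) : Prop :=
  1 ≤ m ∧ ∃ s : ℕ → ℕ × ℕ, (∀ i, i < m → s i ∈ F) ∧
    (∀ i j, i < j → j < m → dlt (s i) (s j)) ∧ s (m - 1) = c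

theorem ch_one {F : Finset (ℕ × ℕ)} {c : ℕ × ℕ} (hc : c ∈ F) : Ch F c 1 :=
  ⟨le_rfl, fun _ => c, fun _ _ => hc, fun i j h1 h2 => by omega, rfl⟩

theorem ch_succ {F : Finset (ℕ × ℕ)} {c c' : ℕ × ℕ} {m : ℕ} (h : Ch F c m) (hc' : c' ∈ F)
    (hlt : dlt c c') : Ch F c' (m + 1) := by
  obtain ⟨hm, s, hs, hch, hl⟩ := h
  refine ⟨by omega, fun i => if i < m then s i else c', ?_, ?_, ?_⟩
  · intro i hi
    by_cases h : i < m
    · simp only [h, if_true]
      exact hs i h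
    · simp only [h, if_false]
      exact hc'
  · intro i j hij hj
    have hi : i < m := by omega
    by_cases h : j < m
    · simp only [h, hi, if_true]
      exact hch i j hij h
    · simp only [h, hi, if_true, if_false]
      by_cases h2 : i = m - 1
      · rw [h2, hl]
        exact hlt
      · have h3 := hch i (m - 1) (by omega) (by omega)
        rw [hl] at h3
        exact ⟨h3.1.trans hlt.1, h3.2.trans hlt.2⟩
  · have : ¬ (m + 1 - 1 < m) := by omega
    simp only [this, if_false]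

theorem ch_le {F : Finset (ℕ × ℕ)} {c : ℕ × ℕ} {m : ℕ} (h : Ch F c m) : m ≤ c.1 + 1 := by
  obtain ⟨hm, s, hs, hch, hl⟩ := h
  have key : ∀ i, i < m → i ≤ (s i).1 := by
    intro i
    induction i with
    | zero => intro _; omega
    | succ i ih =>
      intro hi
      have h1 := ih (by omega)
      have h2 := (hch i (i + 1) (by omega) hi).1
      omega
  have h1 := key (m - 1) (by omega)
  rw [hl] at h1
  omega

theorem ch_last {F : Finset (ℕ × ℕ)} {c : ℕ × ℕ} {m k : ℕ} (h : Ch F c m) (hk : k + 1 ≤ m) :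
    ∃ s : Fin (k + 1) → ℕ × ℕ, (∀ i, s i ∈ F) ∧ (∀ i j, i < j → dlt (s i) (s j)) ∧
      ∀ i, (s i).1 ≤ c.1 ∧ (s i).2 ≤ c.2 := by
  obtain ⟨hm, s, hs, hch, hl⟩ := h
  refine ⟨fun i => s (m - (k + 1) + (i : ℕ)), ?_, ?_, ?_⟩
  · intro i
    have := i.2
    exact hs _ (by omega)
  · intro i j hij
    have hij' : (i : ℕ) < (j : ℕ) := hij
    have := j.2
    exact hch _ _ (by omega) (by omega)
  · intro i
    have hi := i.2
    show (s (m - (k + 1) + (i : ℕ))).1 ≤ c.1 ∧ (s (m - (k + 1) + (i : ℕ))).2 ≤ c.2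
    by_cases h2 : m - (k + 1) + (i : ℕ) = m - 1
    · rw [h2, hl]
      exact ⟨le_rfl, le_rfl⟩
    · have h3 := hch (m - (k + 1) + (i : ℕ)) (m - 1) (by omega) (by omega)
      rw [hl] at h3
      exact ⟨h3.1.le, h3.2.le⟩

open Classical in
/-- The level. -/
noncomputable def lv (F : Finset (ℕ × ℕ)) (c : ℕ × ℕ) : ℕ :=
  Nat.findGreatest (fun m => Ch F c m) (c.1 + 1)

theorem lv_ge {F : Finset (ℕ × ℕ)} {c : ℕ × ℕ} {m : ℕ} (h : Ch F c m) : m ≤ lv F c := by
  classical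
  unfold lv
  exact Nat.le_findGreatest (ch_le h) h

theorem lv_ch {F : Finset (ℕ × ℕ)} {c : ℕ × ℕ} (hc : c ∈ F) : Ch F c (lv F c) := by
  classical
  unfold lv
  exact Nat.findGreatest_spec (P := fun m => Ch F c m) (m := 1) (by omega) (ch_one hc)

end XLLLEV

open XLLLEV in
theorem I_LLEV : St_LLEV := by
  intro Q A B ρ F hF hng
  by_contra hcon
  apply hng
  refine ⟨hF, lv F, fun c hc => lv_ge (ch_one hc), fun c hc c' hc' hlt => ?_, ?_⟩
  · exact lv_ge (ch_succ (lv_ch hc) hc' hlt)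
  · intro q c hc h1 h2
    by_contra hlt
    obtain ⟨s, hs1, hs2, hs3⟩ := ch_last (k := ρ q) (lv_ch hc) (by omega)
    exact hcon ⟨q, s, hs1, hs2, fun i => ⟨(hs3 i).1.trans_lt h1, (hs3 i).2.trans_lt h2⟩⟩

end Pool.Agent.COV
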