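import Pool.Agent.Work.MP_1c6e58_ag.COV.StmtsL

/-!
MP_1c6e58_ag, project COV, item LMAX: `FL` is a largest good set.
-/

set_option autoImplicit false

open Finset

namespace Pool.Agent.COV

open Pool.Agent.SH

namespace XLLMAX

variable {Q : Type} [Fintype Q] {A B ρ : Q → ℕ}

theorem memYF {c : ℕ × ℕ} : c ∈ YF A B ↔ ∃ q, c.1 < A q ∧ c.2 < B q := by
  classical
  unfold YF
  simp only [Finset.mem_biUnion, Finset.mem_univ, true_and, Finset.mem_product, Finset.mem_range]

theorem diagI (g : GF A B ρ) (i x y : ℕ) : gI A B ρ (x + i, y + i) = gI A B ρ (x, y) + i := by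
  induction i with
  | zero => simp
  | succ i ih =>
    have h := g.diag (x + i, y + i)
    simp only at h
    rw [ih] at h
    have e1 : x + (i + 1) = x + i + 1 := by omega
    have e2 : y + (i + 1) = y + i + 1 := by omega
    rw [e1, e2, h]
    push_cast
    ring

/-- one diagonal -/
theorem one (g : GF A B ρ) (F : Finset (ℕ × ℕ)) (hF : GoodF A B ρ F) (d : ℤ) :
    (F.filter (fun c => (c.1 : ℤ) - c.2 = d)).card ≤
      ((FL A B ρ).filter (fun c => (c.1 : ℤ) - c.2 = d)).card := by
  classical
  obtain ⟨hsub, lv, hl1, hl2, hl3⟩ := hF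
  rcases (F.filter (fun c => (c.1 : ℤ) - c.2 = d)).eq_empty_or_nonempty with h0 | h0
  · rw [h0]
    simp
  obtain ⟨c1, hc1⟩ := h0
  rw [Finset.mem_filter] at hc1
  have hne : ((YF A B).filter (fun c => (c.1 : ℤ) - c.2 = d)).Nonempty :=
    ⟨c1, Finset.mem_filter.mpr ⟨memYF.mpr (hsub c1 hc1.1), hc1.2⟩⟩
  obtain ⟨c0, hc0, hmax⟩ := Finset.exists_max_image _ (fun c : ℕ × ℕ => c.1) hne
  obtain ⟨a, b⟩ := c0
  rw [Finset.mem_filter, memYF] at hc0
  obtain ⟨⟨q0, hq1, hq2⟩, hd⟩ := hc0
  simp only at hq1 hq2 hd hmax
  -- the next cell is outside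
  have hout : ∀ q, A q ≤ a + 1 ∨ B q ≤ b + 1 := by
    intro q
    by_contra hcon
    push Not at hcon
    have h1 : (a + 1, b + 1) ∈ (YF A B).filter (fun c => (c.1 : ℤ) - c.2 = d) := by
      rw [Finset.mem_filter, memYF]
      refine ⟨⟨q, hcon.1, hcon.2⟩, ?_⟩
      push_cast
      linarith
    have h2 := hmax _ h1
    simp only at h2
    omega
  -- the cells of `F` on the diagonal
  have hFd : ∀ c ∈ F.filter (fun c => (c.1 : ℤ) - c.2 = d),
      c.1 ≤ a ∧ (c.1 : ℤ) - c.2 = (a : ℤ) - b := by
    intro c hc
    rw [Finset.mem_filter] at hc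
    refine ⟨?_, by rw [hc.2, hd]⟩
    exact hmax c (Finset.mem_filter.mpr ⟨memYF.mpr (hsub c hc.1), hc.2⟩)
  have hinj : ∀ c ∈ F.filter (fun c => (c.1 : ℤ) - c.2 = d),
      ∀ c' ∈ F.filter (fun c => (c.1 : ℤ) - c.2 = d), c.1 = c'.1 → c = c' := by
    intro c hc c' hc' h
    have h1 := (hFd c hc).2
    have h2 := (hFd c' hc').2
    exact Prod.ext h (by omega)
  have hk : ((F.filter (fun c => (c.1 : ℤ) - c.2 = d)).card : ℤ) ≤ gI A B ρ (a, b) := by
    rw [g.le]
    refine ⟨?_, ?_, ?_⟩
    · have h1 : (F.filter (fun c => (c.1 : ℤ) - c.2 = d)).card ≤ (range (a + 1)).card := by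
        apply Finset.card_le_card_of_injOn (fun c => c.1)
        · intro c hc
          have := (hFd c hc).1
          exact Finset.mem_coe.mpr (Finset.mem_range.mpr (by simp only; omega))
        · intro c hc c' hc' h
          exact hinj c hc c' hc' h
      rw [Finset.card_range] at h1
      simp only
      exact_mod_cast h1
    · have h1 : (F.filter (fun c => (c.1 : ℤ) - c.2 = d)).card ≤ (range (b + 1)).card := by
        apply Finset.card_le_card_of_injOn (fun c => c.2)
        · intro c hc
          have := hFd c hc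
          exact Finset.mem_coe.mpr (Finset.mem_range.mpr (by simp only; omega))
        · intro c hc c' hc' h
          have h1 := (hFd c hc).2
          have h2 := (hFd c' hc').2
          simp only at h
          exact hinj c hc c' hc' (by omega)
      rw [Finset.card_range] at h1
      simp only
      exact_mod_cast h1
    · intro q
      simp only
      obtain ⟨M, hM⟩ : ∃ M : ℕ, (M : ℤ) = max ((a : ℤ) + 1 - A q) ((b : ℤ) + 1 - B q) := by
        refine ⟨(max ((a : ℤ) + 1 - A q) ((b : ℤ) + 1 - B q)).toNat, ?_⟩
        apply Int.toNat_of_nonneg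
        rcases hout q with h | h
        · exact le_trans (by omega) (le_max_left _ _)
        · exact le_trans (by omega) (le_max_right _ _)
      rw [← hM]
      have hM1 : (a : ℤ) + 1 - A q ≤ M := by rw [hM]; exact le_max_left _ _
      have hM2 : (b : ℤ) + 1 - B q ≤ M := by rw [hM]; exact le_max_right _ _
      have h1 := Finset.card_filter_add_card_filter_not
        (s := F.filter (fun c => (c.1 : ℤ) - c.2 = d)) (fun c => c.1 < A q ∧ c.2 < B q)
      have h2 : ((F.filter (fun c => (c.1 : ℤ) - c.2 = d)).filter
          (fun c => c.1 < A q ∧ c.2 < B q)).card ≤ (Finset.Ioc 0 (ρ q)).card := by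
        apply Finset.card_le_card_of_injOn lv
        · intro c hc
          have hc' := Finset.mem_filter.mp hc
          have hc'' := Finset.mem_filter.mp hc'.1
          have e1 := hl1 c hc''.1
          have e2 := hl3 q c hc''.1 hc'.2.1 hc'.2.2
          exact Finset.mem_coe.mpr (Finset.mem_Ioc.mpr ⟨by omega, e2⟩)
        · intro c hc c' hc' h
          have hc1 := Finset.mem_filter.mp hc
          have hc2 := Finset.mem_filter.mp hc'
          have e1 := Finset.mem_filter.mp hc1.1
          have e2 := Finset.mem_filter.mp hc2.1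
          have f1 := (hFd c hc1.1).2
          have f2 := (hFd c' hc2.1).2
          rcases Nat.lt_trichotomy c.1 c'.1 with h3 | h3 | h3
          · have := hl2 c e1.1 c' e2.1 ⟨h3, by omega⟩
            omega
          · exact hinj c hc1.1 c' hc2.1 h3
          · have := hl2 c' e2.1 c e1.1 ⟨h3, by omega⟩
            omega
      have h3 : ((F.filter (fun c => (c.1 : ℤ) - c.2 = d)).filter
          (fun c => ¬ (c.1 < A q ∧ c.2 < B q))).card ≤ (range M).card := by
        apply Finset.card_le_card_of_injOn (fun c => a - c.1)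
        · intro c hc
          have hc' := Finset.mem_filter.mp hc
          have f1 := hFd c hc'.1
          have f2 := hc'.2
          refine Finset.mem_coe.mpr (Finset.mem_range.mpr ?_)
          simp only
          omega
        · intro c hc c' hc' h
          have hc1 := Finset.mem_filter.mp hc
          have hc2 := Finset.mem_filter.mp hc'
          have f1 := (hFd c hc1.1).1
          have f2 := (hFd c' hc2.1).1
          simp only at h
          exact hinj c hc1.1 c' hc2.1 (by omega)
      rw [Nat.card_Ioc] at h2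
      rw [Finset.card_range] at h3
      have h4 : (F.filter (fun c => (c.1 : ℤ) - c.2 = d)).card ≤ ρ q + M := by omega
      exact_mod_cast h4
  -- the cells of `FL` on the diagonal
  have hG := (g.le (a, b) (gI A B ρ (a, b))).mp le_rfl
  simp only at hG
  have hFL : (range (gI A B ρ (a, b)).toNat).card ≤
      ((FL A B ρ).filter (fun c => (c.1 : ℤ) - c.2 = d)).card := by
    apply Finset.card_le_card_of_injOn (fun i => (a - i, b - i))
    · intro i hi
      have hi' : i < (gI A B ρ (a, b)).toNat := Finset.mem_range.mp hi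
      have hi2 : (i : ℤ) < gI A B ρ (a, b) := by omega
      have e1 : i ≤ a := by omega
      have e2 : i ≤ b := by omega
      have e3 := diagI g i (a - i) (b - i)
      rw [Nat.sub_add_cancel e1, Nat.sub_add_cancel e2] at e3
      refine Finset.mem_coe.mpr (Finset.mem_filter.mpr ⟨?_, ?_⟩)
      · unfold FL
        rw [Finset.mem_filter, memYF]
        refine ⟨⟨q0, ?_, ?_⟩, ?_⟩
        · simp only
          omega
        · simp only
          omega
        · change (1 : ℤ) ≤ gI A B ρ (a - i, b - i)
          omega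
      · simp only
        omega
    · intro i hi j hj h
      have hi' : i < (gI A B ρ (a, b)).toNat := Finset.mem_range.mp hi
      have hj' : j < (gI A B ρ (a, b)).toNat := Finset.mem_range.mp hj
      have h1 := congrArg Prod.fst h
      simp only at h1
      omega
  rw [Finset.card_range] at hFL
  omega

end XLLMAX

open XLLMAX in
theorem I_LMAX (hLGF : St_LGF) : St_LMAX := by
  classical
  intro Q _ A B ρ F hF
  have g := hLGF Q A B ρ
  have h1 : F.card = ∑ d ∈ (YF A B).image (fun c : ℕ × ℕ => (c.1 : ℤ) - c.2),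
      (F.filter (fun c => (c.1 : ℤ) - c.2 = d)).card :=
    Finset.card_eq_sum_card_fiberwise (fun c hc =>
      Finset.mem_coe.mpr (Finset.mem_image_of_mem _ (memYF.mpr (hF.1 c hc))))
  have h2 : (FL A B ρ).card = ∑ d ∈ (YF A B).image (fun c : ℕ × ℕ => (c.1 : ℤ) - c.2),
      ((FL A B ρ).filter (fun c => (c.1 : ℤ) - c.2 = d)).card :=
    Finset.card_eq_sum_card_fiberwise (fun c hc =>
      Finset.mem_coe.mpr (Finset.mem_image_of_mem _ (Finset.mem_filter.mp hc).1))
  rw [h1, h2]
  exact Finset.sum_le_sum fun d _ => one g F hF d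

end Pool.Agent.COV
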