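import Pool.Agent.Work.MP_1c6e58_ag.COV.Stmts

/-!
MP_1c6e58_ag, project COV, item BND: the bound for the size.
-/

set_option autoImplicit false

open Finset

namespace Pool.Agent.COV

open Pool.Agent.SH

namespace XBND

/-- The bound `two` for a set of conditions. -/
theorem two_le {n : ℕ} {v : Equiv.Perm (Fin n)} {T : Finset (ℕ × ℕ)} {s : ℕ × ℕ → ℕ} {e : ℕ}
    (h : LBd v T s e) (L : Finset (ℕ × ℕ))
    (hL : ∀ t ∈ L, t ∈ T ∧ rkN v t.1 t.2 < s t) : 2 ^ L.card ≤ e := by
  classical
  have h2 := h.two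
  refine le_trans (Nat.pow_le_pow_right (by norm_num) ?_) h2
  refine le_trans (Finset.card_le_card (?_ : L ⊆ Finset.image Subtype.val _))
    Finset.card_image_le
  intro t ht
  rw [Finset.mem_image]
  refine ⟨⟨t, (hL t ht).1⟩, ?_, rfl⟩
  rw [Finset.mem_filter]
  refine ⟨Finset.mem_univ _, ?_⟩
  have := (hL t ht).2
  show 1 ≤ s t - rkN v t.1 t.2
  omega

/-- Covering by the sets JA, JB. -/
theorem cover {n : ℕ} (u : Equiv.Perm (Fin n)) (T L : Finset (ℕ × ℕ)) (c : ℕ)
    (hcov : ∀ j : Fin n, ∃ t ∈ L, j ∈ JA u T t ∨ j ∈ JB u T t)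
    (hc : ∀ t ∈ L, (JA u T t).card ≤ c ∧ (JB u T t).card ≤ c) : n ≤ L.card * (2 * c) := by
  classical
  have h1 : (Finset.univ : Finset (Fin n)) ⊆ L.biUnion fun t => JA u T t ∪ JB u T t := by
    intro j _
    obtain ⟨t, ht, hj⟩ := hcov j
    rw [Finset.mem_biUnion]
    exact ⟨t, ht, Finset.mem_union.mpr hj⟩
  have h2 := Finset.card_le_card h1
  rw [Finset.card_univ, Fintype.card_fin] at h2
  refine h2.trans (Finset.card_biUnion_le_card_mul _ _ _ fun t ht => ?_)
  have h3 := Finset.card_union_le (JA u T t) (JB u T t)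
  have h4 := hc t ht
  omega

end XBND

theorem I_BND (hRKB : St_RKB) (hLESS : St_LESS) (hCOVJ : St_COVJ) (hJCNT : St_JCNT) :
    St_BND := by
  classical
  intro k A T hmin hT
  have hRv : RkF A.v := (hRKB A.n).1 A.v
  have hRu : RkF A.u := (hRKB A.n).1 A.u
  have hle : ∀ a b, rkN A.v a b ≤ rkN A.u a b := ((hRKB A.n).2.1 A.u A.v).mp A.le
  have hcovj := hCOVJ k A T hmin hT
  set L := T.filter fun t => rkN A.v t.1 t.2 < rkN A.u t.1 t.2 with hL
  have hmemL : ∀ t, t ∈ L ↔ t ∈ T ∧ rkN A.v t.1 t.2 < rkN A.u t.1 t.2 := fun t => by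
    rw [hL, Finset.mem_filter]
  have hcov : ∀ j : Fin A.n, ∃ t ∈ L, j ∈ JA A.u T t ∨ j ∈ JB A.u T t := by
    intro j
    obtain ⟨t, h1, h2, h3⟩ := hcovj j
    exact ⟨t, (hmemL t).mpr ⟨h1, h2⟩, h3⟩
  rcases L.eq_empty_or_nonempty with hLe | ⟨t1, ht1⟩
  · right
    have h0 : A.n = 0 := by
      by_contra hne
      obtain ⟨t, ht, _⟩ := hcov ⟨0, Nat.pos_of_ne_zero hne⟩
      rw [hLe] at ht
      exact absurd ht (Finset.notMem_empty _)
    rw [h0]
    exact Nat.zero_le _
  -- the first bound
  obtain ⟨e1, he1k, he1⟩ := hLESS k A T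
    (fun t => max (rkN A.v t.1 t.2) (rkN A.u t.1 t.2 - 1)) hmin hT
    (fun t _ => by
      have := hle t.1 t.2
      constructor <;> omega)
    ⟨t1, ((hmemL t1).mp ht1).1, by
      have := ((hmemL t1).mp ht1).2
      show max (rkN A.v t1.1 t1.2) (rkN A.u t1.1 t1.2 - 1) < rkN A.u t1.1 t1.2
      omega⟩
    (fun t _ t' _ => by
      have h1 := hRv.lip t.1 t'.1 t.2 t'.2
      have h2 := hRu.lip t.1 t'.1 t.2 t'.2
      show max (rkN A.v t'.1 t'.2) (rkN A.u t'.1 t'.2 - 1) - (t'.1 - t.1) - (t'.2 - t.2) ≤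
        max (rkN A.v t.1 t.2) (rkN A.u t.1 t.2 - 1)
      omega)
  have hrho : ∀ t ∈ L, rkN A.u t.1 t.2 ≤ rkN A.v t.1 t.2 + e1 := by
    intro t ht
    have h1 := he1.rho ⟨t, ((hmemL t).mp ht).1⟩
    have h2 : max (rkN A.v t.1 t.2) (rkN A.u t.1 t.2 - 1) - rkN A.v t.1 t.2 + 1 ≤ e1 := h1
    omega
  have he1pos : 1 ≤ e1 := by
    have h1 := he1.rho ⟨t1, ((hmemL t1).mp ht1).1⟩
    omega
  by_cases hbig : ∃ t2 ∈ T, rkN A.v t2.1 t2.2 + 2 ≤ rkN A.u t2.1 t2.2
  · -- case (b)
    right
    obtain ⟨t2, ht2, ht2b⟩ := hbig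
    have hs : ∀ t ∈ T, rkN A.v t.1 t.2 ≤ min (rkN A.u t.1 t.2) (rkN A.v t.1 t.2 + 1) ∧
        min (rkN A.u t.1 t.2) (rkN A.v t.1 t.2 + 1) ≤ rkN A.u t.1 t.2 := by
      intro t _
      have := hle t.1 t.2
      constructor <;> omega
    obtain ⟨e, hek, he⟩ := hLESS k A T
      (fun t => min (rkN A.u t.1 t.2) (rkN A.v t.1 t.2 + 1)) hmin hT hs
      ⟨t2, ht2, by
        show min (rkN A.u t2.1 t2.2) (rkN A.v t2.1 t2.2 + 1) < rkN A.u t2.1 t2.2
        omega⟩
      (fun t _ t' _ => by
        have h1 := hRv.lip t.1 t'.1 t.2 t'.2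
        have h2 := hRu.lip t.1 t'.1 t.2 t'.2
        show min (rkN A.u t'.1 t'.2) (rkN A.v t'.1 t'.2 + 1) - (t'.1 - t.1) - (t'.2 - t.2) ≤
          min (rkN A.u t.1 t.2) (rkN A.v t.1 t.2 + 1)
        omega)
    have hlt : ∀ t ∈ L, rkN A.v t.1 t.2 < min (rkN A.u t.1 t.2) (rkN A.v t.1 t.2 + 1) := by
      intro t ht
      have := ((hmemL t).mp ht).2
      omega
    have h2 := XBND.two_le he L (fun t ht => ⟨((hmemL t).mp ht).1, hlt t ht⟩)
    have hlog : L.card ≤ Nat.log 2 k :=
      Nat.le_log_of_pow_le (by norm_num) (h2.trans hek.le)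
    have hn := XBND.cover A.u T L (2 * k) hcov (fun t ht => by
      have h3 := hJCNT A.n A.u A.v T _ e A.le hT hs he t ((hmemL t).mp ht).1 (hlt t ht)
      have h4 := hrho t ht
      constructor <;> omega)
    calc A.n ≤ L.card * (2 * (2 * k)) := hn
      _ ≤ Nat.log 2 k * (2 * (2 * k)) := Nat.mul_le_mul_right _ hlog
      _ = 4 * k * Nat.log 2 k := by ring
  · -- case (c)
    push Not at hbig
    have hone : ∀ t ∈ T, rkN A.u t.1 t.2 ≤ rkN A.v t.1 t.2 + 1 := by
      intro t ht
      have := hbig t ht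
      omega
    by_cases hcard : L.card ≤ 1
    · left
      refine ⟨t1, ((hmemL t1).mp ht1).1, ?_, ?_⟩
      · have h1 := hone t1 ((hmemL t1).mp ht1).1
        have h2 := ((hmemL t1).mp ht1).2
        omega
      · intro t ht hne
        by_contra hcon
        have h1 := hle t.1 t.2
        have h2 : t ∈ L := (hmemL t).mpr ⟨ht, by omega⟩
        exact hne (Finset.card_le_one.mp hcard t h2 t1 ht1)
    · right
      have hcard2 : 1 < L.card := by omega
      -- the intervals with one condition relaxed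
      have key : ∀ t0 ∈ L, ∃ e, e < k ∧ 2 ^ (L.card - 1) ≤ e ∧
          ∀ t ∈ L, t ≠ t0 → (JA A.u T t).card ≤ k ∧ (JB A.u T t).card ≤ k := by
        intro t0 ht0
        have ht0' := (hmemL t0).mp ht0
        have hs : ∀ t ∈ T, rkN A.v t.1 t.2 ≤
            (if t = t0 then rkN A.v t0.1 t0.2 else rkN A.u t.1 t.2) ∧
            (if t = t0 then rkN A.v t0.1 t0.2 else rkN A.u t.1 t.2) ≤ rkN A.u t.1 t.2 := by
          intro t _
          have := hle t.1 t.2
          by_cases h : t = t0
          · subst h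
            rw [if_pos rfl]
            exact ⟨le_rfl, this⟩
          · rw [if_neg h]
            exact ⟨this, le_rfl⟩
        obtain ⟨e, hek, he⟩ := hLESS k A T
          (fun t => if t = t0 then rkN A.v t0.1 t0.2 else rkN A.u t.1 t.2) hmin hT hs
          ⟨t0, ht0'.1, by
            show (if t0 = t0 then rkN A.v t0.1 t0.2 else rkN A.u t0.1 t0.2) <
              rkN A.u t0.1 t0.2
            rw [if_pos rfl]
            exact ht0'.2⟩
          (fun t ht t' ht' => by
            show (if t' = t0 then rkN A.v t0.1 t0.2 else rkN A.u t'.1 t'.2) - (t'.1 - t.1) -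
              (t'.2 - t.2) ≤ (if t = t0 then rkN A.v t0.1 t0.2 else rkN A.u t.1 t.2)
            by_cases h' : t' = t0
            · subst h'
              rw [if_pos rfl]
              by_cases h : t = t'
              · subst h
                rw [if_pos rfl]
                omega
              · rw [if_neg h]
                have h1 := hRv.lip t.1 t'.1 t.2 t'.2
                have h2 := hle t.1 t.2
                omega
            · rw [if_neg h']
              by_cases h : t = t0
              · subst h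
                rw [if_pos rfl]
                have h3 := hone t' ht'
                rcases hT.chain t' ht' t ht with h4 | h4
                · have h5 := (hT.mono t' ht' t ht h' h4.1 h4.2).1
                  omega
                · have h5 := (hT.mono t ht t' ht' (Ne.symm h') h4.1 h4.2).2
                  omega
              · rw [if_neg h]
                have h1 := hRu.lip t.1 t'.1 t.2 t'.2
                omega)
        refine ⟨e, hek, ?_, ?_⟩
        · have h1 := XBND.two_le he (L.erase t0) (fun t ht => by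
            obtain ⟨h2, h3⟩ := Finset.mem_erase.mp ht
            have h4 := (hmemL t).mp h3
            refine ⟨h4.1, ?_⟩
            show rkN A.v t.1 t.2 < (if t = t0 then rkN A.v t0.1 t0.2 else rkN A.u t.1 t.2)
            rw [if_neg h2]
            exact h4.2)
          rw [Finset.card_erase_of_mem ht0] at h1
          exact h1
        · intro t ht hne
          have h4 := (hmemL t).mp ht
          have h3 := hJCNT A.n A.u A.v T _ e A.le hT hs he t h4.1 (by
            show rkN A.v t.1 t.2 < (if t = t0 then rkN A.v t0.1 t0.2 else rkN A.u t.1 t.2)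
            rw [if_neg hne]
            exact h4.2)
          have h5 := hone t h4.1
          constructor <;> omega
      have hall : ∀ t ∈ L, (JA A.u T t).card ≤ k ∧ (JB A.u T t).card ≤ k := by
        intro t ht
        obtain ⟨t0, ht0, hne⟩ := Finset.exists_mem_ne hcard2 t
        obtain ⟨_, _, _, h⟩ := key t0 ht0
        exact h t ht (Ne.symm hne)
      obtain ⟨e, hek, he2, _⟩ := key t1 ht1
      have hlog : L.card - 1 ≤ Nat.log 2 k :=
        Nat.le_log_of_pow_le (by norm_num) (he2.trans hek.le)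
      have hn := XBND.cover A.u T L k hcov hall
      have hL2 : L.card ≤ 2 * Nat.log 2 k := by omega
      calc A.n ≤ L.card * (2 * k) := hn
        _ ≤ (2 * Nat.log 2 k) * (2 * k) := Nat.mul_le_mul_right _ hL2
        _ = 4 * k * Nat.log 2 k := by ring

end Pool.Agent.COV
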