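import Pool.Agent.Work.MP_1c6e58_ag.COV.Stmts

/-!
MP_1c6e58_ag, project COV: item CHART (Schubert varieties in the chart and ladders).
-/

set_option autoImplicit false

open Finset

namespace Pool.Agent.COV

open Pool.Agent.SH

theorem I_CHART (hRKB : St_RKB) (hSVT : St_SVT) (hUNITRI : St_UNITRI) (hCVP : St_CVP)
    (hKERP : St_KERP) (hKERN : St_KERN) (hRANKF : St_RANKF) (hLADC : St_LADC) : St_CHART := by
  intro n u v T hT hbr d e hMQ
  have hle : ∀ a b, rkN v a b ≤ rkN u a b := ((hRKB n).2.1 u v).1 hbr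
  have hchain : ∀ s ∈ T, ∀ t ∈ T, tle s t ∨ tle t s := hT.chain
  have hbd : ∀ t ∈ T, t.1 ≤ n ∧ t.2 ≤ n := fun t ht =>
    ⟨(hT.bd t ht).2.1.le, (hT.bd t ht).2.2.2.le⟩
  obtain ⟨d', hd'⟩ := hLADC n u T (fun t => rkN u t.1 t.2 - rkN v t.1 t.2) hchain hbd d e hMQ
  obtain ⟨hev, hcc, hsup⟩ := hCVP n u T
  set g : Co n → MvPolynomial (Co n) ℂ := fun c =>
    NM u T (UmP n) c.1.1 c.1.2 - MvPolynomial.X c with hg
  have hval : ∀ (z : Co n → ℂ) (c : Co n), z c + MvPolynomial.eval z (g c) =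
      NM u T (Um z) c.1.1 c.1.2 := by
    intro z c
    rw [hg]
    simp only [map_sub, MvPolynomial.eval_X, hev z c.1.1 c.1.2]
    ring
  have hset : {z : Co n → ℂ | (fun c => z c + MvPolynomial.eval z (g c)) ∈
      Z1 u T (fun t => rkN u t.1 t.2 - rkN v t.1 t.2)} = SV u v := by
    ext z
    simp only [hval]
    rw [hSVT n u v T hT z]
    show (∀ t ∈ T, ∃ f g : Fin (rkN u t.1 t.2 - rkN v t.1 t.2) → Fin n → ℂ, ∀ c : Co n,
      tA u t c.1.1 → tB u t c.1.2 →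
      NM u T (Um z) c.1.1 c.1.2 = ∑ l, f l c.1.1 * g l c.1.2) ↔ _
    refine forall₂_congr fun t ht => ?_
    rw [hKERP n u z t, hKERN n u T hchain z t ht, hRANKF n u t _ _ (hle t.1 t.2)]
    refine exists_congr fun f => exists_congr fun g => ⟨fun h i j hi hj => ?_, fun h c hi hj =>
      h c.1.1 c.1.2 hi hj⟩
    exact h ⟨(i, j), Fin.lt_def.2 (lt_of_lt_of_le hj.1 hi.1)⟩ hi hj
  have hHS := hUNITRI (Co n) ht g hcc hsup (Z1 u T (fun t => rkN u t.1 t.2 - rkN v t.1 t.2))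
  rw [hset] at hHS
  refine ⟨d', ?_⟩
  unfold MQ at hd' ⊢
  rw [hHS]
  exact hd'

end Pool.Agent.COV

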