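import Pool.Agent.Work.MP_1c6e58_ag.COV.Stmts

/-!
MP_1c6e58_ag, project COV, item RKB: basic facts on rank functions.
-/

set_option autoImplicit false

open Finset

namespace Pool.Agent.COV

open Pool.Agent.SH

namespace XRKB

variable {n : ℕ}

theorem rkN_sum (w : Equiv.Perm (Fin n)) (a b : ℕ) :
    rkN w a b = ∑ j : Fin n, if (j : ℕ) < a ∧ (w j : ℕ) < b then 1 else 0 := by
  unfold rkN
  rw [Finset.card_filter]

theorem cnt (n a : ℕ) (ha : a ≤ n) : (∑ j : Fin n, if (j : ℕ) < a then 1 else 0) = a := by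
  rw [Fin.sum_univ_eq_sum_range (fun j => if j < a then 1 else 0) n, ← Finset.card_filter]
  have h : (Finset.range n).filter (fun j => j < a) = Finset.range a := by
    ext j
    simp only [Finset.mem_filter, Finset.mem_range]
    omega
  rw [h, Finset.card_range]

theorem cnt' (w : Equiv.Perm (Fin n)) (b : ℕ) (hb : b ≤ n) :
    (∑ j : Fin n, if (w j : ℕ) < b then 1 else 0) = b := by
  rw [Equiv.sum_comp w (fun x : Fin n => if (x : ℕ) < b then 1 else 0)]
  exact cnt n b hb

theorem zl (w : Equiv.Perm (Fin n)) (b : ℕ) : rkN w 0 b = 0 := by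
  simp [rkN]

theorem zr (w : Equiv.Perm (Fin n)) (a : ℕ) : rkN w a 0 = 0 := by
  simp [rkN]

theorem nl (w : Equiv.Perm (Fin n)) (b : ℕ) (hb : b ≤ n) : rkN w n b = b := by
  rw [rkN_sum]
  conv_rhs => rw [← cnt' w b hb]
  refine Finset.sum_congr rfl fun j _ => ?_
  have := j.isLt
  by_cases h : (w j : ℕ) < b
  · rw [if_pos ⟨this, h⟩, if_pos h]
  · rw [if_neg (fun h' => h h'.2), if_neg h]

theorem nr (w : Equiv.Perm (Fin n)) (a : ℕ) (ha : a ≤ n) : rkN w a n = a := by
  rw [rkN_sum]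
  conv_rhs => rw [← cnt n a ha]
  refine Finset.sum_congr rfl fun j _ => ?_
  have := (w j).isLt
  by_cases h : (j : ℕ) < a
  · rw [if_pos ⟨h, this⟩, if_pos h]
  · rw [if_neg (fun h' => h h'.1), if_neg h]

theorem mono (w : Equiv.Perm (Fin n)) (a a' b b' : ℕ) (h1 : a ≤ a') (h2 : b ≤ b') :
    rkN w a b ≤ rkN w a' b' := by
  unfold rkN
  apply Finset.card_le_card
  intro j hj
  rw [Finset.mem_filter] at hj ⊢
  exact ⟨hj.1, lt_of_lt_of_le hj.2.1 h1, lt_of_lt_of_le hj.2.2 h2⟩

theorem lip (w : Equiv.Perm (Fin n)) (a a' b b' : ℕ) :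
    rkN w a' b' ≤ rkN w a b + (a' - a) + (b' - b) := by
  unfold rkN
  have h1 : (univ.filter (fun j : Fin n => (j : ℕ) < a' ∧ (w j : ℕ) < b')) ⊆
      (univ.filter (fun j : Fin n => (j : ℕ) < a ∧ (w j : ℕ) < b)) ∪
      (univ.filter (fun j : Fin n => a ≤ (j : ℕ) ∧ (j : ℕ) < a')) ∪
      (univ.filter (fun j : Fin n => b ≤ (w j : ℕ) ∧ (w j : ℕ) < b')) := by
    intro j hj
    simp only [Finset.mem_filter, Finset.mem_univ, true_and, Finset.mem_union] at hj ⊢
    omega
  have h2 : (univ.filter (fun j : Fin n => a ≤ (j : ℕ) ∧ (j : ℕ) < a')).card ≤ a' - a := by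
    rw [← Nat.card_Ico a a']
    apply Finset.card_le_card_of_injOn (fun j : Fin n => (j : ℕ))
    · intro j hj
      have hj' := (Finset.mem_filter.mp hj).2
      exact Finset.mem_coe.mpr (Finset.mem_Ico.mpr hj')
    · intro i _ j _ h
      exact Fin.ext h
  have h3 : (univ.filter (fun j : Fin n => b ≤ (w j : ℕ) ∧ (w j : ℕ) < b')).card ≤ b' - b := by
    rw [← Nat.card_Ico b b']
    apply Finset.card_le_card_of_injOn (fun j : Fin n => (w j : ℕ))
    · intro j hj
      have hj' := (Finset.mem_filter.mp hj).2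
      exact Finset.mem_coe.mpr (Finset.mem_Ico.mpr hj')
    · intro i _ j _ h
      exact w.injective (Fin.ext h)
  have h4 := Finset.card_le_card h1
  have h5 := Finset.card_union_le
    ((univ.filter (fun j : Fin n => (j : ℕ) < a ∧ (w j : ℕ) < b)) ∪
      (univ.filter (fun j : Fin n => a ≤ (j : ℕ) ∧ (j : ℕ) < a')))
    (univ.filter (fun j : Fin n => b ≤ (w j : ℕ) ∧ (w j : ℕ) < b'))
  have h6 := Finset.card_union_le (univ.filter (fun j : Fin n => (j : ℕ) < a ∧ (w j : ℕ) < b))
    (univ.filter (fun j : Fin n => a ≤ (j : ℕ) ∧ (j : ℕ) < a'))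
  omega

theorem stepa (w : Equiv.Perm (Fin n)) (i : Fin n) (b : ℕ) :
    rkN w ((i : ℕ) + 1) b = rkN w i b + (if (w i : ℕ) < b then 1 else 0) := by
  rw [rkN_sum, rkN_sum]
  have h : (if (w i : ℕ) < b then 1 else 0) =
      ∑ j : Fin n, if j = i then (if (w j : ℕ) < b then 1 else 0) else 0 := by
    rw [Finset.sum_ite_eq' univ i]
    simp
  rw [h, ← Finset.sum_add_distrib]
  refine Finset.sum_congr rfl fun j _ => ?_
  have hji : j = i ↔ (j : ℕ) = (i : ℕ) := Fin.ext_iff
  by_cases h1 : (w j : ℕ) < b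
  · by_cases h2 : (j : ℕ) < (i : ℕ)
    · rw [if_pos ⟨by omega, h1⟩, if_pos ⟨h2, h1⟩, if_neg (by rw [hji]; omega)]
    · by_cases h3 : (j : ℕ) = (i : ℕ)
      · rw [if_pos ⟨by omega, h1⟩, if_neg (fun h => h2 h.1), if_pos (hji.mpr h3), if_pos h1]
      · rw [if_neg (fun h => by omega), if_neg (fun h => h2 h.1),
          if_neg (fun h => h3 (hji.mp h))]
  · rw [if_neg (fun h => h1 h.2), if_neg (fun h => h1 h.2), if_neg h1]
    simp

theorem stepb (w : Equiv.Perm (Fin n)) (x : Fin n) (a : ℕ) :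
    rkN w a ((x : ℕ) + 1) = rkN w a x + (if (w.symm x : ℕ) < a then 1 else 0) := by
  rw [rkN_sum, rkN_sum]
  have h : (if (w.symm x : ℕ) < a then 1 else 0) =
      ∑ j : Fin n, if j = w.symm x then (if (j : ℕ) < a then 1 else 0) else 0 := by
    rw [Finset.sum_ite_eq' univ (w.symm x)]
    simp
  rw [h, ← Finset.sum_add_distrib]
  refine Finset.sum_congr rfl fun j _ => ?_
  have hji : j = w.symm x ↔ (w j : ℕ) = (x : ℕ) := by
    rw [Equiv.eq_symm_apply, Fin.ext_iff]
  by_cases h1 : (j : ℕ) < a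
  · by_cases h2 : (w j : ℕ) < (x : ℕ)
    · rw [if_pos ⟨h1, by omega⟩, if_pos ⟨h1, h2⟩, if_neg (by rw [hji]; omega)]
    · by_cases h3 : (w j : ℕ) = (x : ℕ)
      · rw [if_pos ⟨h1, by omega⟩, if_neg (fun h => h2 h.2), if_pos (hji.mpr h3), if_pos h1]
      · rw [if_neg (fun h => by omega), if_neg (fun h => h2 h.2),
          if_neg (fun h => h3 (hji.mp h))]
  · rw [if_neg (fun h => h1 h.1), if_neg (fun h => h1 h.1), if_neg h1]
    simp

theorem cntA (w : Equiv.Perm (Fin n)) (a b : ℕ) (ha : a ≤ n) (hb : b ≤ n) :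
    (univ.filter (fun j : Fin n => a ≤ (j : ℕ) ∧ b ≤ (w j : ℕ))).card + a + b =
      n + rkN w a b := by
  rw [rkN_sum, Finset.card_filter]
  have h2 : (∑ j : Fin n, if a ≤ (j : ℕ) ∧ b ≤ (w j : ℕ) then 1 else 0) +
      (∑ j : Fin n, if (j : ℕ) < a then 1 else 0) + (∑ j : Fin n, if (w j : ℕ) < b then 1 else 0) =
      ∑ j : Fin n, (1 + if (j : ℕ) < a ∧ (w j : ℕ) < b then 1 else 0) := by
    rw [← Finset.sum_add_distrib, ← Finset.sum_add_distrib]
    refine Finset.sum_congr rfl fun j _ => ?_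
    by_cases h3 : (j : ℕ) < a
    · by_cases h4 : (w j : ℕ) < b
      · rw [if_neg (by omega), if_pos h3, if_pos h4, if_pos ⟨h3, h4⟩]
      · rw [if_neg (by omega), if_pos h3, if_neg h4, if_neg (by omega)]
    · by_cases h4 : (w j : ℕ) < b
      · rw [if_neg (by omega), if_neg h3, if_pos h4, if_neg (by omega)]
      · rw [if_pos ⟨by omega, by omega⟩, if_neg h3, if_neg h4, if_neg (by omega)]
  rw [cnt n a ha, cnt' w b hb, Finset.sum_add_distrib, Finset.sum_const, Finset.card_univ,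
    Fintype.card_fin, smul_eq_mul, mul_one] at h2
  exact h2

theorem lea (w : Equiv.Perm (Fin n)) (a b : ℕ) : rkN w a b ≤ a := by
  have := lip w 0 a b b
  rw [zl] at this
  omega

theorem leb (w : Equiv.Perm (Fin n)) (a b : ℕ) : rkN w a b ≤ b := by
  have := lip w a a 0 b
  rw [zr] at this
  omega

theorem low (w : Equiv.Perm (Fin n)) (a b : ℕ) (ha : a ≤ n) (hb : b ≤ n) :
    a + b ≤ n + rkN w a b := by
  have h1 := lip w a n b b
  rw [nl w b hb] at h1
  omega

theorem mix (w : Equiv.Perm (Fin n)) (i x : Fin n) : w i = x ↔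
    rkN w ((i : ℕ) + 1) ((x : ℕ) + 1) + rkN w i x =
      rkN w ((i : ℕ) + 1) x + rkN w i ((x : ℕ) + 1) + 1 := by
  rw [stepa w i ((x : ℕ) + 1), stepa w i x, Fin.ext_iff]
  split_ifs <;> omega

theorem rkf (w : Equiv.Perm (Fin n)) : RkF w where
  zl := zl w
  zr := zr w
  nl := nl w
  nr := nr w
  lea := lea w
  leb := leb w
  mono := mono w
  lip := lip w
  low := low w
  stepa := stepa w
  stepb := stepb w
  cntA := cntA w
  mix := mix w
  rk := by
    intro p q
    unfold SH.rk rkN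
    congr 1
    ext j
    simp only [Finset.mem_filter, Finset.mem_univ, true_and, Fin.le_def, Nat.lt_succ_iff]

theorem cut (w : Equiv.Perm (Fin n)) (a b : ℕ) : rkN w a b = rkN w (min a n) (min b n) := by
  unfold rkN
  congr 1
  ext j
  have h1 := j.isLt
  have h2 := (w j).isLt
  simp only [Finset.mem_filter, Finset.mem_univ, true_and]
  omega

end XRKB

open XRKB in
theorem I_RKB : St_RKB := by
  intro n
  refine ⟨rkf, ?_, ?_⟩
  · intro x w
    constructor
    · intro h a b
      rw [cut w a b, cut x a b]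
      rcases Nat.eq_zero_or_pos (min a n) with h1 | h1
      · rw [h1, zl, zl]
      · rcases Nat.eq_zero_or_pos (min b n) with h2 | h2
        · rw [h2, zr, zr]
        · have h3 := h ⟨min a n - 1, by omega⟩ ⟨min b n - 1, by omega⟩
          rw [(rkf w).rk, (rkf x).rk] at h3
          simp only at h3
          have h4 : min a n - 1 + 1 = min a n := by omega
          have h5 : min b n - 1 + 1 = min b n := by omega
          rw [h4, h5] at h3
          exact h3
    · intro h p q
      rw [(rkf w).rk, (rkf x).rk]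
      exact h _ _
  · intro x w h
    refine Equiv.ext fun i => ?_
    rw [(rkf x).mix i (w i)]
    have h1 := ((rkf w).mix i (w i)).mp rfl
    have hi := i.isLt
    have hw := (w i).isLt
    rw [h _ _ (by omega) (by omega), h _ _ (by omega) (by omega), h _ _ (by omega) (by omega),
      h _ _ (by omega) (by omega)]
    exact h1

end Pool.Agent.COV
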