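import Pool.Agent.Work.MP_1c6e58_ag.COV.Stmts
import Pool.Agent.Work.MP_1c6e58_ag.COV.P_RKB

/-!
MP_1c6e58_ag, project COV, item COVJ: every position of a minimal interval is covered.
-/

set_option autoImplicit false

open Finset

namespace Pool.Agent.COV

open Pool.Agent.SH

theorem I_COVJ (hNOREM : St_NOREM) (hMINU : St_MINU) (hREMPOS : St_REMPOS) : St_COVJ := by
  classical
  intro k A T hA hT j
  by_contra hcon
  push Not at hcon
  have hrk : ∀ a b, rkN A.v a b ≤ rkN A.u a b := ((I_RKB A.n).2.1 A.u A.v).1 A.le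
  obtain ⟨h1, h2⟩ := hREMPOS A.n A.u A.v T A.le hT (hMINU k A T hA hT) j
    (by
      intro t ht hAt hpos
      obtain ⟨t', ht'S, hmax⟩ := Finset.exists_max_image (T.filter (fun t' => tA A.u t' j))
        (fun t => t.1 + t.2) ⟨t, Finset.mem_filter.2 ⟨ht, hAt⟩⟩
      rw [Finset.mem_filter] at ht'S
      have hle : ∀ t'' ∈ T, tA A.u t'' j → tle t'' t' := by
        intro t'' ht'' hA''
        rcases hT.chain t'' ht'' t' ht'S.1 with h | h
        · exact h
        · have h3 := hmax t'' (Finset.mem_filter.2 ⟨ht'', hA''⟩)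
          exact ⟨by omega, by omega⟩
      have hmem : j ∈ JA A.u T t' := by
        unfold JA
        rw [Finset.mem_filter]
        exact ⟨Finset.mem_univ _, ht'S.2, hle⟩
      refine ⟨t', ht'S.1, hle t ht hAt, ht'S.2, ?_⟩
      by_contra hne
      exact (hcon t' ht'S.1 (lt_of_le_of_ne (hrk _ _) (Ne.symm hne))).1 hmem)
    (by
      intro t ht hBt hpos
      obtain ⟨t', ht'S, hmin⟩ := Finset.exists_min_image (T.filter (fun t' => tB A.u t' j))
        (fun t => t.1 + t.2) ⟨t, Finset.mem_filter.2 ⟨ht, hBt⟩⟩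
      rw [Finset.mem_filter] at ht'S
      have hle : ∀ t'' ∈ T, tB A.u t'' j → tle t' t'' := by
        intro t'' ht'' hB''
        rcases hT.chain t' ht'S.1 t'' ht'' with h | h
        · exact h
        · have h3 := hmin t'' (Finset.mem_filter.2 ⟨ht'', hB''⟩)
          exact ⟨by omega, by omega⟩
      have hmem : j ∈ JB A.u T t' := by
        unfold JB
        rw [Finset.mem_filter]
        exact ⟨Finset.mem_univ _, ht'S.2, hle⟩
      refine ⟨t', ht'S.1, hle t ht hBt, ht'S.2, ?_⟩
      by_contra hne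
      exact (hcon t' ht'S.1 (lt_of_le_of_ne (hrk _ _) (Ne.symm hne))).2 hmem)
  exact hNOREM k A hA j h1 h2

end Pool.Agent.COV
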