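import Pool.Agent.Work.MP_1c6e58_ag.COV.Stmts

/-!
MP_1c6e58_ag, project COV, item CV: the vectors `cv`.
-/

set_option autoImplicit false

open Finset

namespace Pool.Agent.COV

open Pool.Agent.SH

namespace XCV

variable {n : ℕ} {R : Type} [CommRing R]

lemma cv_eq (U : Fin n → Fin n → R) (S : Finset (Fin n)) (j h : Fin n) :
    cv U S j h = if h = j then 1 else if h ∈ S ∧ j < h then
      - ∑ k : {k : Fin n // k < h}, U h k.1 * cv U S j k.1 else 0 := by
  rw [cv]

lemma cv_self (U : Fin n → Fin n → R) (S : Finset (Fin n)) (j : Fin n) :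
    cv U S j j = 1 := by
  rw [cv_eq, if_pos rfl]

lemma cv_notMem (U : Fin n → Fin n → R) (S : Finset (Fin n)) (j k : Fin n) (h : k ≠ j)
    (h' : k ∉ S) : cv U S j k = 0 := by
  rw [cv_eq, if_neg h, if_neg (fun q => h' q.1)]

lemma cv_lt (U : Fin n → Fin n → R) (S : Finset (Fin n)) (j k : Fin n) (h : k < j) :
    cv U S j k = 0 := by
  rw [cv_eq, if_neg h.ne, if_neg (fun q => lt_asymm h q.2)]

/-- Row `h` of a lower unitriangular matrix. -/
lemma row (U : Fin n → Fin n → R) (hU : LowUni U) (c : Fin n → R) (h : Fin n) :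
    ∑ k, U h k * c k = ∑ k : {k : Fin n // k < h}, U h k.1 * c k.1 + c h := by
  classical
  rw [← Finset.sum_filter_add_sum_filter_not univ (fun k => k < h)]
  congr 1
  · exact (Finset.sum_subtype (univ.filter (fun k => k < h)) (by simp)
      (fun k => U h k * c k))
  · rw [Finset.sum_eq_single h]
    · rw [hU.1 h, one_mul]
    · intro k hk hkh
      simp only [Finset.mem_filter, Finset.mem_univ, true_and, not_lt] at hk
      rw [hU.2 h k (lt_of_le_of_ne hk (Ne.symm hkh)), zero_mul]
    · intro q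
      simp at q

lemma cv_row (U : Fin n → Fin n → R) (S : Finset (Fin n)) (j : Fin n) (hU : LowUni U)
    (h : Fin n) (hS : h ∈ S) (hj : h ≠ j) : ∑ k, U h k * cv U S j k = 0 := by
  rw [row U hU]
  rcases lt_or_gt_of_ne hj with hlt | hgt
  · rw [cv_lt U S j h hlt, add_zero]
    refine Finset.sum_eq_zero (fun k _ => ?_)
    rw [cv_lt U S j k.1 (k.2.trans hlt), mul_zero]
  · rw [cv_eq U S j h, if_neg hj, if_pos ⟨hS, hgt⟩, add_neg_cancel]

lemma uniq (U : Fin n → Fin n → R) (S : Finset (Fin n)) (j : Fin n) (hU : LowUni U)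
    (c : Fin n → R) (h1 : c j = 1) (h2 : ∀ k, k ≠ j → k ∉ S → c k = 0)
    (h3 : ∀ h ∈ S, h ≠ j → ∑ k, U h k * c k = 0) (h : Fin n) : c h = cv U S j h := by
  induction h using WellFoundedLT.induction with
  | ind h ih =>
    by_cases hj : h = j
    · rw [hj, h1, cv_self]
    · by_cases hS : h ∈ S
      · have e1 := h3 h hS hj
        have e2 := cv_row U S j hU h hS hj
        rw [row U hU] at e1 e2
        have e3 : ∑ k : {k : Fin n // k < h}, U h k.1 * c k.1 =
            ∑ k : {k : Fin n // k < h}, U h k.1 * cv U S j k.1 :=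
          Finset.sum_congr rfl (fun k _ => by rw [ih k.1 k.2])
        rw [e3] at e1
        exact add_left_cancel (e1.trans e2.symm)
      · rw [h2 h hj hS, cv_notMem U S j h hj hS]

end XCV

theorem I_CV : St_CV := by
  intro n R _ U S j hU
  refine ⟨XCV.cv_self U S j, XCV.cv_notMem U S j, XCV.cv_lt U S j,
    XCV.cv_row U S j hU, ?_⟩
  intro c h1 h2 h3
  funext h
  exact XCV.uniq U S j hU c h1 h2 h3 h

end Pool.Agent.COV
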