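import Pool.Agent.Work.MP_1c6e58_ag.COV.Stmts

/-!
MP_1c6e58_ag, project COV, item CVP: the entries of `N` are polynomials, unitriangular with
respect to the height.
-/

set_option autoImplicit false

open Finset

namespace Pool.Agent.COV

open Pool.Agent.SH

namespace XCVP

variable {n : ℕ}

theorem cv_def {R : Type} [CommRing R] (U : Fin n → Fin n → R) (S : Finset (Fin n)) (j h : Fin n) :
    cv U S j h = if h = j then 1 else if h ∈ S ∧ j < h then
      - ∑ k : {k : Fin n // k < h}, U h k.1 * cv U S j k.1 else 0 := by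
  rw [cv]

theorem cv_self {R : Type} [CommRing R] (U : Fin n → Fin n → R) (S : Finset (Fin n)) (j : Fin n) :
    cv U S j j = 1 := by
  rw [cv_def, if_pos rfl]

theorem cv_lt {R : Type} [CommRing R] (U : Fin n → Fin n → R) (S : Finset (Fin n)) {j h : Fin n}
    (hh : h < j) : cv U S j h = 0 := by
  rw [cv_def, if_neg hh.ne, if_neg (fun h' => (lt_asymm hh h'.2))]

theorem cv_notMem {R : Type} [CommRing R] (U : Fin n → Fin n → R) (S : Finset (Fin n))
    {j h : Fin n} (hj : h ≠ j) (hh : h ∉ S) : cv U S j h = 0 := by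
  rw [cv_def, if_neg hj, if_neg (fun h' => hh h'.1)]

theorem cv_map {R R' : Type} [CommRing R] [CommRing R'] (f : R →+* R') (U : Fin n → Fin n → R)
    (S : Finset (Fin n)) (j : Fin n) : ∀ (m : ℕ) (h : Fin n), (h : ℕ) = m →
    f (cv U S j h) = cv (fun a b => f (U a b)) S j h := by
  intro m
  induction m using Nat.strong_induction_on with
  | _ m ih =>
    intro h hm
    rw [cv_def, cv_def (fun a b => f (U a b))]
    split_ifs with h1 h2
    · exact map_one f
    · rw [map_neg, map_sum]
      congr 1
      refine Finset.sum_congr rfl fun k _ => ?_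
      rw [map_mul, ih (k.1 : ℕ) (hm ▸ k.2) k.1 rfl]
    · exact map_zero f

theorem NM_map {R R' : Type} [CommRing R] [CommRing R'] (f : R →+* R') (u : Equiv.Perm (Fin n))
    (T : Finset (ℕ × ℕ)) (U : Fin n → Fin n → R) (i j : Fin n) :
    f (NM u T U i j) = NM u T (fun a b => f (U a b)) i j := by
  unfold NM
  rw [map_sum]
  refine Finset.sum_congr rfl fun k _ => ?_
  rw [map_mul, cv_map f U _ j _ k rfl]

theorem eval_UmP (z : Co n → ℂ) (i j : Fin n) : MvPolynomial.eval z (UmP n i j) = Um z i j := by
  unfold UmP Um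
  split_ifs with h1 h2
  · simp
  · simp
  · simp

/-- The heights and constant coefficients of `cv`. -/
theorem cv_sup (S : Finset (Fin n)) (j : Fin n) : ∀ (m : ℕ) (h : Fin n), (h : ℕ) = m →
    cv (UmP n) S j h ∈ MvPolynomial.supported ℂ {c' : Co n | ht c' ≤ (h : ℕ) - (j : ℕ)} ∧
    (h ≠ j → MvPolynomial.constantCoeff (cv (UmP n) S j h) = 0) := by
  intro m
  induction m using Nat.strong_induction_on with
  | _ m ih =>
    intro h hm
    rw [cv_def]
    split_ifs with h1 h2
    · exact ⟨one_mem _, fun h' => absurd h1 h'⟩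
    · have hjh : (j : ℕ) < (h : ℕ) := h2.2
      refine ⟨neg_mem (sum_mem fun k _ => ?_), fun _ => ?_⟩
      · have hk : k.1 < h := k.2
        have hk' : (k.1 : ℕ) < (h : ℕ) := k.2
        rcases lt_or_ge k.1 j with hkj | hkj
        · rw [cv_lt _ _ hkj, mul_zero]
          exact zero_mem _
        · have hkj' : (j : ℕ) ≤ (k.1 : ℕ) := hkj
          refine mul_mem ?_ ?_
          · have : UmP n h k.1 = MvPolynomial.X ⟨(h, k.1), hk⟩ := by
              unfold UmP
              rw [dif_pos hk]
            rw [this, MvPolynomial.X_mem_supported]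
            simp only [ht, Set.mem_ofPred_eq]
            omega
          · refine MvPolynomial.supported_mono ?_ (ih (k.1 : ℕ) (hm ▸ k.2) k.1 rfl).1
            intro c' hc'
            simp only [Set.mem_ofPred_eq] at hc' ⊢
            omega
      · rw [map_neg, map_sum, neg_eq_zero]
        refine Finset.sum_eq_zero fun k _ => ?_
        have hk : k.1 < h := k.2
        have : UmP n h k.1 = MvPolynomial.X ⟨(h, k.1), hk⟩ := by
          unfold UmP
          rw [dif_pos hk]
        rw [map_mul, this, MvPolynomial.constantCoeff_X, zero_mul]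
    · exact ⟨zero_mem _, fun _ => map_zero _⟩

theorem notMem_SS (u : Equiv.Perm (Fin n)) (T : Finset (ℕ × ℕ)) (i j : Fin n) :
    i ∉ SS u T i j := by
  classical
  unfold SS
  rw [Finset.mem_filter]
  rintro ⟨-, t, -, h1, -, h3⟩
  have := h1.1
  have := h3.1
  omega

/-- The difference `N - X` as a sum. -/
theorem NM_sub (u : Equiv.Perm (Fin n)) (T : Finset (ℕ × ℕ)) (c : Co n) :
    NM u T (UmP n) c.1.1 c.1.2 - MvPolynomial.X c =
      ∑ k ∈ univ.erase c.1.2, UmP n c.1.1 k * cv (UmP n) (SS u T c.1.1 c.1.2) c.1.2 k := by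
  unfold NM
  rw [← Finset.add_sum_erase univ _ (Finset.mem_univ c.1.2), cv_self, mul_one]
  have : UmP n c.1.1 c.1.2 = MvPolynomial.X c := by
    unfold UmP
    rw [dif_pos c.2]
  rw [this, add_sub_cancel_left]

end XCVP

open XCVP in
theorem I_CVP : St_CVP := by
  intro n u T
  refine ⟨fun z i j => ?_, fun c => ?_, fun c => ?_⟩
  · rw [NM_map]
    congr 1
    funext a b
    exact eval_UmP z a b
  · rw [NM_sub, map_sum]
    refine Finset.sum_eq_zero fun k hk => ?_
    rw [map_mul, (cv_sup _ _ _ k rfl).2 (Finset.ne_of_mem_erase hk), mul_zero]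
  · rw [NM_sub]
    refine sum_mem fun k hk => ?_
    have hkj : k ≠ c.1.2 := Finset.ne_of_mem_erase hk
    have hc : (c.1.2 : ℕ) < (c.1.1 : ℕ) := c.2
    rcases lt_or_gt_of_ne hkj with h1 | h1
    · rw [cv_lt _ _ h1, mul_zero]
      exact zero_mem _
    · have h1' : (c.1.2 : ℕ) < (k : ℕ) := h1
      rcases lt_trichotomy k c.1.1 with h2 | h2 | h2
      · have h2' : (k : ℕ) < (c.1.1 : ℕ) := h2
        refine mul_mem ?_ ?_
        · have : UmP n c.1.1 k = MvPolynomial.X ⟨(c.1.1, k), h2⟩ := by
            unfold UmP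
            rw [dif_pos h2]
          rw [this, MvPolynomial.X_mem_supported]
          simp only [ht, Set.mem_ofPred_eq]
          omega
        · refine MvPolynomial.supported_mono ?_ (cv_sup _ _ _ k rfl).1
          intro c' hc'
          have h3 : ht c = (c.1.1 : ℕ) - (c.1.2 : ℕ) := rfl
          simp only [Set.mem_ofPred_eq] at hc' ⊢
          omega
      · rw [cv_notMem _ _ hkj (h2 ▸ notMem_SS u T c.1.1 c.1.2), mul_zero]
        exact zero_mem _
      · have : UmP n c.1.1 k = 0 := by
          unfold UmP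
          rw [dif_neg (lt_asymm h2), if_neg h2.ne]
        rw [this, zero_mul]
        exact zero_mem _

end Pool.Agent.COV
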