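import Pool.Agent.Work.MP_1c6e58_ag.COV.Stmts

/-!
MP_1c6e58_ag, project COV: Schubert varieties after the deletion of a position.
-/

set_option autoImplicit false

open Finset

namespace Pool.Agent.COV

open Pool.Agent.SH

namespace XDELSV

/-- The index map of the deletion of `x` is onto. -/
lemma onto (m x a : ℕ) (ha : a ≤ m) (_hx : x ≤ m) :
    ∃ a', a' ≤ m + 1 ∧ (if x < a' then a' - 1 else a') = a := by
  by_cases h : a ≤ x
  · exact ⟨a, by omega, by rw [if_neg (by omega)]⟩
  · exact ⟨a + 1, by omega, by rw [if_pos (by omega)]; omega⟩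

/-- The index map of the deletion of `x` maps `0..m+1` to `0..m`. -/
lemma into (m x a : ℕ) (ha : a ≤ m + 1) (hx : x ≤ m) :
    (if x < a then a - 1 else a) ≤ m := by
  split_ifs <;> omega

end XDELSV

theorem I_DELSV (_hRKB : St_RKB) (hKNB : St_KNB) (hRKD : St_RKD) (hKND : St_KND) : St_DELSV := by
  intro m u v i u' v' huv hu' hv' z hz
  have h1 := (hKNB (m + 1) u z).2.2.2.2 v
  have h2 := (hKNB m u' (resC (Fin.succAboveOrderEmb i) z)).2.2.2.2 v'
  have hR := hRKD m v i v' hv'
  have hK := hKND m u i u' hu' z hz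
  rw [h1, h2]
  have hi : (i : ℕ) ≤ m := by have := i.2; omega
  have hui : (u i : ℕ) ≤ m := by have := (u i).2; omega
  constructor
  · intro h a b ha hb
    obtain ⟨a', ha', ea⟩ := XDELSV.onto m i a ha hi
    obtain ⟨b', hb', eb⟩ := XDELSV.onto m (u i) b hb hui
    have h3 := h a' b' ha' hb'
    rw [hR a' b' ha' hb', hK a' b' ha' hb', ← huv, ea, eb] at h3
    exact Nat.le_of_add_le_add_right h3
  · intro h a b ha hb
    rw [hR a b ha hb, hK a b ha hb, ← huv]
    exact Nat.add_le_add_right (h _ _ (XDELSV.into m i a ha hi) (XDELSV.into m (u i) b hb hui)) _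

end Pool.Agent.COV
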