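import Pool.Agent.Work.MP_1c6e58_ag.COV.Stmts

/-!
MP_1c6e58_ag, project COV: the essential set of a 3412-avoiding permutation.
-/

set_option autoImplicit false

open Finset

namespace Pool.Agent.COV

open Pool.Agent.SH

namespace XESS

variable {n : ℕ}

/-- `(p, q)` is a corner of the rank function of `v`. -/
structure EP (v : Equiv.Perm (Fin n)) (p q : ℕ) : Prop where
  hi : ∃ i : Fin n, (i : ℕ) + 1 = p ∧ (v i : ℕ) < q
  hj : ∃ j : Fin n, (j : ℕ) = p ∧ q ≤ (v j : ℕ)
  hk : ∃ k : Fin n, (v k : ℕ) + 1 = q ∧ (k : ℕ) < p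
  hl : ∃ l : Fin n, (v l : ℕ) = q ∧ p ≤ (l : ℕ)

theorem noanti {v : Equiv.Perm (Fin n)} (hAv : Av3412 v) {p q p' q' : ℕ} (h : EP v p q)
    (h' : EP v p' q') (hp : p < p') (hq : q' < q) : False := by
  obtain ⟨k, hk1, hk2⟩ := h.hk
  obtain ⟨j, hj1, hj2⟩ := h.hj
  obtain ⟨i, hi1, hi2⟩ := h'.hi
  obtain ⟨l, hl1, hl2⟩ := h'.hl
  have hji : j ≠ i := by
    rintro rfl
    omega
  have hkl : v k ≠ v l := by
    intro hv
    have := v.injective hv
    subst this
    omega
  have hji' : (j : ℕ) ≠ (i : ℕ) := fun h => hji (Fin.ext h)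
  have hkl' : (v k : ℕ) ≠ (v l : ℕ) := fun h => hkl (Fin.ext h)
  refine hAv k j i l ?_ ?_ ?_ ⟨?_, ?_, ?_⟩
  · rw [Fin.lt_def]; omega
  · rw [Fin.lt_def]; omega
  · rw [Fin.lt_def]; omega
  · rw [Fin.lt_def]; omega
  · rw [Fin.lt_def]; omega
  · rw [Fin.lt_def]; omega

theorem rk_lt {v : Equiv.Perm (Fin n)} {p q p' q' : ℕ} (h' : EP v p' q')
    (hp : p ≤ p') (hq : q ≤ q') (hne : p ≠ p' ∨ q ≠ q') : rkN v p q < rkN v p' q' := by
  unfold rkN
  apply Finset.card_lt_card
  rw [Finset.ssubset_iff_of_subset]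
  · by_cases h : p = p'
    · obtain ⟨k, hk1, hk2⟩ := h'.hk
      refine ⟨k, ?_, ?_⟩
      · simp only [Finset.mem_filter, Finset.mem_univ, true_and]; omega
      · simp only [Finset.mem_filter, Finset.mem_univ, true_and]; omega
    · obtain ⟨i, hi1, hi2⟩ := h'.hi
      refine ⟨i, ?_, ?_⟩
      · simp only [Finset.mem_filter, Finset.mem_univ, true_and]; omega
      · simp only [Finset.mem_filter, Finset.mem_univ, true_and]; omega
  · intro j hj
    simp only [Finset.mem_filter, Finset.mem_univ, true_and] at hj ⊢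
    omega

theorem cnt_lt {v : Equiv.Perm (Fin n)} {p q p' q' : ℕ} (h : EP v p q)
    (hp : p ≤ p') (hq : q ≤ q') (hne : p ≠ p' ∨ q ≠ q') :
    (univ.filter (fun j : Fin n => p' ≤ (j : ℕ) ∧ q' ≤ (v j : ℕ))).card <
      (univ.filter (fun j : Fin n => p ≤ (j : ℕ) ∧ q ≤ (v j : ℕ))).card := by
  apply Finset.card_lt_card
  rw [Finset.ssubset_iff_of_subset]
  · by_cases h0 : p = p'
    · obtain ⟨l, hl1, hl2⟩ := h.hl
      refine ⟨l, ?_, ?_⟩
      · simp only [Finset.mem_filter, Finset.mem_univ, true_and]; omega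
      · simp only [Finset.mem_filter, Finset.mem_univ, true_and]; omega
    · obtain ⟨j, hj1, hj2⟩ := h.hj
      refine ⟨j, ?_, ?_⟩
      · simp only [Finset.mem_filter, Finset.mem_univ, true_and]; omega
      · simp only [Finset.mem_filter, Finset.mem_univ, true_and]; omega
  · intro j hj
    simp only [Finset.mem_filter, Finset.mem_univ, true_and] at hj ⊢
    omega

theorem gen {v : Equiv.Perm (Fin n)} (F : RkF v) : ∀ (N a b : ℕ), a ≤ n → b ≤ n →
    (a - rkN v a b) + (b - rkN v a b) = N → rkN v a b = 0 ∨ a + b = n + rkN v a b ∨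
      ∃ t : ℕ × ℕ, EP v t.1 t.2 ∧ rkN v a b + (t.1 - a) + (t.2 - b) = rkN v t.1 t.2 := by
  intro N
  induction N using Nat.strong_induction_on with
  | _ N ih =>
    intro a b ha hb hN
    have hlea := F.lea a b
    have hleb := F.leb a b
    have hlow := F.low a b ha hb
    -- move L
    by_cases hL : ∃ i : Fin n, (i : ℕ) + 1 = a ∧ b ≤ (v i : ℕ)
    · obtain ⟨i, hi1, hi2⟩ := hL
      have hs := F.stepa i b
      rw [if_neg (by omega), add_zero, hi1] at hs
      have hle := F.lea i b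
      rcases ih ((i : ℕ) - rkN v i b + (b - rkN v i b)) (by omega) i b (by omega) hb rfl with
        h0 | h1 | ⟨t, ht, h2⟩
      · left; omega
      · exfalso; omega
      · right; right
        refine ⟨t, ht, ?_⟩
        have hlip := F.lip a t.1 b t.2
        omega
    -- move D
    by_cases hD : ∃ x : Fin n, (x : ℕ) + 1 = b ∧ a ≤ (v.symm x : ℕ)
    · obtain ⟨x, hx1, hx2⟩ := hD
      have hs := F.stepb x a
      rw [if_neg (by omega), add_zero, hx1] at hs
      have hle := F.leb a x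
      rcases ih (a - rkN v a x + ((x : ℕ) - rkN v a x)) (by omega) a x ha (by omega) rfl with
        h0 | h1 | ⟨t, ht, h2⟩
      · left; omega
      · exfalso; omega
      · right; right
        refine ⟨t, ht, ?_⟩
        have hlip := F.lip a t.1 b t.2
        omega
    -- move R
    by_cases hR : ∃ i : Fin n, (i : ℕ) = a ∧ (v i : ℕ) < b
    · obtain ⟨i, hi1, hi2⟩ := hR
      have hs := F.stepa i b
      rw [if_pos hi2, hi1] at hs
      have hle := F.leb (a + 1) b
      have hle' := F.lea (a + 1) b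
      have hin := i.isLt
      rcases ih ((a + 1) - rkN v (a + 1) b + (b - rkN v (a + 1) b)) (by omega) (a + 1) b
        (by omega) hb rfl with h0 | h1 | ⟨t, ht, h2⟩
      · exfalso; omega
      · right; left; omega
      · right; right
        refine ⟨t, ht, ?_⟩
        have hlip := F.lip a t.1 b t.2
        omega
    -- move U
    by_cases hU : ∃ x : Fin n, (x : ℕ) = b ∧ (v.symm x : ℕ) < a
    · obtain ⟨x, hx1, hx2⟩ := hU
      have hs := F.stepb x a
      rw [if_pos hx2, hx1] at hs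
      have hle := F.lea a (b + 1)
      have hle' := F.leb a (b + 1)
      have hin := x.isLt
      rcases ih (a - rkN v a (b + 1) + ((b + 1) - rkN v a (b + 1))) (by omega) a (b + 1)
        ha (by omega) rfl with h0 | h1 | ⟨t, ht, h2⟩
      · exfalso; omega
      · right; left; omega
      · right; right
        refine ⟨t, ht, ?_⟩
        have hlip := F.lip a t.1 b t.2
        omega
    -- no move
    by_cases ha0 : a = 0
    · left; rw [ha0]; exact F.zl b
    by_cases hb0 : b = 0
    · left; rw [hb0]; exact F.zr a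
    by_cases han : a = n
    · right; left
      have := F.nl b hb
      rw [han, this]
    by_cases hbn : b = n
    · right; left
      have := F.nr a ha
      rw [hbn, this]; omega
    right; right
    refine ⟨(a, b), ⟨?_, ?_, ?_, ?_⟩, ?_⟩
    · refine ⟨⟨a - 1, by omega⟩, by simp; omega, ?_⟩
      by_contra hcon
      exact hL ⟨⟨a - 1, by omega⟩, by simp; omega, by omega⟩
    · refine ⟨⟨a, by omega⟩, rfl, ?_⟩
      by_contra hcon
      exact hR ⟨⟨a, by omega⟩, rfl, by omega⟩
    · refine ⟨v.symm ⟨b - 1, by omega⟩, by simp; omega, ?_⟩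
      by_contra hcon
      exact hD ⟨⟨b - 1, by omega⟩, by simp; omega, by omega⟩
    · refine ⟨v.symm ⟨b, by omega⟩, by simp, ?_⟩
      by_contra hcon
      exact hU ⟨⟨b, by omega⟩, rfl, by omega⟩
    · simp

end XESS

open XESS in
theorem I_ESS (hRKB : St_RKB) : St_ESS := by
  classical
  intro n v hAv
  have F : RkF v := (hRKB n).1 v
  refine ⟨((Finset.range n) ×ˢ (Finset.range n)).filter (fun t => EP v t.1 t.2), ?_⟩
  have hT : ∀ t : ℕ × ℕ, t ∈ ((Finset.range n) ×ˢ (Finset.range n)).filter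
      (fun t => EP v t.1 t.2) ↔ EP v t.1 t.2 := by
    intro t
    simp only [Finset.mem_filter, Finset.mem_product, Finset.mem_range]
    refine ⟨fun h => h.2, fun h => ⟨?_, h⟩⟩
    obtain ⟨j, hj1, hj2⟩ := h.hj
    obtain ⟨l, hl1, hl2⟩ := h.hl
    have h1 := j.isLt
    have h2 := (v l).isLt
    omega
  refine ⟨?_, ?_, ?_, ?_, ?_⟩
  · intro t ht
    rw [hT] at ht
    obtain ⟨i, hi1, hi2⟩ := ht.hi
    obtain ⟨j, hj1, hj2⟩ := ht.hj
    obtain ⟨k, hk1, hk2⟩ := ht.hk
    obtain ⟨l, hl1, hl2⟩ := ht.hl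
    have h1 := j.isLt
    have h2 := (v l).isLt
    omega
  · intro s hs t ht
    rw [hT] at hs ht
    by_contra hcon
    rcases lt_or_ge s.1 t.1 with h | h
    · have hq : t.2 < s.2 := by
        by_contra h2
        exact hcon (Or.inl ⟨h.le, by omega⟩)
      exact noanti hAv hs ht h hq
    · rcases lt_or_ge t.1 s.1 with h1 | h1
      · have hq : s.2 < t.2 := by
          by_contra h2
          exact hcon (Or.inr ⟨h, by omega⟩)
        exact noanti hAv ht hs h1 hq
      · have he : s.1 = t.1 := le_antisymm h1 h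
        rcases le_total s.2 t.2 with h2 | h2
        · exact hcon (Or.inl ⟨he.le, h2⟩)
        · exact hcon (Or.inr ⟨he.ge, h2⟩)
  · intro t ht
    rw [hT] at ht
    obtain ⟨i, hi1, hi2⟩ := ht.hi
    obtain ⟨j, hj1, hj2⟩ := ht.hj
    obtain ⟨l, hl1, hl2⟩ := ht.hl
    constructor
    · unfold rkN
      rw [Nat.succ_le_iff, Finset.card_pos]
      exact ⟨i, by simp only [Finset.mem_filter, Finset.mem_univ, true_and]; omega⟩
    · have hc := F.cntA t.1 t.2 (by have := j.isLt; omega) (by have := (v l).isLt; omega)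
      have hp : 0 < (univ.filter (fun j : Fin n => t.1 ≤ (j : ℕ) ∧ t.2 ≤ (v j : ℕ))).card := by
        rw [Finset.card_pos]
        exact ⟨j, by simp only [Finset.mem_filter, Finset.mem_univ, true_and]; omega⟩
      omega
  · intro s hs t ht hne h1 h2
    rw [hT] at hs ht
    have hne' : s.1 ≠ t.1 ∨ s.2 ≠ t.2 := by
      by_contra hcon
      push Not at hcon
      exact hne (Prod.ext hcon.1 hcon.2)
    refine ⟨rk_lt ht h1 h2 hne', ?_⟩
    have hbd : ∀ t : ℕ × ℕ, EP v t.1 t.2 → t.1 ≤ n ∧ t.2 ≤ n := by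
      intro t ht
      obtain ⟨j, hj1, hj2⟩ := ht.hj
      obtain ⟨l, hl1, hl2⟩ := ht.hl
      have h1 := j.isLt
      have h2 := (v l).isLt
      omega
    have hcs := F.cntA s.1 s.2 (hbd s hs).1 (hbd s hs).2
    have hct := F.cntA t.1 t.2 (hbd t ht).1 (hbd t ht).2
    have hlt := cnt_lt (v := v) hs h1 h2 hne'
    omega
  · intro a b ha hb
    rcases gen F _ a b ha hb rfl with h0 | h1 | ⟨t, ht, h2⟩
    · exact Or.inl h0
    · exact Or.inr (Or.inl h1)
    · exact Or.inr (Or.inr ⟨t, (hT t).2 ht, h2⟩)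

end Pool.Agent.COV
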