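import Pool.Agent.Work.MP_1c6e58_ag.COV.Stmts

/-!
MP_1c6e58_ag, project COV: the sizes of `JA t` and `JB t`.
-/

set_option autoImplicit false

open Finset

namespace Pool.Agent.COV

open Pool.Agent.SH

namespace XJCNT

open Classical in
theorem mem_JA {n : ℕ} {u : Equiv.Perm (Fin n)} {T : Finset (ℕ × ℕ)} {t : ℕ × ℕ} {j : Fin n} :
    j ∈ JA u T t ↔ tA u t j ∧ ∀ t' ∈ T, tA u t' j → tle t' t := by
  unfold JA
  rw [Finset.mem_filter]
  simp

open Classical in
theorem mem_JB {n : ℕ} {u : Equiv.Perm (Fin n)} {T : Finset (ℕ × ℕ)} {t : ℕ × ℕ} {j : Fin n} :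
    j ∈ JB u T t ↔ tB u t j ∧ ∀ t' ∈ T, tB u t' j → tle t t' := by
  unfold JB
  rw [Finset.mem_filter]
  simp

end XJCNT

open XJCNT in
theorem I_JCNT (hRKB : St_RKB) : St_JCNT := by
  intro n u v T s e _ hT hs hL t ht hlt
  have hF := (hRKB n).1
  have he : 1 ≤ e := le_trans Nat.one_le_two_pow hL.two
  -- the sets A and B
  set At : ℕ × ℕ → Finset (Fin n) := fun q =>
    univ.filter (fun j : Fin n => q.1 ≤ (j : ℕ) ∧ q.2 ≤ (u j : ℕ)) with hAt
  set Bt : ℕ × ℕ → Finset (Fin n) := fun q =>
    univ.filter (fun j : Fin n => (j : ℕ) < q.1 ∧ (u j : ℕ) < q.2) with hBt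
  have cA : ∀ q ∈ T, (At q).card + q.1 + q.2 = n + rkN u q.1 q.2 := by
    intro q hq
    have hb := hT.bd q hq
    exact (hF u).cntA q.1 q.2 (by omega) (by omega)
  have cB : ∀ q, (Bt q).card = rkN u q.1 q.2 := fun q => rfl
  have hbd := hT.bd t ht
  have hpos := hT.pos t ht
  have hst := hs t ht
  have sA : JA u T t ⊆ At t := by
    intro j hj
    rw [mem_JA] at hj
    rw [hAt]
    simp only [Finset.mem_filter, Finset.mem_univ, true_and]
    exact hj.1
  have sB : JB u T t ⊆ Bt t := by
    intro j hj
    rw [mem_JB] at hj
    rw [hBt]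
    simp only [Finset.mem_filter, Finset.mem_univ, true_and]
    exact hj.1
  have kA := Finset.card_le_card sA
  have kB := Finset.card_le_card sB
  have cAt := cA t ht
  rw [cB] at kB
  constructor
  · by_cases hsm : (JA u T t).card + rkN v t.1 t.2 ≤ rkN u t.1 t.2
    · omega
    · have h := hL.rowA ⟨t, ht⟩ (by simp only; omega)
        ((JA u T t).card - (rkN u t.1 t.2 - rkN v t.1 t.2)) (by simp only; omega) (by
        rintro ⟨q, hq⟩ hlt'
        simp only at hlt' ⊢
        have hsq := hs q hq
        have hpq := hT.pos q hq
        have hqt : q ≠ t := by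
          rintro rfl
          omega
        have hno : ¬ (q.1 ≤ t.1 ∧ q.2 ≤ t.2) := by
          intro hle
          have := hT.mono q hq t ht hqt hle.1 hle.2
          omega
        have hle : t.1 ≤ q.1 ∧ t.2 ≤ q.2 := by
          rcases hT.chain t ht q hq with h1 | h1
          · exact h1
          · exact absurd h1 hno
        have hdis : Disjoint (JA u T t) (At q) := by
          rw [Finset.disjoint_left]
          intro j hj hjq
          rw [mem_JA] at hj
          rw [hAt] at hjq
          simp only [Finset.mem_filter, Finset.mem_univ, true_and] at hjq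
          exact hno (hj.2 q hq hjq)
        have hsub : JA u T t ∪ At q ⊆ At t := by
          refine Finset.union_subset sA ?_
          intro j hj
          rw [hAt] at hj ⊢
          simp only [Finset.mem_filter, Finset.mem_univ, true_and] at hj ⊢
          omega
        have h1 := Finset.card_le_card hsub
        rw [Finset.card_union_of_disjoint hdis] at h1
        have h2 := cA q hq
        omega)
      omega
  · by_cases hsm : (JB u T t).card + rkN v t.1 t.2 ≤ rkN u t.1 t.2
    · omega
    · have h := hL.colB ⟨t, ht⟩ (by simp only; omega)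
        ((JB u T t).card - (rkN u t.1 t.2 - rkN v t.1 t.2)) (by simp only; omega) (by
        rintro ⟨q, hq⟩ hlt'
        simp only at hlt' ⊢
        have hsq := hs q hq
        have hqt : t ≠ q := by
          rintro rfl
          omega
        have hno : ¬ (t.1 ≤ q.1 ∧ t.2 ≤ q.2) := by
          intro hle
          have := hT.mono t ht q hq hqt hle.1 hle.2
          omega
        have hle : q.1 ≤ t.1 ∧ q.2 ≤ t.2 := by
          rcases hT.chain t ht q hq with h1 | h1
          · exact absurd h1 hno
          · exact h1
        have hdis : Disjoint (JB u T t) (Bt q) := by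
          rw [Finset.disjoint_left]
          intro j hj hjq
          rw [mem_JB] at hj
          rw [hBt] at hjq
          simp only [Finset.mem_filter, Finset.mem_univ, true_and] at hjq
          exact hno (hj.2 q hq hjq)
        have hsub : JB u T t ∪ Bt q ⊆ Bt t := by
          refine Finset.union_subset sB ?_
          intro j hj
          rw [hBt] at hj ⊢
          simp only [Finset.mem_filter, Finset.mem_univ, true_and] at hj ⊢
          omega
        have h1 := Finset.card_le_card hsub
        rw [Finset.card_union_of_disjoint hdis, cB, cB] at h1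
        omega)
      omega

end Pool.Agent.COV
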