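import Pool.Agent.Work.MP_1c6e58_ag.COV.Stmts

/-!
MP_1c6e58_ag, project COV: item KERN, the common matrix `N` has the same kernels as the matrices
of the single conditions.
-/

set_option autoImplicit false

open Finset

namespace Pool.Agent.COV

open Pool.Agent.SH

namespace XKERN

variable {n : ℕ}

theorem um_low (z : Co n → ℂ) : LowUni (fun i j => Um z i j) := by
  constructor
  · intro i
    show Um z i i = 1
    unfold Um
    rw [dif_neg (lt_irrefl i), if_pos rfl]
  · intro i j h
    show Um z i j = 0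
    unfold Um
    rw [dif_neg (not_lt.2 h.le), if_neg (ne_of_lt h)]

theorem row_low {U : Fin n → Fin n → ℂ} (hU : LowUni U) (h : Fin n) (d : Fin n → ℂ)
    (hd : ∀ k, k < h → d k = 0) : ∑ k, U h k * d k = d h := by
  rw [Finset.sum_eq_single h]
  · rw [hU.1, one_mul]
  · intro k _ hk
    rcases lt_or_gt_of_ne hk with h1 | h1
    · rw [hd k h1, mul_zero]
    · rw [hU.2 h k h1, zero_mul]
  · intro h1; exact absurd (Finset.mem_univ h) h1

/-- A vector which vanishes off `S` below `a`, with `(U d) h = 0` for `h ∈ S`, vanishes below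
`a`. -/
theorem zero_below {U : Fin n → Fin n → ℂ} (hU : LowUni U) (a : ℕ) (S : Finset (Fin n))
    (d : Fin n → ℂ) (h1 : ∀ k : Fin n, (k : ℕ) < a → k ∉ S → d k = 0)
    (h2 : ∀ h ∈ S, (h : ℕ) < a → ∑ k, U h k * d k = 0) :
    ∀ k : Fin n, (k : ℕ) < a → d k = 0 := by
  intro k
  induction k using WellFoundedLT.induction with
  | ind k ih =>
    intro hk
    by_cases hS : k ∈ S
    · rw [← row_low hU k d (fun j hj => ih j hj (lt_trans (Fin.lt_def.1 hj) hk))]
      exact h2 k hS hk
    · exact h1 k hk hS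

/-- The row vectors. -/
theorem row_ex {U : Fin n → Fin n → ℂ} (hU : LowUni U) (i : Fin n) (S : Finset (Fin n)) :
    i ∉ S → ∃ g : Fin n → ℂ, g i = 1 ∧ (∀ h, h ≠ i → h ∉ S → g h = 0) ∧
      ∀ k ∈ S, ∑ h, g h * U h k = 0 := by
  induction S using Finset.induction_on_min with
  | empty =>
    intro _
    refine ⟨fun h => if h = i then 1 else 0, by simp, ?_, ?_⟩
    · intro h hh _
      simp [hh]
    · intro k hk
      exact absurd hk (Finset.notMem_empty k)
  | insert a S ha ih =>
    intro hi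
    have hia : i ≠ a := by
      rintro rfl
      exact hi (Finset.mem_insert_self _ _)
    have hiS : i ∉ S := fun h => hi (Finset.mem_insert_of_mem h)
    obtain ⟨g, g1, g2, g3⟩ := ih hiS
    have haS : a ∉ S := fun h => lt_irrefl _ (ha a h)
    let c : ℂ := - ∑ h, g h * U h a
    have hsum : ∀ k, ∑ h, (g h + if h = a then c else 0) * U h k =
        ∑ h, g h * U h k + c * U a k := by
      intro k
      simp only [add_mul, Finset.sum_add_distrib]
      congr 1
      rw [Finset.sum_eq_single a]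
      · rw [if_pos rfl]
      · intro b _ hb
        rw [if_neg hb, zero_mul]
      · intro h1; exact absurd (Finset.mem_univ a) h1
    refine ⟨fun h => g h + if h = a then c else 0, ?_, ?_, ?_⟩
    · show g i + (if i = a then c else 0) = 1
      rw [if_neg hia, g1, add_zero]
    · intro h hh hS
      have hha : h ≠ a := by
        rintro rfl
        exact hS (Finset.mem_insert_self _ _)
      show g h + (if h = a then c else 0) = 0
      rw [if_neg hha, g2 h hh (fun h' => hS (Finset.mem_insert_of_mem h')), add_zero]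
    · intro k hk
      rw [hsum k]
      rcases Finset.mem_insert.1 hk with rfl | hk
      · rw [hU.1]
        show _ + (- ∑ h, g h * U h k) * 1 = 0
        ring
      · rw [g3 k hk, hU.2 a k (ha k hk)]
        ring

open Classical in
/-- The sets for the columns. -/
noncomputable def LS (u : Equiv.Perm (Fin n)) (T : Finset (ℕ × ℕ)) (t : ℕ × ℕ) (j : Fin n) :
    Finset (Fin n) :=
  univ.filter (fun h => ∃ t' ∈ T, tle t' t ∧ tB u t' j ∧ tH u t' h)

open Classical in
/-- The sets for the rows. -/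
noncomputable def RS (u : Equiv.Perm (Fin n)) (T : Finset (ℕ × ℕ)) (t : ℕ × ℕ) (i : Fin n) :
    Finset (Fin n) :=
  univ.filter (fun h => t.1 ≤ (h : ℕ) ∧ ∃ t' ∈ T, tle t t' ∧ tA u t' i ∧ tH u t' h)

theorem mem_LS {u : Equiv.Perm (Fin n)} {T : Finset (ℕ × ℕ)} {t : ℕ × ℕ} {j h : Fin n} :
    h ∈ LS u T t j ↔ ∃ t' ∈ T, tle t' t ∧ tB u t' j ∧ tH u t' h := by
  classical
  unfold LS
  simp only [Finset.mem_filter, Finset.mem_univ, true_and]

theorem mem_RS {u : Equiv.Perm (Fin n)} {T : Finset (ℕ × ℕ)} {t : ℕ × ℕ} {i h : Fin n} :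
    h ∈ RS u T t i ↔ t.1 ≤ (h : ℕ) ∧ ∃ t' ∈ T, tle t t' ∧ tA u t' i ∧ tH u t' h := by
  classical
  unfold RS
  simp only [Finset.mem_filter, Finset.mem_univ, true_and]

theorem mem_SS {u : Equiv.Perm (Fin n)} {T : Finset (ℕ × ℕ)} {i j h : Fin n} :
    h ∈ SS u T i j ↔ ∃ t ∈ T, tA u t i ∧ tB u t j ∧ tH u t h := by
  classical
  unfold SS
  simp only [Finset.mem_filter, Finset.mem_univ, true_and]

theorem mem_HH {u : Equiv.Perm (Fin n)} {t : ℕ × ℕ} {h : Fin n} :
    h ∈ HH u t ↔ tH u t h := by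
  classical
  unfold HH
  simp only [Finset.mem_filter, Finset.mem_univ, true_and]

theorem LS_lt {u : Equiv.Perm (Fin n)} {T : Finset (ℕ × ℕ)} {t : ℕ × ℕ} {j h : Fin n}
    (hh : h ∈ LS u T t j) : (h : ℕ) < t.1 := by
  obtain ⟨t', _, h1, _, h3⟩ := mem_LS.1 hh
  exact lt_of_lt_of_le h3.1 h1.1

theorem RS_tA {u : Equiv.Perm (Fin n)} {T : Finset (ℕ × ℕ)} {t : ℕ × ℕ} {i h : Fin n}
    (hh : h ∈ RS u T t i) : tA u t h := by
  obtain ⟨h0, t', _, h1, _, h3⟩ := mem_RS.1 hh
  exact ⟨h0, h1.2.trans h3.2⟩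

theorem RS_lt {u : Equiv.Perm (Fin n)} {T : Finset (ℕ × ℕ)} {t : ℕ × ℕ} {i h : Fin n}
    (hh : h ∈ RS u T t i) : h < i := by
  obtain ⟨_, t', _, _, h2, h3⟩ := mem_RS.1 hh
  exact Fin.lt_def.2 (lt_of_lt_of_le h3.1 h2.1)

theorem SS_eq {u : Equiv.Perm (Fin n)} {T : Finset (ℕ × ℕ)}
    (hT : ∀ s ∈ T, ∀ t ∈ T, tle s t ∨ tle t s) {t : ℕ × ℕ} (ht : t ∈ T) {i j : Fin n}
    (hi : tA u t i) (hj : tB u t j) (h : Fin n) :
    h ∈ SS u T i j ↔ h ∈ LS u T t j ∨ h ∈ RS u T t i := by
  constructor
  · intro hh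
    obtain ⟨t', ht', h1, h2, h3⟩ := mem_SS.1 hh
    rcases hT t' ht' t ht with h4 | h4
    · exact Or.inl (mem_LS.2 ⟨t', ht', h4, h2, h3⟩)
    · by_cases h5 : t.1 ≤ (h : ℕ)
      · exact Or.inr (mem_RS.2 ⟨h5, t', ht', h4, h1, h3⟩)
      · exact Or.inl (mem_LS.2 ⟨t, ht, ⟨le_refl _, le_refl _⟩, hj, not_le.1 h5,
          h4.2.trans h3.2⟩)
  · rintro (hh | hh)
    · obtain ⟨t', ht', h1, h2, h3⟩ := mem_LS.1 hh
      exact mem_SS.2 ⟨t', ht', ⟨h1.1.trans hi.1, h1.2.trans hi.2⟩, h2, h3⟩
    · obtain ⟨_, t', ht', h1, h2, h3⟩ := mem_RS.1 hh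
      exact mem_SS.2 ⟨t', ht', h2, ⟨lt_of_lt_of_le hj.1 h1.1, lt_of_lt_of_le hj.2 h1.2⟩, h3⟩

/-- Columns. -/
theorem col_eq (hCV : St_CV) {U : Fin n → Fin n → ℂ} (hU : LowUni U)
    (u : Equiv.Perm (Fin n)) (T : Finset (ℕ × ℕ)) (t : ℕ × ℕ) (ht : t ∈ T) (j : Fin n)
    (hj : tB u t j) (Bt : Finset (Fin n)) (hB : ∀ k, k ∈ Bt ↔ tB u t k) (i : Fin n) :
    ∑ k, U i k * cv U (LS u T t j) j k = ∑ k ∈ Bt, cv U (LS u T t j) j k * PM u t U i k := by
  obtain ⟨x1, x2, x3, x4, _⟩ := hCV n ℂ U (LS u T t j) j hU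
  set x : Fin n → ℂ := cv U (LS u T t j) j with hx
  have hy : ∀ l, x l - ∑ k ∈ Bt, x k * cv U (HH u t) k l = 0 := by
    intro l
    refine zero_below hU n (HH u t) (fun l => x l - ∑ k ∈ Bt, x k * cv U (HH u t) k l)
      ?_ ?_ l l.2
    · intro l _ hl
      by_cases hlB : l ∈ Bt
      · have h1 : ∑ k ∈ Bt, x k * cv U (HH u t) k l = x l := by
          rw [Finset.sum_eq_single l]
          · rw [(hCV n ℂ U (HH u t) l hU).1, mul_one]
          · intro k _ hk
            rw [(hCV n ℂ U (HH u t) k hU).2.1 l (Ne.symm hk) hl, mul_zero]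
          · intro h; exact absurd hlB h
        show x l - ∑ k ∈ Bt, x k * cv U (HH u t) k l = 0
        rw [h1, sub_self]
      · have hlj : l ≠ j := by
          rintro rfl
          exact hlB ((hB l).2 hj)
        have hlL : l ∉ LS u T t j := by
          intro h
          have h1 := LS_lt h
          by_cases h2 : (u l : ℕ) < t.2
          · exact hlB ((hB l).2 ⟨h1, h2⟩)
          · exact hl (mem_HH.2 ⟨h1, not_lt.1 h2⟩)
        show x l - ∑ k ∈ Bt, x k * cv U (HH u t) k l = 0
        rw [x2 l hlj hlL, Finset.sum_eq_zero, sub_self]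
        intro k hk
        have hkl : l ≠ k := by
          rintro rfl
          exact hlB hk
        rw [(hCV n ℂ U (HH u t) k hU).2.1 l hkl hl, mul_zero]
    · intro h hh _
      have hhH := mem_HH.1 hh
      have hhL : h ∈ LS u T t j := mem_LS.2 ⟨t, ht, ⟨le_refl _, le_refl _⟩, hj, hhH⟩
      have hhj : h ≠ j := by
        rintro rfl
        exact absurd hj.2 (not_lt.2 hhH.2)
      show ∑ l, U h l * (x l - ∑ k ∈ Bt, x k * cv U (HH u t) k l) = 0
      simp only [mul_sub, Finset.sum_sub_distrib]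
      rw [x4 h hhL hhj, zero_sub, neg_eq_zero]
      simp only [Finset.mul_sum]
      rw [Finset.sum_comm]
      apply Finset.sum_eq_zero
      intro k hk
      have hhk : h ≠ k := by
        rintro rfl
        exact absurd ((hB h).1 hk).2 (not_lt.2 hhH.2)
      have h1 := (hCV n ℂ U (HH u t) k hU).2.2.2.1 h hh hhk
      have h2 : ∀ l, U h l * (x k * cv U (HH u t) k l) = x k * (U h l * cv U (HH u t) k l) := by
        intro l; ring
      simp only [h2, ← Finset.mul_sum, h1, mul_zero]
  have hy' : ∀ l, x l = ∑ k ∈ Bt, x k * cv U (HH u t) k l := fun l => sub_eq_zero.1 (hy l)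
  calc ∑ l, U i l * x l = ∑ l, U i l * ∑ k ∈ Bt, x k * cv U (HH u t) k l := by
        apply Finset.sum_congr rfl
        intro l _
        rw [← hy' l]
    _ = ∑ k ∈ Bt, x k * PM u t U i k := by
        simp only [Finset.mul_sum]
        rw [Finset.sum_comm]
        apply Finset.sum_congr rfl
        intro k _
        unfold PM
        rw [Finset.mul_sum]
        apply Finset.sum_congr rfl
        intro l _
        ring

/-- Rows. -/
theorem row_eq (hCV : St_CV) {U : Fin n → Fin n → ℂ} (hU : LowUni U)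
    (u : Equiv.Perm (Fin n)) (T : Finset (ℕ × ℕ))
    (hT : ∀ s ∈ T, ∀ t ∈ T, tle s t ∨ tle t s) (t : ℕ × ℕ) (ht : t ∈ T) (i j : Fin n)
    (hi : tA u t i) (hj : tB u t j) (g : Fin n → ℂ) (g1 : g i = 1)
    (g2 : ∀ h, h ≠ i → h ∉ RS u T t i → g h = 0)
    (g3 : ∀ k ∈ RS u T t i, ∑ h, g h * U h k = 0) :
    NM u T U i j = ∑ h, g h * ∑ k, U h k * cv U (LS u T t j) j k := by
  obtain ⟨x1, x2, x3, x4, _⟩ := hCV n ℂ U (LS u T t j) j hU
  obtain ⟨s1, s2, s3, s4, _⟩ := hCV n ℂ U (SS u T i j) j hU
  unfold NM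
  set x : Fin n → ℂ := cv U (LS u T t j) j with hx
  set s : Fin n → ℂ := cv U (SS u T i j) j with hs
  -- the two vectors agree below `t.1`
  have hbelow : ∀ k : Fin n, (k : ℕ) < t.1 → s k - x k = 0 := by
    refine zero_below hU t.1 ((LS u T t j).erase j) (fun k => s k - x k) ?_ ?_
    · intro k hk hkL
      show s k - x k = 0
      by_cases hkj : k = j
      · subst hkj
        rw [s1, x1, sub_self]
      · have h1 : k ∉ LS u T t j := fun h => hkL (Finset.mem_erase.2 ⟨hkj, h⟩)
        have h2 : k ∉ SS u T i j := by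
          intro h
          rcases (SS_eq hT ht hi hj k).1 h with h | h
          · exact h1 h
          · exact absurd (RS_tA h).1 (not_le.2 hk)
        rw [s2 k hkj h2, x2 k hkj h1, sub_self]
    · intro h hh _
      obtain ⟨hhj, hhL⟩ := Finset.mem_erase.1 hh
      show ∑ k, U h k * (s k - x k) = 0
      simp only [mul_sub, Finset.sum_sub_distrib]
      rw [x4 h hhL hhj, s4 h ((SS_eq hT ht hi hj h).2 (Or.inl hhL)) hhj, sub_self]
  have hsupp : ∀ k, k ∉ RS u T t i → s k - x k = 0 := by
    intro k hk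
    by_cases hkt : (k : ℕ) < t.1
    · exact hbelow k hkt
    · have hkj : k ≠ j := by
        rintro rfl
        exact hkt hj.1
      have h1 : k ∉ LS u T t j := fun h => hkt (LS_lt h)
      have h2 : k ∉ SS u T i j := by
        intro h
        rcases (SS_eq hT ht hi hj k).1 h with h | h
        · exact h1 h
        · exact hk h
      rw [s2 k hkj h2, x2 k hkj h1, sub_self]
  have e1 : ∑ h, g h * ∑ k, U h k * s k = ∑ k, U i k * s k := by
    rw [Finset.sum_eq_single i]
    · rw [g1, one_mul]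
    · intro h _ hhi
      by_cases hh : h ∈ RS u T t i
      · have hhj : h ≠ j := by
          rintro rfl
          exact absurd (RS_tA hh).1 (not_le.2 hj.1)
        rw [s4 h ((SS_eq hT ht hi hj h).2 (Or.inr hh)) hhj, mul_zero]
      · rw [g2 h hhi hh, zero_mul]
    · intro h1; exact absurd (Finset.mem_univ i) h1
  have e2 : ∑ h, g h * ∑ k, U h k * s k - ∑ h, g h * ∑ k, U h k * x k = 0 := by
    calc ∑ h, g h * ∑ k, U h k * s k - ∑ h, g h * ∑ k, U h k * x k
        = ∑ k, (∑ h, g h * U h k) * (s k - x k) := by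
          rw [← Finset.sum_sub_distrib]
          simp only [← mul_sub, ← Finset.sum_sub_distrib]
          simp only [Finset.mul_sum, Finset.sum_mul]
          rw [Finset.sum_comm]
          apply Finset.sum_congr rfl
          intro k _
          apply Finset.sum_congr rfl
          intro h _
          ring
      _ = 0 := by
          apply Finset.sum_eq_zero
          intro k _
          by_cases hk : k ∈ RS u T t i
          · rw [g3 k hk, zero_mul]
          · rw [hsupp k hk, mul_zero]
  rw [← e1]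
  exact sub_eq_zero.1 e2

open Classical in
/-- The change of coordinates. -/
noncomputable def Ph (Bt : Finset (Fin n)) (X : Fin n → Fin n → ℂ) :
    (Fin n → ℂ) →ₗ[ℂ] (Fin n → ℂ) where
  toFun c := fun k => if k ∈ Bt then ∑ j ∈ Bt, X j k * c j else c k
  map_add' := by
    intro c c'
    funext k
    simp only [Pi.add_apply]
    split_ifs
    · rw [← Finset.sum_add_distrib]
      apply Finset.sum_congr rfl
      intro j _
      ring
    · rfl
  map_smul' := by
    intro a c
    funext k
    simp only [Pi.smul_apply, smul_eq_mul, RingHom.id_apply]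
    split_ifs
    · rw [Finset.mul_sum]
      apply Finset.sum_congr rfl
      intro j _
      ring
    · rfl

theorem Ph_apply (Bt : Finset (Fin n)) (X : Fin n → Fin n → ℂ) (c : Fin n → ℂ) (k : Fin n) :
    Ph Bt X c k = if k ∈ Bt then ∑ j ∈ Bt, X j k * c j else c k := by
  classical
  show (if k ∈ Bt then ∑ j ∈ Bt, X j k * c j else c k) = _
  congr

theorem Ph_inj (Bt : Finset (Fin n)) (X : Fin n → Fin n → ℂ) (h1 : ∀ j ∈ Bt, X j j = 1)
    (h2 : ∀ j ∈ Bt, ∀ k, k < j → X j k = 0) : Function.Injective (Ph Bt X) := by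
  rw [injective_iff_map_eq_zero]
  intro c hc
  have h0 : ∀ k, Ph Bt X c k = 0 := fun k => by rw [hc]; rfl
  funext k
  show c k = 0
  induction k using WellFoundedLT.induction with
  | ind k ih =>
    have h3 := h0 k
    rw [Ph_apply] at h3
    by_cases hk : k ∈ Bt
    · rw [if_pos hk, Finset.sum_eq_single k] at h3
      · rwa [h1 k hk, one_mul] at h3
      · intro j hj hjk
        rcases lt_or_gt_of_ne hjk with h4 | h4
        · rw [ih j h4, mul_zero]
        · rw [h2 j hj k h4, zero_mul]
      · intro h; exact absurd hk h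
    · rwa [if_neg hk] at h3

end XKERN

open XKERN in
/-- The kernels of the matrices of the single conditions are given by the common matrix. -/
theorem I_KERN (hCV : St_CV) : St_KERN := by
  classical
  intro n u T hT z t ht
  set U : Fin n → Fin n → ℂ := fun i j => Um z i j with hUdef
  have hU : LowUni U := um_low z
  show Module.finrank ℂ (KerAB u t (PM u t U)) = Module.finrank ℂ (KerAB u t (NM u T U))
  set Bt : Finset (Fin n) := univ.filter (fun k => tB u t k) with hBt
  have hB : ∀ k, k ∈ Bt ↔ tB u t k := by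
    intro k
    simp only [hBt, Finset.mem_filter, Finset.mem_univ, true_and]
  let X : Fin n → Fin n → ℂ := fun j k => cv U (LS u T t j) j k
  have hX1 : ∀ j ∈ Bt, X j j = 1 := fun j _ => (hCV n ℂ U (LS u T t j) j hU).1
  have hX2 : ∀ j ∈ Bt, ∀ k, k < j → X j k = 0 := fun j _ k hk =>
    (hCV n ℂ U (LS u T t j) j hU).2.2.1 k hk
  have hinj := Ph_inj Bt X hX1 hX2
  let e : (Fin n → ℂ) ≃ₗ[ℂ] (Fin n → ℂ) := LinearEquiv.ofInjectiveEndo (Ph Bt X) hinj
  have he : ∀ c, e c = Ph Bt X c := fun c => rfl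
  have hg : ∀ i, ∃ g : Fin n → ℂ, g i = 1 ∧ (∀ h, h ≠ i → h ∉ RS u T t i → g h = 0) ∧
      ∀ k ∈ RS u T t i, ∑ h, g h * U h k = 0 := fun i =>
    row_ex hU i (RS u T t i) (fun h => lt_irrefl _ (RS_lt h))
  choose g g1 g2 g3 using hg
  -- the key identity
  have key : ∀ c : Fin n → ℂ, (∀ j, ¬ tB u t j → c j = 0) → ∀ i, tA u t i →
      ∑ j, NM u T U i j * c j = ∑ h, g i h * ∑ k, PM u t U h k * Ph Bt X c k := by
    intro c hc i hi
    have a1 : ∀ h, ∑ k, PM u t U h k * Ph Bt X c k =
        ∑ k ∈ Bt, PM u t U h k * ∑ j ∈ Bt, X j k * c j := by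
      intro h
      symm
      rw [← Finset.sum_subset (Finset.subset_univ Bt)]
      · apply Finset.sum_congr rfl
        intro k hk
        rw [Ph_apply, if_pos hk]
      · intro k _ hk
        rw [Ph_apply, if_neg hk, hc k (fun h' => hk ((hB k).2 h')), mul_zero]
    have a2 : ∑ j, NM u T U i j * c j = ∑ j ∈ Bt, NM u T U i j * c j := by
      symm
      apply Finset.sum_subset (Finset.subset_univ Bt)
      intro j _ hj
      rw [hc j (fun h' => hj ((hB j).2 h')), mul_zero]
    have a3 : ∀ j ∈ Bt, NM u T U i j = ∑ h, g i h * ∑ k ∈ Bt, X j k * PM u t U h k := by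
      intro j hj
      rw [row_eq hCV hU u T hT t ht i j hi ((hB j).1 hj) (g i) (g1 i) (g2 i) (g3 i)]
      apply Finset.sum_congr rfl
      intro h _
      rw [col_eq hCV hU u T t ht j ((hB j).1 hj) Bt hB h]
    rw [a2]
    simp only [a1]
    calc ∑ j ∈ Bt, NM u T U i j * c j
        = ∑ j ∈ Bt, (∑ h, g i h * ∑ k ∈ Bt, X j k * PM u t U h k) * c j := by
          apply Finset.sum_congr rfl
          intro j hj
          rw [a3 j hj]
      _ = ∑ h, g i h * ∑ k ∈ Bt, PM u t U h k * ∑ j ∈ Bt, X j k * c j := by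
          simp only [Finset.mul_sum, Finset.sum_mul]
          rw [Finset.sum_comm]
          apply Finset.sum_congr rfl
          intro h _
          rw [Finset.sum_comm]
          apply Finset.sum_congr rfl
          intro k _
          apply Finset.sum_congr rfl
          intro j _
          ring
  have hmem : ∀ c, c ∈ KerAB u t (NM u T U) ↔ e c ∈ KerAB u t (PM u t U) := by
    intro c
    rw [he]
    constructor
    · intro hc
      have hoff : ∀ j, ¬ tB u t j → Ph Bt X c j = 0 := by
        intro j hj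
        rw [Ph_apply, if_neg (fun h => hj ((hB j).1 h))]
        exact hc.1 j hj
      refine ⟨hoff, ?_⟩
      intro i
      induction i using WellFoundedLT.induction with
      | ind i ih =>
        intro hi
        have h1 := key c hc.1 i hi
        rw [hc.2 i hi, Finset.sum_eq_single i, g1 i, one_mul] at h1
        · exact h1.symm
        · intro h _ hhi
          by_cases hh : h ∈ RS u T t i
          · rw [ih h (RS_lt hh) (RS_tA hh), mul_zero]
          · rw [g2 i h hhi hh, zero_mul]
        · intro h2; exact absurd (Finset.mem_univ i) h2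
    · intro hc
      have hoff : ∀ j, ¬ tB u t j → c j = 0 := by
        intro j hj
        have h1 := hc.1 j hj
        rwa [Ph_apply, if_neg (fun h => hj ((hB j).1 h))] at h1
      refine ⟨hoff, ?_⟩
      intro i hi
      rw [key c hoff i hi]
      apply Finset.sum_eq_zero
      intro h _
      by_cases hhi : h = i
      · subst hhi
        rw [hc.2 h hi, mul_zero]
      · by_cases hh : h ∈ RS u T t i
        · rw [hc.2 h (RS_tA hh), mul_zero]
        · rw [g2 i h hhi hh, zero_mul]
  have hmap : (KerAB u t (NM u T U)).map (e : (Fin n → ℂ) →ₗ[ℂ] (Fin n → ℂ)) =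
      KerAB u t (PM u t U) := by
    ext d
    constructor
    · rintro ⟨c, hc, rfl⟩
      exact (hmem c).1 hc
    · intro hd
      refine ⟨e.symm d, ?_, ?_⟩
      · apply (hmem _).2
        rwa [LinearEquiv.apply_symm_apply]
      · exact LinearEquiv.apply_symm_apply e d
  rw [← hmap]
  exact LinearEquiv.finrank_map_eq e _

end Pool.Agent.COV
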