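import Pool.Agent.Work.MP_1c6e58_ag.COV.Stmts

/-!
MP_1c6e58_ag, project COV, item KERP: the kernel for one condition.
-/

set_option autoImplicit false

open Finset

namespace Pool.Agent.COV

open Pool.Agent.SH

namespace XKERP

variable {n : ℕ}

theorem mem_HH (u : Equiv.Perm (Fin n)) (t : ℕ × ℕ) (h : Fin n) : h ∈ HH u t ↔ tH u t h := by
  unfold HH
  simp

theorem lowUni_Um (z : Co n → ℂ) : LowUni (Um z) := by
  refine ⟨fun i => ?_, fun i j hij => ?_⟩
  · unfold Um
    simp
  · unfold Um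
    have h1 : ¬ j < i := not_lt.mpr hij.le
    have h2 : i ≠ j := hij.ne
    simp [h1, h2]

/-- A vector supported on `S` with `(U d) h = 0` on `S` vanishes. -/
theorem zero_of (U : Fin n → Fin n → ℂ) (hU : LowUni U) (S : Finset (Fin n)) (d : Fin n → ℂ)
    (hd : ∀ k, k ∉ S → d k = 0) (hS : ∀ h ∈ S, ∑ k, U h k * d k = 0) : ∀ h, d h = 0 := by
  have key : ∀ (m : ℕ) (h : Fin n), (h : ℕ) = m → d h = 0 := by
    intro m
    induction m using Nat.strong_induction_on with
    | _ m ih =>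
      intro h hm
      by_cases hh : h ∈ S
      · have h1 := hS h hh
        rw [Finset.sum_eq_single h] at h1
        · rw [hU.1 h, one_mul] at h1
          exact h1
        · intro k _ hk
          rcases lt_or_gt_of_ne hk with hlt | hgt
          · rw [ih (k : ℕ) (by rw [← hm]; exact hlt) k rfl, mul_zero]
          · rw [hU.2 h k hgt, zero_mul]
        · intro hn
          exact absurd (Finset.mem_univ h) hn
      · exact hd h hh
  intro h
  exact key h h rfl

/-- The linear combination of the vectors `cv`. -/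
noncomputable def Phi (U : Fin n → Fin n → ℂ) (S : Finset (Fin n)) :
    (Fin n → ℂ) →ₗ[ℂ] (Fin n → ℂ) where
  toFun x := fun k => ∑ j, x j * cv U S j k
  map_add' x y := by
    funext k
    simp only [Pi.add_apply, add_mul, Finset.sum_add_distrib]
  map_smul' a x := by
    funext k
    simp only [Pi.smul_apply, smul_eq_mul, mul_assoc, Finset.mul_sum, RingHom.id_apply]

open Classical in
/-- The restriction to the positions of type B. -/
noncomputable def Psi (u : Equiv.Perm (Fin n)) (t : ℕ × ℕ) :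
    (Fin n → ℂ) →ₗ[ℂ] (Fin n → ℂ) where
  toFun x := fun k => if tB u t k then x k else 0
  map_add' x y := by
    funext k
    by_cases h : tB u t k <;> simp [h]
  map_smul' a x := by
    funext k
    by_cases h : tB u t k <;> simp [h]

theorem Phi_apply (U : Fin n → Fin n → ℂ) (S : Finset (Fin n)) (x : Fin n → ℂ) (k : Fin n) :
    Phi U S x k = ∑ j, x j * cv U S j k := rfl

open Classical in
theorem Psi_apply (u : Equiv.Perm (Fin n)) (t : ℕ × ℕ) (x : Fin n → ℂ) (k : Fin n) :
    Psi u t x k = if tB u t k then x k else 0 := rfl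

/-- The rows of `Phi x`. -/
theorem row_Phi (U : Fin n → Fin n → ℂ) (S : Finset (Fin n)) (x : Fin n → ℂ) (i : Fin n) :
    ∑ k, U i k * Phi U S x k = ∑ j, (∑ k, U i k * cv U S j k) * x j := by
  simp only [Phi_apply, Finset.mul_sum, Finset.sum_mul]
  rw [Finset.sum_comm]
  refine Finset.sum_congr rfl fun j _ => Finset.sum_congr rfl fun k _ => ?_
  ring

variable (hCV : St_CV)

include hCV

/-- The values of `Phi x` for `x` supported on B. -/
theorem Phi_B (u : Equiv.Perm (Fin n)) (t : ℕ × ℕ) (U : Fin n → Fin n → ℂ) (hU : LowUni U)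
    (x : Fin n → ℂ) (hx : ∀ j, ¬ tB u t j → x j = 0) (k : Fin n) (hk : ¬ tH u t k) :
    Phi U (HH u t) x k = x k := by
  rw [Phi_apply, Finset.sum_eq_single k]
  · rw [(hCV n ℂ U (HH u t) k hU).1, mul_one]
  · intro j _ hj
    rw [(hCV n ℂ U (HH u t) j hU).2.1 k (Ne.symm hj) (by rw [mem_HH]; exact hk), mul_zero]
  · intro hn
    exact absurd (Finset.mem_univ k) hn

theorem row_H (u : Equiv.Perm (Fin n)) (t : ℕ × ℕ) (U : Fin n → Fin n → ℂ) (hU : LowUni U)
    (x : Fin n → ℂ) (hx : ∀ j, ¬ tB u t j → x j = 0) (h : Fin n) (hh : tH u t h) :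
    ∑ k, U h k * Phi U (HH u t) x k = 0 := by
  rw [row_Phi]
  refine Finset.sum_eq_zero fun j _ => ?_
  by_cases hj : tB u t j
  · have hne : h ≠ j := by
      rintro rfl
      exact absurd hj.2 (not_lt.mpr hh.2)
    rw [(hCV n ℂ U (HH u t) j hU).2.2.2.1 h ((mem_HH u t h).mpr hh) hne, zero_mul]
  · rw [hx j hj, mul_zero]

theorem Phi_mem (u : Equiv.Perm (Fin n)) (z : Co n → ℂ) (t : ℕ × ℕ) (x : Fin n → ℂ)
    (hx : x ∈ KerAB u t (PM u t (Um z))) : Phi (Um z) (HH u t) x ∈ KN u z t.1 t.2 := by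
  have hU := lowUni_Um z
  refine ⟨fun j hj => ?_, fun i hi => ?_⟩
  · have h1 : ¬ tH u t j := fun h => absurd h.1 (not_lt.mpr hj)
    rw [Phi_B hCV u t (Um z) hU x hx.1 j h1]
    exact hx.1 j (fun h => absurd h.1 (not_lt.mpr hj))
  · by_cases h1 : (i : ℕ) < t.1
    · exact row_H hCV u t (Um z) hU x hx.1 i ⟨h1, hi⟩
    · have h2 := hx.2 i ⟨not_lt.mp h1, hi⟩
      have h3 := row_Phi (Um z) (HH u t) x i
      have h4 : ∑ k, Um z i k * Phi (Um z) (HH u t) x k = 0 := by
        rw [h3]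
        exact h2
      exact h4

theorem eq_Phi (u : Equiv.Perm (Fin n)) (z : Co n → ℂ) (t : ℕ × ℕ) (c : Fin n → ℂ)
    (hc : c ∈ KN u z t.1 t.2) : c = Phi (Um z) (HH u t) (Psi u t c) := by
  have hU := lowUni_Um z
  have hx : ∀ j, ¬ tB u t j → Psi u t c j = 0 := by
    intro j hj
    rw [Psi_apply, if_neg hj]
  have h1 := zero_of (Um z) hU (HH u t) (c - Phi (Um z) (HH u t) (Psi u t c)) (by
    intro k hk
    rw [mem_HH] at hk
    rw [Pi.sub_apply, Phi_B hCV u t (Um z) hU _ hx k hk, Psi_apply]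
    by_cases hB : tB u t k
    · rw [if_pos hB, sub_self]
    · rw [if_neg hB, sub_zero]
      by_cases hi : t.1 ≤ (k : ℕ)
      · exact hc.1 k hi
      · exfalso
        have hi' := not_le.mp hi
        by_cases hv : t.2 ≤ (u k : ℕ)
        · exact hk ⟨hi', hv⟩
        · exact hB ⟨hi', not_le.mp hv⟩) (by
    intro h hh
    rw [mem_HH] at hh
    have h2 := hc.2 h hh.2
    have h3 := row_H hCV u t (Um z) hU _ hx h hh
    simp only [Pi.sub_apply, mul_sub, Finset.sum_sub_distrib]
    rw [h2, h3, sub_zero])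
  funext k
  have h2 := h1 k
  rw [Pi.sub_apply, sub_eq_zero] at h2
  exact h2

theorem Psi_mem (u : Equiv.Perm (Fin n)) (z : Co n → ℂ) (t : ℕ × ℕ) (c : Fin n → ℂ)
    (hc : c ∈ KN u z t.1 t.2) : Psi u t c ∈ KerAB u t (PM u t (Um z)) := by
  refine ⟨fun j hj => ?_, fun i hi => ?_⟩
  · rw [Psi_apply, if_neg hj]
  · have h1 := eq_Phi hCV u z t c hc
    have h2 := hc.2 i hi.2
    have h3 := row_Phi (Um z) (HH u t) (Psi u t c) i
    rw [← h1] at h3
    have h4 : ∑ j, (∑ k, Um z i k * cv (Um z) (HH u t) j k) * Psi u t c j = 0 := by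
      rw [← h3]
      exact h2
    exact h4

end XKERP

theorem I_KERP (hCV : St_CV) : St_KERP := by
  intro n u z t
  apply le_antisymm
  · refine LinearMap.finrank_le_finrank_of_injective
      (f := (XKERP.Psi u t).restrict (fun c hc => XKERP.Psi_mem hCV u z t c hc)) ?_
    intro c c' h
    have h1 : XKERP.Psi u t c.1 = XKERP.Psi u t c'.1 := congrArg Subtype.val h
    apply Subtype.ext
    rw [XKERP.eq_Phi hCV u z t c.1 c.2, XKERP.eq_Phi hCV u z t c'.1 c'.2, h1]
  · refine LinearMap.finrank_le_finrank_of_injective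
      (f := (XKERP.Phi (Um z) (HH u t)).restrict (fun c hc => XKERP.Phi_mem hCV u z t c hc)) ?_
    intro c c' h
    have h1 : XKERP.Phi (Um z) (HH u t) c.1 = XKERP.Phi (Um z) (HH u t) c'.1 :=
      congrArg Subtype.val h
    apply Subtype.ext
    funext k
    by_cases hk : tH u t k
    · have hB : ¬ tB u t k := fun h => absurd h.2 (not_lt.mpr hk.2)
      rw [c.2.1 k hB, c'.2.1 k hB]
    · rw [← XKERP.Phi_B hCV u t (Um z) (XKERP.lowUni_Um z) c.1 c.2.1 k hk,
        ← XKERP.Phi_B hCV u t (Um z) (XKERP.lowUni_Um z) c'.1 c'.2.1 k hk, h1]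

end Pool.Agent.COV
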