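import Pool.Agent.Work.MP_1c6e58_ag.COV.Stmts

/-!
MP_1c6e58_ag, project COV, item KEYI: the multiplicity depends only on the ranks.
-/

set_option autoImplicit false

open Finset

namespace Pool.Agent.COV

open Pool.Agent.SH

namespace XKEYI

/-- The ladder conditions for the data of `u`. -/
theorem ladd (hRKB : St_RKB) {n : ℕ} {u v : Equiv.Perm (Fin n)} {T : Finset (ℕ × ℕ)}
    (hT : EssT v T) (hbr : Br u v) :
    Ladd (fun t : {t : ℕ × ℕ // t ∈ T} => n + rkN u t.1.1 t.1.2 - t.1.1 - t.1.2)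
      (fun t => rkN u t.1.1 t.1.2) (fun t => rkN u t.1.1 t.1.2 - rkN v t.1.1 t.1.2) := by
  obtain ⟨hF, hBr, -⟩ := hRKB n
  have hle : ∀ a b, rkN v a b ≤ rkN u a b := (hBr u v).1 hbr
  have hu := hF u
  -- comparison of two comparable conditions
  have key : ∀ q q' : {t : ℕ × ℕ // t ∈ T}, q ≠ q' → q.1.1 ≤ q'.1.1 → q.1.2 ≤ q'.1.2 →
      (n + rkN u q'.1.1 q'.1.2 - q'.1.1 - q'.1.2 ≤ n + rkN u q.1.1 q.1.2 - q.1.1 - q.1.2 ∧
        rkN u q.1.1 q.1.2 ≤ rkN u q'.1.1 q'.1.2 ∧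
        n + rkN u q'.1.1 q'.1.2 - q'.1.1 - q'.1.2 -
            (rkN u q'.1.1 q'.1.2 - rkN v q'.1.1 q'.1.2) <
          n + rkN u q.1.1 q.1.2 - q.1.1 - q.1.2 - (rkN u q.1.1 q.1.2 - rkN v q.1.1 q.1.2) ∧
        rkN u q.1.1 q.1.2 - (rkN u q.1.1 q.1.2 - rkN v q.1.1 q.1.2) <
          rkN u q'.1.1 q'.1.2 - (rkN u q'.1.1 q'.1.2 - rkN v q'.1.1 q'.1.2)) := by
    intro q q' hne h1 h2
    have hne' : q.1 ≠ q'.1 := fun h => hne (Subtype.ext h)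
    obtain ⟨m1, m2⟩ := hT.mono q.1 q.2 q'.1 q'.2 hne' h1 h2
    have l1 := hu.lip q.1.1 q'.1.1 q.1.2 q'.1.2
    have l2 := hu.mono q.1.1 q'.1.1 q.1.2 q'.1.2 h1 h2
    have p1 := (hT.pos q.1 q.2).2
    have p2 := (hT.pos q'.1 q'.2).2
    have e1 := hle q.1.1 q.1.2
    have e2 := hle q'.1.1 q'.1.2
    refine ⟨?_, l2, ?_, ?_⟩ <;> omega
  refine ⟨fun q => ?_, fun q => ?_, fun q q' hne => ?_⟩
  · have p1 := (hT.pos q.1 q.2).2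
    have e1 := hle q.1.1 q.1.2
    show rkN u q.1.1 q.1.2 - rkN v q.1.1 q.1.2 < n + rkN u q.1.1 q.1.2 - q.1.1 - q.1.2
    omega
  · have p1 := (hT.pos q.1 q.2).1
    have e1 := hle q.1.1 q.1.2
    show rkN u q.1.1 q.1.2 - rkN v q.1.1 q.1.2 < rkN u q.1.1 q.1.2
    omega
  · rcases hT.chain q.1 q.2 q'.1 q'.2 with ⟨h1, h2⟩ | ⟨h1, h2⟩
    · exact Or.inl (key q q' hne h1 h2)
    · obtain ⟨k1, k2, k3, k4⟩ := key q' q (Ne.symm hne) h1 h2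
      exact Or.inr ⟨k1, k2, k3, k4⟩

end XKEYI

theorem I_KEYI (hCHART : St_CHART) (hLADM : St_LADM) (hRKB : St_RKB) (_hLB : St_LB) :
    St_KEYI := by
  intro n u u' v T hT hu hu' hs
  obtain ⟨d, e, hq, -⟩ := hLADM {t : ℕ × ℕ // t ∈ T} _ _ _ (XKEYI.ladd hRKB hT hu)
  have hq' := hq
  have e1 : (fun t : {t : ℕ × ℕ // t ∈ T} => n + rkN u t.1.1 t.1.2 - t.1.1 - t.1.2) =
      fun t => n + rkN u' t.1.1 t.1.2 - t.1.1 - t.1.2 := by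
    funext t
    rw [hs t.1 t.2]
  have e2 : (fun t : {t : ℕ × ℕ // t ∈ T} => rkN u t.1.1 t.1.2) =
      fun t => rkN u' t.1.1 t.1.2 := by
    funext t
    rw [hs t.1 t.2]
  have e3 : (fun t : {t : ℕ × ℕ // t ∈ T} => rkN u t.1.1 t.1.2 - rkN v t.1.1 t.1.2) =
      fun t => rkN u' t.1.1 t.1.2 - rkN v t.1.1 t.1.2 := by
    funext t
    rw [hs t.1 t.2]
  rw [e1, e2, e3] at hq'
  obtain ⟨d1, h1⟩ := hCHART n u v T hT hu d e hq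
  obtain ⟨d2, h2⟩ := hCHART n u' v T hT hu' d e hq'
  exact ⟨d1, d2, e, h1, h2⟩

end Pool.Agent.COV
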