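import Pool.Agent.Work.MP_1c6e58_ag.COV.Stmts

set_option autoImplicit false

open Finset

namespace Pool.Agent.COV

open Pool.Agent.SH

namespace XKNB

variable {n : ℕ}

lemma mono (x : Equiv.Perm (Fin n)) (z : Co n → ℂ) (a a' b b' : ℕ) (ha : a ≤ a') (hb : b ≤ b') :
    KN x z a b ≤ KN x z a' b' := by
  intro c hc
  exact ⟨fun j hj => hc.1 j (ha.trans hj), fun i hi => hc.2 i (hb.trans hi)⟩

lemma one_fun (S T : Submodule ℂ (Fin n → ℂ)) (φ : (Fin n → ℂ) →ₗ[ℂ] ℂ)
    (h : ∀ c ∈ S, φ c = 0 → c ∈ T) : Module.finrank ℂ S ≤ Module.finrank ℂ T + 1 := by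
  set ψ : S →ₗ[ℂ] ℂ := φ.domRestrict S with hψ
  have h1 := LinearMap.finrank_range_add_finrank_ker ψ
  have h2 : Module.finrank ℂ (LinearMap.range ψ) ≤ 1 := by
    have := Submodule.finrank_le (LinearMap.range ψ)
    simpa using this
  have h3 : Module.finrank ℂ (LinearMap.ker ψ) ≤ Module.finrank ℂ T := by
    let f : LinearMap.ker ψ →ₗ[ℂ] T :=
      { toFun := fun c => ⟨c.1.1, h c.1.1 c.1.2 (by
          have h5 : ψ c.1 = 0 := LinearMap.mem_ker.1 c.2
          exact h5)⟩
        map_add' := fun c d => rfl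
        map_smul' := fun r c => rfl }
    apply LinearMap.finrank_le_finrank_of_injective (f := f)
    intro c d hcd
    have := congrArg (fun t : T => (t : Fin n → ℂ)) hcd
    exact Subtype.ext (Subtype.ext this)
  omega

lemma stepa (x : Equiv.Perm (Fin n)) (z : Co n → ℂ) (a b : ℕ) :
    Module.finrank ℂ (KN x z (a + 1) b) ≤ Module.finrank ℂ (KN x z a b) + 1 := by
  by_cases ha : a < n
  · apply one_fun _ _ (LinearMap.proj (⟨a, ha⟩ : Fin n))
    intro c hc h0
    refine ⟨fun j hj => ?_, hc.2⟩
    rcases Nat.eq_or_lt_of_le hj with h | h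
    · have : j = ⟨a, ha⟩ := Fin.ext h.symm
      rw [this]; simpa using h0
    · exact hc.1 j h
  · have : KN x z (a + 1) b ≤ KN x z a b := by
      intro c hc
      refine ⟨fun j hj => ?_, hc.2⟩
      exact absurd j.2 (by omega)
    have := Submodule.finrank_mono this
    omega

lemma stepb (x : Equiv.Perm (Fin n)) (z : Co n → ℂ) (a b : ℕ) :
    Module.finrank ℂ (KN x z a (b + 1)) ≤ Module.finrank ℂ (KN x z a b) + 1 := by
  by_cases hb : b < n
  · apply one_fun _ _ (∑ j, Um z (x.symm ⟨b, hb⟩) j • (LinearMap.proj j : (Fin n → ℂ) →ₗ[ℂ] ℂ))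
    intro c hc h0
    refine ⟨hc.1, fun i hi => ?_⟩
    rcases Nat.eq_or_lt_of_le hi with h | h
    · have h1 : x i = ⟨b, hb⟩ := Fin.ext h.symm
      have h2 : i = x.symm ⟨b, hb⟩ := by rw [← h1]; simp
      rw [h2]
      simpa [LinearMap.sum_apply] using h0
    · exact hc.2 i h
  · have : KN x z a (b + 1) ≤ KN x z a b := by
      intro c hc
      refine ⟨hc.1, fun i hi => ?_⟩
      exact absurd (x i).2 (by omega)
    have := Submodule.finrank_mono this
    omega

lemma stepsa (x : Equiv.Perm (Fin n)) (z : Co n → ℂ) (a b d : ℕ) :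
    Module.finrank ℂ (KN x z (a + d) b) ≤ Module.finrank ℂ (KN x z a b) + d := by
  induction d with
  | zero => simp
  | succ d ih =>
    have := stepa x z (a + d) b
    rw [← add_assoc]
    omega

lemma stepsb (x : Equiv.Perm (Fin n)) (z : Co n → ℂ) (a b d : ℕ) :
    Module.finrank ℂ (KN x z a (b + d)) ≤ Module.finrank ℂ (KN x z a b) + d := by
  induction d with
  | zero => simp
  | succ d ih =>
    have := stepb x z a (b + d)
    rw [← add_assoc]
    omega

lemma lip (x : Equiv.Perm (Fin n)) (z : Co n → ℂ) (a a' b b' : ℕ) :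
    Module.finrank ℂ (KN x z a' b') ≤
      Module.finrank ℂ (KN x z a b) + (a' - a) + (b' - b) := by
  have h1 : Module.finrank ℂ (KN x z a' b') ≤ Module.finrank ℂ (KN x z a b') + (a' - a) := by
    rcases le_total a a' with h | h
    · have := stepsa x z a b' (a' - a)
      rwa [Nat.add_sub_cancel' h] at this
    · have := Submodule.finrank_mono (mono x z a' a b' b' h le_rfl)
      omega
  have h2 : Module.finrank ℂ (KN x z a b') ≤ Module.finrank ℂ (KN x z a b) + (b' - b) := by
    rcases le_total b b' with h | h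
    · have := stepsb x z a b (b' - b)
      rwa [Nat.add_sub_cancel' h] at this
    · have := Submodule.finrank_mono (mono x z a a b' b le_rfl h)
      omega
  omega

lemma top (x : Equiv.Perm (Fin n)) (z : Co n → ℂ) : Module.finrank ℂ (KN x z n n) = n := by
  have : KN x z n n = ⊤ := by
    rw [eq_top_iff]
    intro c _
    exact ⟨fun j hj => absurd j.2 (by omega), fun i hi => absurd (x i).2 (by omega)⟩
  rw [this, finrank_top]
  simp

lemma upper (x : Equiv.Perm (Fin n)) (z : Co n → ℂ) (a b : ℕ) :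
    Module.finrank ℂ (KN x z a b) ≤ rkN x a b := by
  set P : Finset (Fin n) := univ.filter (fun j : Fin n => (j : ℕ) < a ∧ (x j : ℕ) < b) with hP
  have h1 : rkN x a b = Module.finrank ℂ (P → ℂ) := by
    rw [Module.finrank_fintype_fun_eq_card, Fintype.card_coe]
    rfl
  rw [h1]
  let f : KN x z a b →ₗ[ℂ] (P → ℂ) :=
    { toFun := fun c j => c.1 j.1
      map_add' := fun c d => rfl
      map_smul' := fun r c => rfl }
  apply LinearMap.finrank_le_finrank_of_injective (f := f)
  rw [← LinearMap.ker_eq_bot, LinearMap.ker_eq_bot']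
  intro c hc
  have h0 : ∀ j : Fin n, (j : ℕ) < a → (x j : ℕ) < b → c.1 j = 0 := by
    intro j hj1 hj2
    have := congrFun hc ⟨j, by rw [hP, mem_filter]; exact ⟨mem_univ _, hj1, hj2⟩⟩
    exact this
  have key : ∀ m : ℕ, ∀ h : Fin n, (h : ℕ) = m → c.1 h = 0 := by
    intro m
    induction m using Nat.strong_induction_on with
    | _ m ih =>
      intro h hm
      by_cases h1 : a ≤ (h : ℕ)
      · exact c.2.1 h h1
      by_cases h2 : (x h : ℕ) < b
      · exact h0 h (by omega) h2
      have h3 := c.2.2 h (by omega)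
      rw [Finset.sum_eq_single h] at h3
      · have : Um z h h = 1 := by simp [Um]
        rw [this, one_mul] at h3
        exact h3
      · intro j _ hj
        rcases lt_or_gt_of_ne hj with h4 | h4
        · rw [ih j (by rw [← hm]; exact h4) j rfl, mul_zero]
        · have : Um z h j = 0 := by
            unfold Um
            rw [dif_neg (not_lt.2 h4.le), if_neg (ne_of_lt h4)]
          rw [this, zero_mul]
      · intro h5; exact absurd (mem_univ _) h5
  apply Subtype.ext
  funext h
  exact key _ h rfl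

lemma kp_eq (x : Equiv.Perm (Fin n)) (z : Co n → ℂ) (p q : Fin n) :
    Kp x z p q = KN x z ((p : ℕ) + 1) ((q : ℕ) + 1) := by
  ext c
  constructor
  · intro hc
    exact ⟨fun j hj => hc.1 j hj, fun i hi => hc.2 i hi⟩
  · intro hc
    exact ⟨fun j hj => hc.1 j hj, fun i hi => hc.2 i hi⟩

end XKNB

theorem I_KNB (hRKB : St_RKB) (hKP : SH.St_KP) : St_KNB := by
  intro n x z
  refine ⟨XKNB.mono x z, XKNB.lip x z, ?_, XKNB.upper x z, ?_⟩
  · intro a b ha hb
    have h1 := XKNB.lip x z a n b n
    rw [XKNB.top] at h1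
    omega
  · intro w
    have hR := (hRKB n).1 w
    constructor
    · intro h a b ha hb
      rcases Nat.eq_zero_or_pos a with rfl | ha0
      · rw [hR.zl]; exact Nat.zero_le _
      rcases Nat.eq_zero_or_pos b with rfl | hb0
      · rw [hR.zr]; exact Nat.zero_le _
      have h1 := h (⟨a - 1, by omega⟩ : Fin n) (⟨b - 1, by omega⟩ : Fin n)
      rw [hKP, XKNB.kp_eq, hR.rk] at h1
      have ea : a - 1 + 1 = a := by omega
      have eb : b - 1 + 1 = b := by omega
      have h2 : ((⟨a - 1, by omega⟩ : Fin n) : ℕ) + 1 = a := ea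
      have h3 : ((⟨b - 1, by omega⟩ : Fin n) : ℕ) + 1 = b := eb
      rw [h2, h3] at h1
      exact h1
    · intro h p q
      rw [hKP, XKNB.kp_eq, hR.rk]
      exact h _ _ p.2 q.2

end Pool.Agent.COV
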