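import Pool.Agent.Work.MP_1c6e58_ag.COV.Stmts

/-!
MP_1c6e58_ag, project COV, item KND: the spaces `KN` after the deletion of a position.
-/

set_option autoImplicit false

open Finset

namespace Pool.Agent.COV

open Pool.Agent.SH

namespace XKND

theorem wsucc {m : ℕ} (w : Equiv.Perm (Fin (m + 1))) (i : Fin (m + 1)) (w' : Equiv.Perm (Fin m))
    (h : IsPat w' w (Fin.succAboveOrderEmb i)) (k : Fin m) :
    w (i.succAbove k) = (w i).succAbove (w' k) := by
  classical
  have hex : ∀ k : Fin m, ∃ l : Fin m, (w i).succAbove l = w (i.succAbove k) := by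
    intro k
    apply Fin.exists_succAbove_eq
    intro h2
    exact Fin.succAbove_ne i k (w.injective h2)
  choose f hf using hex
  have hfinj : Function.Injective f := by
    intro k l hkl
    have h1 : w (i.succAbove k) = w (i.succAbove l) := by rw [← hf k, ← hf l, hkl]
    exact Fin.succAbove_right_injective (w.injective h1)
  let e : Equiv.Perm (Fin m) := Equiv.ofBijective f (Finite.injective_iff_bijective.1 hfinj)
  have he : ∀ k, e k = f k := fun _ => rfl
  have hlt : ∀ k l, f k < f l ↔ w' k < w' l := by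
    intro k l
    rw [← h k l]
    have h1 : w (Fin.succAboveOrderEmb i k) = (w i).succAbove (f k) := (hf k).symm
    have h2 : w (Fin.succAboveOrderEmb i l) = (w i).succAbove (f l) := (hf l).symm
    rw [h1, h2]
    exact (Fin.strictMono_succAbove (w i)).lt_iff_lt.symm
  have hle : ∀ k l, f k ≤ f l ↔ w' k ≤ w' l := by
    intro k l
    rw [← not_lt, ← not_lt, hlt]
  let o : Fin m ≃o Fin m :=
    { toEquiv := e.symm.trans w'
      map_rel_iff' := by
        intro x y
        simp only [Equiv.trans_apply]
        rw [← hle, ← he, ← he, Equiv.apply_symm_apply, Equiv.apply_symm_apply] }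
  have ho : o = OrderIso.refl _ := Subsingleton.elim _ _
  have h3 : w' k = f k := by
    have h4 : o (e k) = e k := by rw [ho]; rfl
    have h5 : o (e k) = w' k := by
      change w' (e.symm (e k)) = w' k
      rw [Equiv.symm_apply_apply]
    rw [← h5, h4, he]
  rw [h3, hf]

theorem cutA {m : ℕ} (i : Fin (m + 1)) (a : ℕ) (k : Fin m) :
    a ≤ (i.succAbove k : ℕ) ↔ (if (i : ℕ) < a then a - 1 else a) ≤ (k : ℕ) := by
  unfold Fin.succAbove
  by_cases h : k.castSucc < i
  · have h' : (k : ℕ) < i := h
    rw [if_pos h]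
    simp only [Fin.val_castSucc]
    split_ifs <;> omega
  · have h' : (i : ℕ) ≤ k := by
      have := not_lt.1 h
      exact this
    rw [if_neg h]
    simp only [Fin.val_succ]
    split_ifs <;> omega

theorem um_res {m : ℕ} (i : Fin (m + 1)) (z : Co (m + 1) → ℂ) (k l : Fin m) :
    Um z (i.succAbove k) (i.succAbove l) = Um (resC (Fin.succAboveOrderEmb i) z) k l := by
  unfold Um
  have hlt : i.succAbove l < i.succAbove k ↔ l < k := (Fin.strictMono_succAbove i).lt_iff_lt
  have heq : i.succAbove k = i.succAbove l ↔ k = l :=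
    (Fin.succAbove_right_injective (p := i)).eq_iff
  by_cases h : l < k
  · rw [dif_pos (hlt.2 h), dif_pos h]
    rfl
  · rw [dif_neg (fun h' => h (hlt.1 h')), dif_neg h]
    by_cases h2 : k = l
    · rw [if_pos h2, if_pos (heq.2 h2)]
    · rw [if_neg h2, if_neg (fun h' => h2 (heq.1 h'))]

theorem um_row {m : ℕ} (i : Fin (m + 1)) (z : Co (m + 1) → ℂ)
    (hz : ∀ c : Co (m + 1), (c.1.1 = i ∨ c.1.2 = i) → z c = 0) (k : Fin m) :
    Um z i (i.succAbove k) = 0 := by
  unfold Um
  by_cases h : i.succAbove k < i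
  · rw [dif_pos h]
    exact hz _ (Or.inl rfl)
  · rw [dif_neg h, if_neg (Fin.succAbove_ne i k).symm]

theorem um_col {m : ℕ} (i : Fin (m + 1)) (z : Co (m + 1) → ℂ)
    (hz : ∀ c : Co (m + 1), (c.1.1 = i ∨ c.1.2 = i) → z c = 0) (k : Fin m) :
    Um z (i.succAbove k) i = 0 := by
  unfold Um
  by_cases h : i < i.succAbove k
  · rw [dif_pos h]
    exact hz _ (Or.inr rfl)
  · rw [dif_neg h, if_neg (Fin.succAbove_ne i k)]

theorem um_diag {m : ℕ} (i : Fin (m + 1)) (z : Co (m + 1) → ℂ) : Um z i i = 1 := by
  unfold Um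
  rw [dif_neg (lt_irrefl _), if_pos rfl]

theorem memKN {m : ℕ} (w : Equiv.Perm (Fin (m + 1))) (i : Fin (m + 1))
    (w' : Equiv.Perm (Fin m)) (hp : IsPat w' w (Fin.succAboveOrderEmb i)) (z : Co (m + 1) → ℂ)
    (hz : ∀ c : Co (m + 1), (c.1.1 = i ∨ c.1.2 = i) → z c = 0) (a b : ℕ)
    (c : Fin (m + 1) → ℂ) :
    c ∈ KN w z a b ↔
      (fun k => c (i.succAbove k)) ∈ KN w' (resC (Fin.succAboveOrderEmb i) z)
        (if (i : ℕ) < a then a - 1 else a) (if (w i : ℕ) < b then b - 1 else b) ∧
      (¬ ((i : ℕ) < a ∧ (w i : ℕ) < b) → c i = 0) := by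
  have e1 : ∑ j, Um z i j * c j = c i := by
    rw [Fin.sum_univ_succAbove _ i, um_diag, one_mul]
    simp only [um_row i z hz, zero_mul, Finset.sum_const_zero, add_zero]
  have e2 : ∀ k : Fin m, ∑ j, Um z (i.succAbove k) j * c j =
      ∑ l, Um (resC (Fin.succAboveOrderEmb i) z) k l * c (i.succAbove l) := by
    intro k
    rw [Fin.sum_univ_succAbove _ i, um_col i z hz, zero_mul, zero_add]
    exact Finset.sum_congr rfl fun l _ => by rw [um_res]
  constructor
  · intro h
    refine ⟨⟨fun k hk => ?_, fun k hk => ?_⟩, fun hn => ?_⟩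
    · exact h.1 _ ((cutA i a k).2 hk)
    · rw [← e2]
      apply h.2
      rw [wsucc w i w' hp]
      exact (cutA (w i) b (w' k)).2 hk
    · by_cases h1 : (i : ℕ) < a
      · have h2 : b ≤ (w i : ℕ) := by
          by_contra hcon
          exact hn ⟨h1, not_le.1 hcon⟩
        rw [← e1]
        exact h.2 i h2
      · exact h.1 i (not_lt.1 h1)
  · rintro ⟨⟨h1, h2⟩, h3⟩
    constructor
    · refine (Fin.forall_iff_succAbove i).2 ⟨fun hi => ?_, fun k hk => ?_⟩
      · exact h3 (fun h => absurd h.1 (not_lt.2 hi))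
      · exact h1 k ((cutA i a k).1 hk)
    · refine (Fin.forall_iff_succAbove i).2 ⟨fun hi => ?_, fun k hk => ?_⟩
      · rw [e1]
        exact h3 (fun h => absurd h.2 (not_lt.2 hi))
      · rw [e2]
        apply h2
        rw [wsucc w i w' hp] at hk
        exact (cutA (w i) b (w' k)).1 hk

/-- The coordinate at the deleted position. -/
def DD (P : Prop) : Submodule ℂ ℂ where
  carrier := {x | ¬ P → x = 0}
  zero_mem' := fun _ => rfl
  add_mem' := by
    intro x y hx hy h
    rw [hx h, hy h, add_zero]
  smul_mem' := by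
    intro c x hx h
    rw [hx h, smul_zero]

theorem DD_rank (P : Prop) [Decidable P] : Module.finrank ℂ (DD P) = if P then 1 else 0 := by
  by_cases h : P
  · have : DD P = ⊤ := by
      ext x
      simp only [Submodule.mem_top, iff_true]
      exact fun hn => absurd h hn
    rw [if_pos h, this, finrank_top]
    exact Module.finrank_self ℂ
  · have : DD P = ⊥ := by
      ext x
      rw [Submodule.mem_bot]
      exact ⟨fun hx => hx h, fun hx _ => hx⟩
    rw [if_neg h, this, finrank_bot]

end XKND

/-- **Item KND.** -/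
theorem I_KND (_hRKB : St_RKB) : St_KND := by
  intro m w i w' hp z hz a b _ _
  have hmem := XKND.memKN w i w' hp z hz a b
  let S' := KN w' (resC (Fin.succAboveOrderEmb i) z)
      (if (i : ℕ) < a then a - 1 else a) (if (w i : ℕ) < b then b - 1 else b)
  let P : Prop := (i : ℕ) < a ∧ (w i : ℕ) < b
  let e : KN w z a b ≃ₗ[ℂ] S' × XKND.DD P :=
    { toFun := fun c => (⟨fun k => c.1 (i.succAbove k), ((hmem c.1).1 c.2).1⟩,
        ⟨c.1 i, ((hmem c.1).1 c.2).2⟩)
      map_add' := fun _ _ => rfl
      map_smul' := fun _ _ => rfl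
      invFun := fun d => ⟨i.insertNth (α := fun _ => ℂ) d.2.1 d.1.1, by
        rw [hmem]
        constructor
        · have : (fun k => i.insertNth (α := fun _ => ℂ) (d.2 : ℂ) (d.1 : Fin m → ℂ)
              (i.succAbove k)) = (d.1 : Fin m → ℂ) := by
            funext k
            exact Fin.insertNth_apply_succAbove (α := fun _ => ℂ) i _ _ k
          rw [this]
          exact d.1.2
        · rw [Fin.insertNth_apply_same]
          exact d.2.2⟩
      left_inv := by
        intro c
        apply Subtype.ext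
        funext j
        refine (Fin.forall_iff_succAbove (P := fun j => i.insertNth (α := fun _ => ℂ) (c.1 i)
          (fun k => c.1 (i.succAbove k)) j = c.1 j) i).2 ⟨?_, fun k => ?_⟩ j
        · exact Fin.insertNth_apply_same (α := fun _ => ℂ) i _ _
        · exact Fin.insertNth_apply_succAbove (α := fun _ => ℂ) i _ _ k
      right_inv := by
        intro d
        apply Prod.ext
        · apply Subtype.ext
          funext k
          exact Fin.insertNth_apply_succAbove (α := fun _ => ℂ) i _ _ k
        · apply Subtype.ext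
          exact Fin.insertNth_apply_same (α := fun _ => ℂ) i _ _ }
  have h1 := e.finrank_eq
  rw [Module.finrank_prod, XKND.DD_rank] at h1
  exact h1

end Pool.Agent.COV
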