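import Pool.Agent.Work.MP_1c6e58_ag.COV.Stmts

/-!
MP_1c6e58_ag, project COV, item LADC: from the ladder to the chart.
-/

set_option autoImplicit false

open Finset

namespace Pool.Agent.COV

open Pool.Agent.SH

namespace XLADC

variable {n : ℕ}

open Classical in
/-- The rows. -/
noncomputable def FA (u : Equiv.Perm (Fin n)) (t : ℕ × ℕ) : Finset (Fin n) :=
  univ.filter (fun i => tA u t i)

open Classical in
/-- The columns. -/
noncomputable def FB (u : Equiv.Perm (Fin n)) (t : ℕ × ℕ) : Finset (Fin n) :=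
  univ.filter (fun i => tB u t i)

theorem mem_FA (u : Equiv.Perm (Fin n)) (t : ℕ × ℕ) (i : Fin n) : i ∈ FA u t ↔ tA u t i := by
  classical
  simp [FA]

theorem mem_FB (u : Equiv.Perm (Fin n)) (t : ℕ × ℕ) (i : Fin n) : i ∈ FB u t ↔ tB u t i := by
  classical
  simp [FB]

theorem card_FA (u : Equiv.Perm (Fin n)) (hu : RkF u) (t : ℕ × ℕ) (h1 : t.1 ≤ n) (h2 : t.2 ≤ n) :
    (FA u t).card = n + rkN u t.1 t.2 - t.1 - t.2 := by
  have h := hu.cntA t.1 t.2 h1 h2
  have h3 : FA u t = univ.filter (fun j : Fin n => t.1 ≤ (j : ℕ) ∧ t.2 ≤ (u j : ℕ)) := by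
    ext i
    rw [mem_FA]
    simp [tA]
  rw [h3]
  omega

theorem card_FB (u : Equiv.Perm (Fin n)) (t : ℕ × ℕ) : (FB u t).card = rkN u t.1 t.2 := by
  have h3 : FB u t = univ.filter (fun j : Fin n => (j : ℕ) < t.1 ∧ (u j : ℕ) < t.2) := by
    ext i
    rw [mem_FB]
    simp [tB]
  rw [h3]
  rfl

theorem FA_mono (u : Equiv.Perm (Fin n)) (s t : ℕ × ℕ) (h : tle s t) : FA u t ⊆ FA u s := by
  intro i hi
  rw [mem_FA] at hi ⊢
  exact ⟨le_trans h.1 hi.1, le_trans h.2 hi.2⟩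

theorem FB_mono (u : Equiv.Perm (Fin n)) (s t : ℕ × ℕ) (h : tle s t) : FB u s ⊆ FB u t := by
  intro i hi
  rw [mem_FB] at hi ⊢
  exact ⟨lt_of_lt_of_le hi.1 h.1, lt_of_lt_of_le hi.2 h.2⟩

/-- A numbering of a set by an initial segment is onto. -/
theorem surj_of (F : Finset (Fin n)) (ν : Fin n → ℕ) (hν : Function.Injective ν)
    (h : ∀ i, i ∈ F ↔ ν i < F.card) (a : ℕ) (ha : a < F.card) : ∃ i, i ∈ F ∧ ν i = a := by
  have h1 : F.image ν = range F.card := by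
    apply Finset.eq_of_subset_of_card_le
    · intro x hx
      rw [Finset.mem_image] at hx
      obtain ⟨i, hi, rfl⟩ := hx
      exact Finset.mem_range.mpr ((h i).mp hi)
    · rw [Finset.card_image_of_injective F hν, Finset.card_range]
  have h2 : a ∈ F.image ν := by
    rw [h1]
    exact Finset.mem_range.mpr ha
  rw [Finset.mem_image] at h2
  exact h2

/-- The multiplicity depends only on the series. -/
theorem MQ_congr {σ τ : Type} (Z : Set (σ → ℂ)) (Z' : Set (τ → ℂ)) (h : HS Z = HS Z') (d e : ℕ)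
    (hM : MQ Z' d e) : MQ Z d e := by
  unfold MQ at hM ⊢
  rw [h]
  exact hM

end XLADC

open XLADC in
theorem I_LADC (hRKB : St_RKB) (hNEST : St_NEST) (hREI : St_REI) (hMPROD : St_MPROD)
    (hCOORD : St_COORD) : St_LADC := by
  classical
  intro n u T ρ hch hbd d e hM
  have hu : RkF u := (hRKB n).1 u
  set Aq : {t : ℕ × ℕ // t ∈ T} → ℕ := fun t => n + rkN u t.1.1 t.1.2 - t.1.1 - t.1.2 with hAq
  set Bq : {t : ℕ × ℕ // t ∈ T} → ℕ := fun t => rkN u t.1.1 t.1.2 with hBq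
  have hcA : ∀ t : {t : ℕ × ℕ // t ∈ T}, (FA u t.1).card = Aq t := fun t =>
    card_FA u hu t.1 (hbd t.1 t.2).1 (hbd t.1 t.2).2
  have hcB : ∀ t : {t : ℕ × ℕ // t ∈ T}, (FB u t.1).card = Bq t := fun t => card_FB u t.1
  obtain ⟨ν, hν, hν2⟩ := hNEST n {t : ℕ × ℕ // t ∈ T} (fun t => FA u t.1) (by
    intro q q'
    rcases hch q.1 q.2 q'.1 q'.2 with h | h
    · exact Or.inr (FA_mono u _ _ h)
    · exact Or.inl (FA_mono u _ _ h))
  obtain ⟨μ, hμ, hμ2⟩ := hNEST n {t : ℕ × ℕ // t ∈ T} (fun t => FB u t.1) (by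
    intro q q'
    rcases hch q.1 q.2 q'.1 q'.2 with h | h
    · exact Or.inl (FB_mono u _ _ h)
    · exact Or.inr (FB_mono u _ _ h))
  have hA : ∀ (t : {t : ℕ × ℕ // t ∈ T}) (i : Fin n), tA u t.1 i ↔ ν i < Aq t := by
    intro t i
    rw [← mem_FA, hν2 t i, hcA t]
  have hB : ∀ (t : {t : ℕ × ℕ // t ∈ T}) (j : Fin n), tB u t.1 j ↔ μ j < Bq t := by
    intro t j
    rw [← mem_FB, hμ2 t j, hcB t]
  -- the two sets of coordinates
  let p : Co n → Prop := fun c => ∃ t : {t : ℕ × ℕ // t ∈ T}, tA u t.1 c.1.1 ∧ tB u t.1 c.1.2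
  let φ : {c : Co n // p c} → LCell Aq Bq := fun c =>
    ⟨(ν c.1.1.1, μ c.1.1.2), by
      obtain ⟨t, h1, h2⟩ := c.2
      exact ⟨t, (hA t _).mp h1, (hB t _).mp h2⟩⟩
  have hφ : Function.Bijective φ := by
    constructor
    · intro c c' h
      have h1 : (ν c.1.1.1, μ c.1.1.2) = (ν c'.1.1.1, μ c'.1.1.2) := congrArg Subtype.val h
      rw [Prod.mk.injEq] at h1
      apply Subtype.ext
      apply Subtype.ext
      exact Prod.ext (hν h1.1) (hμ h1.2)
    · rintro ⟨⟨a, b⟩, t, h1, h2⟩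
      simp only at h1 h2
      obtain ⟨i, hi, hia⟩ := surj_of (FA u t.1) ν hν (fun i => hν2 t i) a (by rw [hcA t]; exact h1)
      obtain ⟨j, hj, hjb⟩ := surj_of (FB u t.1) μ hμ (fun j => hμ2 t j) b (by rw [hcB t]; exact h2)
      rw [mem_FA] at hi
      rw [mem_FB] at hj
      have hji : j < i := by
        rw [Fin.lt_def]
        exact lt_of_lt_of_le hj.1 hi.1
      refine ⟨⟨⟨(i, j), hji⟩, ⟨t, hi, hj⟩⟩, ?_⟩
      apply Subtype.ext
      exact Prod.ext hia hjb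
  let e1 : {c : Co n // p c} ≃ LCell Aq Bq := Equiv.ofBijective φ hφ
  have he1 : ∀ c : {c : Co n // p c}, (e1 c).1 = (ν c.1.1.1, μ c.1.1.2) := fun c => rfl
  let F : LCell Aq Bq ⊕ {c : Co n // ¬ p c} ≃ Co n :=
    (Equiv.sumCongr e1.symm (Equiv.refl _)).trans (Equiv.sumCompl p)
  have hF : ∀ i : LCell Aq Bq, F (Sum.inl i) = (e1.symm i).1 := fun i => rfl
  let _ : Fintype (LCell Aq Bq) := Fintype.ofEquiv _ e1
  have hHS : HS (Z1 u T ρ) =
      HS (prodS (Zlad Aq Bq (fun t : {t : ℕ × ℕ // t ∈ T} => ρ t.1))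
        (coordS ((∅ : Finset {c : Co n // ¬ p c}) : Set {c : Co n // ¬ p c}))) := by
    apply hREI (Co n) (LCell Aq Bq ⊕ {c : Co n // ¬ p c}) F.symm
    intro z
    rw [Equiv.symm_symm]
    constructor
    · intro hz
      refine ⟨?_, ?_⟩
      · intro q
        obtain ⟨f, g, hfg⟩ := hz q.1 q.2
        refine ⟨fun l => Function.extend ν (f l) 0, fun l => Function.extend μ (g l) 0, ?_⟩
        intro c h1 h2
        obtain ⟨c', rfl⟩ := e1.surjective c
        show z (F (Sum.inl (e1 c'))) = _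
        rw [hF, Equiv.symm_apply_apply]
        rw [he1] at h1 h2 ⊢
        simp only at h1 h2 ⊢
        rw [hfg c'.1 ((hA q _).mpr h1) ((hB q _).mpr h2)]
        apply Finset.sum_congr rfl
        intro l _
        rw [hν.extend_apply, hμ.extend_apply]
      · intro i hi
        simp at hi
    · rintro ⟨hz, -⟩
      intro t ht
      obtain ⟨f, g, hfg⟩ := hz ⟨t, ht⟩
      refine ⟨fun l i => f l (ν i), fun l j => g l (μ j), ?_⟩
      intro c h1 h2
      have hp : p c := ⟨⟨t, ht⟩, h1, h2⟩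
      have h3 := hfg (e1 ⟨c, hp⟩) (by rw [he1]; exact (hA ⟨t, ht⟩ _).mp h1)
        (by rw [he1]; exact (hB ⟨t, ht⟩ _).mp h2)
      have h4 : z (F (Sum.inl (e1 ⟨c, hp⟩))) = z c := by
        rw [hF, Equiv.symm_apply_apply]
      rw [← h4]
      rw [he1] at h3
      exact h3
  have h5 := hMPROD (LCell Aq Bq) {c : Co n // ¬ p c} _ _ d e _ 1 hM
    (hCOORD {c : Co n // ¬ p c} ∅)
  rw [mul_one] at h5
  exact ⟨_, MQ_congr _ _ hHS _ _ h5⟩

end Pool.Agent.COV
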