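import Pool.Agent.Work.MP_1c6e58_ag.COV.Stmts

/-!
MP_1c6e58_ag, project COV, item LB: lower bounds for the multiplicity.
-/

set_option autoImplicit false

open Finset

namespace Pool.Agent.COV

open Pool.Agent.SH

namespace XLB

/-- One ordered pair of conditions. -/
theorem pair {n : ℕ} {u v : Equiv.Perm (Fin n)} {T : Finset (ℕ × ℕ)} (hT : EssT v T)
    (hu : RkF u) (hle : ∀ a b, rkN v a b ≤ rkN u a b) (t t' : ℕ × ℕ) (ht : t ∈ T) (ht' : t' ∈ T)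
    (hne : t ≠ t') (h1 : t.1 ≤ t'.1) (h2 : t.2 ≤ t'.2) :
    n + rkN u t'.1 t'.2 - t'.1 - t'.2 ≤ n + rkN u t.1 t.2 - t.1 - t.2 ∧
    rkN u t.1 t.2 ≤ rkN u t'.1 t'.2 ∧
    (n + rkN u t'.1 t'.2 - t'.1 - t'.2) - (rkN u t'.1 t'.2 - rkN v t'.1 t'.2) <
      (n + rkN u t.1 t.2 - t.1 - t.2) - (rkN u t.1 t.2 - rkN v t.1 t.2) ∧
    rkN u t.1 t.2 - (rkN u t.1 t.2 - rkN v t.1 t.2) <
      rkN u t'.1 t'.2 - (rkN u t'.1 t'.2 - rkN v t'.1 t'.2) := by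
  have a1 := hT.bd t ht
  have a2 := hT.bd t' ht'
  have a3 := hT.pos t ht
  have a4 := hT.pos t' ht'
  have a5 := hT.mono t ht t' ht' hne h1 h2
  have a6 := hu.mono t.1 t'.1 t.2 t'.2 h1 h2
  have a7 := hu.lip t.1 t'.1 t.2 t'.2
  have a8 := hle t.1 t.2
  have a9 := hle t'.1 t'.2
  have a10 := hu.low t.1 t.2 (by omega) (by omega)
  have a11 := hu.low t'.1 t'.2 (by omega) (by omega)
  refine ⟨?_, a6, ?_, ?_⟩ <;> omega

/-- The conditions on the ladder. -/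
theorem ladd {n : ℕ} {u v : Equiv.Perm (Fin n)} {T : Finset (ℕ × ℕ)} (hT : EssT v T)
    (hu : RkF u) (hle : ∀ a b, rkN v a b ≤ rkN u a b) :
    Ladd (fun t : {t : ℕ × ℕ // t ∈ T} => n + rkN u t.1.1 t.1.2 - t.1.1 - t.1.2)
      (fun t => rkN u t.1.1 t.1.2) (fun t => rkN u t.1.1 t.1.2 - rkN v t.1.1 t.1.2) where
  ltA := by
    rintro ⟨t, ht⟩
    have a1 := hT.bd t ht
    have a3 := hT.pos t ht
    have a8 := hle t.1 t.2
    dsimp only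
    omega
  ltB := by
    rintro ⟨t, ht⟩
    have a3 := hT.pos t ht
    have a8 := hle t.1 t.2
    dsimp only
    omega
  ord := by
    rintro ⟨t, ht⟩ ⟨t', ht'⟩ hne
    have hne' : t ≠ t' := fun h => hne (Subtype.ext h)
    rcases hT.chain t ht t' ht' with ⟨h1, h2⟩ | ⟨h1, h2⟩
    · left
      exact pair hT hu hle t t' ht ht' hne' h1 h2
    · right
      exact pair hT hu hle t' t ht' ht hne'.symm h1 h2

end XLB

open XLB in
theorem I_LB (hRKB : St_RKB) (hCHART : St_CHART) (hLADM : St_LADM) : St_LB := by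
  intro n u v T s hT hBr hs
  obtain ⟨hF, hbr, -⟩ := hRKB n
  have hle : ∀ a b, rkN v a b ≤ rkN u a b := (hbr u v).1 hBr
  obtain ⟨d, e, hMQ, hlad⟩ := hLADM _ _ _ _ (ladd hT (hF u) hle)
  obtain ⟨d', hd'⟩ := hCHART n u v T hT hBr d e hMQ
  refine ⟨d', e, hd', ?_⟩
  have e1 : (fun t : {t : ℕ × ℕ // t ∈ T} => n + rkN u t.1.1 t.1.2 - t.1.1 - t.1.2) =
      fun t : {t : ℕ × ℕ // t ∈ T} => n + s t.1 - t.1.1 - t.1.2 := by
    funext t
    rw [hs t.1 t.2]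
  have e2 : (fun t : {t : ℕ × ℕ // t ∈ T} => rkN u t.1.1 t.1.2) =
      fun t : {t : ℕ × ℕ // t ∈ T} => s t.1 := by
    funext t
    rw [hs t.1 t.2]
  have e3 : (fun t : {t : ℕ × ℕ // t ∈ T} => rkN u t.1.1 t.1.2 - rkN v t.1.1 t.1.2) =
      fun t : {t : ℕ × ℕ // t ∈ T} => s t.1 - rkN v t.1.1 t.1.2 := by
    funext t
    rw [hs t.1 t.2]
  rw [e1, e2, e3] at hlad
  exact hlad

end Pool.Agent.COV
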