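import Pool.Agent.Work.MP_1c6e58_ag.COV.Stmts

/-!
MP_1c6e58_ag, project COV, item LEND: length after the deletion of a position.
-/

set_option autoImplicit false

open Finset

namespace Pool.Agent.COV

open Pool.Agent.SH

namespace XLEND

theorem cnt_lt {n : ℕ} (a : Fin n) : ∑ x : Fin n, (if x < a then (1 : ℤ) else 0) = (a : ℕ) := by
  rw [Finset.sum_boole]
  have h : (univ.filter (fun x : Fin n => x < a)) = Finset.Iio a := by
    ext x; simp
  rw [h, Fin.card_Iio]

theorem len_sum {n : ℕ} (w : Equiv.Perm (Fin n)) :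
    (len w : ℤ) = ∑ p : Fin n, ∑ q : Fin n, (if p < q ∧ w q < w p then (1 : ℤ) else 0) := by
  unfold len
  rw [← Finset.sum_boole, ← Finset.univ_product_univ, Finset.sum_product]

theorem rk_sum {n : ℕ} (w : Equiv.Perm (Fin n)) (i : Fin n) :
    (rkN w i (w i) : ℤ) = ∑ j : Fin n, (if j < i ∧ w j < w i then (1 : ℤ) else 0) := by
  unfold rkN
  rw [Finset.sum_boole]
  rfl

end XLEND

open XLEND in
theorem I_LEND (hRKB : St_RKB) : St_LEND := by
  clear hRKB
  intro m w i w' h
  rw [len_sum w, len_sum w', rk_sum w i]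
  have key : ∀ f : Fin (m + 1) → Fin (m + 1) → ℤ, f i i = 0 →
      ∑ p, ∑ q, f p q = (∑ p', ∑ q', f (i.succAbove p') (i.succAbove q'))
        + (∑ q, f i q) + ∑ p, f p i := by
    intro f hf
    rw [Fin.sum_univ_succAbove (fun p => ∑ q, f p q) i]
    rw [Fin.sum_univ_succAbove (fun p => f p i) i, hf]
    have : ∀ p', ∑ q, f (i.succAbove p') q = f (i.succAbove p') i +
        ∑ q', f (i.succAbove p') (i.succAbove q') := fun p' =>
      Fin.sum_univ_succAbove (fun q => f (i.succAbove p') q) i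
    simp only [this, Finset.sum_add_distrib]
    ring
  rw [key (fun p q => if p < q ∧ w q < w p then (1 : ℤ) else 0) (by simp)]
  have e1 : (∑ p' : Fin m, ∑ q' : Fin m, (if i.succAbove p' < i.succAbove q' ∧
      w (i.succAbove q') < w (i.succAbove p') then (1 : ℤ) else 0)) =
      ∑ p : Fin m, ∑ q : Fin m, (if p < q ∧ w' q < w' p then (1 : ℤ) else 0) := by
    refine Finset.sum_congr rfl fun p _ => Finset.sum_congr rfl fun q _ => ?_
    have a1 : i.succAbove p < i.succAbove q ↔ p < q :=
      (Fin.succAboveOrderEmb i).lt_iff_lt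
    have a2 : w (i.succAbove q) < w (i.succAbove p) ↔ w' q < w' p := h q p
    simp only [a1, a2]
  have e2 : (∑ q : Fin (m + 1), (if i < q ∧ w q < w i then (1 : ℤ) else 0)) =
      (w i : ℕ) - ∑ j : Fin (m + 1), (if j < i ∧ w j < w i then (1 : ℤ) else 0) := by
    rw [← cnt_lt (w i), ← Equiv.sum_comp w (fun x => if x < w i then (1 : ℤ) else 0),
      ← Finset.sum_sub_distrib]
    refine Finset.sum_congr rfl fun q _ => ?_
    rcases lt_trichotomy q i with hq | hq | hq
    · simp [hq, not_lt.2 hq.le]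
    · simp [hq]
    · simp [hq, not_lt.2 hq.le]
  have e3 : (∑ p : Fin (m + 1), (if p < i ∧ w i < w p then (1 : ℤ) else 0)) =
      (i : ℕ) - ∑ j : Fin (m + 1), (if j < i ∧ w j < w i then (1 : ℤ) else 0) := by
    rw [← cnt_lt i, ← Finset.sum_sub_distrib]
    refine Finset.sum_congr rfl fun p _ => ?_
    by_cases hp : p < i
    · rcases lt_trichotomy (w p) (w i) with hq | hq | hq
      · simp [hp, hq, not_lt.2 hq.le]
      · exact absurd (w.injective hq) hp.ne
      · simp [hp, hq, not_lt.2 hq.le]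
    · simp [hp]
  rw [e1, e2, e3]
  ring

end Pool.Agent.COV
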