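import Pool.Agent.Work.MP_1c6e58_ag.COV.Stmts

/-!
MP_1c6e58_ag, project COV: the largest element of an interval with given ranks.
-/

set_option autoImplicit false

open Finset

namespace Pool.Agent.COV

open Pool.Agent.SH

namespace XMEET

variable {n : ℕ}

/-- the rank function with truncated arguments -/
theorem rkN_min (w : Equiv.Perm (Fin n)) (a b : ℕ) :
    rkN w a b = rkN w (min a n) (min b n) := by
  unfold rkN
  congr 1
  ext j
  have h1 := j.isLt
  have h2 := (w j).isLt
  simp only [mem_filter, mem_univ, true_and]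
  omega

/-- the new rank function -/
def FF (v : Equiv.Perm (Fin n)) (T : Finset (ℕ × ℕ)) (s : ℕ × ℕ → ℕ) (a b : ℕ) : ℕ :=
  max (rkN v a b) (T.sup fun t => s t - (t.1 - a) - (t.2 - b))

variable {v : Equiv.Perm (Fin n)} {T : Finset (ℕ × ℕ)} {s : ℕ × ℕ → ℕ}

theorem FF_le {a b c : ℕ} (h1 : rkN v a b ≤ c)
    (h2 : ∀ t ∈ T, s t ≤ c + (t.1 - a) + (t.2 - b)) : FF v T s a b ≤ c := by
  unfold FF
  refine max_le h1 (Finset.sup_le fun t ht => ?_)
  have := h2 t ht
  omega

theorem rk_le_FF (a b : ℕ) : rkN v a b ≤ FF v T s a b := le_max_left _ _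

theorem s_le_FF {t : ℕ × ℕ} (ht : t ∈ T) (a b : ℕ) :
    s t ≤ FF v T s a b + (t.1 - a) + (t.2 - b) := by
  have h1 : s t - (t.1 - a) - (t.2 - b) ≤ T.sup (fun t => s t - (t.1 - a) - (t.2 - b)) :=
    Finset.le_sup (f := fun t : ℕ × ℕ => s t - (t.1 - a) - (t.2 - b)) ht
  have h2 : T.sup (fun t => s t - (t.1 - a) - (t.2 - b)) ≤ FF v T s a b := le_max_right _ _
  omega

theorem FF_mono (hv : RkF v) {a a' b b' : ℕ} (ha : a ≤ a') (hb : b ≤ b') :
    FF v T s a b ≤ FF v T s a' b' := by
  refine FF_le ((hv.mono a a' b b' ha hb).trans (rk_le_FF a' b')) fun t ht => ?_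
  have := s_le_FF (v := v) (s := s) ht a' b'
  omega

/-- the value is attained -/
theorem FF_att (hT : EssT v T) (hs : ∀ t ∈ T, rkN v t.1 t.2 ≤ s t) {a b : ℕ} (ha : a ≤ n)
    (hb : b ≤ n) : FF v T s a b = 0 ∨ a + b = n + FF v T s a b ∨
      ∃ t ∈ T, FF v T s a b + (t.1 - a) + (t.2 - b) = s t := by
  rcases le_total (T.sup fun t => s t - (t.1 - a) - (t.2 - b)) (rkN v a b) with h | h
  · have e : FF v T s a b = rkN v a b := max_eq_left h
    rw [e]
    rcases hT.gen a b ha hb with h1 | h1 | ⟨t, ht, h1⟩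
    · exact Or.inl h1
    · exact Or.inr (Or.inl h1)
    · refine Or.inr (Or.inr ⟨t, ht, ?_⟩)
      have h2 := s_le_FF (v := v) (s := s) ht a b
      rw [e] at h2
      have h3 := hs t ht
      omega
  · have e : FF v T s a b = T.sup fun t => s t - (t.1 - a) - (t.2 - b) := max_eq_right h
    by_cases h0 : FF v T s a b = 0
    · exact Or.inl h0
    have hne : T.Nonempty := by
      by_contra hcon
      rw [Finset.not_nonempty_iff_eq_empty] at hcon
      rw [e, hcon, Finset.sup_empty] at h0
      exact h0 rfl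
    obtain ⟨t, ht, h1⟩ := Finset.exists_mem_eq_sup T hne
      (fun t : ℕ × ℕ => s t - (t.1 - a) - (t.2 - b))
    refine Or.inr (Or.inr ⟨t, ht, ?_⟩)
    rw [← e] at h1
    omega

theorem FF_super (hv : RkF v) (hT : EssT v T) (hs : ∀ t ∈ T, rkN v t.1 t.2 ≤ s t) {a b : ℕ}
    (ha : a < n) (hb : b < n) :
    FF v T s (a + 1) b + FF v T s a (b + 1) ≤ FF v T s a b + FF v T s (a + 1) (b + 1) := by
  have m1 : FF v T s a (b + 1) ≤ FF v T s (a + 1) (b + 1) := FF_mono hv (by omega) le_rfl
  have m2 : FF v T s (a + 1) b ≤ FF v T s (a + 1) (b + 1) := FF_mono hv le_rfl (by omega)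
  have l1 : a + b ≤ n + FF v T s a b :=
    (hv.low a b ha.le hb.le).trans (Nat.add_le_add_left (rk_le_FF a b) n)
  have l2 : (a + 1) + (b + 1) ≤ n + FF v T s (a + 1) (b + 1) :=
    (hv.low (a + 1) (b + 1) ha hb).trans (Nat.add_le_add_left (rk_le_FF _ _) n)
  rcases FF_att hT hs (a := a + 1) (b := b) ha hb.le with hX | hX | ⟨t, ht, hX⟩
  · omega
  · rcases FF_att hT hs (a := a) (b := b + 1) ha.le hb with hY | hY | ⟨t', ht', hY⟩
    · omega
    · omega
    · have p1 := s_le_FF (v := v) (s := s) ht' a b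
      generalize FF v T s (a + 1) b = X at *
      generalize FF v T s a (b + 1) = Y at *
      generalize FF v T s a b = P at *
      generalize FF v T s (a + 1) (b + 1) = Q at *
      omega
  · rcases FF_att hT hs (a := a) (b := b + 1) ha.le hb with hY | hY | ⟨t', ht', hY⟩
    · omega
    · have p1 := s_le_FF (v := v) (s := s) ht a b
      generalize FF v T s (a + 1) b = X at *
      generalize FF v T s a (b + 1) = Y at *
      generalize FF v T s a b = P at *
      generalize FF v T s (a + 1) (b + 1) = Q at *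
      omega
    · rcases hT.chain t ht t' ht' with hc | hc
      · have p1 := s_le_FF (v := v) (s := s) ht a b
        have p2 := s_le_FF (v := v) (s := s) ht' (a + 1) (b + 1)
        generalize FF v T s (a + 1) b = X at *
        generalize FF v T s a (b + 1) = Y at *
        generalize FF v T s a b = P at *
        generalize FF v T s (a + 1) (b + 1) = Q at *
        omega
      · have p1 := s_le_FF (v := v) (s := s) ht' a b
        have p2 := s_le_FF (v := v) (s := s) ht (a + 1) (b + 1)
        generalize FF v T s (a + 1) b = X at *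
        generalize FF v T s a (b + 1) = Y at *
        generalize FF v T s a b = P at *
        generalize FF v T s (a + 1) (b + 1) = Q at *
        omega

end XMEET

open XMEET in
theorem I_MEET (hRKB : St_RKB) (hPRK : St_PRK) : St_MEET := by
  intro n u v T s hBr hT hs
  obtain ⟨hF, hB, -⟩ := hRKB n
  have hu := hF u
  have hv := hF v
  have huv := (hB u v).1 hBr
  have hs1 : ∀ t ∈ T, rkN v t.1 t.2 ≤ s t := fun t ht => (hs t ht).1
  have g1 : ∀ b, b ≤ n → FF v T s 0 b = 0 := by
    intro b _
    refine Nat.le_zero.1 (FF_le (hv.zl b).le fun t ht => ?_)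
    have h1 := (hs t ht).2
    have h2 := hu.lea t.1 t.2
    omega
  have g2 : ∀ a, a ≤ n → FF v T s a 0 = 0 := by
    intro a _
    refine Nat.le_zero.1 (FF_le (hv.zr a).le fun t ht => ?_)
    have h1 := (hs t ht).2
    have h2 := hu.leb t.1 t.2
    omega
  have g3 : ∀ b, b ≤ n → FF v T s n b = b := by
    intro b hb
    refine le_antisymm (FF_le (hv.nl b hb).le fun t ht => ?_) ?_
    · have h1 := (hs t ht).2
      have h2 := hu.leb t.1 t.2
      omega
    · exact (hv.nl b hb).symm.le.trans (rk_le_FF _ _)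
  have g4 : ∀ a, a ≤ n → FF v T s a n = a := by
    intro a ha
    refine le_antisymm (FF_le (hv.nr a ha).le fun t ht => ?_) ?_
    · have h1 := (hs t ht).2
      have h2 := hu.lea t.1 t.2
      omega
    · exact (hv.nr a ha).symm.le.trans (rk_le_FF _ _)
  obtain ⟨w, hw⟩ := hPRK n (FF v T s) g1 g2 g3 g4
    (fun a b ha hb => FF_super hv hT hs1 ha hb)
  refine ⟨w, ?_, ?_, fun a b ha hb => hw a b ha hb⟩
  · rw [hB]
    intro a b
    rw [rkN_min w a b, rkN_min u a b, hw _ _ (min_le_right _ _) (min_le_right _ _)]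
    refine FF_le (huv _ _) fun t ht => ?_
    exact (hs t ht).2.trans (hu.lip _ _ _ _)
  · rw [hB]
    intro a b
    rw [rkN_min v a b, rkN_min w a b, hw _ _ (min_le_right _ _) (min_le_right _ _)]
    exact rk_le_FF _ _

end Pool.Agent.COV
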