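import Pool.Agent.Work.MP_1c6e58_ag.COV.Stmts

/-!
MP_1c6e58_ag, project COV, item MINU: the rank function of the bottom of a minimal interval.
-/

set_option autoImplicit false

open Finset

namespace Pool.Agent.COV

open Pool.Agent.SH

namespace XMINU

theorem core (hRKB : St_RKB) (hMEET : St_MEET) (hKEYI : St_KEYI) (hMQM : St_MQM)
    (hEXM : St_EXM) (k n : ℕ) (u v : Equiv.Perm (Fin n)) (le : Br u v) (T : Finset (ℕ × ℕ))
    (hmin : MinI k ⟨n, u, v, le⟩) (hT : EssT v T) (a b : ℕ) (ha : a ≤ n) (hb : b ≤ n) :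
    rkN u a b = rkN v a b ∨
      ∃ t ∈ T, rkN u a b + (t.1 - a) + (t.2 - b) = rkN u t.1 t.2 := by
  obtain ⟨-, hBr, -⟩ := hRKB n
  have hle := (hBr u v).1 le
  obtain ⟨u', h1, h2, h3⟩ := hMEET n u v T (fun t => rkN u t.1 t.2) le hT
    (fun t _ => ⟨hle _ _, le_rfl⟩)
  have hle' := (hBr u u').1 h1
  have hrk : ∀ t ∈ T, rkN u t.1 t.2 = rkN u' t.1 t.2 := by
    intro t ht
    obtain ⟨-, b2, -, b4⟩ := hT.bd t ht
    refine le_antisymm ?_ (hle' _ _)
    rw [h3 _ _ b2.le b4.le]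
    refine le_trans ?_ (le_max_right _ _)
    have h4 := Finset.le_sup (f := fun t' : ℕ × ℕ =>
      rkN u t'.1 t'.2 - (t'.1 - t.1) - (t'.2 - t.2)) ht
    refine le_trans ?_ h4
    simp
  obtain ⟨d, d', e, m1, m2⟩ := hKEYI n u u' v T hT le h2 hrk
  have i1 : MultAt ⟨n, u, v, le⟩ e := hMQM _ _ _ _ m1
  have i2 : MultAt ⟨n, u', v, h2⟩ e := hMQM _ _ _ _ m2
  obtain ⟨⟨e0, hk, he0⟩, hm⟩ := hmin
  obtain ⟨-, e1, -, -, huni⟩ := hEXM ⟨n, u, v, le⟩
  have hee : e0 = e := (huni e0 he0).trans (huni e i1).symm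
  have hin : InI k ⟨n, u', v, h2⟩ := ⟨e, hee ▸ hk, i2⟩
  have hp : Prec ⟨n, u', v, h2⟩ ⟨n, u, v, le⟩ :=
    Relation.ReflTransGen.single (Or.inr ⟨n, u', u, v, h2, le, h1, rfl, rfl⟩)
  have heq := hm _ hin hp
  have hu : u' = u := by
    rw [Itv.mk.injEq] at heq
    exact eq_of_heq heq.2.1
  rw [hu] at h3
  have h5 := h3 a b ha hb
  rcases Nat.lt_or_ge (rkN v a b)
    (T.sup fun t => rkN u t.1 t.2 - (t.1 - a) - (t.2 - b)) with h | h
  · rw [max_eq_right h.le] at h5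
    have hne : T.Nonempty := by
      rw [Finset.nonempty_iff_ne_empty]
      intro h0
      rw [h0, Finset.sup_empty] at h
      exact absurd h (by simp)
    obtain ⟨t, ht, h6⟩ := Finset.exists_mem_eq_sup T hne
      (fun t => rkN u t.1 t.2 - (t.1 - a) - (t.2 - b))
    refine Or.inr ⟨t, ht, ?_⟩
    rw [h6] at h5 h
    omega
  · rw [max_eq_left h] at h5
    exact Or.inl h5

end XMINU

theorem I_MINU (hRKB : St_RKB) (hMEET : St_MEET) (hKEYI : St_KEYI) (hMQM : St_MQM)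
    (hEXM : St_EXM) : St_MINU := by
  intro k A T hmin hT a b ha hb
  obtain ⟨n, u, v, le⟩ := A
  exact XMINU.core hRKB hMEET hKEYI hMQM hEXM k n u v le T hmin hT a b ha hb

end Pool.Agent.COV
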