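import Pool.Agent.Work.MP_1c6e58_ag.COV.Stmts

/-!
MP_1c6e58_ag, project COV, item NOREM: minimal intervals have no removable positions.
-/

set_option autoImplicit false

open Finset

namespace Pool.Agent.COV

open Pool.Agent.SH

theorem I_NOREM (hREM : St_REM) : St_NOREM := by
  intro k A hA i hi h
  obtain ⟨B, hn, hemb, hm⟩ := hREM A i hi h
  obtain ⟨e, hk, he⟩ := hA.1
  have hB : B = A := hA.2 B ⟨e, hk, hm e he⟩ (Relation.ReflTransGen.single (Or.inl hemb))
  rw [hB] at hn
  omega

end Pool.Agent.COV
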