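import Pool.Agent.Work.MP_1c6e58_ag.COV.Stmts

/-!
MP_1c6e58_ag, project COV, item PRK: permutations from rank functions.
-/

set_option autoImplicit false

open Finset

namespace Pool.Agent.COV

open Pool.Agent.SH

namespace XPRK

/-- The mixed difference. -/
def D (F : ℕ → ℕ → ℕ) (i x : ℕ) : ℤ :=
  (F (i + 1) (x + 1) : ℤ) + F i x - F (i + 1) x - F i (x + 1)

theorem rowsum (F : ℕ → ℕ → ℕ) (i m : ℕ) :
    ∑ x ∈ range m, D F i x = (F (i + 1) m : ℤ) - F (i + 1) 0 - F i m + F i 0 := by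
  induction m with
  | zero => simp
  | succ m ih => rw [sum_range_succ, ih]; unfold D; ring

theorem colsum (F : ℕ → ℕ → ℕ) (x m : ℕ) :
    ∑ i ∈ range m, D F i x = (F m (x + 1) : ℤ) - F 0 (x + 1) - F m x + F 0 x := by
  induction m with
  | zero => simp
  | succ m ih => rw [sum_range_succ, ih]; unfold D; ring

theorem dbl (F : ℕ → ℕ → ℕ) (a b : ℕ) :
    ∑ i ∈ range a, ∑ x ∈ range b, D F i x = (F a b : ℤ) - F a 0 - F 0 b + F 0 0 := by
  induction a with
  | zero => simp
  | succ a ih => rw [sum_range_succ, ih, rowsum]; ring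

/-- Truncated sums. -/
theorem trunc {n a : ℕ} (ha : a ≤ n) (f : ℕ → ℤ) :
    ∑ i ∈ range a, f i = ∑ i : Fin n, if (i : ℕ) < a then f i else 0 := by
  rw [Fin.sum_univ_eq_sum_range (fun i => if i < a then f i else 0) n, ← sum_filter]
  refine sum_congr ?_ fun _ _ => rfl
  ext i
  simp only [mem_range, mem_filter]
  omega

/-- Nonnegative integers with sum one. -/
theorem one {n : ℕ} (g : Fin n → ℤ) (h0 : ∀ x, 0 ≤ g x) (h1 : ∑ x, g x = 1) :
    ∃ x : Fin n, ∀ y : Fin n, g y = if x = y then 1 else 0 := by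
  classical
  obtain ⟨x, hx⟩ : ∃ x, g x ≠ 0 := by
    by_contra hc
    push Not at hc
    rw [sum_congr rfl (fun x _ => hc x), sum_const_zero] at h1
    omega
  have hx1 : 1 ≤ g x := by
    have := h0 x
    omega
  have hle : g x ≤ 1 := by
    rw [← h1]
    exact single_le_sum (fun y _ => h0 y) (mem_univ x)
  refine ⟨x, fun y => ?_⟩
  by_cases hxy : x = y
  · rw [if_pos hxy, ← hxy]
    omega
  · rw [if_neg hxy]
    have h2 : ∑ z ∈ ({x, y} : Finset (Fin n)), g z ≤ ∑ z, g z :=
      sum_le_sum_of_subset_of_nonneg (subset_univ _) (fun z _ _ => h0 z)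
    rw [sum_pair hxy, h1] at h2
    have := h0 y
    omega

theorem main (n : ℕ) (F : ℕ → ℕ → ℕ) (hl0 : ∀ b, b ≤ n → F 0 b = 0)
    (hr0 : ∀ a, a ≤ n → F a 0 = 0) (hln : ∀ b, b ≤ n → F n b = b) (hrn : ∀ a, a ≤ n → F a n = a)
    (hD : ∀ a b, a < n → b < n → F (a + 1) b + F a (b + 1) ≤ F a b + F (a + 1) (b + 1)) :
    ∃ w : Equiv.Perm (Fin n), ∀ a b, a ≤ n → b ≤ n → rkN w a b = F a b := by
  classical
  have h0 : ∀ i x : Fin n, 0 ≤ D F i x := by
    intro i x
    have := hD i x i.2 x.2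
    unfold D
    omega
  have hrow : ∀ i : Fin n, ∑ x : Fin n, D F i x = 1 := by
    intro i
    rw [Fin.sum_univ_eq_sum_range (fun x => D F i x) n, rowsum, hrn _ i.2, hrn _ i.2.le,
      hr0 _ i.2, hr0 _ i.2.le]
    push_cast
    ring
  have hcol : ∀ x : Fin n, ∑ i : Fin n, D F i x = 1 := by
    intro x
    rw [Fin.sum_univ_eq_sum_range (fun i => D F i x) n, colsum, hln _ x.2, hln _ x.2.le,
      hl0 _ x.2, hl0 _ x.2.le]
    push_cast
    ring
  have hex : ∀ i : Fin n, ∃ x : Fin n, ∀ y : Fin n, D F i y = if x = y then 1 else 0 :=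
    fun i => one (fun x => D F i x) (fun x => h0 i x) (hrow i)
  choose w hw using hex
  have hinj : Function.Injective w := by
    intro i j hij
    by_contra hne
    obtain ⟨k, hk⟩ := one (fun l : Fin n => D F l (w i)) (fun l => h0 l (w i)) (hcol (w i))
    have h1 := hk i
    have h2 := hk j
    rw [hw i, if_pos rfl] at h1
    rw [hw j, if_pos hij.symm] at h2
    by_cases hki : k = i
    · have hkj : k ≠ j := fun h => hne (hki.symm.trans h)
      rw [if_neg hkj] at h2
      omega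
    · rw [if_neg hki] at h1
      omega
  refine ⟨Equiv.ofBijective w (Finite.injective_iff_bijective.1 hinj), fun a b ha hb => ?_⟩
  have h1 : (F a b : ℤ) = ∑ i ∈ range a, ∑ x ∈ range b, D F i x := by
    rw [dbl, hr0 a ha, hl0 b hb, hl0 0 (Nat.zero_le _)]
    push_cast
    ring
  have h2 : ∀ i : Fin n, ∑ x ∈ range b, D F i x = if (w i : ℕ) < b then 1 else 0 := by
    intro i
    rw [trunc hb (fun x => D F i x)]
    have h3 : ∀ x : Fin n, (if (x : ℕ) < b then D F i x else 0) =
        if w i = x then (if (w i : ℕ) < b then 1 else 0) else 0 := by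
      intro x
      rw [hw i x]
      by_cases hx : w i = x
      · rw [if_pos hx, if_pos hx, hx]
      · rw [if_neg hx, if_neg hx, ite_self]
    rw [sum_congr rfl (fun x _ => h3 x), sum_ite_eq]
    simp
  have h4 : (rkN (Equiv.ofBijective w (Finite.injective_iff_bijective.1 hinj)) a b : ℤ) =
      ∑ i : Fin n, if (i : ℕ) < a then (if (w i : ℕ) < b then (1 : ℤ) else 0) else 0 := by
    unfold rkN
    rw [card_filter]
    push_cast
    refine sum_congr rfl fun i _ => ?_
    by_cases h5 : (i : ℕ) < a <;> by_cases h6 : (w i : ℕ) < b <;>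
      simp [h5, h6, Equiv.ofBijective_apply]
  have h7 : (rkN (Equiv.ofBijective w (Finite.injective_iff_bijective.1 hinj)) a b : ℤ) =
      (F a b : ℤ) := by
    rw [h4, h1, trunc ha (fun i => ∑ x ∈ range b, D F i x)]
    refine sum_congr rfl fun i _ => ?_
    rw [h2 i]
  exact_mod_cast h7

end XPRK

theorem I_PRK (_hRKB : St_RKB) : St_PRK :=
  fun n F h1 h2 h3 h4 h5 => XPRK.main n F h1 h2 h3 h4 h5

end Pool.Agent.COV
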