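import Pool.Agent.Work.MP_1c6e58_ag.COV.Stmts

/-!
MP_1c6e58_ag, project COV, item REM: deletion of a position.
-/

set_option autoImplicit false

open Finset

namespace Pool.Agent.COV

open Pool.Agent.SH

namespace XREM

theorem notRange {m : ℕ} (i j : Fin (m + 1))
    (h : j ∉ Set.range (Fin.succAboveOrderEmb i)) : j = i := by
  by_contra hne
  apply h
  obtain ⟨k, hk⟩ := Fin.exists_succAbove_eq hne
  exact ⟨k, hk⟩

end XREM

theorem I_REM (_hRKB : St_RKB) (hREMF : St_REMF) (hLEND : St_LEND) (hPEX : St_PEX)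
    (hPBR : St_PBR) (hEMBP : St_EMBP) (hEXM : St_EXM) (hMQM : St_MQM) : St_REM := by
  rintro ⟨n, u, v, h⟩ i hi hr
  cases n with
  | zero => exact i.elim0
  | succ m =>
    dsimp only at i hi hr
    obtain ⟨u', hu'⟩ := (hPEX m (m + 1) (Fin.succAboveOrderEmb i) u).1
    obtain ⟨v', hv'⟩ := (hPEX m (m + 1) (Fin.succAboveOrderEmb i) v).1
    have hout : ∀ j, j ∉ Set.range (Fin.succAboveOrderEmb i) → u j = v j := by
      intro j hj
      rw [XREM.notRange i j hj]
      exact hi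
    have hbr : Br u' v' :=
      (hPBR m (m + 1) (Fin.succAboveOrderEmb i) u v u' v' hv' hu' hout).2 h
    refine ⟨⟨m, u', v', hbr⟩, rfl, ?_, ?_⟩
    · rw [hEMBP]
      refine ⟨Fin.succAboveOrderEmb i, hv', hu', hout, ?_⟩
      have h1 := hLEND m u i u' hu'
      have h2 := hLEND m v i v' hv'
      dsimp only
      rw [← hi] at h2
      rw [← hr] at h2
      omega
    · intro e he
      obtain ⟨d, e0, hm⟩ := (hEXM ⟨m, u', v', hbr⟩).1
      obtain ⟨d', hm'⟩ := hREMF m u v i u' v' hi hr hu' hv' d e0 hm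
      have hB : MultAt ⟨m, u', v', hbr⟩ e0 := hMQM _ _ d e0 hm
      have hA : MultAt ⟨m + 1, u, v, h⟩ e0 := hMQM _ _ d' e0 hm'
      obtain ⟨e1, _, _, huni⟩ := (hEXM ⟨m + 1, u, v, h⟩).2
      have : e = e0 := by rw [huni e he, huni e0 hA]
      rw [this]
      exact hB

end Pool.Agent.COV
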