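import Pool.Agent.Work.MP_1c6e58_ag.COV.Stmts

set_option autoImplicit false

open Finset

namespace Pool.Agent.COV

open Pool.Agent.SH

namespace XREMF

/-- The coordinates in the row or in the column of `i`. -/
abbrev DD (m : ℕ) (i : Fin (m + 1)) : Type := {c : Co (m + 1) // c.1.1 = i ∨ c.1.2 = i}

/-- The map to the coordinates. -/
def gg {m : ℕ} (i : Fin (m + 1)) : Co m ⊕ DD m i → Co (m + 1)
  | Sum.inl c => ⟨(Fin.succAboveOrderEmb i c.1.1, Fin.succAboveOrderEmb i c.1.2),
      (Fin.succAboveOrderEmb i).strictMono c.2⟩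
  | Sum.inr c => c.1

theorem gg_bij {m : ℕ} (i : Fin (m + 1)) : Function.Bijective (gg i) := by
  constructor
  · rintro (c | c) (c' | c') h
    · have h1 : (gg i (Sum.inl c)).1 = (gg i (Sum.inl c')).1 := by rw [h]
      have h2 := congrArg Prod.fst h1
      have h3 := congrArg Prod.snd h1
      simp only [gg] at h2 h3
      have h4 : c.1.1 = c'.1.1 := (Fin.succAboveOrderEmb i).injective h2
      have h5 : c.1.2 = c'.1.2 := (Fin.succAboveOrderEmb i).injective h3
      have : c = c' := Subtype.ext (Prod.ext h4 h5)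
      rw [this]
    · exfalso
      have h1 : (gg i (Sum.inl c)).1 = c'.1.1 := by rw [h]; rfl
      have h2 := congrArg Prod.fst h1
      have h3 := congrArg Prod.snd h1
      simp only [gg, Fin.succAboveOrderEmb_apply] at h2 h3
      rcases c'.2 with h4 | h4
      · exact Fin.succAbove_ne i _ (h2.trans h4)
      · exact Fin.succAbove_ne i _ (h3.trans h4)
    · exfalso
      have h1 : (gg i (Sum.inl c')).1 = c.1.1 := by rw [← h]; rfl
      have h2 := congrArg Prod.fst h1
      have h3 := congrArg Prod.snd h1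
      simp only [gg, Fin.succAboveOrderEmb_apply] at h2 h3
      rcases c.2 with h4 | h4
      · exact Fin.succAbove_ne i _ (h2.trans h4)
      · exact Fin.succAbove_ne i _ (h3.trans h4)
    · have : c = c' := Subtype.ext h
      rw [this]
  · intro c
    by_cases hc : c.1.1 = i ∨ c.1.2 = i
    · exact ⟨Sum.inr ⟨c, hc⟩, rfl⟩
    · rw [not_or] at hc
      obtain ⟨a, ha⟩ := Fin.exists_succAbove_eq hc.1
      obtain ⟨b, hb⟩ := Fin.exists_succAbove_eq hc.2
      have hlt : b < a := by
        have h := c.2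
        rw [← ha, ← hb] at h
        exact (Fin.succAboveOrderEmb i).lt_iff_lt.mp h
      refine ⟨Sum.inl ⟨(a, b), hlt⟩, Subtype.ext (Prod.ext ?_ ?_)⟩
      · exact ha
      · exact hb

/-- The equivalence. -/
noncomputable def ff {m : ℕ} (i : Fin (m + 1)) : Co (m + 1) ≃ Co m ⊕ DD m i :=
  (Equiv.ofBijective (gg i) (gg_bij i)).symm

theorem ff_symm {m : ℕ} (i : Fin (m + 1)) (c : Co m ⊕ DD m i) : (ff i).symm c = gg i c := rfl

theorem resC_msk {m : ℕ} (i : Fin (m + 1)) (u : Equiv.Perm (Fin (m + 1)))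
    (u' : Equiv.Perm (Fin m)) (h : IsPat u' u (Fin.succAboveOrderEmb i)) (z : Co (m + 1) → ℂ) :
    resC (Fin.succAboveOrderEmb i) (msk u z) = msk u' (resC (Fin.succAboveOrderEmb i) z) := by
  funext c
  unfold resC msk
  have h1 := h c.1.2 c.1.1
  by_cases h2 : u' c.1.2 < u' c.1.1
  · rw [if_pos h2, if_pos (h1.mpr h2)]
  · rw [if_neg h2, if_neg (fun h3 => h2 (h1.mp h3))]

theorem MQ_congr {σ τ : Type} {Z : Set (σ → ℂ)} {Z' : Set (τ → ℂ)} (h : HS Z = HS Z') {d e : ℕ}
    (hZ : MQ Z d e) : MQ Z' d e := by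
  obtain ⟨h1, Q, h2, h3⟩ := hZ
  exact ⟨h1, Q, h2, by rw [← h]; exact h3⟩

end XREMF

open XREMF in
theorem I_REMF (hSLICE : St_SLICE) (hVAN : St_VAN) (hDELSV : St_DELSV) (hREI : St_REI)
    (hMPROD : St_MPROD) (hCOORD : St_COORD) : St_REMF := by
  classical
  intro m u v i u' v' hi hrk hu hv d e hMQ
  have hZ1 : MQ {z : Co m → ℂ | msk u' z ∈ SV u' v'} d e := MQ_congr (hSLICE m u' v') hMQ
  set T : Finset (DD m i) := univ.filter (fun c => u c.1.1.2 < u c.1.1.1) with hT
  have hZ2 := hCOORD (DD m i) T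
  have hP := hMPROD (Co m) (DD m i) _ _ _ _ _ _ hZ1 hZ2
  rw [mul_one] at hP
  refine ⟨_, MQ_congr ?_ hP⟩
  symm
  rw [hSLICE (m + 1) u v]
  apply hREI (Co (m + 1)) (Co m ⊕ DD m i) (ff i)
  intro z
  simp only [ff_symm]
  have hres : (fun c : Co m => z (gg i (Sum.inl c))) = resC (Fin.succAboveOrderEmb i) z := rfl
  constructor
  · intro hz
    have h0 : ∀ c : Co (m + 1), (c.1.1 = i ∨ c.1.2 = i) → msk u z c = 0 :=
      hVAN (m + 1) u v i hi hrk z hz
    have h1 := (hDELSV m u v i u' v' hi hu hv (msk u z) h0).mp hz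
    rw [resC_msk i u u' hu] at h1
    refine ⟨?_, ?_⟩
    · change (fun c : Co m => z (gg i (Sum.inl c))) ∈ _
      rw [hres]
      exact h1
    · intro c hc
      have hc' : u c.1.1.2 < u c.1.1.1 := by
        have : c ∈ T := hc
        rw [hT, mem_filter] at this
        exact this.2
      have h2 := h0 c.1 c.2
      unfold msk at h2
      rw [if_pos hc'] at h2
      exact h2
  · rintro ⟨h1, h2⟩
    have h0 : ∀ c : Co (m + 1), (c.1.1 = i ∨ c.1.2 = i) → msk u z c = 0 := by
      intro c hc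
      unfold msk
      by_cases h3 : u c.1.2 < u c.1.1
      · rw [if_pos h3]
        have h4 : (⟨c, hc⟩ : DD m i) ∈ T := by
          rw [hT, mem_filter]
          exact ⟨mem_univ _, h3⟩
        exact h2 ⟨c, hc⟩ h4
      · rw [if_neg h3]
    change msk u z ∈ SV u v
    rw [hDELSV m u v i u' v' hi hu hv (msk u z) h0, resC_msk i u u' hu]
    change (fun c : Co m => z (gg i (Sum.inl c))) ∈ _ at h1
    rw [hres] at h1
    exact h1

end Pool.Agent.COV
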