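import Pool.Agent.Work.MP_1c6e58_ag.COV.Stmts

/-!
MP_1c6e58_ag, project COV, item REMPOS: positions which are of no use.
-/

set_option autoImplicit false

open Finset

namespace Pool.Agent.COV

open Pool.Agent.SH

/-- REMPOS. -/
theorem I_REMPOS (hRKB : St_RKB) : St_REMPOS := by
  intro n u v T hBr hE hgen j hA hB
  obtain ⟨hF, hBrk, -⟩ := hRKB n
  have Fu := hF u
  have Fv := hF v
  have hle : ∀ a b, rkN v a b ≤ rkN u a b := (hBrk u v).1 hBr
  -- the values of the rank function of `u` around `(j, u j)`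
  have hj := j.2
  have hx := (u j).2
  have e1 : rkN u ((j : ℕ) + 1) (u j) = rkN u j (u j) := by
    have := Fu.stepa j (u j)
    simpa using this
  have e2 : rkN u j ((u j : ℕ) + 1) = rkN u j (u j) := by
    have := Fu.stepb (u j) j
    simpa using this
  have e3 : rkN u ((j : ℕ) + 1) ((u j : ℕ) + 1) = rkN u j (u j) + 1 := by
    have := Fu.stepa j ((u j : ℕ) + 1)
    simp only [Nat.lt_succ_self, if_true] at this
    omega
  -- claim 1
  have c1 : rkN v j (u j) = rkN u j (u j) := by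
    rcases hgen j (u j) hj.le hx.le with h | ⟨t, ht, h⟩
    · exact h.symm
    · have l1 := Fu.lip ((j : ℕ) + 1) t.1 (u j) t.2
      have l2 := Fu.lip (j : ℕ) t.1 ((u j : ℕ) + 1) t.2
      have hA1 : t.1 ≤ (j : ℕ) := by
        by_contra hc
        omega
      have hA2 : t.2 ≤ (u j : ℕ) := by
        by_contra hc
        omega
      have hft : rkN u j (u j) = rkN u t.1 t.2 := by omega
      have hv := hle j (u j)
      rcases (hle t.1 t.2).lt_or_eq with hlt | heq
      · obtain ⟨t', ht', htt, hAt', he⟩ := hA t ht ⟨hA1, hA2⟩ hlt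
        have m1 := Fu.mono _ _ _ _ htt.1 htt.2
        have m2 := Fv.mono _ _ _ _ hAt'.1 hAt'.2
        omega
      · have m2 := Fv.mono _ _ _ _ hA1 hA2
        omega
  -- claim 2
  have c2 : rkN v ((j : ℕ) + 1) ((u j : ℕ) + 1) = rkN u ((j : ℕ) + 1) ((u j : ℕ) + 1) := by
    rcases hgen ((j : ℕ) + 1) ((u j : ℕ) + 1) hj hx with h | ⟨t, ht, h⟩
    · exact h.symm
    · have l1 := Fu.lip (j : ℕ) t.1 ((u j : ℕ) + 1) t.2
      have l2 := Fu.lip ((j : ℕ) + 1) t.1 (u j) t.2
      have hB1 : (j : ℕ) < t.1 := by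
        by_contra hc
        omega
      have hB2 : (u j : ℕ) < t.2 := by
        by_contra hc
        omega
      have hv := hle ((j : ℕ) + 1) ((u j : ℕ) + 1)
      rcases (hle t.1 t.2).lt_or_eq with hlt | heq
      · obtain ⟨t', ht', htt, hBt', he⟩ := hB t ht ⟨hB1, hB2⟩ hlt
        have l3 := Fu.lip t'.1 t.1 t'.2 t.2
        have l4 := Fv.lip ((j : ℕ) + 1) t'.1 ((u j : ℕ) + 1) t'.2
        have q1 := htt.1
        have q2 := htt.2
        have q3 := hBt'.1
        have q4 := hBt'.2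
        omega
      · have l4 := Fv.lip ((j : ℕ) + 1) t.1 ((u j : ℕ) + 1) t.2
        omega
  -- conclusion
  have d1 : rkN v ((j : ℕ) + 1) (u j) = rkN v j (u j) := by
    have := Fv.mono j ((j : ℕ) + 1) (u j) (u j) (Nat.le_succ _) le_rfl
    have := hle ((j : ℕ) + 1) (u j)
    omega
  have d2 : rkN v j ((u j : ℕ) + 1) = rkN v j (u j) := by
    have := Fv.mono j j (u j) ((u j : ℕ) + 1) le_rfl (Nat.le_succ _)
    have := hle j ((u j : ℕ) + 1)
    omega
  refine ⟨?_, c1.symm⟩
  refine ((Fv.mix j (u j)).2 ?_).symm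
  omega

end Pool.Agent.COV
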