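import Pool.Agent.Work.MP_1c6e58_ag.COV.Stmts

set_option autoImplicit false

open Finset

namespace Pool.Agent.COV

open Pool.Agent.SH

namespace XRKD

theorem uniq {m n : ℕ} (φ : Fin m ↪o Fin n) (v : Equiv.Perm (Fin n))
    (w w' : Equiv.Perm (Fin m)) (h : IsPat w v φ) (h' : IsPat w' v φ) : w = w' := by
  let e : Fin m ≃o Fin m :=
    { toEquiv := w.symm.trans w'
      map_rel_iff' := by
        intro a b
        have h1 := h (w.symm b) (w.symm a)
        have h2 := h' (w.symm b) (w.symm a)
        have h3 : w (w.symm b) < w (w.symm a) ↔ w' (w.symm b) < w' (w.symm a) := h1.symm.trans h2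
        rw [Equiv.apply_symm_apply, Equiv.apply_symm_apply] at h3
        change w' (w.symm a) ≤ w' (w.symm b) ↔ a ≤ b
        rw [← not_lt, ← not_lt, h3] }
  have he : e = OrderIso.refl _ := Subsingleton.elim _ _
  apply Equiv.ext
  intro j
  have h4 : e (w j) = w j := by rw [he]; rfl
  have h5 : e (w j) = w' j := by
    change w' (w.symm (w j)) = w' j
    rw [Equiv.symm_apply_apply]
  rw [← h4, h5]

theorem key {m : ℕ} {w : Equiv.Perm (Fin (m + 1))} {i : Fin (m + 1)} {w' : Equiv.Perm (Fin m)}
    (h : IsPat w' w (Fin.succAboveOrderEmb i)) (j : Fin m) :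
    w (i.succAbove j) = (w i).succAbove (w' j) := by
  have hne : ∀ j : Fin m, ∃ z, (w i).succAbove z = w (i.succAbove j) := fun j =>
    Fin.exists_succAbove_eq (fun hh => Fin.succAbove_ne i j (w.injective hh))
  choose g hg using hne
  have hinj : Function.Injective g := by
    intro j k hjk
    have h1 : w (i.succAbove j) = w (i.succAbove k) := by rw [← hg, ← hg, hjk]
    exact Fin.succAbove_right_injective (w.injective h1)
  have hp : IsPat (Equiv.ofBijective g (Finite.injective_iff_bijective.1 hinj)) w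
      (Fin.succAboveOrderEmb i) := by
    intro j k
    change w (i.succAbove j) < w (i.succAbove k) ↔ g j < g k
    rw [← hg, ← hg]
    exact (Fin.strictMono_succAbove (w i)).lt_iff_lt
  have e := uniq _ _ _ _ h hp
  rw [← hg j, e]
  rfl

theorem sa {m : ℕ} (i : Fin (m + 1)) (j : Fin m) (a : ℕ) :
    ((i.succAbove j : Fin (m + 1)) : ℕ) < a ↔ (j : ℕ) < (if (i : ℕ) < a then a - 1 else a) := by
  unfold Fin.succAbove
  by_cases h : j.castSucc < i
  · rw [if_pos h]
    have h' : (j : ℕ) < i := h
    rw [Fin.val_castSucc]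
    split_ifs <;> omega
  · rw [if_neg h]
    have h' : ¬ (j : ℕ) < i := h
    rw [Fin.val_succ]
    split_ifs <;> omega

end XRKD

open XRKD in
theorem I_RKD (hRKB : St_RKB) : St_RKD := by
  intro m w i w' h a b _ _
  clear hRKB
  have h1 : ∀ (k : ℕ) (x : Equiv.Perm (Fin k)) (c d : ℕ), rkN x c d =
      ∑ j : Fin k, if (j : ℕ) < c ∧ (x j : ℕ) < d then 1 else 0 := by
    intro k x c d
    unfold rkN
    rw [Finset.card_filter]
  rw [h1, h1, Fin.sum_univ_succAbove _ i, add_comm]
  congr 1
  refine Finset.sum_congr rfl fun j _ => ?_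
  rw [key h j]
  simp only [sa]

end Pool.Agent.COV
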