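import Pool.Agent.Work.MP_1c6e58_ag.COV.Stmts

/-! MP_1c6e58_ag, project COV, item SLICE: the slice. -/

set_option autoImplicit false

open Finset

namespace Pool.Agent.COV

open Pool.Agent.SH

theorem I_SLICE (hSLK : St_SLK) (hUNITRI : St_UNITRI) (hKNB : St_KNB) : St_SLICE := by
  intro n u v
  obtain ⟨g, hg0, hgs, hKN⟩ := hSLK n u
  rw [← hUNITRI (Co n) ht g hg0 hgs (SV u v)]
  congr 1
  ext z
  have h1 := (hKNB n u (fun c => z c + MvPolynomial.eval z (g c))).2.2.2.2 v
  have h2 := (hKNB n u (msk u z)).2.2.2.2 v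
  have e : ∀ a b, Module.finrank ℂ (KN u (fun c => z c + MvPolynomial.eval z (g c)) a b) =
      Module.finrank ℂ (KN u (msk u z) a b) := by
    intro a b
    rw [hKN z a b]
  constructor
  · intro h
    exact h2.2 fun a b ha hb => (e a b) ▸ h1.1 h a b ha hb
  · intro h
    exact h1.2 fun a b ha hb => (e a b).symm ▸ h2.1 h a b ha hb

end Pool.Agent.COV
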