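import Pool.Agent.Work.MP_1c6e58_ag.COV.Stmts

/-!
MP_1c6e58_ag, project COV, item SLK: the change of coordinates to the slice.
-/

set_option autoImplicit false

open Finset

namespace Pool.Agent.COV

open Pool.Agent.SH

namespace XSLK

variable {n : ℕ}

/-- The strict lower part of `L` (polynomials). -/
noncomputable def LP (u : Equiv.Perm (Fin n)) (i k : Fin n) : MvPolynomial (Co n) ℂ :=
  if h : k < i then (if u i < u k then MvPolynomial.X ⟨(i, k), h⟩ else 0) else 0

/-- The strict lower part of `S` (polynomials). -/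
noncomputable def SP (u : Equiv.Perm (Fin n)) (k j : Fin n) : MvPolynomial (Co n) ℂ :=
  if h : j < k then (if u j < u k then MvPolynomial.X ⟨(k, j), h⟩ else 0) else 0

/-- The strict lower part of `L`. -/
noncomputable def Lz (u : Equiv.Perm (Fin n)) (z : Co n → ℂ) (i k : Fin n) : ℂ :=
  if h : k < i then (if u i < u k then z ⟨(i, k), h⟩ else 0) else 0

/-- The strict lower part of `S`. -/
noncomputable def Sz (u : Equiv.Perm (Fin n)) (z : Co n → ℂ) (k j : Fin n) : ℂ :=
  if h : j < k then (if u j < u k then z ⟨(k, j), h⟩ else 0) else 0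

theorem eval_LP (u : Equiv.Perm (Fin n)) (z : Co n → ℂ) (i k : Fin n) :
    MvPolynomial.eval z (LP u i k) = Lz u z i k := by
  unfold LP Lz
  split_ifs <;> simp

theorem eval_SP (u : Equiv.Perm (Fin n)) (z : Co n → ℂ) (k j : Fin n) :
    MvPolynomial.eval z (SP u k j) = Sz u z k j := by
  unfold SP Sz
  split_ifs <;> simp

theorem cc_LP (u : Equiv.Perm (Fin n)) (i k : Fin n) :
    MvPolynomial.constantCoeff (LP u i k) = 0 := by
  unfold LP
  split_ifs <;> simp

/-- The polynomials `g`. -/
noncomputable def gg (u : Equiv.Perm (Fin n)) (c : Co n) : MvPolynomial (Co n) ℂ :=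
  ∑ k, LP u c.1.1 k * SP u k c.1.2

theorem cc_gg (u : Equiv.Perm (Fin n)) (c : Co n) :
    MvPolynomial.constantCoeff (gg u c) = 0 := by
  unfold gg
  rw [map_sum]
  refine Finset.sum_eq_zero (fun k _ => ?_)
  rw [map_mul, cc_LP, zero_mul]

theorem supp_gg (u : Equiv.Perm (Fin n)) (c : Co n) :
    gg u c ∈ MvPolynomial.supported ℂ {c' : Co n | ht c' < ht c} := by
  unfold gg
  refine sum_mem (fun k _ => ?_)
  by_cases h1 : k < c.1.1
  · by_cases h2 : c.1.2 < k
    · refine mul_mem ?_ ?_
      · unfold LP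
        rw [dif_pos h1]
        split_ifs
        · rw [MvPolynomial.X_mem_supported]
          simp only [Set.mem_ofPred_eq, ht]
          have h1' : (k : ℕ) < c.1.1 := h1
          have h2' : (c.1.2 : ℕ) < k := h2
          omega
        · exact zero_mem _
      · unfold SP
        rw [dif_pos h2]
        split_ifs
        · rw [MvPolynomial.X_mem_supported]
          simp only [Set.mem_ofPred_eq, ht]
          have h1' : (k : ℕ) < c.1.1 := h1
          have h2' : (c.1.2 : ℕ) < k := h2
          omega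
        · exact zero_mem _
    · have h3 : SP u k c.1.2 = 0 := by
        unfold SP
        rw [dif_neg h2]
      rw [h3, mul_zero]
      exact zero_mem _
  · have h3 : LP u c.1.1 k = 0 := by
      unfold LP
      rw [dif_neg h1]
    rw [h3, zero_mul]
    exact zero_mem _

theorem eval_gg (u : Equiv.Perm (Fin n)) (z : Co n → ℂ) (c : Co n) :
    MvPolynomial.eval z (gg u c) = ∑ k, Lz u z c.1.1 k * Sz u z k c.1.2 := by
  unfold gg
  rw [map_sum]
  refine Finset.sum_congr rfl (fun k _ => ?_)
  rw [map_mul, eval_LP, eval_SP]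

theorem Um_msk (u : Equiv.Perm (Fin n)) (z : Co n → ℂ) (k j : Fin n) :
    Um (msk u z) k j = Sz u z k j + if k = j then 1 else 0 := by
  unfold Um Sz msk
  by_cases h : j < k
  · rw [dif_pos h, dif_pos h, if_neg h.ne', add_zero]
  · rw [dif_neg h, dif_neg h, zero_add]

theorem LS (u : Equiv.Perm (Fin n)) (z : Co n → ℂ) (i j : Fin n) (h : j < i) :
    Lz u z i j + Sz u z i j = z ⟨(i, j), h⟩ := by
  unfold Lz Sz
  rw [dif_pos h, dif_pos h]
  have hne : u i ≠ u j := fun he => h.ne' (u.injective he)
  rcases lt_or_gt_of_ne hne with h1 | h1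
  · rw [if_pos h1, if_neg h1.le.not_gt, add_zero]
  · rw [if_pos h1, if_neg h1.le.not_gt, zero_add]

theorem Lz_zero (u : Equiv.Perm (Fin n)) (z : Co n → ℂ) (i k : Fin n) (h : ¬ k < i) :
    Lz u z i k = 0 := by
  unfold Lz
  rw [dif_neg h]

theorem Sz_zero (u : Equiv.Perm (Fin n)) (z : Co n → ℂ) (k j : Fin n) (h : ¬ j < k) :
    Sz u z k j = 0 := by
  unfold Sz
  rw [dif_neg h]

/-- The factorization of the matrix. -/
theorem fact (u : Equiv.Perm (Fin n)) (z : Co n → ℂ) (i j : Fin n) :
    Um (fun c => z c + MvPolynomial.eval z (gg u c)) i j =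
      Um (msk u z) i j + ∑ k, Lz u z i k * Um (msk u z) k j := by
  have h1 : ∑ k, Lz u z i k * Um (msk u z) k j = ∑ k, Lz u z i k * Sz u z k j + Lz u z i j := by
    have h2 : ∀ k, Lz u z i k * Um (msk u z) k j =
        Lz u z i k * Sz u z k j + if k = j then Lz u z i k else 0 := by
      intro k
      rw [Um_msk, mul_add]
      split_ifs <;> simp
    rw [Finset.sum_congr rfl (fun k _ => h2 k), Finset.sum_add_distrib]
    simp
  rw [h1, Um_msk]
  by_cases h : j < i
  · have h3 : Um (fun c => z c + MvPolynomial.eval z (gg u c)) i j =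
        z ⟨(i, j), h⟩ + MvPolynomial.eval z (gg u ⟨(i, j), h⟩) := by
      unfold Um
      rw [dif_pos h]
    rw [h3, eval_gg, ← LS u z i j h, if_neg h.ne']
    ring
  · have h3 : Um (fun c => z c + MvPolynomial.eval z (gg u c)) i j = if i = j then 1 else 0 := by
      unfold Um
      rw [dif_neg h]
    have h4 : ∑ k, Lz u z i k * Sz u z k j = 0 := by
      refine Finset.sum_eq_zero (fun k _ => ?_)
      by_cases h5 : k < i
      · rw [Sz_zero u z k j (fun h6 => h (h6.trans h5)), mul_zero]
      · rw [Lz_zero u z i k h5, zero_mul]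
    rw [h3, h4, Lz_zero u z i j h, Sz_zero u z i j h]
    ring

theorem row (u : Equiv.Perm (Fin n)) (z : Co n → ℂ) (c : Fin n → ℂ) (i : Fin n) :
    ∑ j, Um (fun c => z c + MvPolynomial.eval z (gg u c)) i j * c j =
      ∑ j, Um (msk u z) i j * c j + ∑ k, Lz u z i k * ∑ j, Um (msk u z) k j * c j := by
  have h1 : ∀ j, Um (fun c => z c + MvPolynomial.eval z (gg u c)) i j * c j =
      Um (msk u z) i j * c j + ∑ k, Lz u z i k * (Um (msk u z) k j * c j) := by
    intro j
    rw [fact, add_mul, Finset.sum_mul]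
    congr 1
    refine Finset.sum_congr rfl (fun k _ => ?_)
    ring
  rw [Finset.sum_congr rfl (fun j _ => h1 j), Finset.sum_add_distrib]
  congr 1
  rw [Finset.sum_comm]
  refine Finset.sum_congr rfl (fun k _ => ?_)
  rw [Finset.mul_sum]

theorem Lz_mul (u : Equiv.Perm (Fin n)) (z : Co n → ℂ) (i k : Fin n) (y : ℂ)
    (h : k < i → u i < u k → y = 0) : Lz u z i k * y = 0 := by
  unfold Lz
  split_ifs with h1 h2
  · rw [h h1 h2, mul_zero]
  · rw [zero_mul]
  · rw [zero_mul]

end XSLK

open XSLK in
/-- SLK. -/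
theorem I_SLK : St_SLK := by
  intro n u
  refine ⟨gg u, cc_gg u, supp_gg u, ?_⟩
  intro z a b
  ext c
  constructor
  · rintro ⟨hc1, hc2⟩
    refine ⟨hc1, ?_⟩
    intro i
    induction i using WellFoundedLT.induction with
    | ind i ih =>
      intro hi
      have h1 := hc2 i hi
      rw [row] at h1
      have h2 : ∑ k, Lz u z i k * ∑ j, Um (msk u z) k j * c j = 0 := by
        refine Finset.sum_eq_zero (fun k _ => ?_)
        refine Lz_mul u z i k _ (fun hk huk => ih k hk ?_)
        have huk' : (u i : ℕ) < u k := huk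
        omega
      rw [h2, add_zero] at h1
      exact h1
  · rintro ⟨hc1, hc2⟩
    refine ⟨hc1, ?_⟩
    intro i hi
    rw [row, hc2 i hi, zero_add]
    refine Finset.sum_eq_zero (fun k _ => ?_)
    refine Lz_mul u z i k _ (fun hk huk => hc2 k ?_)
    have huk' : (u i : ℕ) < u k := huk
    omega

end Pool.Agent.COV
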