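import Pool.Agent.Work.MP_1c6e58_ag.COV.Stmts

/-!
MP_1c6e58_ag, project COV, item SVT: the rank conditions in `T` suffice.
-/

set_option autoImplicit false

open Finset

namespace Pool.Agent.COV

open Pool.Agent.SH

theorem I_SVT (_hRKB : St_RKB) (hKNB : St_KNB) : St_SVT := by
  intro n u v T hT z
  obtain ⟨-, h2, h3, -, h5⟩ := hKNB n u z
  rw [h5 v]
  constructor
  · intro h t ht
    obtain ⟨-, b1, -, b2⟩ := hT.bd t ht
    exact h t.1 t.2 b1.le b2.le
  · intro h a b ha hb
    rcases hT.gen a b ha hb with h0 | h0 | ⟨t, ht, h0⟩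
    · omega
    · have := h3 a b ha hb
      omega
    · have a1 := h t ht
      have a2 := h2 a t.1 b t.2
      omega

end Pool.Agent.COV
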