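import Pool.Agent.Work.MP_1c6e58_ag.COV.Stmts

/-!
MP_1c6e58_ag, project COV: item TYPE1, the case of one condition.
-/

set_option autoImplicit false

open Finset

namespace Pool.Agent.COV

open Pool.Agent.SH

namespace XTYPE1

/-- The value of a permutation from the four ranks. -/
theorem val_of {n : ℕ} {w : Equiv.Perm (Fin n)} (hw : RkF w) (j : Fin n) (x : ℕ) (hx : x < n)
    (h : rkN w ((j : ℕ) + 1) (x + 1) + rkN w j x = rkN w ((j : ℕ) + 1) x + rkN w j (x + 1) + 1) :
    (w j : ℕ) = x := by
  have h1 : w j = ⟨x, hx⟩ := (hw.mix j ⟨x, hx⟩).mpr h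
  rw [h1]

end XTYPE1

open XTYPE1 in
/-- The case of one condition. -/
theorem I_TYPE1 (hRKB : St_RKB) (hCOVJ : St_COVJ) (hMINU : St_MINU) : St_TYPE1 := by
  classical
  intro k A T hA hT t0 ht0 hr0 hr
  have hU : RkF A.u := (hRKB A.n).1 A.u
  have hV : RkF A.v := (hRKB A.n).1 A.v
  have hJ : ∀ j : Fin A.n, (tA A.u t0 j ∧ ∀ t' ∈ T, tA A.u t' j → tle t' t0) ∨
      (tB A.u t0 j ∧ ∀ t' ∈ T, tB A.u t' j → tle t0 t') := by
    intro j
    obtain ⟨t, ht, hlt, hj⟩ := hCOVJ k A T hA hT j
    have htt : t = t0 := by
      by_contra hne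
      have := hr t ht hne
      omega
    subst htt
    rcases hj with hj | hj
    · left
      unfold JA at hj
      exact (Finset.mem_filter.mp hj).2
    · right
      unfold JB at hj
      exact (Finset.mem_filter.mp hj).2
  have hbd := hT.bd t0 ht0
  have hpos := hT.pos t0 ht0
  -- positions and values
  have hpq : ∀ j : Fin A.n, ((j : ℕ) < t0.1 → (A.u j : ℕ) < t0.2) ∧
      (t0.1 ≤ (j : ℕ) → t0.2 ≤ (A.u j : ℕ)) := by
    intro j
    rcases hJ j with ⟨h, -⟩ | ⟨h, -⟩
    · unfold tA at h
      exact ⟨fun h1 => absurd h.1 (by omega), fun _ => h.2⟩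
    · unfold tB at h
      exact ⟨fun _ => h.2, fun h1 => absurd h.1 (by omega)⟩
  have e1 : rkN A.u t0.1 t0.2 = rkN A.u t0.1 A.n := by
    unfold rkN
    congr 1
    ext j
    simp only [Finset.mem_filter, Finset.mem_univ, true_and]
    exact ⟨fun h => ⟨h.1, (A.u j).2⟩, fun h => ⟨h.1, (hpq j).1 h.1⟩⟩
  have e2 : rkN A.u t0.1 t0.2 = rkN A.u A.n t0.2 := by
    unfold rkN
    congr 1
    ext j
    simp only [Finset.mem_filter, Finset.mem_univ, true_and]
    constructor
    · exact fun h => ⟨j.2, h.2⟩
    · intro h
      refine ⟨?_, h.2⟩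
      by_contra hcon
      have := (hpq j).2 (by omega)
      omega
  rw [hU.nr t0.1 (by omega)] at e1
  rw [hU.nl t0.2 (by omega)] at e2
  obtain ⟨p, q⟩ := t0
  simp only at *
  have hq : q = p := by omega
  subst hq
  -- all conditions are equal
  have hall : ∀ t ∈ T, t = (q, q) := by
    intro t ht
    by_contra hne
    have hrt := hr t ht hne
    have hpt := hT.pos t ht
    have hbt := hT.bd t ht
    rcases hT.chain (q, q) ht0 t ht with hle | hle
    · have hc := hU.cntA t.1 t.2 (by omega) (by omega)
      have hcp : 0 < (univ.filter (fun j : Fin A.n => t.1 ≤ (j : ℕ) ∧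
          t.2 ≤ (A.u j : ℕ))).card := by omega
      obtain ⟨j, hj⟩ := Finset.card_pos.mp hcp
      have hj' : tA A.u t j := (Finset.mem_filter.mp hj).2
      rcases hJ j with ⟨_, h2⟩ | ⟨h1, _⟩
      · have h3 := h2 t ht hj'
        unfold tle at h3
        apply hne
        refine Prod.ext ?_ ?_
        · have := hle.1
          have := h3.1
          simp only at *
          omega
        · have := hle.2
          have := h3.2
          simp only at *
          omega
      · unfold tB at h1
        unfold tA at hj'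
        have := hle.1
        have := h1.1
        simp only at *
        omega
    · have hcp : 0 < rkN A.u t.1 t.2 := by omega
      unfold rkN at hcp
      obtain ⟨j, hj⟩ := Finset.card_pos.mp hcp
      have hj' : tB A.u t j := (Finset.mem_filter.mp hj).2
      rcases hJ j with ⟨h1, _⟩ | ⟨_, h2⟩
      · unfold tA at h1
        unfold tB at hj'
        have := hle.1
        have := h1.1
        simp only at *
        omega
      · have h3 := h2 t ht hj'
        unfold tle at h3
        apply hne
        refine Prod.ext ?_ ?_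
        · have := hle.1
          have := h3.1
          simp only at *
          omega
        · have := hle.2
          have := h3.2
          simp only at *
          omega
  -- rank formulas
  have hvq : rkN A.v q q + 1 = q := by omega
  have huq : rkN A.u q q = q := by omega
  have hv : ∀ a b, a ≤ A.n → b ≤ A.n → (rkN A.v a b = 0 ∨ a + b = A.n + rkN A.v a b ∨
      rkN A.v a b + (q - a) + (q - b) + 1 = q) ∧ a + b ≤ A.n + rkN A.v a b ∧
      q ≤ rkN A.v a b + (q - a) + (q - b) + 1 := by
    intro a b ha hb
    refine ⟨?_, hV.low a b ha hb, ?_⟩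
    · rcases hT.gen a b ha hb with h | h | ⟨t, ht, h⟩
      · exact Or.inl h
      · exact Or.inr (Or.inl h)
      · rw [hall t ht] at h
        simp only at h
        right; right
        omega
    · have := hV.lip a q b q
      omega
  have hu : ∀ a b, a ≤ A.n → b ≤ A.n → (rkN A.u a b = 0 ∨ a + b = A.n + rkN A.u a b ∨
      rkN A.u a b + (q - a) + (q - b) = q) ∧ a + b ≤ A.n + rkN A.u a b ∧
      q ≤ rkN A.u a b + (q - a) + (q - b) := by
    intro a b ha hb
    have hl := hU.lip a q b q
    refine ⟨?_, hU.low a b ha hb, by omega⟩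
    rcases hMINU k A T hA hT a b ha hb with h | ⟨t, ht, h⟩
    · rcases (hv a b ha hb).1 with h1 | h1 | h1
      · left; omega
      · right; left; omega
      · omega
    · rw [hall t ht] at h
      simp only at h
      right; right
      omega
  have hq2 : 2 ≤ q := by omega
  have hn : q + 2 ≤ A.n := by omega
  clear hJ hpq hall hr hT hA hRKB hCOVJ hMINU ht0 e1 e2 hpos hbd hr0
  refine ⟨q - 1, A.n - q - 1, by omega, by omega, by omega, ?_, ?_⟩
  · intro j
    have hj := j.2
    split_ifs with h1
    · refine val_of hU j _ (by omega) ?_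
      have f1 : rkN A.u ((j : ℕ) + 1) (q - 1 - j + 1) = 1 := by
        have := hu ((j : ℕ) + 1) (q - 1 - j + 1) (by omega) (by omega)
        omega
      have f2 : rkN A.u (j : ℕ) (q - 1 - j) = 0 := by
        have := hu (j : ℕ) (q - 1 - j) (by omega) (by omega)
        omega
      have f3 : rkN A.u ((j : ℕ) + 1) (q - 1 - j) = 0 := by
        have := hu ((j : ℕ) + 1) (q - 1 - j) (by omega) (by omega)
        omega
      have f4 : rkN A.u (j : ℕ) (q - 1 - j + 1) = 0 := by
        have := hu (j : ℕ) (q - 1 - j + 1) (by omega) (by omega)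
        omega
      omega
    · have hx : 2 * (q - 1) + (A.n - q - 1) + 2 - j = A.n + q - 1 - j := by omega
      rw [hx]
      refine val_of hU j _ (by omega) ?_
      have f1 : rkN A.u ((j : ℕ) + 1) (A.n + q - 1 - j + 1) = q + 1 := by
        have := hu ((j : ℕ) + 1) (A.n + q - 1 - j + 1) (by omega) (by omega)
        omega
      have f2 : rkN A.u (j : ℕ) (A.n + q - 1 - j) = q := by
        have := hu (j : ℕ) (A.n + q - 1 - j) (by omega) (by omega)
        omega
      have f3 : rkN A.u ((j : ℕ) + 1) (A.n + q - 1 - j) = q := by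
        have := hu ((j : ℕ) + 1) (A.n + q - 1 - j) (by omega) (by omega)
        omega
      have f4 : rkN A.u (j : ℕ) (A.n + q - 1 - j + 1) = q := by
        have := hu (j : ℕ) (A.n + q - 1 - j + 1) (by omega) (by omega)
        omega
      omega
  · intro j
    have hj := j.2
    split_ifs with h1 h2 h3
    · have hx : q - 1 + (A.n - q - 1) + 1 = A.n - 1 := by omega
      rw [hx]
      refine val_of hV j _ (by omega) ?_
      have f1 : rkN A.v ((j : ℕ) + 1) (A.n - 1 + 1) = 1 := by
        have := hv ((j : ℕ) + 1) (A.n - 1 + 1) (by omega) (by omega)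
        omega
      have f2 : rkN A.v (j : ℕ) (A.n - 1) = 0 := by
        have := hv (j : ℕ) (A.n - 1) (by omega) (by omega)
        omega
      have f3 : rkN A.v ((j : ℕ) + 1) (A.n - 1) = 0 := by
        have := hv ((j : ℕ) + 1) (A.n - 1) (by omega) (by omega)
        omega
      have f4 : rkN A.v (j : ℕ) (A.n - 1 + 1) = 0 := by
        have := hv (j : ℕ) (A.n - 1 + 1) (by omega) (by omega)
        omega
      omega
    · have hx : q - 1 + 1 - j = q - j := by omega
      rw [hx]
      refine val_of hV j _ (by omega) ?_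
      have f1 : rkN A.v ((j : ℕ) + 1) (q - j + 1) = 1 := by
        have := hv ((j : ℕ) + 1) (q - j + 1) (by omega) (by omega)
        omega
      have f2 : rkN A.v (j : ℕ) (q - j) = 0 := by
        have := hv (j : ℕ) (q - j) (by omega) (by omega)
        omega
      have f3 : rkN A.v ((j : ℕ) + 1) (q - j) = 0 := by
        have := hv ((j : ℕ) + 1) (q - j) (by omega) (by omega)
        omega
      have f4 : rkN A.v (j : ℕ) (q - j + 1) = 0 := by
        have := hv (j : ℕ) (q - j + 1) (by omega) (by omega)
        omega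
      omega
    · have hx : 2 * (q - 1) + (A.n - q - 1) + 1 - j = A.n + q - 2 - j := by omega
      rw [hx]
      refine val_of hV j _ (by omega) ?_
      have f1 : rkN A.v ((j : ℕ) + 1) (A.n + q - 2 - j + 1) = q := by
        have := hv ((j : ℕ) + 1) (A.n + q - 2 - j + 1) (by omega) (by omega)
        omega
      have f2 : rkN A.v (j : ℕ) (A.n + q - 2 - j) + 1 = q := by
        have := hv (j : ℕ) (A.n + q - 2 - j) (by omega) (by omega)
        omega
      have f3 : rkN A.v ((j : ℕ) + 1) (A.n + q - 2 - j) + 1 = q := by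
        have := hv ((j : ℕ) + 1) (A.n + q - 2 - j) (by omega) (by omega)
        omega
      have f4 : rkN A.v (j : ℕ) (A.n + q - 2 - j + 1) + 1 = q := by
        have := hv (j : ℕ) (A.n + q - 2 - j + 1) (by omega) (by omega)
        omega
      omega
    · refine val_of hV j 0 (by omega) ?_
      have f1 : rkN A.v ((j : ℕ) + 1) (0 + 1) = 1 := by
        have := hv ((j : ℕ) + 1) (0 + 1) (by omega) (by omega)
        omega
      have f2 : rkN A.v (j : ℕ) 0 = 0 := hV.zr j
      have f3 : rkN A.v ((j : ℕ) + 1) 0 = 0 := hV.zr _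
      have f4 : rkN A.v (j : ℕ) (0 + 1) = 0 := by
        have := hv (j : ℕ) (0 + 1) (by omega) (by omega)
        omega
      omega

end Pool.Agent.COV
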