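import Pool.Agent.Work.MP_1c6e58_ag.COV.Stmts

set_option autoImplicit false

open Finset

namespace Pool.Agent.COV

open Pool.Agent.SH

namespace XUNITRI

open MvPolynomial

variable {σ : Type}

theorem ev_congr {S : Set σ} {P : MvPolynomial σ ℂ} (hP : P ∈ supported ℂ S) {z z' : σ → ℂ}
    (h : ∀ c ∈ S, z c = z' c) : eval z P = eval z' P :=
  eval₂Hom_congr' rfl (fun i hi _ => h i (mem_supported.1 hP hi)) rfl

theorem cc_eq (P : MvPolynomial σ ℂ) : constantCoeff P = eval (fun _ => (0 : ℂ)) P := by
  have : eval (fun _ => (0 : ℂ)) P = eval (0 : σ → ℂ) P := rfl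
  rw [this]
  simp

theorem exq (hgt : σ → ℕ) (g : σ → MvPolynomial σ ℂ)
    (hg0 : ∀ c, constantCoeff (g c) = 0)
    (hg : ∀ c, g c ∈ supported ℂ {c' | hgt c' < hgt c}) (N : ℕ) :
    ∃ q : σ → MvPolynomial σ ℂ, ∀ c, hgt c < N → constantCoeff (q c) = 0 ∧
      ∀ y : σ → ℂ, eval y (q c) = y c - eval (fun c' => eval y (q c')) (g c) := by
  classical
  induction N with
  | zero => exact ⟨fun _ => 0, fun c hc => absurd hc (Nat.not_lt_zero _)⟩
  | succ N ih =>
    obtain ⟨q, hq⟩ := ih
    have key : ∀ (c : σ), hgt c ≤ N → ∀ y : σ → ℂ,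
        eval (fun c' => eval y (if hgt c' = N then X c' - aeval q (g c') else q c')) (g c)
          = eval (fun c' => eval y (q c')) (g c) := by
      intro c hc y
      apply ev_congr (hg c)
      intro c' hc'
      have hc'' : hgt c' < hgt c := hc'
      have : hgt c' ≠ N := by omega
      rw [if_neg this]
    have h2 : ∀ (c : σ), hgt c = N → ∀ y : σ → ℂ,
        eval y (X c - aeval q (g c)) = y c - eval (fun c' => eval y (q c')) (g c) := by
      intro c hc y
      rw [map_sub, eval_X]
      congr 1
      have : (eval y) (aeval q (g c)) = (aeval (fun i => eval y (q i)) : MvPolynomial σ ℂ →ₐ[ℂ] ℂ) (g c) := by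
        have h3 := MvPolynomial.comp_aeval_apply (R := ℂ) q (aeval y : MvPolynomial σ ℂ →ₐ[ℂ] ℂ) (g c)
        simpa [MvPolynomial.coe_aeval_eq_eval] using h3
      rw [this, MvPolynomial.aeval_eq_eval]
    refine ⟨fun c => if hgt c = N then X c - aeval q (g c) else q c, ?_⟩
    intro c hc
    have hcN : hgt c ≤ N := Nat.lt_succ_iff.1 hc
    have hy : ∀ y : σ → ℂ, eval y (if hgt c = N then X c - aeval q (g c) else q c)
        = y c - eval (fun c' => eval y (if hgt c' = N then X c' - aeval q (g c') else q c')) (g c) := by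
      intro y
      rw [key c hcN y]
      by_cases h : hgt c = N
      · rw [if_pos h, h2 c h y]
      · rw [if_neg h]
        exact (hq c (by omega)).2 y
    refine ⟨?_, hy⟩
    rw [cc_eq]
    show eval (fun _ => (0:ℂ)) (if hgt c = N then X c - aeval q (g c) else q c) = 0
    rw [hy, key c hcN]
    have : eval (fun c' => eval (fun _ => (0:ℂ)) (q c')) (g c) = eval (fun _ => (0:ℂ)) (g c) := by
      apply ev_congr (hg c)
      intro c' hc'
      have hc'' : hgt c' < hgt c := hc'
      have := (hq c' (by omega)).1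
      rwa [cc_eq] at this
    rw [this, ← cc_eq, hg0]
    simp

end XUNITRI

open XUNITRI MvPolynomial in
theorem I_UNITRI (hAUT : St_AUT) : St_UNITRI := by
  classical
  intro σ _ hgt g hg0 hg Z'
  obtain ⟨q, hq⟩ := exq hgt g hg0 hg (Finset.univ.sup hgt + 1)
  have hlt : ∀ c, hgt c < Finset.univ.sup hgt + 1 := fun c =>
    Nat.lt_succ_iff.2 (Finset.le_sup (Finset.mem_univ c))
  refine hAUT σ σ (fun c => X c + g c) q ?_ (fun i => (hq i (hlt i)).1) ?_ ?_ _ _ ?_
  · intro j
    simp [hg0 j]
  · intro z
    have : ∀ n i, hgt i = n →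
        eval (fun j => eval z (X j + g j)) (q i) = z i := by
      intro n
      induction n using Nat.strong_induction_on with
      | _ n ih =>
        intro i hi
        rw [(hq i (hlt i)).2]
        have h1 : eval (fun c' => eval (fun j => eval z (X j + g j)) (q c')) (g i)
            = eval z (g i) := by
          apply ev_congr (hg i)
          intro c' hc'
          exact ih (hgt c') (by rw [← hi]; exact hc') c' rfl
        rw [h1, map_add, eval_X]
        ring
    intro i
    exact this _ i rfl
  · intro y j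
    rw [map_add, eval_X, (hq j (hlt j)).2]
    ring
  · intro z
    simp only [map_add, eval_X]
    rfl

end Pool.Agent.COV
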