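import Pool.Agent.Work.MP_1c6e58_ag.COV.Stmts

/-!
MP_1c6e58_ag, project COV: item VAN, the vanishing of the row and the column of a fixed position.
-/

set_option autoImplicit false

open Finset

namespace Pool.Agent.COV

open Pool.Agent.SH

namespace XVAN

variable {n : ℕ}

theorem um_row (z : Co n → ℂ) (h : Fin n) (c : Fin n → ℂ) (h0 : ∀ j, j < h → c j = 0) :
    ∑ j, Um z h j * c j = c h := by
  rw [Finset.sum_eq_single h]
  · have : Um z h h = 1 := by
      unfold Um
      rw [dif_neg (lt_irrefl h), if_pos rfl]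
    rw [this, one_mul]
  · intro j _ hj
    rcases lt_or_gt_of_ne hj with h1 | h1
    · rw [h0 j h1, mul_zero]
    · have : Um z h j = 0 := by
        unfold Um
        rw [dif_neg (not_lt.2 h1.le), if_neg (ne_of_lt h1)]
      rw [this, zero_mul]
  · intro h1; exact absurd (Finset.mem_univ h) h1

/-- A vector of `KN` that vanishes on the positions of type B below `m` vanishes below `m`. -/
theorem van (u : Equiv.Perm (Fin n)) (z : Co n → ℂ) (a b m : ℕ) (c : Fin n → ℂ)
    (hc : c ∈ KN u z a b)
    (h0 : ∀ j : Fin n, (j : ℕ) < m → (j : ℕ) < a → (u j : ℕ) < b → c j = 0) :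
    ∀ h : Fin n, (h : ℕ) < m → c h = 0 := by
  intro h
  induction h using WellFoundedLT.induction with
  | ind h ih =>
    intro hm
    by_cases h1 : (h : ℕ) < a
    · by_cases h2 : (u h : ℕ) < b
      · exact h0 h hm h1 h2
      · rw [← um_row z h c (fun j hj => ih j hj (lt_trans (Fin.lt_def.1 hj) hm))]
        exact hc.2 h (not_lt.1 h2)
    · exact hc.1 h (not_lt.1 h1)

/-- If the dimension of `KN` is the number of positions of type B, the values on these positions
can be prescribed. -/
theorem surj (u : Equiv.Perm (Fin n)) (z : Co n → ℂ) (a b : ℕ)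
    (hd : rkN u a b ≤ Module.finrank ℂ (KN u z a b)) (f : Fin n → ℂ) :
    ∃ c ∈ KN u z a b, ∀ j : Fin n, (j : ℕ) < a → (u j : ℕ) < b → c j = f j := by
  let L : KN u z a b →ₗ[ℂ] ({j : Fin n // (j : ℕ) < a ∧ (u j : ℕ) < b} → ℂ) :=
    { toFun := fun c j => c.1 j.1
      map_add' := fun _ _ => rfl
      map_smul' := fun _ _ => rfl }
  have hinj : Function.Injective L := by
    rw [← LinearMap.ker_eq_bot, LinearMap.ker_eq_bot']
    intro c hc
    apply Subtype.ext
    funext h
    exact van u z a b n c.1 c.2 (fun j _ h1 h2 => congrFun hc ⟨j, h1, h2⟩) h h.2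
  have hS : Module.finrank ℂ ({j : Fin n // (j : ℕ) < a ∧ (u j : ℕ) < b} → ℂ) = rkN u a b := by
    rw [Module.finrank_fintype_fun_eq_card, Fintype.card_subtype]
    rfl
  have heq : Module.finrank ℂ (KN u z a b) =
      Module.finrank ℂ ({j : Fin n // (j : ℕ) < a ∧ (u j : ℕ) < b} → ℂ) :=
    le_antisymm (LinearMap.finrank_le_finrank_of_injective hinj) (by rw [hS]; exact hd)
  have hsur : Function.Surjective L :=
    (LinearMap.injective_iff_surjective_of_finrank_eq_finrank heq).1 hinj
  obtain ⟨c, hc⟩ := hsur (fun j => f j.1)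
  exact ⟨c.1, c.2, fun j h1 h2 => congrFun hc ⟨j, h1, h2⟩⟩

/-- The rank after a fixed position. -/
theorem rk_succ (w : Equiv.Perm (Fin n)) (hw : RkF w) (i : Fin n) :
    rkN w ((i : ℕ) + 1) ((w i : ℕ) + 1) = rkN w i (w i) + 1 := by
  rw [hw.stepa, if_pos (Nat.lt_succ_self _), hw.stepb, w.symm_apply_apply,
    if_neg (lt_irrefl _), Nat.add_zero]

end XVAN

open XVAN

theorem I_VAN (hRKB : St_RKB) (hKNB : St_KNB) : St_VAN := by
  intro n u v i hi hr z hz c hc
  obtain ⟨-, -, -, -, hK⟩ := hKNB n u (msk u z)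
  have hz' := (hK v).1 hz
  obtain ⟨hrk, -, -⟩ := hRKB n
  have key : ∀ c : Co n, ¬ u c.1.2 < u c.1.1 → msk u z c = 0 := by
    intro c h
    unfold msk
    rw [if_neg h]
  by_cases hlt : u c.1.2 < u c.1.1
  · rcases hc with hc | hc
    · -- the row
      have hd : rkN u i (u i) ≤ Module.finrank ℂ (KN u (msk u z) i (u i)) := by
        rw [hr]
        exact hz' _ _ i.2.le (u i).2.le
      obtain ⟨d, hd1, hd2⟩ := surj u (msk u z) i (u i) hd (fun j => if j = c.1.2 then 1 else 0)
      have hci : c.1.2 < i := by rw [← hc]; exact c.2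
      have hrow : ∑ j, Um (msk u z) i j * d j = 0 := hd1.2 i le_rfl
      rw [Finset.sum_eq_single c.1.2] at hrow
      · have h1 : d c.1.2 = 1 := by
          rw [hd2 c.1.2 (Fin.lt_def.1 hci) (by rw [← hc]; exact Fin.lt_def.1 hlt), if_pos rfl]
        have h2 : Um (msk u z) i c.1.2 = msk u z c := by
          unfold Um
          rw [dif_pos hci]
          congr 1
          exact Subtype.ext (Prod.ext hc.symm rfl)
        rw [h1, h2, mul_one] at hrow
        exact hrow
      · intro j _ hj
        by_cases h1 : j < i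
        · by_cases h2 : u j < u i
          · rw [hd2 j (Fin.lt_def.1 h1) (Fin.lt_def.1 h2), if_neg hj, mul_zero]
          · have h3 : Um (msk u z) i j = 0 := by
              unfold Um
              rw [dif_pos h1]
              exact key ⟨(i, j), h1⟩ h2
            rw [h3, zero_mul]
        · rw [hd1.1 j (by rw [not_lt] at h1; exact Fin.le_def.1 h1), mul_zero]
      · intro h1; exact absurd (Finset.mem_univ _) h1
    · -- the column
      have hru : rkN u ((i : ℕ) + 1) ((u i : ℕ) + 1) = rkN v ((i : ℕ) + 1) ((u i : ℕ) + 1) := by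
        rw [rk_succ u (hrk u) i, hr, hi, rk_succ v (hrk v) i]
      have hd : rkN u ((i : ℕ) + 1) ((u i : ℕ) + 1) ≤
          Module.finrank ℂ (KN u (msk u z) ((i : ℕ) + 1) ((u i : ℕ) + 1)) := by
        rw [hru]
        exact hz' _ _ i.2 (u i).2
      obtain ⟨d, hd1, hd2⟩ := surj u (msk u z) _ _ hd (fun j => if j = i then 1 else 0)
      have hdi : d i = 1 := by
        rw [hd2 i (Nat.lt_succ_self _) (Nat.lt_succ_self _), if_pos rfl]
      have hlow : ∀ h : Fin n, (h : ℕ) < (i : ℕ) → d h = 0 := by
        apply van u (msk u z) _ _ (i : ℕ) d hd1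
        intro j h1 h2 h3
        rw [hd2 j h2 h3, if_neg (fun h => absurd h1 (by rw [h]; exact lt_irrefl _))]
      have hne : ∀ h : Fin n, h ≠ i → d h = 0 := by
        intro h hne
        rcases lt_or_gt_of_ne hne with h1 | h1
        · exact hlow h (Fin.lt_def.1 h1)
        · exact hd1.1 h (Nat.succ_le_of_lt (Fin.lt_def.1 h1))
      have hrow : ∑ j, Um (msk u z) c.1.1 j * d j = 0 := by
        apply hd1.2
        rw [← hc]
        exact Nat.succ_le_of_lt (Fin.lt_def.1 hlt)
      rw [Finset.sum_eq_single i] at hrow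
      · have h2 : Um (msk u z) c.1.1 i = msk u z c := by
          unfold Um
          rw [dif_pos (by rw [← hc]; exact c.2)]
          congr 1
          exact Subtype.ext (Prod.ext rfl hc.symm)
        rw [hdi, h2, mul_one] at hrow
        exact hrow
      · intro j _ hj
        rw [hne j hj, mul_zero]
      · intro h1; exact absurd (Finset.mem_univ _) h1
  · exact key c hlt

end Pool.Agent.COV
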