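import Pool.Agent.Work.MP_1c6e58_ag.COV.Stmts2

/-!
MP_1c6e58_ag, project COV, item EMBM: embeddings preserve the multiplicity.
-/

set_option autoImplicit false

open Finset

namespace Pool.Agent.COV

open Pool.Agent.SH

namespace XQEMBM

theorem notRange {m : ℕ} (i j : Fin (m + 1))
    (h : j ∉ Set.range (Fin.succAboveOrderEmb i)) : j = i := by
  by_contra hne
  apply h
  obtain ⟨k, hk⟩ := Fin.exists_succAbove_eq hne
  exact ⟨k, hk⟩

/-- The values of a pattern after the deletion of a position. -/
theorem pat_val {m : ℕ} (w : Equiv.Perm (Fin (m + 1))) (i : Fin (m + 1))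
    (w' : Equiv.Perm (Fin m)) (h : IsPat w' w (Fin.succAboveOrderEmb i)) (k : Fin m) :
    w (i.succAbove k) = (w i).succAbove (w' k) := by
  have hf : StrictMono (fun a : Fin m => w (i.succAbove (w'.symm a))) := by
    intro a b hab
    have h1 := (h (w'.symm a) (w'.symm b)).2 (by simpa using hab)
    exact h1
  have hg : StrictMono (fun a : Fin m => (w i).succAbove a) := Fin.strictMono_succAbove (w i)
  have hr : Set.range (fun a : Fin m => w (i.succAbove (w'.symm a))) =
      Set.range (fun a : Fin m => (w i).succAbove a) := by
    have h2 : Set.range (fun a : Fin m => (w i).succAbove a) = {w i}ᶜ := Fin.range_succAbove (w i)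
    rw [h2]
    ext y
    simp only [Set.mem_range, Set.mem_compl_iff, Set.mem_singleton_iff]
    constructor
    · rintro ⟨a, rfl⟩ hy
      exact Fin.succAbove_ne i _ (w.injective hy)
    · intro hy
      have h3 : w.symm y ≠ i := by
        rintro rfl
        exact hy (by simp)
      obtain ⟨b, hb⟩ := Fin.exists_succAbove_eq h3
      refine ⟨w' b, ?_⟩
      rw [Equiv.symm_apply_apply, hb, Equiv.apply_symm_apply]
  have he := (StrictMono.range_inj hf hg).1 hr
  have h4 := congrFun he (w' k)
  simp only [Equiv.symm_apply_apply] at h4
  exact h4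

/-- A surjective order embedding. -/
theorem full {m n : ℕ} (φ : Fin m ↪o Fin n) (h : ∀ i, i ∈ Set.range φ) : m = n := by
  have h1 : Function.Bijective φ := ⟨φ.injective, fun i => h i⟩
  have h2 := Fintype.card_of_bijective h1
  simpa using h2

theorem full_id {n : ℕ} (φ : Fin n ↪o Fin n) (h : ∀ i, i ∈ Set.range φ) (j : Fin n) :
    φ j = j := by
  have hr : Set.range (φ : Fin n → Fin n) = Set.range (id : Fin n → Fin n) := by
    rw [Set.range_id]
    exact Set.eq_univ_of_forall h
  have he := (StrictMono.range_inj φ.strictMono strictMono_id).1 hr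
  exact congrFun he j

end XQEMBM

theorem I_EMBM (_hRKB : St_RKB) (hREMF : St_REMF) (hLEND : St_LEND) (hPEX : St_PEX)
    (hPBR : St_PBR) (hPLEN : St_PLEN) (hEMBP : St_EMBP) (hEXM : St_EXM) (hMQM : St_MQM) :
    St_EMBM := by
  have key : ∀ (N : ℕ) (A B : Itv), A.n = N → Emb B A → ∀ e, MultAt A e → MultAt B e := by
    intro N
    induction N using Nat.strong_induction_on with
    | _ N ih =>
      rintro ⟨n, u, v, h⟩ ⟨m, x, w, hb⟩ hN hE e he
      dsimp only at hN
      have hE' := (hEMBP _ _).1 hE
      obtain ⟨φ, hw, hx, hout, hlen⟩ := hE'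
      dsimp only at φ hw hx hout hlen
      by_cases hall : ∀ i, i ∈ Set.range φ
      · have hmn := XQEMBM.full φ hall
        subst hmn
        have hid := XQEMBM.full_id φ hall
        have hwv : w = v := (hPEX m m φ v).2 w v hw (fun j k => by rw [hid j, hid k])
        have hxu : x = u := (hPEX m m φ u).2 x u hx (fun j k => by rw [hid j, hid k])
        subst hwv
        subst hxu
        exact he
      · push Not at hall
        obtain ⟨i, hi⟩ := hall
        cases n with
        | zero => exact i.elim0
        | succ n =>
          have huvi : u i = v i := hout i hi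
          obtain ⟨u', hu'⟩ := (hPEX n (n + 1) (Fin.succAboveOrderEmb i) u).1
          obtain ⟨v', hv'⟩ := (hPEX n (n + 1) (Fin.succAboveOrderEmb i) v).1
          have hout1 : ∀ j, j ∉ Set.range (Fin.succAboveOrderEmb i) → u j = v j := by
            intro j hj
            rw [XQEMBM.notRange i j hj]
            exact huvi
          have hbr : Br u' v' :=
            (hPBR n (n + 1) (Fin.succAboveOrderEmb i) u v u' v' hv' hu' hout1).2 h
          have hex : ∀ j : Fin m, ∃ k : Fin n, i.succAbove k = φ j := by
            intro j
            apply Fin.exists_succAbove_eq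
            intro hj
            exact hi ⟨j, hj⟩
          choose ψ0 hψ0 using hex
          have hmono : StrictMono ψ0 := by
            intro a b hab
            have h1 : φ a < φ b := φ.strictMono hab
            rw [← hψ0 a, ← hψ0 b] at h1
            exact (Fin.strictMono_succAbove i).lt_iff_lt.1 h1
          let ψ : Fin m ↪o Fin n := OrderEmbedding.ofStrictMono ψ0 hmono
          have hψ : ∀ j, Fin.succAboveOrderEmb i (ψ j) = φ j := fun j => hψ0 j
          have hwv' : IsPat w v' ψ := by
            intro j k
            rw [← hw j k, ← hψ j, ← hψ k]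
            exact (hv' (ψ j) (ψ k)).symm
          have hxu' : IsPat x u' ψ := by
            intro j k
            rw [← hx j k, ← hψ j, ← hψ k]
            exact (hu' (ψ j) (ψ k)).symm
          have hout2 : ∀ l, l ∉ Set.range ψ → u' l = v' l := by
            intro l hl
            have h1 : i.succAbove l ∉ Set.range φ := by
              rintro ⟨j, hj⟩
              apply hl
              refine ⟨j, ?_⟩
              apply Fin.succAbove_right_injective (p := i)
              exact (hψ0 j).trans hj
            have h2 := hout _ h1
            rw [XQEMBM.pat_val u i u' hu' l, XQEMBM.pat_val v i v' hv' l, huvi] at h2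
            exact Fin.succAbove_right_injective h2
          have hl1 := hPLEN m n ψ u' v' x w hwv' hxu' hout2 hb
          have hl2 := hPLEN n (n + 1) (Fin.succAboveOrderEmb i) u v u' v' hv' hu' hout1 hbr
          have hEC : Emb ⟨m, x, w, hb⟩ ⟨n, u', v', hbr⟩ := by
            rw [hEMBP]
            refine ⟨ψ, hwv', hxu', hout2, ?_⟩
            dsimp only
            omega
          have hLu := hLEND n u i u' hu'
          have hLv := hLEND n v i v' hv'
          have hr : rkN u i (u i) = rkN v i (u i) := by
            rw [← huvi] at hLv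
            omega
          have hC : MultAt ⟨n, u', v', hbr⟩ e := by
            obtain ⟨d, e0, hm⟩ := (hEXM ⟨n, u', v', hbr⟩).1
            obtain ⟨d', hm'⟩ := hREMF n u v i u' v' huvi hr hu' hv' d e0 hm
            have hB : MultAt ⟨n, u', v', hbr⟩ e0 := hMQM _ _ d e0 hm
            have hA : MultAt ⟨n + 1, u, v, h⟩ e0 := hMQM _ _ d' e0 hm'
            obtain ⟨e1, _, _, huni⟩ := (hEXM ⟨n + 1, u, v, h⟩).2
            have : e = e0 := by rw [huni e he, huni e0 hA]
            rw [this]
            exact hB
          exact ih n (by omega) ⟨n, u', v', hbr⟩ ⟨m, x, w, hb⟩ rfl hEC e hC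
  intro A B hE e he
  exact key A.n A B rfl hE e he

end Pool.Agent.COV
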