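import Pool.Agent.Work.MP_1c6e58_ag.COV.Stmts2

/-!
# Item IEX: existence and uniqueness of family I
-/

set_option autoImplicit false

open Finset

namespace Pool.Agent.COV

open Pool.Agent.SH

theorem I_IEX (hRKB : St_RKB) (hIRK : St_IRK) : St_IEX := by
  constructor
  · intro a b ha hb
    obtain ⟨u, v, hu, hv, hru, hrv⟩ := hIRK a b ha hb
    have hbr : Br u v := by
      intro p q
      have e1 := ((hRKB (a + b + 2)).1 u).rk p q
      have e2 := ((hRKB (a + b + 2)).1 v).rk p q
      rw [e1, e2, hru _ _ (by omega) (by omega), hrv _ _ (by omega) (by omega)]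
      unfold fI
      omega
    exact ⟨⟨a + b + 2, u, v, hbr⟩, ha, hb, rfl, hu, hv⟩
  · rintro a b ⟨n, u, v, h⟩ ⟨n', u', v', h'⟩ ⟨-, -, hn, hu, hv⟩ ⟨-, -, hn', hu', hv'⟩
    simp only at hn hn' hu hv hu' hv'
    subst hn
    subst hn'
    have e1 : u = u' := by
      ext j
      rw [hu j, hu' j]
    have e2 : v = v' := by
      ext j
      rw [hv j, hv' j]
    subst e1
    subst e2
    rfl

end Pool.Agent.COV
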