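import Pool.Agent.Work.MP_1c6e58_ag.COV.Stmts2

/-!
MP_1c6e58_ag, project COV: facts on family I.
-/

set_option autoImplicit false

open Finset

namespace Pool.Agent.COV

open Pool.Agent.SH

namespace XQIFACT

theorem av (a b : ℕ) (v : Equiv.Perm (Fin (a + b + 2)))
    (hv : ∀ j, (v j : ℕ) = if (j : ℕ) = 0 then a + b + 1 else if (j : ℕ) ≤ a then a + 1 - j else
      if (j : ℕ) ≤ a + b then 2 * a + b + 1 - j else 0) : Av3412 v := by
  intro i j k l hij hjk hkl h
  obtain ⟨h1, h2, h3⟩ := h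
  rw [Fin.lt_def] at hij hjk hkl h1 h2 h3
  rw [hv k, hv l] at h1
  rw [hv l, hv i] at h2
  rw [hv i, hv j] at h3
  have hl := l.isLt
  split_ifs at h1 h3 <;> omega

theorem ess (a b : ℕ) (ha : 1 ≤ a) (hb : 1 ≤ b) (v : Equiv.Perm (Fin (a + b + 2)))
    (hr : ∀ α β, α ≤ a + b + 2 → β ≤ a + b + 2 → rkN v α β = fI (a + b + 2) (a + 1) a α β) :
    EssT v {(a + 1, a + 1)} := by
  have h0 : rkN v (a + 1) (a + 1) = a := by
    rw [hr _ _ (by omega) (by omega)]
    unfold fI
    omega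
  refine ⟨?_, ?_, ?_, ?_, ?_⟩
  · intro t ht
    rw [Finset.mem_singleton] at ht
    subst ht
    refine ⟨?_, ?_, ?_, ?_⟩ <;> simp only <;> omega
  · intro s hs t ht
    rw [Finset.mem_singleton] at hs ht
    subst hs
    subst ht
    exact Or.inl ⟨le_rfl, le_rfl⟩
  · intro t ht
    rw [Finset.mem_singleton] at ht
    subst ht
    simp only [h0]
    refine ⟨?_, ?_⟩ <;> omega
  · intro s hs t ht hne
    rw [Finset.mem_singleton] at hs ht
    exact absurd (hs.trans ht.symm) hne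
  · intro α β hα hβ
    have h1 := hr α β hα hβ
    unfold fI at h1
    by_cases h2 : rkN v α β = 0
    · exact Or.inl h2
    · by_cases h3 : α + β = a + b + 2 + rkN v α β
      · exact Or.inr (Or.inl h3)
      · refine Or.inr (Or.inr ⟨(a + 1, a + 1), Finset.mem_singleton_self _, ?_⟩)
        simp only [h0]
        omega

end XQIFACT

theorem I_IFACT (_hRKB : St_RKB) (hIRK : St_IRK) : St_IFACT := by
  intro a b A hA
  obtain ⟨n, u, v, hle⟩ := A
  obtain ⟨ha, hb, hn, hu, hv⟩ := hA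
  simp only at hn
  subst hn
  obtain ⟨u0, v0, hu0, hv0, hru, hrv⟩ := hIRK a b ha hb
  have e1 : u = u0 := by
    refine Equiv.ext fun j => Fin.ext ?_
    rw [hu0 j]
    exact hu j
  have e2 : v = v0 := by
    refine Equiv.ext fun j => Fin.ext ?_
    rw [hv0 j]
    exact hv j
  subst e1
  subst e2
  refine ⟨XQIFACT.av a b v hv0, XQIFACT.ess a b ha hb v hrv, hru, hrv, ?_⟩
  intro j he
  have h1 : (u j : ℕ) = (v j : ℕ) := congrArg Fin.val he
  rw [hu0 j, hv0 j] at h1
  have hj := j.isLt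
  simp only at hj
  split_ifs at h1 <;> omega

end Pool.Agent.COV
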