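import Pool.Agent.Work.MP_1c6e58_ag.COV.Stmts2

/-!
MP_1c6e58_ag, project COV, family I: item IMULT.
-/

set_option autoImplicit false

open Finset

namespace Pool.Agent.COV

open Pool.Agent.SH

/-- IMULT: the multiplicity of family I. -/
theorem I_IMULT (_hRKB : St_RKB) (hIFACT : St_IFACT) (hCHART : St_CHART) (hLADQ : St_LADQ)
    (hNGI : St_NGI) (hMQM : St_MQM) : St_IMULT := by
  intro a b A hI
  obtain ⟨_, hT, hu, hv, _⟩ := hIFACT a b A hI
  have ha : 1 ≤ a := hI.1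
  have hb : 1 ≤ b := hI.2.1
  have hn : A.n = a + b + 2 := hI.2.2.1
  have h1 : rkN A.u (a + 1) (a + 1) = a + 1 := by
    rw [hu _ _ (by omega) (by omega)]; unfold fI; omega
  have h2 : rkN A.v (a + 1) (a + 1) = a := by
    rw [hv _ _ (by omega) (by omega)]; unfold fI; omega
  have hq : ∀ q : {t : ℕ × ℕ // t ∈ ({(a + 1, a + 1)} : Finset (ℕ × ℕ))},
      q.1.1 = a + 1 ∧ q.1.2 = a + 1 := by
    intro q
    have := Finset.mem_singleton.1 q.2
    exact ⟨by rw [this], by rw [this]⟩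
  letI : Unique {t : ℕ × ℕ // t ∈ ({(a + 1, a + 1)} : Finset (ℕ × ℕ))} :=
    ⟨⟨⟨(a + 1, a + 1), by simp⟩⟩, fun x => Subtype.ext (Finset.mem_singleton.1 x.2)⟩
  have lad : Ladd (fun t : {t : ℕ × ℕ // t ∈ ({(a + 1, a + 1)} : Finset (ℕ × ℕ))} =>
      A.n + rkN A.u t.1.1 t.1.2 - t.1.1 - t.1.2) (fun t => rkN A.u t.1.1 t.1.2)
      (fun t => rkN A.u t.1.1 t.1.2 - rkN A.v t.1.1 t.1.2) := by
    constructor
    · intro q
      obtain ⟨e1, e2⟩ := hq q
      simp only [e1, e2, h1, h2]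
      omega
    · intro q
      obtain ⟨e1, e2⟩ := hq q
      simp only [e1, e2, h1, h2]
      omega
    · intro q q' hne
      exact absurd (Subsingleton.elim q q') hne
  have h := hLADQ _ _ _ _ lad
  rw [hNGI _ _ _ _ a b] at h
  · obtain ⟨d', hd⟩ := hCHART A.n A.u A.v _ hT A.le _ _ h
    exact hMQM _ _ _ _ hd
  · obtain ⟨e1, e2⟩ := hq default
    simp only [e1, e2, h1]
    omega
  · obtain ⟨e1, e2⟩ := hq default
    simp only [e1, e2, h1]
  · obtain ⟨e1, e2⟩ := hq default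
    simp only [e1, e2, h1, h2]
    omega

end Pool.Agent.COV
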