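import Pool.Agent.Work.MP_1c6e58_ag.COV.Stmts2

/-!
MP_1c6e58_ag, project COV, item IRK: the permutations of family I and their rank functions.
-/

set_option autoImplicit false

open Finset

namespace Pool.Agent.COV

open Pool.Agent.SH

namespace XQIRK

theorem fI_super (n p s α β : ℕ) (_hs : s ≤ p) (_hp : p ≤ n) (_hα : α < n) (_hβ : β < n) :
    fI n p s (α + 1) β + fI n p s α (β + 1) ≤ fI n p s α β + fI n p s (α + 1) (β + 1) := by
  have key : ∀ x y, fI n p s x y = max (x + y - n) (s - (p - x) - (p - y)) := fun _ _ => rfl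
  rcases Nat.lt_or_ge α p with h1 | h1
  · rcases Nat.lt_or_ge β p with h2 | h2
    · rw [key, key, key, key]
      have e1 : p - α = p - (α + 1) + 1 := by omega
      have e2 : p - β = p - (β + 1) + 1 := by omega
      rw [e1, e2]
      generalize p - (α + 1) = x
      generalize p - (β + 1) = y
      have e3 : α + 1 + β - n = α + (β + 1) - n := by omega
      have e4 : s - x - (y + 1) = s - (x + 1) - y := by omega
      rw [e3, e4]
      omega
    · rw [key, key, key, key]
      have e1 : p - α = p - (α + 1) + 1 := by omega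
      have e2 : p - β = 0 := by omega
      have e3 : p - (β + 1) = 0 := by omega
      rw [e1, e2, e3]
      generalize p - (α + 1) = x
      omega
  · rw [key, key, key, key]
    have e1 : p - α = 0 := by omega
    have e2 : p - (α + 1) = 0 := by omega
    rw [e1, e2]
    simp only [Nat.sub_zero]
    rcases Nat.lt_or_ge β p with h2 | h2
    · have e3 : p - β = p - (β + 1) + 1 := by omega
      rw [e3]
      generalize p - (β + 1) = y
      omega
    · have e3 : p - β = 0 := by omega
      have e4 : p - (β + 1) = 0 := by omega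
      rw [e3, e4]
      omega

theorem ex_perm (hPRK : St_PRK) (a b s : ℕ) (_ha : 1 ≤ a) (_hb : 1 ≤ b) (hs : s ≤ a + 1)
    (hs' : a ≤ s) : ∃ w : Equiv.Perm (Fin (a + b + 2)), ∀ α β, α ≤ a + b + 2 → β ≤ a + b + 2 →
      rkN w α β = fI (a + b + 2) (a + 1) s α β := by
  refine hPRK (a + b + 2) (fI (a + b + 2) (a + 1) s) ?_ ?_ ?_ ?_ ?_
  · intro β hβ
    simp only [fI]
    omega
  · intro α hα
    simp only [fI]
    omega
  · intro β hβ
    simp only [fI]
    omega
  · intro α hα
    simp only [fI]
    omega
  · intro α β hα hβ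
    exact fI_super (a + b + 2) (a + 1) s α β hs (by omega) hα hβ

theorem val_of {n : ℕ} {w : Equiv.Perm (Fin n)} (hw : RkF w) (j : Fin n) (x : ℕ) (hx : x < n)
    (h : rkN w ((j : ℕ) + 1) (x + 1) + rkN w (j : ℕ) x =
      rkN w ((j : ℕ) + 1) x + rkN w (j : ℕ) (x + 1) + 1) : (w j : ℕ) = x := by
  have := (hw.mix j ⟨x, hx⟩).2 h
  rw [this]

end XQIRK

open XQIRK in
theorem I_IRK (hRKB : St_RKB) (hPRK : St_PRK) : St_IRK := by
  intro a b ha hb
  obtain ⟨u, hu⟩ := ex_perm hPRK a b (a + 1) ha hb (le_refl _) (by omega)
  obtain ⟨v, hv⟩ := ex_perm hPRK a b a ha hb (by omega) (le_refl _)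
  have hU : RkF u := (hRKB _).1 u
  have hV : RkF v := (hRKB _).1 v
  refine ⟨u, v, ?_, ?_, hu, hv⟩
  · intro j
    have hj := j.2
    split_ifs with h1
    · refine val_of hU j _ (by omega) ?_
      rw [hu _ _ (by omega) (by omega), hu _ _ (by omega) (by omega),
        hu _ _ (by omega) (by omega), hu _ _ (by omega) (by omega)]
      simp only [fI]
      omega
    · refine val_of hU j _ (by omega) ?_
      rw [hu _ _ (by omega) (by omega), hu _ _ (by omega) (by omega),
        hu _ _ (by omega) (by omega), hu _ _ (by omega) (by omega)]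
      obtain ⟨i, hi⟩ : ∃ i : ℕ, (j : ℕ) = a + 1 + i := ⟨j - (a + 1), by omega⟩
      have e1 : 2 * a + b + 2 - (j : ℕ) = a + b + 1 - i := by omega
      have hib : i ≤ b := by omega
      rw [e1, hi]
      clear e1 hi hj h1 hu hv hU hV
      have f1 : fI (a + b + 2) (a + 1) (a + 1) (a + 1 + i + 1) (a + b + 1 - i + 1) = a + 2 := by
        simp only [fI]
        omega
      have f2 : fI (a + b + 2) (a + 1) (a + 1) (a + 1 + i) (a + b + 1 - i) = a + 1 := by
        simp only [fI]
        omega
      have f3 : fI (a + b + 2) (a + 1) (a + 1) (a + 1 + i + 1) (a + b + 1 - i) = a + 1 := by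
        simp only [fI]
        omega
      have f4 : fI (a + b + 2) (a + 1) (a + 1) (a + 1 + i) (a + b + 1 - i + 1) = a + 1 := by
        simp only [fI]
        omega
      omega
  · intro j
    have hj := j.2
    split_ifs with h1 h2 h3
    · refine val_of hV j _ (by omega) ?_
      rw [hv _ _ (by omega) (by omega), hv _ _ (by omega) (by omega),
        hv _ _ (by omega) (by omega), hv _ _ (by omega) (by omega)]
      simp only [fI]
      omega
    · refine val_of hV j _ (by omega) ?_
      rw [hv _ _ (by omega) (by omega), hv _ _ (by omega) (by omega),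
        hv _ _ (by omega) (by omega), hv _ _ (by omega) (by omega)]
      obtain ⟨i, hi⟩ : ∃ i : ℕ, (j : ℕ) = a + 1 - i := ⟨a + 1 - j, by omega⟩
      have hi1 : 1 ≤ i := by omega
      have hi2 : i ≤ a := by omega
      have e1 : a + 1 - (j : ℕ) = i := by omega
      rw [e1, hi]
      clear e1 hi hj h1 h2 hu hv hU hV
      have f1 : fI (a + b + 2) (a + 1) a (a + 1 - i + 1) (i + 1) = 1 := by
        simp only [fI]
        omega
      have f2 : fI (a + b + 2) (a + 1) a (a + 1 - i) i = 0 := by
        simp only [fI]
        omega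
      have f3 : fI (a + b + 2) (a + 1) a (a + 1 - i + 1) i = 0 := by
        simp only [fI]
        omega
      have f4 : fI (a + b + 2) (a + 1) a (a + 1 - i) (i + 1) = 0 := by
        simp only [fI]
        omega
      omega
    · refine val_of hV j _ (by omega) ?_
      rw [hv _ _ (by omega) (by omega), hv _ _ (by omega) (by omega),
        hv _ _ (by omega) (by omega), hv _ _ (by omega) (by omega)]
      obtain ⟨i, hi⟩ : ∃ i : ℕ, (j : ℕ) = a + 1 + i := ⟨j - (a + 1), by omega⟩
      have e1 : 2 * a + b + 1 - (j : ℕ) = a + b - i := by omega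
      have hib : i < b := by omega
      rw [e1, hi]
      clear e1 hi hj h1 h2 h3 hu hv hU hV
      have f1 : fI (a + b + 2) (a + 1) a (a + 1 + i + 1) (a + b - i + 1) = a + 1 := by
        simp only [fI]
        omega
      have f2 : fI (a + b + 2) (a + 1) a (a + 1 + i) (a + b - i) = a := by
        simp only [fI]
        omega
      have f3 : fI (a + b + 2) (a + 1) a (a + 1 + i + 1) (a + b - i) = a := by
        simp only [fI]
        omega
      have f4 : fI (a + b + 2) (a + 1) a (a + 1 + i) (a + b - i + 1) = a := by
        simp only [fI]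
        omega
      omega
    · refine val_of hV j _ (by omega) ?_
      rw [hv _ _ (by omega) (by omega), hv _ _ (by omega) (by omega),
        hv _ _ (by omega) (by omega), hv _ _ (by omega) (by omega)]
      simp only [fI]
      omega

end Pool.Agent.COV
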