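import Pool.Agent.Work.MP_1c6e58_ag.COV.Stmts2
import Pool.Agent.Work.MP_1c6e58_ag.LAD.Final

/-!
MP_1c6e58_ag, project COV: the multiplicity of the ladder variety.
-/

set_option autoImplicit false

open Finset

namespace Pool.Agent.COV

open Pool.Agent.SH

namespace XQLADQ

theorem good_iff (hLLEV : St_LLEV) {Q : Type} [Fintype Q] (A B ρ : Q → ℕ)
    (F : Finset (ℕ × ℕ)) : LAD.Good A B ρ F ↔ GoodF A B ρ F := by
  constructor
  · rintro ⟨h1, h2⟩
    by_contra hb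
    have hc : ∀ c ∈ F, ∃ q, c.1 < A q ∧ c.2 < B q := fun c hc => (LAD.mem_YY c).1 (h1 hc)
    obtain ⟨q, s, hs1, hs2, hs3⟩ := hLLEV Q A B ρ F hc hb
    exact h2 q ⟨s, hs2, fun i => ⟨hs1 i, hs3 i⟩⟩
  · rintro ⟨h1, lv, h2, h3, h4⟩
    refine ⟨fun c hc => (LAD.mem_YY c).2 (h1 c hc), ?_⟩
    rintro q ⟨s, hs1, hs2⟩
    have key : ∀ (m : ℕ) (i : Fin (ρ q + 1)), (i : ℕ) = m → m + 1 ≤ lv (s i) := by
      intro m
      induction m with
      | zero => intro i _; exact h2 _ (hs2 i).1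
      | succ m ih =>
        intro i hi
        have hm : m < ρ q + 1 := by have := i.2; omega
        have hlt : (⟨m, hm⟩ : Fin (ρ q + 1)) < i := by
          rw [Fin.lt_def]; simp only; omega
        have h5 := h3 _ (hs2 ⟨m, hm⟩).1 _ (hs2 i).1 (hs1 _ _ hlt)
        have h6 := ih ⟨m, hm⟩ rfl
        omega
    have h7 := key (ρ q) (Fin.last (ρ q)) rfl
    have h8 := h4 q (s (Fin.last (ρ q))) (hs2 _).1 (hs2 _).2.1 (hs2 _).2.2
    omega

end XQLADQ

open XQLADQ in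
theorem I_LADQ (hLLEV : St_LLEV) (hLGF : St_LGF) (hLMAX : St_LMAX) : St_LADQ := by
  classical
  intro Q _ A B ρ hL
  have h := LAD.lmq Q A B ρ hL (FL A B ρ).card
    (fun F hF => hLMAX Q A B ρ F ((good_iff hLLEV A B ρ F).1 hF))
    ⟨FL A B ρ, (good_iff hLLEV A B ρ _).2 (hLGF Q A B ρ).good, rfl⟩
  have hN : (LAD.GoodN A B ρ (FL A B ρ).card).card = NG A B ρ := by
    unfold NG
    congr 1
    ext F
    rw [LAD.mem_GoodN, Finset.mem_filter, Finset.mem_powerset, good_iff hLLEV]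
    constructor
    · intro h
      refine ⟨?_, h⟩
      intro c hc
      obtain ⟨q, h1, h2⟩ := h.1.1 c hc
      unfold YF
      rw [Finset.mem_biUnion]
      exact ⟨q, Finset.mem_univ q, Finset.mem_product.2
        ⟨Finset.mem_range.2 h1, Finset.mem_range.2 h2⟩⟩
    · intro h
      exact h.2
  rw [← hN]
  exact h

end Pool.Agent.COV
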