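import Pool.Agent.Work.MP_1c6e58_ag.COV.Stmts2

/-!
MP_1c6e58_ag, project COV: largest good sets for one rectangle of rank 1.
-/

set_option autoImplicit false

open Finset

namespace Pool.Agent.COV

open Pool.Agent.SH

namespace XQNGI

variable {Q : Type} [Fintype Q] [Unique Q] {A B ρ : Q → ℕ} {a b : ℕ}

theorem yf_eq (hA : A default = b + 1) (hB : B default = a + 1) :
    YF A B = range (b + 1) ×ˢ range (a + 1) := by
  ext c
  unfold YF
  rw [Finset.mem_biUnion]
  constructor
  · rintro ⟨q, _, hq⟩
    rw [Subsingleton.elim q default, hA, hB] at hq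
    exact hq
  · intro h
    refine ⟨default, Finset.mem_univ _, ?_⟩
    rw [hA, hB]
    exact h

omit [Fintype Q] in
theorem good_iff (hA : A default = b + 1) (hB : B default = a + 1) (hρ : ρ default = 1)
    (F : Finset (ℕ × ℕ)) (hF : F ⊆ range (b + 1) ×ˢ range (a + 1)) :
    GoodF A B ρ F ↔ ∀ c ∈ F, ∀ c' ∈ F, ¬ dlt c c' := by
  have hin : ∀ c ∈ F, c.1 < b + 1 ∧ c.2 < a + 1 := by
    intro c hc
    have h := Finset.mem_product.1 (hF hc)
    exact ⟨Finset.mem_range.1 h.1, Finset.mem_range.1 h.2⟩
  constructor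
  · rintro ⟨_, lv, h1, h2, h3⟩ c hc c' hc' hcc
    have h4 := h2 c hc c' hc' hcc
    have h5 := h1 c hc
    have h6 := h3 default c' hc' (by rw [hA]; exact (hin c' hc').1)
      (by rw [hB]; exact (hin c' hc').2)
    rw [hρ] at h6
    omega
  · intro h
    refine ⟨fun c hc => ⟨default, by rw [hA]; exact (hin c hc).1, by rw [hB]; exact (hin c hc).2⟩,
      fun _ => 1, fun _ _ => le_rfl, fun c hc c' hc' hcc => absurd hcc (h c hc c' hc'), ?_⟩
    intro q c _ _ _
    rw [Subsingleton.elim q default, hρ]

theorem fl_card (hLGF : St_LGF) (hA : A default = b + 1) (hB : B default = a + 1)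
    (hρ : ρ default = 1) : (FL A B ρ).card = a + b + 1 := by
  have hg := (hLGF Q A B ρ).le
  have h1 : FL A B ρ = ({b} ×ˢ range (a + 1)) ∪ (range b ×ˢ {a}) := by
    ext c
    unfold FL
    rw [Finset.mem_filter, yf_eq hA hB, hg c 1, Finset.mem_union, Finset.mem_product,
      Finset.mem_product, Finset.mem_product]
    simp only [Finset.mem_range, Finset.mem_singleton]
    constructor
    · rintro ⟨⟨h2, h3⟩, _, _, h4⟩
      have h5 := h4 default
      rw [hA, hB, hρ] at h5
      push_cast at h5
      omega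
    · intro h2
      refine ⟨by omega, by omega, by omega, ?_⟩
      intro q
      rw [Subsingleton.elim q default, hA, hB, hρ]
      push_cast
      omega
  have h2 : Disjoint ({b} ×ˢ range (a + 1)) (range b ×ˢ ({a} : Finset ℕ)) := by
    rw [Finset.disjoint_left]
    intro c hc hc'
    rw [Finset.mem_product, Finset.mem_singleton] at hc
    rw [Finset.mem_product, Finset.mem_range] at hc'
    omega
  rw [h1, Finset.card_union_of_disjoint h2, Finset.card_product, Finset.card_product,
    Finset.card_singleton, Finset.card_range, Finset.card_range, Finset.card_singleton]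
  omega

end XQNGI

open XQNGI in
theorem I_NGI (hPATHS : St_PATHS) (hLGF : St_LGF) : St_NGI := by
  classical
  intro Q _ _ A B ρ a b hA hB hρ
  rw [← hPATHS a b]
  unfold NG
  rw [fl_card hLGF hA hB hρ, yf_eq hA hB]
  congr 1
  ext F
  rw [Finset.mem_filter, Finset.mem_filter, Finset.mem_powerset]
  constructor
  · rintro ⟨h1, h2, h3⟩
    exact ⟨h1, (good_iff hA hB hρ F h1).1 h2, h3⟩
  · rintro ⟨h1, h2, h3⟩
    exact ⟨h1, (good_iff hA hB hρ F h1).2 h2, h3⟩

end Pool.Agent.COV
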