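import Pool.Agent.Work.MP_1c6e58_ag.COV.Stmts2

/-!
MP_1c6e58_ag, project COV, item PATHS (helper67): the number of lattice paths as sets of cells
without 2-chains.
-/

set_option autoImplicit false

open Finset

namespace Pool.Agent.COV

open Pool.Agent.SH

namespace XQPATHS

open Classical in
/-- The sets counted in `St_PATHS`. -/
noncomputable def S (a b : ℕ) : Finset (Finset (ℕ × ℕ)) :=
  (((range (b + 1)) ×ˢ (range (a + 1))).powerset.filter
    (fun F => (∀ c ∈ F, ∀ c' ∈ F, ¬ dlt c c') ∧ F.card = a + b + 1))

open Classical in
theorem mem_S (a b : ℕ) (F : Finset (ℕ × ℕ)) : F ∈ S a b ↔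
    ((∀ c ∈ F, c.1 ≤ b ∧ c.2 ≤ a) ∧ (∀ c ∈ F, ∀ c' ∈ F, ¬ dlt c c') ∧ F.card = a + b + 1) := by
  unfold S
  rw [mem_filter, mem_powerset]
  constructor
  · rintro ⟨h1, h2, h3⟩
    refine ⟨fun c hc => ?_, h2, h3⟩
    have := h1 hc
    rw [mem_product, mem_range, mem_range] at this
    omega
  · rintro ⟨h1, h2, h3⟩
    refine ⟨fun c hc => ?_, h2, h3⟩
    have := h1 c hc
    rw [mem_product, mem_range, mem_range]
    omega

theorem diag (a b : ℕ) (F : Finset (ℕ × ℕ)) (hF : F ∈ S a b) (d : ℕ) (hd : d ≤ a + b) :
    ∃ c ∈ F, c.1 + a = d + c.2 := by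
  obtain ⟨h1, h2, h3⟩ := (mem_S a b F).1 hF
  have hinj : Set.InjOn (fun c : ℕ × ℕ => c.1 + a - c.2) (F : Set (ℕ × ℕ)) := by
    intro c hc c' hc' he
    have e1 := h1 c hc
    have e2 := h1 c' hc'
    have e3 := h2 c hc c' hc'
    have e4 := h2 c' hc' c hc
    unfold dlt at e3 e4
    have he' : c.1 + a - c.2 = c'.1 + a - c'.2 := he
    apply Prod.ext <;> omega
  have hsub : F.image (fun c : ℕ × ℕ => c.1 + a - c.2) ⊆ range (a + b + 1) := by
    intro x hx
    obtain ⟨c, hc, rfl⟩ := mem_image.1 hx
    have e1 := h1 c hc
    rw [mem_range]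
    omega
  have heq : F.image (fun c : ℕ × ℕ => c.1 + a - c.2) = range (a + b + 1) := by
    apply Finset.eq_of_subset_of_card_le hsub
    rw [card_image_of_injOn hinj, card_range, h3]
  have hm : d ∈ F.image (fun c : ℕ × ℕ => c.1 + a - c.2) := by
    rw [heq, mem_range]; omega
  obtain ⟨c, hc, he⟩ := mem_image.1 hm
  have e1 := h1 c hc
  exact ⟨c, hc, by omega⟩

theorem corner (a b : ℕ) (F : Finset (ℕ × ℕ)) (hF : F ∈ S a b) : (b, 0) ∈ F := by
  obtain ⟨c, hc, he⟩ := diag a b F hF (a + b) le_rfl
  have e1 := ((mem_S a b F).1 hF).1 c hc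
  have : c = (b, 0) := Prod.ext (by simp only; omega) (by simp only; omega)
  exact this ▸ hc

/-- The shift. -/
def s (c : ℕ × ℕ) : ℕ × ℕ := (c.1, c.2 + 1)

theorem s_inj : Function.Injective s := by
  intro c c' h
  simp only [s, Prod.mk.injEq] at h
  exact Prod.ext h.1 (by omega)

theorem rec_eq (a b : ℕ) : S (a + 1) (b + 1) =
    (S (a + 1) b).image (insert (b + 1, 0)) ∪
      (S a (b + 1)).image (fun G => insert (b + 1, 0) (G.image s)) := by
  ext F
  rw [mem_union, mem_image, mem_image]
  constructor
  · intro hF
    have hc := corner _ _ F hF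
    obtain ⟨h1, h2, h3⟩ := (mem_S _ _ F).1 hF
    by_cases hb : (b, 0) ∈ F
    · left
      refine ⟨F.erase (b + 1, 0), (mem_S _ _ _).2 ⟨?_, ?_, ?_⟩, insert_erase hc⟩
      · intro c hcF
        obtain ⟨hne, hcF⟩ := mem_erase.1 hcF
        have e1 := h1 c hcF
        have e2 := h2 _ hb _ hcF
        unfold dlt at e2
        simp only at e2
        have : ¬ (c.1 = b + 1 ∧ c.2 = 0) := fun h => hne (Prod.ext h.1 h.2)
        omega
      · intro c hcF c' hcF'
        exact h2 c (mem_of_mem_erase hcF) c' (mem_of_mem_erase hcF')
      · rw [card_erase_of_mem hc, h3]; omega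
    · right
      have hc1 : (b + 1, 1) ∈ F := by
        obtain ⟨c, hcF, he⟩ := diag _ _ F hF (a + b + 1) (by omega)
        have e1 := h1 c hcF
        by_cases h0 : c.2 = 0
        · exfalso
          have : c = (b, 0) := Prod.ext (by simp only; omega) h0
          exact hb (this ▸ hcF)
        · have : c = (b + 1, 1) := Prod.ext (by simp only; omega) (by simp only; omega)
          exact this ▸ hcF
      have hpos : ∀ c ∈ F.erase (b + 1, 0), 1 ≤ c.2 := by
        intro c hcF
        obtain ⟨hne, hcF⟩ := mem_erase.1 hcF
        have e1 := h1 c hcF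
        have e2 := h2 _ hcF _ hc1
        unfold dlt at e2
        simp only at e2
        have : ¬ (c.1 = b + 1 ∧ c.2 = 0) := fun h => hne (Prod.ext h.1 h.2)
        omega
      have hinj : Set.InjOn (fun c : ℕ × ℕ => (c.1, c.2 - 1))
          ((F.erase (b + 1, 0) : Finset (ℕ × ℕ)) : Set (ℕ × ℕ)) := by
        intro c hcF c' hcF' he
        have e1 := hpos c hcF
        have e2 := hpos c' hcF'
        simp only [Prod.mk.injEq] at he
        exact Prod.ext he.1 (by omega)
      refine ⟨(F.erase (b + 1, 0)).image (fun c => (c.1, c.2 - 1)),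
        (mem_S _ _ _).2 ⟨?_, ?_, ?_⟩, ?_⟩
      · intro c hcG
        obtain ⟨c', hc', rfl⟩ := mem_image.1 hcG
        have e1 := h1 c' (mem_of_mem_erase hc')
        have e2 := hpos c' hc'
        simp only
        omega
      · intro c hcG c' hcG'
        obtain ⟨x, hx, rfl⟩ := mem_image.1 hcG
        obtain ⟨x', hx', rfl⟩ := mem_image.1 hcG'
        have e1 := hpos x hx
        have e2 := hpos x' hx'
        have e3 := h2 x (mem_of_mem_erase hx) x' (mem_of_mem_erase hx')
        unfold dlt at e3 ⊢
        simp only
        omega
      · rw [card_image_of_injOn hinj, card_erase_of_mem hc, h3]; omega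
      · have : ((F.erase (b + 1, 0)).image (fun c => (c.1, c.2 - 1))).image s =
            F.erase (b + 1, 0) := by
          rw [image_image]
          ext c
          rw [mem_image]
          constructor
          · rintro ⟨x, hx, rfl⟩
            have e1 := hpos x hx
            have : (s ∘ fun c : ℕ × ℕ => (c.1, c.2 - 1)) x = x := by
              apply Prod.ext
              · rfl
              · show x.2 - 1 + 1 = x.2
                omega
            rw [this]
            exact hx
          · intro hx
            refine ⟨c, hx, ?_⟩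
            have e1 := hpos c hx
            apply Prod.ext
            · rfl
            · show c.2 - 1 + 1 = c.2
              omega
        show insert (b + 1, 0) (((F.erase (b + 1, 0)).image (fun c => (c.1, c.2 - 1))).image s) = F
        rw [this, insert_erase hc]
  · rintro (⟨G, hG, rfl⟩ | ⟨G, hG, rfl⟩)
    · obtain ⟨h1, h2, h3⟩ := (mem_S _ _ G).1 hG
      refine (mem_S _ _ _).2 ⟨?_, ?_, ?_⟩
      · intro c hc
        rcases mem_insert.1 hc with rfl | hc
        · simp only; omega
        · have := h1 c hc; omega
      · intro c hc c' hc' hd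
        rcases mem_insert.1 hc with rfl | hc
        · rcases mem_insert.1 hc' with rfl | hc'
          · exact absurd hd.1 (lt_irrefl _)
          · have := h1 c' hc'
            have := hd.1
            simp only at this
            omega
        · rcases mem_insert.1 hc' with rfl | hc'
          · have := hd.2
            simp only at this
            omega
          · exact h2 c hc c' hc' hd
      · rw [card_insert_of_notMem, h3]
        · omega
        · intro h
          have := (h1 _ h).1
          simp only at this
          omega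
    · obtain ⟨h1, h2, h3⟩ := (mem_S _ _ G).1 hG
      refine (mem_S _ _ _).2 ⟨?_, ?_, ?_⟩
      · intro c hc
        rcases mem_insert.1 hc with rfl | hc
        · simp only; omega
        · obtain ⟨x, hx, rfl⟩ := mem_image.1 hc
          have := h1 x hx
          simp only [s]; omega
      · intro c hc c' hc' hd
        rcases mem_insert.1 hc with rfl | hc
        · rcases mem_insert.1 hc' with rfl | hc'
          · exact absurd hd.1 (lt_irrefl _)
          · obtain ⟨x, hx, rfl⟩ := mem_image.1 hc'
            have := h1 x hx
            have := hd.1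
            simp only [s] at this
            omega
        · rcases mem_insert.1 hc' with rfl | hc'
          · have := hd.2
            simp only at this
            omega
          · obtain ⟨x, hx, rfl⟩ := mem_image.1 hc
            obtain ⟨x', hx', rfl⟩ := mem_image.1 hc'
            have e := h2 x hx x' hx'
            unfold dlt at e hd
            simp only [s] at hd
            omega
      · rw [card_insert_of_notMem, card_image_of_injective _ s_inj, h3]
        · omega
        · intro h
          obtain ⟨x, hx, he⟩ := mem_image.1 h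
          simp only [s, Prod.mk.injEq] at he
          omega

theorem rec_card (a b : ℕ) : (S (a + 1) (b + 1)).card = (S (a + 1) b).card +
    (S a (b + 1)).card := by
  rw [rec_eq, card_union_of_disjoint, card_image_of_injOn, card_image_of_injOn]
  · intro G hG G' hG' he
    have he' : insert ((b + 1, 0) : ℕ × ℕ) (G.image s) = insert (b + 1, 0) (G'.image s) := he
    have hn : ∀ H : Finset (ℕ × ℕ), ((b + 1, 0) : ℕ × ℕ) ∉ H.image s := by
      intro H h
      obtain ⟨x, hx, he⟩ := mem_image.1 h
      simp only [s, Prod.mk.injEq] at he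
      omega
    have := congrArg (fun F : Finset (ℕ × ℕ) => F.erase (b + 1, 0)) he'
    simp only [erase_insert (hn G), erase_insert (hn G')] at this
    exact Finset.image_injective s_inj this
  · intro G hG G' hG' he
    have hn : ∀ H ∈ S (a + 1) b, ((b + 1, 0) : ℕ × ℕ) ∉ H := by
      intro H hH h
      have := (((mem_S _ _ H).1 hH).1 _ h).1
      simp only at this
      omega
    have := congrArg (fun F : Finset (ℕ × ℕ) => F.erase (b + 1, 0)) he
    simp only [erase_insert (hn G hG), erase_insert (hn G' hG')] at this
    exact this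
  · rw [Finset.disjoint_left]
    intro F hF hF'
    obtain ⟨G, hG, rfl⟩ := mem_image.1 hF
    obtain ⟨G', hG', he⟩ := mem_image.1 hF'
    have hc := corner _ _ G hG
    have : ((b, 0) : ℕ × ℕ) ∈ insert (b + 1, 0) (G'.image s) := by
      rw [he]; exact mem_insert_of_mem hc
    rcases mem_insert.1 this with h | h
    · simp only [Prod.mk.injEq] at h
      omega
    · obtain ⟨x, hx, he⟩ := mem_image.1 h
      simp only [s, Prod.mk.injEq] at he
      omega

theorem S_eq_singleton (a b : ℕ) (h : a = 0 ∨ b = 0) : (S a b).card = 1 := by
  rw [card_eq_one]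
  refine ⟨(range (b + 1)) ×ˢ (range (a + 1)), ?_⟩
  have hcard : ((range (b + 1)) ×ˢ (range (a + 1))).card = a + b + 1 := by
    rw [card_product, card_range, card_range]
    rcases h with rfl | rfl <;> omega
  ext F
  rw [mem_singleton]
  constructor
  · intro hF
    obtain ⟨h1, h2, h3⟩ := (mem_S _ _ F).1 hF
    apply Finset.eq_of_subset_of_card_le
    · intro c hc
      have := h1 c hc
      rw [mem_product, mem_range, mem_range]
      omega
    · rw [hcard, h3]
  · rintro rfl
    refine (mem_S _ _ _).2 ⟨?_, ?_, hcard⟩
    · intro c hc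
      rw [mem_product, mem_range, mem_range] at hc
      omega
    · intro c hc c' hc' hd
      rw [mem_product, mem_range, mem_range] at hc hc'
      have h1 := hd.1
      have h2 := hd.2
      omega

theorem main : ∀ a b : ℕ, (S a b).card = Nat.choose (a + b) a := by
  intro a
  induction a with
  | zero =>
    intro b
    rw [S_eq_singleton 0 b (Or.inl rfl), Nat.choose_zero_right]
  | succ a iha =>
    intro b
    induction b with
    | zero =>
      rw [S_eq_singleton (a + 1) 0 (Or.inr rfl), add_zero, Nat.choose_self]
    | succ b ihb =>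
      rw [rec_card, ihb, iha (b + 1)]
      have e1 : a + 1 + (b + 1) = (a + 1 + b) + 1 := by ring
      have e2 : a + (b + 1) = a + 1 + b := by ring
      rw [e1, e2, Nat.choose_succ_succ]
      ring

end XQPATHS

theorem I_PATHS : St_PATHS := by
  intro a b
  have h := XQPATHS.main a b
  unfold XQPATHS.S at h
  rw [← h]

end Pool.Agent.COV
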