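import Pool.Agent.Work.MP_1c6e58_ag.COV.Stmts2

/-!
MP_1c6e58_ag, project COV, family I, item SM1: multiplicity 1.
-/

set_option autoImplicit false

open Finset

namespace Pool.Agent.COV

open Pool.Agent.SH

theorem I_SM1 (hRKB : St_RKB) (hCHART : St_CHART) (hCOORD : St_COORD) : St_SM1 := by
  classical
  intro n u v T hT hbr hrk
  have _ := hRKB
  let A : {t : ℕ × ℕ // t ∈ T} → ℕ := fun t => n + rkN u t.1.1 t.1.2 - t.1.1 - t.1.2
  let B : {t : ℕ × ℕ // t ∈ T} → ℕ := fun t => rkN u t.1.1 t.1.2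
  let ρ : {t : ℕ × ℕ // t ∈ T} → ℕ := fun t => rkN u t.1.1 t.1.2 - rkN v t.1.1 t.1.2
  haveI : Finite (LCell A B) := LCell_finite A B
  haveI := Fintype.ofFinite (LCell A B)
  have hZ : Zlad A B ρ = coordS ((univ : Finset (LCell A B)) : Set (LCell A B)) := by
    ext M
    simp only [Zlad, coordS, Set.mem_setOf_eq]
    constructor
    · intro h c _
      obtain ⟨q, hq1, hq2⟩ := c.2
      obtain ⟨f, g, hfg⟩ := h q
      rw [hfg c hq1 hq2]
      have h0 : ρ q = 0 := by simp only [ρ, hrk q.1 q.2, Nat.sub_self]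
      haveI : IsEmpty (Fin (ρ q)) := by rw [h0]; infer_instance
      exact Finset.sum_of_isEmpty _
    · intro h q
      refine ⟨fun _ _ => 0, fun _ _ => 0, fun c _ _ => ?_⟩
      rw [h c (by simp)]
      simp
  have hc := hCOORD (LCell A B) univ
  rw [← hZ] at hc
  exact hCHART n u v T hT hbr _ 1 hc

end Pool.Agent.COV
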