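import Pool.Agent.Work.MP_1c6e58_ag.SH.Assembly
import Pool.Agent.Work.MP_1c6e58_ag.LAD.Final
import Pool.Agent.Work.MP_1c6e58_ag.COV.L_LGF
import Pool.Agent.Work.MP_1c6e58_ag.COV.L_LLEV
import Pool.Agent.Work.MP_1c6e58_ag.COV.L_LMAX
import Pool.Agent.Work.MP_1c6e58_ag.COV.P_CV
import Pool.Agent.Work.MP_1c6e58_ag.COV.P_CVP
import Pool.Agent.Work.MP_1c6e58_ag.COV.P_KERN
import Pool.Agent.Work.MP_1c6e58_ag.COV.P_KERP
import Pool.Agent.Work.MP_1c6e58_ag.COV.P_NEST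
import Pool.Agent.Work.MP_1c6e58_ag.COV.P_RKB
import Pool.Agent.Work.MP_1c6e58_ag.COV.P_ESS
import Pool.Agent.Work.MP_1c6e58_ag.COV.P_JCNT
import Pool.Agent.Work.MP_1c6e58_ag.COV.P_KNB
import Pool.Agent.Work.MP_1c6e58_ag.COV.P_KND
import Pool.Agent.Work.MP_1c6e58_ag.COV.P_LADC
import Pool.Agent.Work.MP_1c6e58_ag.COV.P_LEND
import Pool.Agent.Work.MP_1c6e58_ag.COV.P_PRK
import Pool.Agent.Work.MP_1c6e58_ag.COV.P_MEET
import Pool.Agent.Work.MP_1c6e58_ag.COV.P_RANKF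
import Pool.Agent.Work.MP_1c6e58_ag.COV.P_REMPOS
import Pool.Agent.Work.MP_1c6e58_ag.COV.P_RKD
import Pool.Agent.Work.MP_1c6e58_ag.COV.P_DELSV
import Pool.Agent.Work.MP_1c6e58_ag.COV.P_SLK
import Pool.Agent.Work.MP_1c6e58_ag.COV.P_SVT
import Pool.Agent.Work.MP_1c6e58_ag.COV.P_UNITRI
import Pool.Agent.Work.MP_1c6e58_ag.COV.P_CHART
import Pool.Agent.Work.MP_1c6e58_ag.COV.P_LB
import Pool.Agent.Work.MP_1c6e58_ag.COV.P_KEYI
import Pool.Agent.Work.MP_1c6e58_ag.COV.P_LESS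
import Pool.Agent.Work.MP_1c6e58_ag.COV.P_MINU
import Pool.Agent.Work.MP_1c6e58_ag.COV.P_SLICE
import Pool.Agent.Work.MP_1c6e58_ag.COV.P_VAN
import Pool.Agent.Work.MP_1c6e58_ag.COV.P_REMF
import Pool.Agent.Work.MP_1c6e58_ag.COV.P_REM
import Pool.Agent.Work.MP_1c6e58_ag.COV.P_NOREM
import Pool.Agent.Work.MP_1c6e58_ag.COV.P_COVJ
import Pool.Agent.Work.MP_1c6e58_ag.COV.P_BND
import Pool.Agent.Work.MP_1c6e58_ag.COV.P_TYPE1
import Pool.Agent.Work.MP_1c6e58_ag.COV.P_COVM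
import Pool.Agent.Work.MP_1c6e58_ag.COV.Q_EMBM
import Pool.Agent.Work.MP_1c6e58_ag.COV.Q_IRK
import Pool.Agent.Work.MP_1c6e58_ag.COV.Q_IEX
import Pool.Agent.Work.MP_1c6e58_ag.COV.Q_IFACT
import Pool.Agent.Work.MP_1c6e58_ag.COV.Q_LADQ
import Pool.Agent.Work.MP_1c6e58_ag.COV.Q_PATHS
import Pool.Agent.Work.MP_1c6e58_ag.COV.Q_NGI
import Pool.Agent.Work.MP_1c6e58_ag.COV.Q_IMULT
import Pool.Agent.Work.MP_1c6e58_ag.COV.Q_SM1
import Pool.Agent.Work.MP_1c6e58_ag.COV.Q_IMIN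

/-!
MP_1c6e58_ag, project COV: assembly.
-/

set_option autoImplicit false

namespace Pool.Agent.COV

open Pool.Agent.SH

theorem cov_all : St_COVM ∧ St_IMIN ∧ St_IMULT ∧ St_IEX ∧ St_IFACT := by
  have hORD : St_ORD := I_ORD 
  have hOPROD : St_OPROD := I_OPROD 
  have hHG : St_HG := I_HG 
  have hUP : St_UP := I_UP 
  have hGCNT : St_GCNT := I_GCNT 
  have hDICK : St_DICK := I_DICK hGCNT
  have hEX0 : St_EX0 := I_EX0 hORD hHG hUP hDICK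
  have hMQM : St_MQM := I_MQM 
  have hUNI : St_UNI := I_UNI 
  have hLPROD : St_LPROD := I_LPROD hHG hUP
  have hGPROD : St_GPROD := I_GPROD 
  have hHPROD : St_HPROD := I_HPROD hORD hOPROD hHG hLPROD hGPROD
  have hMPROD : St_MPROD := I_MPROD hHPROD
  have hAUT : St_AUT := I_AUT 
  have hREI : St_REI := I_REI hAUT
  have hCOORD : St_COORD := I_COORD hORD hHG hGCNT hHPROD hREI
  have hKP : St_KP := I_KP 
  have hORIG : St_ORIG := I_ORIG 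
  have hBPO : St_BPO := I_BPO 
  have hCOVER : St_COVER := I_COVER 
  have hLSW : St_LSW := I_LSW 
  have hPHI : St_PHI := I_PHI 
  have hPEX : St_PEX := I_PEX 
  have hPBR : St_PBR := I_PBR 
  have hPLEN : St_PLEN := I_PLEN hCOVER hLSW hPHI hPBR
  have hEMBP : St_EMBP := I_EMBP hPHI
  have hEMBT : St_EMBT := I_EMBT hEMBP
  have hBELOW : St_BELOW := I_BELOW hBPO hPHI hPBR hPLEN hEMBP hEMBT
  have hEXM : St_EXM := I_EXM hEX0 hORIG hMQM hUNI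
  have hLADM : St_LADM := Pool.Agent.LAD.ladm
  have hLGF : St_LGF := I_LGF 
  have hLLEV : St_LLEV := I_LLEV 
  have hLMAX : St_LMAX := I_LMAX hLGF
  have hCV : St_CV := I_CV 
  have hCVP : St_CVP := I_CVP 
  have hKERN : St_KERN := I_KERN hCV
  have hKERP : St_KERP := I_KERP hCV
  have hNEST : St_NEST := I_NEST 
  have hRKB : St_RKB := I_RKB 
  have hESS : St_ESS := I_ESS hRKB
  have hJCNT : St_JCNT := I_JCNT hRKB
  have hKNB : St_KNB := I_KNB hRKB hKP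
  have hKND : St_KND := I_KND hRKB
  have hLADC : St_LADC := I_LADC hRKB hNEST hREI hMPROD hCOORD
  have hLEND : St_LEND := I_LEND hRKB
  have hPRK : St_PRK := I_PRK hRKB
  have hMEET : St_MEET := I_MEET hRKB hPRK
  have hRANKF : St_RANKF := I_RANKF hRKB
  have hREMPOS : St_REMPOS := I_REMPOS hRKB
  have hRKD : St_RKD := I_RKD hRKB
  have hDELSV : St_DELSV := I_DELSV hRKB hKNB hRKD hKND
  have hSLK : St_SLK := I_SLK 
  have hSVT : St_SVT := I_SVT hRKB hKNB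
  have hUNITRI : St_UNITRI := I_UNITRI hAUT
  have hCHART : St_CHART := I_CHART hRKB hSVT hUNITRI hCVP hKERP hKERN hRANKF hLADC
  have hLB : St_LB := I_LB hRKB hCHART hLADM
  have hKEYI : St_KEYI := I_KEYI hCHART hLADM hRKB hLB
  have hLESS : St_LESS := I_LESS hRKB hMEET hLB hMQM
  have hMINU : St_MINU := I_MINU hRKB hMEET hKEYI hMQM hEXM
  have hSLICE : St_SLICE := I_SLICE hSLK hUNITRI hKNB
  have hVAN : St_VAN := I_VAN hRKB hKNB
  have hREMF : St_REMF := I_REMF hSLICE hVAN hDELSV hREI hMPROD hCOORD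
  have hREM : St_REM := I_REM hRKB hREMF hLEND hPEX hPBR hEMBP hEXM hMQM
  have hNOREM : St_NOREM := I_NOREM hREM
  have hCOVJ : St_COVJ := I_COVJ hNOREM hMINU hREMPOS
  have hBND : St_BND := I_BND hRKB hLESS hCOVJ hJCNT
  have hTYPE1 : St_TYPE1 := I_TYPE1 hRKB hCOVJ hMINU
  have hCOVM : St_COVM := I_COVM hESS hBND hTYPE1
  have hEMBM : St_EMBM := I_EMBM hRKB hREMF hLEND hPEX hPBR hPLEN hEMBP hEXM hMQM
  have hIRK : St_IRK := I_IRK hRKB hPRK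
  have hIEX : St_IEX := I_IEX hRKB hIRK
  have hIFACT : St_IFACT := I_IFACT hRKB hIRK
  have hLADQ : St_LADQ := I_LADQ hLLEV hLGF hLMAX
  have hPATHS : St_PATHS := I_PATHS 
  have hNGI : St_NGI := I_NGI hPATHS hLGF
  have hIMULT : St_IMULT := I_IMULT hRKB hIFACT hCHART hLADQ hNGI hMQM
  have hSM1 : St_SM1 := I_SM1 hRKB hCHART hCOORD
  have hIMIN : St_IMIN := I_IMIN hRKB hIFACT hEMBM hSM1 hMQM hEXM hBELOW hBPO
  exact ⟨hCOVM, hIMIN, hIMULT, hIEX, hIFACT⟩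

theorem cov_final :
    (∀ (k : ℕ) (A : Itv), MinI k A → Av3412 A.v →
      (∃ a b, IsIab a b A) ∨ A.n ≤ 4 * k * Nat.log 2 k) ∧
    (∀ a b : ℕ, 1 ≤ a → 1 ≤ b → ∃ A, IsIab a b A ∧ Av3412 A.v ∧
      MultAt A (Nat.choose (a + b) a) ∧
      ∀ k, MinI k A ↔ 2 ≤ k ∧ k ≤ Nat.choose (a + b) a) ∧
    (∀ k : ℕ, {A : Itv | MinI k A ∧ Av3412 A.v ∧ ¬ ∃ a b, IsIab a b A}.Finite) := by
  obtain ⟨hCOVM, hIMIN, hIMULT, hIEX, hIFACT⟩ := cov_all
  have h1 : ∀ (k : ℕ) (A : Itv), MinI k A → Av3412 A.v →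
      (∃ a b, IsIab a b A) ∨ A.n ≤ 4 * k * Nat.log 2 k := by
    intro k A hA hv
    rcases hCOVM k A hA hv with ⟨a, b, h1, h2, h3, h4, h5⟩ | h
    · exact Or.inl ⟨a, b, h1, h2, h3, h4, h5⟩
    · exact Or.inr h
  refine ⟨h1, ?_, ?_⟩
  · intro a b ha hb
    obtain ⟨A, hA⟩ := hIEX.1 a b ha hb
    refine ⟨A, hA, (hIFACT a b A hA).1, hIMULT a b A hA, fun k => ?_⟩
    rw [hIMIN a b k A hA]
    constructor
    · rintro ⟨h2, e, he, hm⟩
      exact ⟨h2, (mult_unique A e _ hm (hIMULT a b A hA)) ▸ he⟩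
    · rintro ⟨h2, hk⟩
      exact ⟨h2, _, hk, hIMULT a b A hA⟩
  · intro k
    have hsub : {A : Itv | MinI k A ∧ Av3412 A.v ∧ ¬ ∃ a b, IsIab a b A} ⊆
        ⋃ n ∈ (Finset.range (4 * k * Nat.log 2 k + 1) : Finset ℕ), {A : Itv | A.n = n ∧ True} := by
      rintro A ⟨hA, hv, hI⟩
      rcases h1 k A hA hv with h | h
      · exact absurd h hI
      · simp only [Set.mem_iUnion]
        exact ⟨A.n, Finset.mem_range.2 (by omega), rfl, trivial⟩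
    refine Set.Finite.subset (Set.Finite.biUnion (Finset.finite_toSet _) fun n _ => ?_) hsub
    exact Set.finite_coe_iff.1 (XFIN.finite_itv n (fun _ => True))


end Pool.Agent.COV
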