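import Pool.Agent.Work.MP_1c6e58_ag.SH.Defs

/-!
MP_1c6e58_ag, project COV: minimal elements of the multiplicity ideals with 3412-avoiding top.
Definitions.
-/

set_option autoImplicit false

open Finset

namespace Pool.Agent.COV

open Pool.Agent.SH

/-! ### The ladder half -/

section ladder

/-- The cells of the ladder: the union of the rectangles `[0, A q) x [0, B q)`. -/
abbrev LCell {Q : Type} (A B : Q → ℕ) : Type := {c : ℕ × ℕ // ∃ q, c.1 < A q ∧ c.2 < B q}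

/-- The mixed ladder determinantal variety: the rank on the rectangle `q` is at most `ρ q`. -/
def Zlad {Q : Type} (A B ρ : Q → ℕ) : Set (LCell A B → ℂ) :=
  {M | ∀ q, ∃ f g : Fin (ρ q) → ℕ → ℂ, ∀ c : LCell A B, c.1.1 < A q → c.1.2 < B q →
    M c = ∑ l, f l c.1.1 * g l c.1.2}

/-- The conditions on the ladder. -/
structure Ladd {Q : Type} (A B ρ : Q → ℕ) : Prop where
  ltA : ∀ q, ρ q < A q
  ltB : ∀ q, ρ q < B q
  ord : ∀ q q', q ≠ q' →
    (A q' ≤ A q ∧ B q ≤ B q' ∧ A q' - ρ q' < A q - ρ q ∧ B q - ρ q < B q' - ρ q') ∨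
    (A q ≤ A q' ∧ B q' ≤ B q ∧ A q - ρ q < A q' - ρ q' ∧ B q' - ρ q' < B q - ρ q)

open Classical in
/-- The lower bounds for the multiplicity `e` of the ladder. -/
structure LadBd {Q : Type} [Fintype Q] (A B ρ : Q → ℕ) (e : ℕ) : Prop where
  rho : ∀ q, ρ q + 1 ≤ e
  colB : ∀ q, 1 ≤ ρ q → ∀ j, j ≤ B q - ρ q →
    (∀ q', B q' - ρ q' < B q - ρ q → (B q' - ρ q') + j ≤ B q - ρ q) → j + 1 ≤ e
  rowA : ∀ q, 1 ≤ ρ q → ∀ j, j ≤ A q - ρ q →
    (∀ q', A q' - ρ q' < A q - ρ q → (A q' - ρ q') + j ≤ A q - ρ q) → j + 1 ≤ e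
  two : 2 ^ (Finset.univ.filter (fun q => 1 ≤ ρ q)).card ≤ e

end ladder

end Pool.Agent.COV
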