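import Pool.Agent.Work.MP_1c6e58_ag.COV.Defs

/-!
MP_1c6e58_ag, project COV: definitions for the permutation and chart half.
-/

set_option autoImplicit false

open Finset

namespace Pool.Agent.COV

open Pool.Agent.SH

/-! ### Ranks -/

section ranks

variable {n : ℕ}

/-- The number of positions `< a` with values `< b`. -/
def rkN (w : Equiv.Perm (Fin n)) (a b : ℕ) : ℕ :=
  (univ.filter (fun j : Fin n => (j : ℕ) < a ∧ (w j : ℕ) < b)).card

/-- Basic facts on the rank function. -/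
structure RkF (w : Equiv.Perm (Fin n)) : Prop where
  zl : ∀ b, rkN w 0 b = 0
  zr : ∀ a, rkN w a 0 = 0
  nl : ∀ b, b ≤ n → rkN w n b = b
  nr : ∀ a, a ≤ n → rkN w a n = a
  lea : ∀ a b, rkN w a b ≤ a
  leb : ∀ a b, rkN w a b ≤ b
  mono : ∀ a a' b b', a ≤ a' → b ≤ b' → rkN w a b ≤ rkN w a' b'
  lip : ∀ a a' b b', rkN w a' b' ≤ rkN w a b + (a' - a) + (b' - b)
  low : ∀ a b, a ≤ n → b ≤ n → a + b ≤ n + rkN w a b
  stepa : ∀ (i : Fin n) (b : ℕ),
    rkN w ((i : ℕ) + 1) b = rkN w i b + (if (w i : ℕ) < b then 1 else 0)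
  stepb : ∀ (x : Fin n) (a : ℕ),
    rkN w a ((x : ℕ) + 1) = rkN w a x + (if (w.symm x : ℕ) < a then 1 else 0)
  cntA : ∀ a b, a ≤ n → b ≤ n →
    (univ.filter (fun j : Fin n => a ≤ (j : ℕ) ∧ b ≤ (w j : ℕ))).card + a + b = n + rkN w a b
  mix : ∀ i x : Fin n, w i = x ↔ rkN w ((i : ℕ) + 1) ((x : ℕ) + 1) + rkN w i x =
    rkN w ((i : ℕ) + 1) x + rkN w i ((x : ℕ) + 1) + 1
  rk : ∀ p q : Fin n, SH.rk w p q = rkN w ((p : ℕ) + 1) ((q : ℕ) + 1)

/-- `v` avoids the pattern 3412. -/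
def Av3412 (v : Equiv.Perm (Fin n)) : Prop :=
  ∀ a b c d : Fin n, a < b → b < c → c < d → ¬ (v c < v d ∧ v d < v a ∧ v a < v b)

/-- `T` is a chain of rank conditions (positions `< t.1`, values `< t.2`) which generates the rank
function of `v`. -/
structure EssT (v : Equiv.Perm (Fin n)) (T : Finset (ℕ × ℕ)) : Prop where
  bd : ∀ t ∈ T, 1 ≤ t.1 ∧ t.1 < n ∧ 1 ≤ t.2 ∧ t.2 < n
  chain : ∀ s ∈ T, ∀ t ∈ T, (s.1 ≤ t.1 ∧ s.2 ≤ t.2) ∨ (t.1 ≤ s.1 ∧ t.2 ≤ s.2)
  pos : ∀ t ∈ T, 1 ≤ rkN v t.1 t.2 ∧ t.1 + t.2 < n + rkN v t.1 t.2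
  mono : ∀ s ∈ T, ∀ t ∈ T, s ≠ t → s.1 ≤ t.1 → s.2 ≤ t.2 →
    rkN v s.1 s.2 < rkN v t.1 t.2 ∧ rkN v t.1 t.2 + s.1 + s.2 < rkN v s.1 s.2 + t.1 + t.2
  gen : ∀ a b, a ≤ n → b ≤ n → rkN v a b = 0 ∨ a + b = n + rkN v a b ∨
    ∃ t ∈ T, rkN v a b + (t.1 - a) + (t.2 - b) = rkN v t.1 t.2

/-- The lower bounds for the multiplicity, for the interval with the ranks `s` on `T`. -/
def LBd (v : Equiv.Perm (Fin n)) (T : Finset (ℕ × ℕ)) (s : ℕ × ℕ → ℕ) (e : ℕ) : Prop :=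
  LadBd (fun t : {t : ℕ × ℕ // t ∈ T} => n + s t.1 - t.1.1 - t.1.2) (fun t => s t.1)
    (fun t => s t.1 - rkN v t.1.1 t.1.2) e

end ranks

/-! ### Linear algebra of the chart -/

section chart

variable {n : ℕ}

/-- The space of the `c` with support in the positions `< a` such that the rows of `U c` with
value `≥ b` vanish. -/
def KN (x : Equiv.Perm (Fin n)) (z : Co n → ℂ) (a b : ℕ) : Submodule ℂ (Fin n → ℂ) where
  carrier := {c | (∀ j : Fin n, a ≤ (j : ℕ) → c j = 0) ∧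
    ∀ i : Fin n, b ≤ (x i : ℕ) → ∑ j, Um z i j * c j = 0}
  zero_mem' := ⟨fun _ _ => rfl, fun i _ => by simp⟩
  add_mem' := by
    intro c c' h h'
    refine ⟨fun j hj => ?_, fun i hi => ?_⟩
    · simp only [Pi.add_apply, h.1 j hj, h'.1 j hj, add_zero]
    · simp only [Pi.add_apply, mul_add, Finset.sum_add_distrib, h.2 i hi, h'.2 i hi, add_zero]
  smul_mem' := by
    intro a c h
    refine ⟨fun j hj => ?_, fun i hi => ?_⟩
    · simp only [Pi.smul_apply, h.1 j hj, smul_zero]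
    · have : ∀ j, Um z i j * (a • c) j = a * (Um z i j * c j) := by
        intro j; simp only [Pi.smul_apply, smul_eq_mul]; ring
      simp only [this, ← Finset.mul_sum, h.2 i hi, mul_zero]

/-- Position `j` is of type A (rows), B (columns), H at `t`. -/
def tA (u : Equiv.Perm (Fin n)) (t : ℕ × ℕ) (i : Fin n) : Prop := t.1 ≤ (i : ℕ) ∧ t.2 ≤ (u i : ℕ)

def tB (u : Equiv.Perm (Fin n)) (t : ℕ × ℕ) (j : Fin n) : Prop := (j : ℕ) < t.1 ∧ (u j : ℕ) < t.2

def tH (u : Equiv.Perm (Fin n)) (t : ℕ × ℕ) (h : Fin n) : Prop := (h : ℕ) < t.1 ∧ t.2 ≤ (u h : ℕ)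

/-- The kernel of the submatrix of `M` with rows of type A and columns of type B at `t`. -/
def KerAB (u : Equiv.Perm (Fin n)) (t : ℕ × ℕ) (M : Fin n → Fin n → ℂ) :
    Submodule ℂ (Fin n → ℂ) where
  carrier := {c | (∀ j, ¬ tB u t j → c j = 0) ∧ ∀ i, tA u t i → ∑ j, M i j * c j = 0}
  zero_mem' := ⟨fun _ _ => rfl, fun i _ => by simp⟩
  add_mem' := by
    intro c c' h h'
    refine ⟨fun j hj => ?_, fun i hi => ?_⟩
    · simp only [Pi.add_apply, h.1 j hj, h'.1 j hj, add_zero]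
    · simp only [Pi.add_apply, mul_add, Finset.sum_add_distrib, h.2 i hi, h'.2 i hi, add_zero]
  smul_mem' := by
    intro a c h
    refine ⟨fun j hj => ?_, fun i hi => ?_⟩
    · simp only [Pi.smul_apply, h.1 j hj, smul_zero]
    · have : ∀ j, M i j * (a • c) j = a * (M i j * c j) := by
        intro j; simp only [Pi.smul_apply, smul_eq_mul]; ring
      simp only [this, ← Finset.mul_sum, h.2 i hi, mul_zero]

/-- `U` is lower unitriangular. -/
def LowUni {R : Type} [CommRing R] (U : Fin n → Fin n → R) : Prop :=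
  (∀ i, U i i = 1) ∧ ∀ i j, i < j → U i j = 0

/-- The vector `c` with `c j = 1`, support in `{j} ∪ S` and `(U c) h = 0` for `h ∈ S`, `h ≠ j`. -/
def cv {R : Type} [CommRing R] (U : Fin n → Fin n → R) (S : Finset (Fin n)) (j : Fin n) :
    Fin n → R
  | h => if h = j then 1 else if h ∈ S ∧ j < h then
      - ∑ k : {k : Fin n // k < h}, U h k.1 * cv U S j k.1 else 0
  termination_by h => (h : ℕ)
  decreasing_by exact k.2

open Classical in
/-- The union of the sets H over the conditions `t` with `i` of type A and `j` of type B. -/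
noncomputable def SS (u : Equiv.Perm (Fin n)) (T : Finset (ℕ × ℕ)) (i j : Fin n) :
    Finset (Fin n) :=
  univ.filter (fun h => ∃ t ∈ T, tA u t i ∧ tB u t j ∧ tH u t h)

/-- The matrix `N`. -/
noncomputable def NM {R : Type} [CommRing R] (u : Equiv.Perm (Fin n)) (T : Finset (ℕ × ℕ))
    (U : Fin n → Fin n → R) (i j : Fin n) : R :=
  ∑ k, U i k * cv U (SS u T i j) j k

/-- The generic lower unitriangular matrix. -/
noncomputable def UmP (n : ℕ) : Fin n → Fin n → MvPolynomial (Co n) ℂ := fun i j =>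
  if h : j < i then MvPolynomial.X ⟨(i, j), h⟩ else if i = j then 1 else 0

/-- The determinantal conditions in the coordinates `y`. -/
def Z1 (u : Equiv.Perm (Fin n)) (T : Finset (ℕ × ℕ)) (ρ : ℕ × ℕ → ℕ) : Set (Co n → ℂ) :=
  {y | ∀ t ∈ T, ∃ f g : Fin (ρ t) → Fin n → ℂ, ∀ c : Co n, tA u t c.1.1 → tB u t c.1.2 →
    y c = ∑ l, f l c.1.1 * g l c.1.2}

/-- Projection to the slice. -/
def msk (u : Equiv.Perm (Fin n)) (z : Co n → ℂ) : Co n → ℂ := fun c =>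
  if u c.1.2 < u c.1.1 then z c else 0

end chart

/-! ### Family I -/

/-- `A` is in family I:
`u = (a+1) ... 1 (a+b+2) ... (a+2)`, `v = (a+b+2) (a+1) ... 2 (a+b+1) ... (a+2) 1`. -/
def IsI (A : Itv) : Prop := ∃ a b : ℕ, 1 ≤ a ∧ 1 ≤ b ∧ A.n = a + b + 2 ∧
  (∀ j, (A.u j : ℕ) = if (j : ℕ) ≤ a then a - j else 2 * a + b + 2 - j) ∧
  (∀ j, (A.v j : ℕ) = if (j : ℕ) = 0 then a + b + 1 else if (j : ℕ) ≤ a then a + 1 - j else
    if (j : ℕ) ≤ a + b then 2 * a + b + 1 - j else 0)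

end Pool.Agent.COV
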