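import Pool.Agent.Work.MP_1c6e58_ag.COV.StmtsL

/-!
MP_1c6e58_ag, project COV: the ladder theorem (assembly).
-/

set_option autoImplicit false

open Finset

namespace Pool.Agent.COV

open Pool.Agent.SH

namespace XLLADM

open Classical in
/-- The good sets of cells, as sets of cells of the ladder. -/
noncomputable def GG {Q : Type} (A B ρ : Q → ℕ) [Fintype (LCell A B)] :
    Finset (Finset (LCell A B)) :=
  univ.filter (fun F => GoodF A B ρ (F.map (Function.Embedding.subtype _)))

theorem mem_GG {Q : Type} {A B ρ : Q → ℕ} [Fintype (LCell A B)] {F : Finset (LCell A B)} :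
    F ∈ GG A B ρ ↔ GoodF A B ρ (F.map (Function.Embedding.subtype _)) := by
  classical
  simp [GG]

theorem card_eq {Q : Type} [Fintype Q] (A B ρ : Q → ℕ) [Fintype (LCell A B)] :
    NG A B ρ = ((GG A B ρ).filter (fun F => F.card = (FL A B ρ).card)).card := by
  classical
  unfold NG
  symm
  refine Finset.card_bij (fun F _ => F.map (Function.Embedding.subtype _)) ?_ ?_ ?_
  · intro F hF
    rw [Finset.mem_filter, mem_GG] at hF
    rw [Finset.mem_filter, Finset.mem_powerset, Finset.card_map]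
    refine ⟨?_, hF⟩
    intro c hc
    obtain ⟨q, h1, h2⟩ := hF.1.1 c hc
    unfold YF
    rw [Finset.mem_biUnion]
    exact ⟨q, Finset.mem_univ q, Finset.mem_product.2
      ⟨Finset.mem_range.2 h1, Finset.mem_range.2 h2⟩⟩
  · intro F _ F' _ h
    exact Finset.map_injective _ h
  · intro F hF
    rw [Finset.mem_filter, Finset.mem_powerset] at hF
    have h1 : (F.subtype (fun c : ℕ × ℕ => ∃ q, c.1 < A q ∧ c.2 < B q)).map
        (Function.Embedding.subtype _) = F := by
      rw [Finset.subtype_map, Finset.filter_true_of_mem]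
      exact hF.2.1.1
    refine ⟨F.subtype (fun c : ℕ × ℕ => ∃ q, c.1 < A q ∧ c.2 < B q), ?_, h1⟩
    rw [Finset.mem_filter, mem_GG, h1]
    refine ⟨hF.2.1, ?_⟩
    rw [← hF.2.2]
    conv_rhs => rw [← h1]
    rw [Finset.card_map]

end XLLADM

open XLLADM in
theorem I_LADM (hORDW : St_ORDW) (hLUPP : St_LUPP) (hLLOW : St_LLOW) (hLCNT : St_LCNT)
    (hLMAX : St_LMAX) (hLTWO : St_LTWO) (hLCOL : St_LCOL) (hLROW : St_LROW)
    (hLRHO : St_LRHO) : St_LADM := by
  intro Q _ A B ρ hL
  have : Finite (LCell A B) := LCell_finite A B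
  have : Fintype (LCell A B) := Fintype.ofFinite _
  obtain ⟨o, ho⟩ := hORDW (LCell A B) wc
  refine ⟨(FL A B ρ).card, NG A B ρ, ?_, ?_⟩
  · refine hLCNT (LCell A B) (Zlad A B ρ) o (GG A B ρ) (FL A B ρ).card (NG A B ρ) ?_ ?_
      (card_eq A B ρ) ?_
    · intro α
      rw [mem_GG]
      constructor
      · intro h hg
        exact hLLOW Q A B ρ hL o ho α hg h
      · intro h
        exact hLUPP Q A B ρ o ho α h
    · intro F hF
      rw [mem_GG] at hF
      have h1 := hLMAX Q A B ρ _ hF
      rwa [Finset.card_map] at h1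
    · exact lt_of_lt_of_le (by positivity) (hLTWO Q A B ρ hL)
  · exact ⟨hLRHO Q A B ρ hL, hLCOL Q A B ρ hL, hLROW Q A B ρ hL, hLTWO Q A B ρ hL⟩

end Pool.Agent.COV
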