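import Pool.Agent.Work.MP_1c6e58_ag.COV.StmtsL

/-!
MP_1c6e58_ag, project COV, ladder half: multiplicity from supports.
-/

set_option autoImplicit false

open Finset

namespace Pool.Agent.COV

open Pool.Agent.SH

namespace XLLCNT

theorem series (hHG : St_HG) {σ : Type} [Fintype σ] (o : LOrd σ) (Z : Set (σ → ℂ)) :
    HS Z * (1 - PowerSeries.X) =
      PowerSeries.mk (fun i => (gL (Lset o (MvPolynomial.vanishingIdeal ℂ Z)) i : ℤ)) := by
  have hf : ∀ t, Hf Z t =
      ∑ i ∈ range (t + 1), gL (Lset o (MvPolynomial.vanishingIdeal ℂ Z)) i := fun t =>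
    hHG σ o (MvPolynomial.vanishingIdeal ℂ Z) t
  ext t
  rw [mul_sub, mul_one, map_sub, PowerSeries.coeff_mk]
  cases t with
  | zero =>
    rw [PowerSeries.coeff_zero_mul_X, HS, PowerSeries.coeff_mk, hf]
    simp
  | succ t =>
    rw [PowerSeries.coeff_succ_mul_X, HS, PowerSeries.coeff_mk, PowerSeries.coeff_mk, hf, hf,
      sum_range_succ _ (t + 1)]
    push_cast
    ring

/-- The series of the positive exponents of one variable. -/
noncomputable def S1 : PowerSeries ℤ := PowerSeries.mk (fun k => if k ≠ 0 then 1 else 0)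

theorem S1_mul : S1 * (1 - PowerSeries.X) = PowerSeries.X := by
  ext t
  rw [mul_sub, mul_one, map_sub, PowerSeries.coeff_X]
  rcases t with _ | _ | t
  · rw [PowerSeries.coeff_zero_mul_X, S1, PowerSeries.coeff_mk]
    simp
  · rw [PowerSeries.coeff_succ_mul_X, S1, PowerSeries.coeff_mk, PowerSeries.coeff_mk]
    simp
  · rw [PowerSeries.coeff_succ_mul_X, S1, PowerSeries.coeff_mk, PowerSeries.coeff_mk]
    simp

variable {σ : Type} [Fintype σ]

open Classical in
theorem coeffF (F : Finset σ) (i : ℕ) : PowerSeries.coeff i (S1 ^ F.card) =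
    (((univ : Finset σ).finsuppAntidiag i).filter (fun α => α.support = F)).card := by
  rw [← Finset.prod_const, PowerSeries.coeff_prod]
  unfold S1
  simp only [PowerSeries.coeff_mk]
  have h1 : ∀ l : σ →₀ ℕ, ∏ j ∈ F, (if l j ≠ 0 then (1 : ℤ) else 0) =
      if (∀ j ∈ F, l j ≠ 0) then 1 else 0 := fun l => by
    rw [Finset.prod_boole]
    congr
  simp only [h1]
  rw [Finset.sum_boole]
  congr 2
  ext l
  simp only [Finset.mem_filter, Finset.mem_finsuppAntidiag]
  constructor
  · rintro ⟨⟨h1, h2⟩, h3⟩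
    have h4 : l.support = F := by
      refine Finset.Subset.antisymm h2 ?_
      intro j hj
      exact Finsupp.mem_support_iff.mpr (h3 j hj)
    refine ⟨⟨?_, Finset.subset_univ _⟩, h4⟩
    rw [← h1]
    symm
    refine Finset.sum_subset (Finset.subset_univ _) ?_
    intro j _ hj
    rw [← h4, Finsupp.mem_support_iff, not_not] at hj
    exact hj
  · rintro ⟨⟨h1, -⟩, h2⟩
    refine ⟨⟨?_, h2.le⟩, ?_⟩
    · rw [← h1]
      refine Finset.sum_subset (Finset.subset_univ _) ?_
      intro j _ hj
      rw [← h2, Finsupp.mem_support_iff, not_not] at hj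
      exact hj
    · intro j hj
      rw [← h2] at hj
      exact Finsupp.mem_support_iff.mp hj

open Classical in
theorem gL_eq (L : Set (σ →₀ ℕ)) (G : Finset (Finset σ)) (hG : ∀ α : σ →₀ ℕ, α ∈ L ↔ α.support ∉ G) :
    PowerSeries.mk (fun i => (gL L i : ℤ)) = ∑ F ∈ G, S1 ^ F.card := by
  ext i
  rw [PowerSeries.coeff_mk, map_sum]
  simp only [coeffF]
  unfold gL
  rw [← Nat.cast_sum]
  congr 1
  rw [Finset.card_eq_sum_card_fiberwise (f := fun α : σ →₀ ℕ => α.support) (t := G)]
  · refine Finset.sum_congr rfl ?_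
    intro F hF
    congr 1
    ext α
    simp only [Finset.mem_filter, hG, not_not]
    constructor
    · rintro ⟨⟨h1, -⟩, h2⟩
      exact ⟨h1, h2⟩
    · rintro ⟨h1, h2⟩
      exact ⟨⟨h1, by rw [h2]; exact hF⟩, h2⟩
  · intro α hα
    have h1 := (Finset.mem_filter.mp (Finset.mem_coe.mp hα)).2
    rw [hG, not_not] at h1
    exact h1

end XLLCNT

open XLLCNT in
theorem I_LCNT (hHG : St_HG) : St_LCNT := by
  classical
  intro σ _ Z o G N e hL hN he he0
  refine ⟨he0, ∑ F ∈ G, Polynomial.X ^ F.card * (1 - Polynomial.X) ^ (N - F.card), ?_, ?_⟩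
  · rw [Polynomial.eval_finsetSum, he, Finset.card_filter]
    push_cast
    refine Finset.sum_congr rfl ?_
    intro F hF
    have h1 := hN F hF
    simp only [Polynomial.eval_mul, Polynomial.eval_pow, Polynomial.eval_X, one_pow, one_mul,
      Polynomial.eval_sub, Polynomial.eval_one, sub_self]
    by_cases h : F.card = N
    · rw [if_pos h, h, Nat.sub_self, pow_zero]
    · rw [if_neg h, zero_pow (by omega)]
  · rw [pow_succ', ← mul_assoc, series hHG o Z, gL_eq _ G hL, Finset.sum_mul,
      ← Polynomial.coeToPowerSeries.ringHom_apply, map_sum]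
    refine Finset.sum_congr rfl ?_
    intro F hF
    have h1 := hN F hF
    have h2 : (1 - PowerSeries.X : PowerSeries ℤ) ^ N =
        (1 - PowerSeries.X) ^ F.card * (1 - PowerSeries.X) ^ (N - F.card) := by
      rw [← pow_add, Nat.add_sub_cancel' h1]
    rw [h2, ← mul_assoc, ← mul_pow, S1_mul]
    simp

end Pool.Agent.COV
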