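import Pool.Agent.Work.MP_1c6e58_ag.COV.StmtsL

/-!
MP_1c6e58_ag, project COV: item LCOL (columns).
-/

set_option autoImplicit false

open Finset

namespace Pool.Agent.COV

open Pool.Agent.SH

namespace XLLCOL

variable {Q : Type}

/-- The removed cells. -/
def RR (A B ρ : Q → ℕ) (l : Q) (i : ℕ) : Finset (ℕ × ℕ) :=
  (range i).image (fun k => (A l - ρ l, B l - ρ l - k))

lemma mem_RR {A B ρ : Q → ℕ} {l : Q} {i : ℕ} {r : ℕ × ℕ} :
    r ∈ RR A B ρ l i ↔ ∃ k, k < i ∧ r = (A l - ρ l, B l - ρ l - k) := by
  unfold RR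
  simp only [mem_image, mem_range]
  constructor
  · rintro ⟨k, hk, rfl⟩
    exact ⟨k, hk, rfl⟩
  · rintro ⟨k, hk, rfl⟩
    exact ⟨k, hk, rfl⟩

lemma card_RR {A B ρ : Q → ℕ} {l : Q} {i : ℕ} (hi : i ≤ B l - ρ l) :
    (RR A B ρ l i).card = i := by
  unfold RR
  rw [card_image_of_injOn, card_range]
  intro a ha b hb hab
  have ha' : a < i := by simpa using ha
  have hb' : b < i := by simpa using hb
  have h := congrArg Prod.snd hab
  simp only at h
  omega

/-- The terms of the other rectangles. -/
lemma other {A B ρ : Q → ℕ} (hL : Ladd A B ρ) {l : Q} {j : ℕ} (hj : j ≤ B l - ρ l)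
    (hjq : ∀ q', B q' - ρ q' < B l - ρ l → (B q' - ρ q') + j ≤ B l - ρ l)
    {k : ℕ} (hk : k < j) {q : Q} (hq : q ≠ l) {c : ℕ × ℕ} (h1 : A l - ρ l ≤ c.1)
    (h2 : B l - ρ l - k ≤ c.2) :
    A q - ρ q + 1 ≤ c.1 ∨ B q - ρ q + 1 ≤ c.2 := by
  rcases hL.ord l q (fun h => hq h.symm) with h | h
  · left
    omega
  · right
    have := hjq q h.2.2.2
    omega

lemma big {A B ρ : Q → ℕ} (hL : Ladd A B ρ) {q : Q} {c : ℕ × ℕ}
    (h : A q - ρ q + 1 ≤ c.1 ∨ B q - ρ q + 1 ≤ c.2) :
    (2 : ℤ) ≤ (ρ q : ℤ) + max ((c.1 : ℤ) + 1 - A q) ((c.2 : ℤ) + 1 - B q) := by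
  have hA := hL.ltA q
  have hB := hL.ltB q
  rcases h with h | h
  · have : (c.1 : ℤ) + 1 - A q ≤ max ((c.1 : ℤ) + 1 - A q) ((c.2 : ℤ) + 1 - B q) := le_max_left _ _
    omega
  · have : (c.2 : ℤ) + 1 - B q ≤ max ((c.1 : ℤ) + 1 - A q) ((c.2 : ℤ) + 1 - B q) := le_max_right _ _
    omega

end XLLCOL

open XLLCOL in
theorem I_LCOL (hLGF : St_LGF) (hLMOD : St_LMOD) : St_LCOL := by
  classical
  intro Q _ A B ρ hL l hρ j hj hjq
  have hG := hLGF Q A B ρ
  have hA := hL.ltA l
  have hB := hL.ltB l
  -- the conditions of the modification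
  have hmod : ∀ i, i ≤ j → GoodF A B ρ (mdf A B ρ (RR A B ρ l i)) ∧
      (mdf A B ρ (RR A B ρ l i)).card = (FL A B ρ).card ∧
      mdf A B ρ (RR A B ρ l i) ⊆ YF A B ∧
      FL A B ρ \ mdf A B ρ (RR A B ρ l i) = RR A B ρ l i := by
    intro i hi
    refine hLMOD Q A B ρ (RR A B ρ l i) ?_ ?_
    · intro r hr
      obtain ⟨k, hk, rfl⟩ := mem_RR.1 hr
      have hoth : ∀ q, q ≠ l →
          A q - ρ q + 1 ≤ A l - ρ l ∨ B q - ρ q + 1 ≤ B l - ρ l - k := by
        intro q hq
        exact other (c := (A l - ρ l, B l - ρ l - k)) hL hj hjq (by omega : k < j) hq le_rfl le_rfl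
      have hge : (1 : ℤ) ≤ gI A B ρ (A l - ρ l, B l - ρ l - k) := by
        rw [hG.le]
        refine ⟨by simp only; omega, by simp only; omega, ?_⟩
        intro q
        by_cases hq : q = l
        · subst hq
          have : (((A q - ρ q : ℕ) : ℤ)) + 1 - A q ≤
              max ((((A q - ρ q : ℕ) : ℤ)) + 1 - A q)
                ((((B q - ρ q - k : ℕ) : ℤ)) + 1 - B q) := le_max_left _ _
          omega
        · have := big (c := (A l - ρ l, B l - ρ l - k)) hL (hoth q hq)
          linarith
      have hlt : ¬ (2 : ℤ) ≤ gI A B ρ (A l - ρ l, B l - ρ l - k) := by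
        rw [hG.le]
        rintro ⟨_, _, h⟩
        have h := h l
        have hm : max ((((A l - ρ l : ℕ) : ℤ)) + 1 - A l)
            ((((B l - ρ l - k : ℕ) : ℤ)) + 1 - B l) ≤ 1 - ρ l := by
          refine max_le ?_ ?_
          · omega
          · omega
        simp only at h
        linarith
      have hYF : (A l - ρ l, B l - ρ l - k) ∈ YF A B := by
        unfold YF
        simp only [mem_biUnion, mem_univ, true_and, mem_product, mem_range]
        exact ⟨l, by omega, by omega⟩
      refine ⟨?_, ?_, ?_, ?_, ?_⟩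
      · simp only
        omega
      · simp only
        omega
      · unfold FL
        exact mem_filter.2 ⟨hYF, hge⟩
      · omega
      · intro q hq0 hcon
        have hql : q ≠ l := by
          rintro rfl
          omega
        rcases hoth q hql with h | h
        · have := hcon.1
          simp only at this
          omega
        · have := hcon.2
          simp only at this
          omega
    · intro r hr c hc hcR h1 h2
      obtain ⟨k, hk, rfl⟩ := mem_RR.1 hr
      simp only at h1 h2
      rw [hG.le]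
      refine ⟨by omega, by omega, ?_⟩
      intro q
      by_cases hq : q = l
      · subst hq
        have h3 : A q - ρ q + 1 ≤ c.1 ∨ B q - ρ q + 1 ≤ c.2 := by
          by_contra hcon
          push Not at hcon
          apply hcR
          refine mem_RR.2 ⟨B q - ρ q - c.2, by omega, ?_⟩
          refine Prod.ext ?_ ?_
          · simp only
            omega
          · simp only
            omega
        exact big hL h3
      · exact big hL (other hL hj hjq (by omega : k < j) hq h1 h2)
  -- counting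
  unfold NG
  have hinj : Set.InjOn (fun i => mdf A B ρ (RR A B ρ l i)) (range (j + 1) : Set ℕ) := by
    intro a ha b hb hab
    have ha' : a ≤ j := by
      have : a < j + 1 := by simpa using ha
      omega
    have hb' : b ≤ j := by
      have : b < j + 1 := by simpa using hb
      omega
    simp only at hab
    have h1 := (hmod a ha').2.2.2
    have h2 := (hmod b hb').2.2.2
    rw [hab, h2] at h1
    have h3 := congrArg Finset.card h1
    rw [card_RR (by omega), card_RR (by omega)] at h3
    exact h3.symm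
  have hc := card_image_of_injOn hinj
  rw [card_range] at hc
  rw [← hc]
  refine card_le_card ?_
  intro F hF
  obtain ⟨i, hi, rfl⟩ := mem_image.1 hF
  have hi' : i ≤ j := by
    have := mem_range.1 hi
    omega
  obtain ⟨g1, g2, g3, _⟩ := hmod i hi'
  rw [mem_filter]
  exact ⟨mem_powerset.2 g3, g1, g2⟩

end Pool.Agent.COV
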