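import Pool.Agent.Work.MP_1c6e58_ag.COV.StmtsL

/-!
MP_1c6e58_ag, project COV: curves in the ladder variety.
-/

set_option autoImplicit false

open Finset

namespace Pool.Agent.COV

open Pool.Agent.SH

namespace XLLCRV

variable {Q : Type}

/-- the mask at level `l` -/
def msk (A B ρ : Q → ℕ) (l : ℕ) (c : ℕ × ℕ) : Prop :=
  ∀ q, c.1 < A q → c.2 < B q → l ≤ ρ q

/-- mask of the first coordinate -/
def pa (A B ρ : Q → ℕ) (q : Q) (l a : ℕ) : Prop := ∀ q', ρ q' < l → B q ≤ B q' → A q' ≤ a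

/-- mask of the second coordinate -/
def pb (A B ρ : Q → ℕ) (q : Q) (l b : ℕ) : Prop := ∀ q', ρ q' < l → A q ≤ A q' → B q' ≤ b

theorem msk_iff {A B ρ : Q → ℕ} (hL : Ladd A B ρ) {q : Q} {l : ℕ} (hl : l ≤ ρ q) {c : ℕ × ℕ}
    (h1 : c.1 < A q) (h2 : c.2 < B q) :
    msk A B ρ l c ↔ pa A B ρ q l c.1 ∧ pb A B ρ q l c.2 := by
  constructor
  · intro h
    constructor
    · intro q' hq' hB
      by_contra hcon
      have := h q' (by omega) (by omega)
      omega
    · intro q' hq' hA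
      by_contra hcon
      have := h q' (by omega) (by omega)
      omega
  · rintro ⟨ha, hb⟩ q' h1' h2'
    by_contra hcon
    have hne : q ≠ q' := by
      rintro rfl
      omega
    rcases hL.ord q q' hne with h | h
    · have := ha q' (by omega) h.2.1
      omega
    · have := hb q' (by omega) h.1
      omega

open Classical in
theorem main [Fintype Q] {A B ρ : Q → ℕ} (hL : Ladd A B ρ) (S L K : ℕ)
    (hS : ∀ q, B q ≤ S) (hLρ : ∀ q, ρ q ≤ L)
    (hK : ∀ c : LCell A B, 2 * c.1.1 * c.1.2 ≤ K) (F : Finset (ℕ × ℕ))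
    (lv : ℕ × ℕ → ℕ) (hlv1 : ∀ c ∈ F, 1 ≤ lv c) (hlvL : ∀ c ∈ F, lv c ≤ L)
    (hlvq : ∀ q, ∀ c ∈ F, c.1 < A q → c.2 < B q → lv c ≤ ρ q) (y : ℕ × ℕ → ℂ)
    (u t : ℕ → ℕ → ℤ) (ξ η : ℕ → ℕ → ℂ)
    (h1 : ∀ l, ∀ c ∈ F, lv c = l → ξ l c.1 * η l c.2 = y c ∧
      u l c.1 + t l c.2 = - (2 * (c.1 : ℤ) * (c.2 : ℤ)))
    (h2 : ∀ l a b : ℕ, b < S → ¬ ((a, b) ∈ F ∧ lv (a, b) = l) →
      - (2 * (a : ℤ) * (b : ℤ)) + 1 ≤ u l a + t l b) :
    ∃ (P : LCell A B → Polynomial ℂ),
    (∀ T : ℂ, T ≠ 0 → (fun c => (P c).eval T) ∈ Zlad A B ρ) ∧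
    ∀ c : LCell A B, (∀ m, m < K - 2 * c.1.1 * c.1.2 → (P c).coeff m = 0) ∧
      (c.1 ∈ F → (P c).coeff (K - 2 * c.1.1 * c.1.2) = y c.1) ∧
      (c.1 ∉ F → (P c).coeff (K - 2 * c.1.1 * c.1.2) = 0) := by
  have hcS : ∀ c : LCell A B, c.1.2 < S := by
    intro c
    obtain ⟨q, _, hq⟩ := c.2
    exact lt_of_lt_of_le hq (hS q)
  -- nonnegativity
  have hge : ∀ (l : ℕ) (c : LCell A B), ¬ (c.1 ∈ F ∧ lv c.1 = l) →
      K - 2 * c.1.1 * c.1.2 < (u l c.1.1 + t l c.1.2 + K).toNat := by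
    intro l c hc
    have h3 := h2 l c.1.1 c.1.2 (hcS c) hc
    have h4 := hK c
    have h5 : ((K - 2 * c.1.1 * c.1.2 : ℕ) : ℤ) = (K : ℤ) - 2 * c.1.1 * c.1.2 := by
      rw [Nat.cast_sub h4]; push_cast; ring
    have h6 : ((K - 2 * c.1.1 * c.1.2 : ℕ) : ℤ) < u l c.1.1 + t l c.1.2 + K := by
      rw [h5]; linarith
    omega
  have heq : ∀ (l : ℕ) (c : LCell A B), c.1 ∈ F → lv c.1 = l →
      (u l c.1.1 + t l c.1.2 + K).toNat = K - 2 * c.1.1 * c.1.2 := by
    intro l c hc hl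
    have h3 := (h1 l c.1 hc hl).2
    have h4 := hK c
    have h5 : ((K - 2 * c.1.1 * c.1.2 : ℕ) : ℤ) = (K : ℤ) - 2 * c.1.1 * c.1.2 := by
      rw [Nat.cast_sub h4]; push_cast; ring
    have h6 : ((K - 2 * c.1.1 * c.1.2 : ℕ) : ℤ) = u l c.1.1 + t l c.1.2 + K := by
      rw [h5]; linarith
    omega
  have hnn : ∀ (l : ℕ) (c : LCell A B), 0 ≤ u l c.1.1 + t l c.1.2 + K := by
    intro l c
    have h4 := hK c
    have h4' : (2 * (c.1.1 : ℤ) * c.1.2) ≤ K := by exact_mod_cast h4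
    by_cases hc : c.1 ∈ F ∧ lv c.1 = l
    · have h3 := (h1 l c.1 hc.1 hc.2).2
      linarith
    · have h3 := h2 l c.1.1 c.1.2 (hcS c) hc
      linarith
  refine ⟨fun c => ∑ i ∈ range L, if msk A B ρ (i + 1) c.1 then
    Polynomial.C (ξ (i + 1) c.1.1 * η (i + 1) c.1.2) *
      Polynomial.X ^ (u (i + 1) c.1.1 + t (i + 1) c.1.2 + K).toNat else 0, ?_, ?_⟩
  · intro T hT q
    refine ⟨fun i a => if pa A B ρ q ((i : ℕ) + 1) a then
        ξ ((i : ℕ) + 1) a * T ^ (u ((i : ℕ) + 1) a + K) else 0,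
      fun i b => if pb A B ρ q ((i : ℕ) + 1) b then η ((i : ℕ) + 1) b * T ^ (t ((i : ℕ) + 1) b)
        else 0, ?_⟩
    intro c hc1 hc2
    simp only
    rw [Polynomial.eval_finsetSum]
    have hsub : range (ρ q) ⊆ range L := by
      intro i hi
      rw [Finset.mem_range] at hi ⊢
      have := hLρ q
      omega
    rw [← Finset.sum_subset hsub]
    · rw [Finset.sum_range]
      refine Finset.sum_congr rfl fun i _ => ?_
      have hi : (i : ℕ) + 1 ≤ ρ q := i.2
      have hm := msk_iff hL hi hc1 hc2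
      by_cases hmask : msk A B ρ ((i : ℕ) + 1) c.1
      · obtain ⟨ha, hb⟩ := hm.mp hmask
        rw [if_pos hmask, if_pos ha, if_pos hb, Polynomial.eval_mul, Polynomial.eval_C,
          Polynomial.eval_pow, Polynomial.eval_X]
        have e1 : T ^ (u ((i : ℕ) + 1) c.1.1 + t ((i : ℕ) + 1) c.1.2 + K).toNat =
            T ^ (u ((i : ℕ) + 1) c.1.1 + K) * T ^ (t ((i : ℕ) + 1) c.1.2) := by
          rw [← zpow_add₀ hT, ← zpow_natCast, Int.toNat_of_nonneg (hnn _ c)]
          congr 1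
          ring
        rw [e1]
        ring
      · rw [if_neg hmask, Polynomial.eval_zero]
        by_cases ha : pa A B ρ q ((i : ℕ) + 1) c.1.1
        · have hb : ¬ pb A B ρ q ((i : ℕ) + 1) c.1.2 := fun hb => hmask (hm.mpr ⟨ha, hb⟩)
          rw [if_neg hb, mul_zero]
        · rw [if_neg ha, zero_mul]
    · intro i _ hi
      rw [Finset.mem_range] at hi
      have hmask : ¬ msk A B ρ (i + 1) c.1 := by
        intro h
        have := h q hc1 hc2
        omega
      rw [if_neg hmask, Polynomial.eval_zero]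
  · intro c
    have hco : ∀ m, (∑ i ∈ range L, if msk A B ρ (i + 1) c.1 then
        Polynomial.C (ξ (i + 1) c.1.1 * η (i + 1) c.1.2) *
        Polynomial.X ^ (u (i + 1) c.1.1 + t (i + 1) c.1.2 + K).toNat else 0 :
          Polynomial ℂ).coeff m =
        ∑ i ∈ range L, if msk A B ρ (i + 1) c.1 ∧
          m = (u (i + 1) c.1.1 + t (i + 1) c.1.2 + K).toNat then
          ξ (i + 1) c.1.1 * η (i + 1) c.1.2 else 0 := by
      intro m
      rw [Polynomial.finsetSum_coeff]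
      refine Finset.sum_congr rfl fun i _ => ?_
      by_cases hmask : msk A B ρ (i + 1) c.1
      · rw [if_pos hmask, Polynomial.coeff_C_mul_X_pow]
        simp only [hmask, true_and]
      · rw [if_neg hmask, if_neg (fun h => hmask h.1), Polynomial.coeff_zero]
    refine ⟨?_, ?_, ?_⟩
    · intro m hm
      simp only
      rw [hco]
      refine Finset.sum_eq_zero fun i _ => ?_
      rw [if_neg]
      rintro ⟨_, e⟩
      by_cases hc : c.1 ∈ F ∧ lv c.1 = i + 1
      · rw [heq _ c hc.1 hc.2] at e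
        omega
      · have := hge (i + 1) c hc
        omega
    · intro hcF
      simp only
      rw [hco]
      have hl1 := hlv1 c.1 hcF
      have hlL := hlvL c.1 hcF
      rw [Finset.sum_eq_single (lv c.1 - 1)]
      · have e0 : lv c.1 - 1 + 1 = lv c.1 := by omega
        rw [e0, if_pos]
        · exact (h1 _ c.1 hcF rfl).1
        · refine ⟨?_, (heq _ c hcF rfl).symm⟩
          intro q hq1 hq2
          exact hlvq q c.1 hcF hq1 hq2
      · intro i _ hi
        rw [if_neg]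
        rintro ⟨_, e⟩
        have := hge (i + 1) c (by
          rintro ⟨_, h⟩
          omega)
        omega
      · intro h
        rw [Finset.mem_range] at h
        omega
    · intro hcF
      simp only
      rw [hco]
      refine Finset.sum_eq_zero fun i _ => ?_
      rw [if_neg]
      rintro ⟨_, e⟩
      have := hge (i + 1) c (fun h => hcF h.1)
      omega

end XLLCRV

open XLLCRV in
theorem I_LCRV (hLR1 : St_LR1) : St_LCRV := by
  classical
  intro Q _ A B ρ hL F hF y hy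
  obtain ⟨hFc, lv, hlv1, hlvlt, hlvq⟩ := hF
  set S := ∑ q, B q with hS
  set L := ∑ q, ρ q with hL'
  have hBS : ∀ q, B q ≤ S := fun q => Finset.single_le_sum (f := B) (fun _ _ => Nat.zero_le _)
    (Finset.mem_univ q)
  have hρL : ∀ q, ρ q ≤ L := fun q => Finset.single_le_sum (f := ρ) (fun _ _ => Nat.zero_le _)
    (Finset.mem_univ q)
  have hAA : ∀ q, A q ≤ ∑ q, A q := fun q => Finset.single_le_sum (f := A)
    (fun _ _ => Nat.zero_le _) (Finset.mem_univ q)
  have key : ∀ l : ℕ, ∃ (u t : ℕ → ℤ) (ξ η : ℕ → ℂ),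
      (∀ c ∈ F.filter (fun c => lv c = l), ξ c.1 * η c.2 = y c ∧
        u c.1 + t c.2 = - (2 * (c.1 : ℤ) * (c.2 : ℤ))) ∧
      ∀ a b : ℕ, b < S → (a, b) ∉ F.filter (fun c => lv c = l) →
        - (2 * (a : ℤ) * (b : ℤ)) + 1 ≤ u a + t b := by
    intro l
    refine hLR1 S _ ?_ ?_ y ?_
    · intro c hc
      obtain ⟨q, _, hq⟩ := hFc c (Finset.mem_filter.mp hc).1
      exact lt_of_lt_of_le hq (hBS q)
    · intro c hc c' hc' hd
      rw [Finset.mem_filter] at hc hc'
      have := hlvlt c hc.1 c' hc'.1 hd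
      omega
    · intro c hc
      exact hy c (Finset.mem_filter.mp hc).1
  choose u t ξ η h1 h2 using key
  set K := 2 * (∑ q, A q) * S with hK
  have hKc : ∀ c : LCell A B, 2 * c.1.1 * c.1.2 ≤ K := by
    intro c
    obtain ⟨q, hq1, hq2⟩ := c.2
    rw [hK]
    refine Nat.mul_le_mul (Nat.mul_le_mul_left 2 ?_) ?_
    · exact hq1.le.trans (hAA q)
    · exact hq2.le.trans (hBS q)
  obtain ⟨P, hP1, hP2⟩ := main hL S L K hBS hρL hKc F lv hlv1 (by
    intro c hc
    obtain ⟨q, hq1, hq2⟩ := hFc c hc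
    exact (hlvq q c hc hq1 hq2).trans (hρL q)) hlvq y u t ξ η (by
    intro l c hc hl
    exact h1 l c (Finset.mem_filter.mpr ⟨hc, hl⟩)) (by
    intro l a b hb hn
    refine h2 l a b hb ?_
    rw [Finset.mem_filter]
    exact hn)
  exact ⟨K, P, hKc, hP1, hP2⟩

end Pool.Agent.COV
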