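import Pool.Agent.Work.MP_1c6e58_ag.COV.StmtsL

/-!
MP_1c6e58_ag, project COV, item LLOW: exponents with good support are not lowest exponents.
-/

set_option autoImplicit false

open Finset

namespace Pool.Agent.COV

open Pool.Agent.SH

namespace XLLLOW

section prod

variable {σ : Type} [Fintype σ]

/-- The lowest coefficient of a product. -/
theorem prod_coeff (P : σ → Polynomial ℂ) (k : σ → ℕ)
    (hP : ∀ c m, m < k c → (P c).coeff m = 0) (β : σ → ℕ) :
    (∀ m, m < ∑ c, β c * k c → (∏ c, (P c) ^ (β c)).coeff m = 0) ∧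
    (∏ c, (P c) ^ (β c)).coeff (∑ c, β c * k c) = ∏ c, ((P c).coeff (k c)) ^ (β c) := by
  classical
  have hd : ∀ c, ∃ R : Polynomial ℂ, P c = Polynomial.X ^ (k c) * R := by
    intro c
    exact Polynomial.X_pow_dvd_iff.2 (fun d hd => hP c d hd)
  choose R hR using hd
  have hR0 : ∀ c, (P c).coeff (k c) = (R c).coeff 0 := by
    intro c
    rw [hR c, Polynomial.coeff_X_pow_mul']
    simp
  have hprod : (∏ c, (P c) ^ (β c)) =
      Polynomial.X ^ (∑ c, β c * k c) * ∏ c, (R c) ^ (β c) := by
    rw [← Finset.prod_pow_eq_pow_sum, ← Finset.prod_mul_distrib]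
    refine Finset.prod_congr rfl fun c _ => ?_
    rw [hR c, mul_pow, ← pow_mul, mul_comm (k c)]
  constructor
  · intro m hm
    rw [hprod, Polynomial.coeff_X_pow_mul', if_neg (not_le.2 hm)]
  · rw [hprod, Polynomial.coeff_X_pow_mul', if_pos le_rfl, Nat.sub_self,
      Polynomial.coeff_zero_eq_eval_zero, Polynomial.eval_prod]
    refine Finset.prod_congr rfl fun c _ => ?_
    rw [Polynomial.eval_pow, hR0, Polynomial.coeff_zero_eq_eval_zero]

/-- The weighted degree as a sum. -/
theorem wsum_eq (w : σ → ℤ) (β : σ →₀ ℕ) : wsum w β = ∑ c, w c * (β c : ℤ) := by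
  unfold wsum
  rw [Finsupp.sum_fintype]
  intro c
  simp

theorem order_eq (w : σ → ℤ) (K : ℕ) (k : σ → ℕ) (hk : ∀ c, (k c : ℤ) = K + w c)
    (β : σ →₀ ℕ) : ((∑ c, β c * k c : ℕ) : ℤ) = K * (β.degree : ℤ) + wsum w β := by
  rw [wsum_eq, Finsupp.degree_eq_sum]
  push_cast
  rw [Finset.mul_sum, ← Finset.sum_add_distrib]
  refine Finset.sum_congr rfl fun c _ => ?_
  rw [hk c]
  ring

/-- The main step for one curve. -/
theorem key (Z : Set (σ → ℂ)) (hcone : ∀ c : ℂ, ∀ M ∈ Z, (fun i => c * M i) ∈ Z)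
    (f : MvPolynomial σ ℂ) (hf : ∀ x ∈ Z, MvPolynomial.eval x f = 0) (α : σ →₀ ℕ)
    (hdeg : ∀ β ∈ f.support, α.degree ≤ β.degree) (w : σ → ℤ)
    (hw : ∀ β ∈ f.support, β.degree = α.degree → wsum w α ≤ wsum w β)
    (K : ℕ) (k : σ → ℕ) (hk : ∀ c, (k c : ℤ) = K + w c) (y : σ → ℂ)
    (P : σ → Polynomial ℂ) (hPZ : ∀ T : ℂ, T ≠ 0 → (fun c => (P c).eval T) ∈ Z)
    (hP0 : ∀ c m, m < k c → (P c).coeff m = 0)
    (hP1 : ∀ c ∈ α.support, (P c).coeff (k c) = y c)
    (hP2 : ∀ c, c ∉ α.support → (P c).coeff (k c) = 0) (S : Finset (σ →₀ ℕ))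
    (hS : ∀ β, β ∈ S ↔ β ∈ f.support ∧ (β.degree = α.degree ∧
      wsum w β = wsum w α ∧ β.support ⊆ α.support)) :
    MvPolynomial.eval y (∑ β ∈ S, MvPolynomial.monomial β (f.coeff β)) = 0 := by
  classical
  have hSf : S = f.support.filter (fun β => β.degree = α.degree ∧
      wsum w β = wsum w α ∧ β.support ⊆ α.support) := by
    ext β
    rw [hS, Finset.mem_filter]
  set N : ℕ := ∑ c, α c * k c with hN
  set G : Polynomial ℂ := ∑ β ∈ f.support, Polynomial.C (f.coeff β) *
    (Polynomial.X ^ ((N + 1) * β.degree) * ∏ c, (P c) ^ (β c)) with hG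
  have hG0 : G = 0 := by
    have h1 : G * Polynomial.X = 0 := by
      refine Polynomial.funext fun T => ?_
      rw [Polynomial.eval_mul, Polynomial.eval_X, Polynomial.eval_zero]
      rcases eq_or_ne T 0 with rfl | hT
      · rw [mul_zero]
      · have h2 := hf _ (hcone (T ^ (N + 1)) _ (hPZ T hT))
        rw [MvPolynomial.eval_eq'] at h2
        rw [hG, Polynomial.eval_finsetSum]
        have h3 : ∑ β ∈ f.support, (Polynomial.C (f.coeff β) *
            (Polynomial.X ^ ((N + 1) * β.degree) * ∏ c, (P c) ^ (β c))).eval T = 0 := by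
          rw [← h2]
          refine Finset.sum_congr rfl fun β _ => ?_
          rw [Polynomial.eval_mul, Polynomial.eval_C, Polynomial.eval_mul, Polynomial.eval_pow,
            Polynomial.eval_X, Polynomial.eval_prod]
          congr 1
          have h4 : (N + 1) * β.degree = ∑ c, (N + 1) * β c := by
            rw [Finsupp.degree_eq_sum, Finset.mul_sum]
          rw [h4, ← Finset.prod_pow_eq_pow_sum, ← Finset.prod_mul_distrib]
          refine Finset.prod_congr rfl fun c _ => ?_
          rw [Polynomial.eval_pow, mul_pow, ← pow_mul]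
        rw [h3, zero_mul]
    rcases mul_eq_zero.1 h1 with h | h
    · exact h
    · exact absurd h Polynomial.X_ne_zero
  -- the coefficient
  have hc : G.coeff ((N + 1) * α.degree + N) = 0 := by rw [hG0, Polynomial.coeff_zero]
  rw [hG, Polynomial.finsetSum_coeff] at hc
  rw [hSf, map_sum, Finset.sum_filter]
  refine (Finset.sum_congr rfl fun β hβ => ?_).trans hc
  rw [Polynomial.coeff_C_mul, Polynomial.coeff_X_pow_mul']
  have hd := hdeg β hβ
  have hoβ := order_eq w K k hk β
  have hoα := order_eq w K k hk α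
  obtain ⟨hlow, hco⟩ := prod_coeff P k hP0 β
  rcases hd.lt_or_eq with hlt | heq
  · rw [if_neg (by intro h; omega), if_neg, mul_zero]
    intro h
    have : (N + 1) * (α.degree + 1) ≤ (N + 1) * β.degree := Nat.mul_le_mul_left _ hlt
    have h5 : (N + 1) * (α.degree + 1) = (N + 1) * α.degree + (N + 1) := by ring
    omega
  · have hwβ := hw β hβ heq.symm
    rw [← heq] at hoβ
    rw [← heq, if_pos (Nat.le_add_right _ _), Nat.add_sub_cancel_left]
    by_cases hws : wsum w β = wsum w α
    · have hNN : ∑ c, β c * k c = N := by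
        have : ((∑ c, β c * k c : ℕ) : ℤ) = (N : ℤ) := by rw [hoβ, hws, ← hoα]
        exact_mod_cast this
      rw [hNN] at hco
      rw [hco]
      by_cases hsub : β.support ⊆ α.support
      · rw [if_pos ⟨rfl, hws, hsub⟩, MvPolynomial.eval_monomial, Finsupp.prod_fintype]
        · congr 1
          refine Finset.prod_congr rfl fun c _ => ?_
          by_cases hcs : c ∈ α.support
          · rw [hP1 c hcs]
          · have : β c = 0 := by
              by_contra hne
              exact hcs (hsub (Finsupp.mem_support_iff.2 hne))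
            rw [this, pow_zero, pow_zero]
        · intro c
          exact pow_zero _
      · rw [if_neg (fun h => hsub h.2.2)]
        obtain ⟨c, hc1, hc2⟩ := Finset.not_subset.1 hsub
        rw [Finset.prod_eq_zero (Finset.mem_univ c), mul_zero]
        rw [hP2 c hc2]
        exact zero_pow (Finsupp.mem_support_iff.1 hc1)
    · rw [if_neg (fun h => hws h.2.1), hlow, mul_zero]
      have h6 : wsum w α < wsum w β := lt_of_le_of_ne hwβ (Ne.symm hws)
      have : (N : ℤ) < ((∑ c, β c * k c : ℕ) : ℤ) := by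
        rw [hoβ, hN, hoα]
        linarith
      exact_mod_cast this

end prod

end XLLLOW

open XLLLOW in
/-- LLOW. -/
theorem I_LLOW (hLCRV : St_LCRV) : St_LLOW := by
  classical
  intro Q _ A B ρ hL o ho α hG hmem
  obtain ⟨f, hfI, hα, hmin⟩ := hmem
  have : Finite (LCell A B) := LCell_finite A B
  let _ : Fintype (LCell A B) := Fintype.ofFinite _
  have hf : ∀ x ∈ Zlad A B ρ, MvPolynomial.eval x f = 0 := by
    intro x hx
    have := (MvPolynomial.mem_vanishingIdeal_iff).1 hfI x hx
    simpa [MvPolynomial.aeval_eq_eval] using this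
  have hcone : ∀ c : ℂ, ∀ M ∈ Zlad A B ρ, (fun i => c * M i) ∈ Zlad A B ρ := by
    intro c M hM q
    obtain ⟨g, h, hgh⟩ := hM q
    refine ⟨fun l a => c * g l a, h, fun e h1 h2 => ?_⟩
    show c * M e = _
    rw [hgh e h1 h2, Finset.mul_sum]
    refine Finset.sum_congr rfl fun l _ => ?_
    ring
  have hdeg : ∀ β ∈ f.support, α.degree ≤ β.degree := by
    intro β hβ
    by_contra hlt
    exact absurd (hmin β hβ) (not_le.2 (o.deg _ _ (not_le.1 hlt)))
  have hw : ∀ β ∈ f.support, β.degree = α.degree → wsum (wc (A := A) (B := B)) α ≤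
      wsum (wc (A := A) (B := B)) β := by
    intro β hβ hd
    by_contra hlt
    exact absurd (hmin β hβ) (not_le.2 (ho β α hd (not_le.1 hlt)))
  obtain ⟨S, hS⟩ : ∃ S : Finset (LCell A B →₀ ℕ), ∀ β, β ∈ S ↔ β ∈ f.support ∧
      (β.degree = α.degree ∧ wsum (wc (A := A) (B := B)) β = wsum (wc (A := A) (B := B)) α ∧
      β.support ⊆ α.support) :=
    ⟨f.support.filter (fun β => β.degree = α.degree ∧
      wsum (wc (A := A) (B := B)) β = wsum (wc (A := A) (B := B)) α ∧
      β.support ⊆ α.support), fun β => Finset.mem_filter⟩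
  set h : MvPolynomial (LCell A B) ℂ := ∑ β ∈ S, MvPolynomial.monomial β (f.coeff β) with hh
  have hev : ∀ y : LCell A B → ℂ, (∀ c, y c ≠ 0) → MvPolynomial.eval y h = 0 := by
    intro y hy
    obtain ⟨K, P, hK, hPZ, hPc⟩ := hLCRV Q A B ρ hL (cells α) hG
      (fun c => if hc : ∃ q, c.1 < A q ∧ c.2 < B q then y ⟨c, hc⟩ else 1) (by
        intro c _
        by_cases hc : ∃ q, c.1 < A q ∧ c.2 < B q
        · simp only [dif_pos hc]
          exact hy _
        · simp only [dif_neg hc]
          exact one_ne_zero)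
    have hsup : ∀ c : LCell A B, c.1 ∈ cells α ↔ c ∈ α.support := by
      intro c
      unfold cells
      rw [Finset.mem_map]
      constructor
      · rintro ⟨d, hd, hdc⟩
        have : d = c := Subtype.ext hdc
        rwa [← this]
      · intro hc
        exact ⟨c, hc, rfl⟩
    refine key (Zlad A B ρ) hcone f hf α hdeg wc hw K (fun c => K - 2 * c.1.1 * c.1.2) ?_ y P
      hPZ (fun c => (hPc c).1) ?_ ?_ S hS
    · intro c
      have := hK c
      unfold wc
      push_cast [Nat.cast_sub this]
      ring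
    · intro c hc
      rw [(hPc c).2.1 ((hsup c).2 hc)]
      simp only [dif_pos c.2]
    · intro c hc
      exact (hPc c).2.2 (fun h => hc ((hsup c).1 h))
  have hz : h * ∏ c : LCell A B, MvPolynomial.X c = 0 := by
    refine MvPolynomial.funext fun y => ?_
    rw [map_mul, map_prod, map_zero]
    by_cases hy : ∀ c, y c ≠ 0
    · rw [hev y hy, zero_mul]
    · push Not at hy
      obtain ⟨c, hc⟩ := hy
      rw [Finset.prod_eq_zero (Finset.mem_univ c), mul_zero]
      rw [MvPolynomial.eval_X, hc]
  have hh0 : h = 0 := by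
    rcases mul_eq_zero.1 hz with h1 | h1
    · exact h1
    · exact absurd h1 (Finset.prod_ne_zero_iff.2 fun c _ => MvPolynomial.X_ne_zero c)
  have hcα : h.coeff α = f.coeff α := by
    rw [hh, MvPolynomial.coeff_sum, Finset.sum_eq_single α]
    · rw [MvPolynomial.coeff_monomial, if_pos rfl]
    · intro β _ hne
      rw [MvPolynomial.coeff_monomial, if_neg hne]
    · intro hn
      exact absurd ((hS α).2 ⟨hα, rfl, rfl, Finset.Subset.refl _⟩) hn
  rw [hh0, MvPolynomial.coeff_zero] at hcα
  exact (MvPolynomial.mem_support_iff.1 hα) hcα.symm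

end Pool.Agent.COV
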