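import Pool.Agent.Work.MP_1c6e58_ag.COV.StmtsL

/-!
MP_1c6e58_ag, project COV, item LMIN: the minors of the ladder and their lowest terms.
-/

set_option autoImplicit false

open Finset

namespace Pool.Agent.COV

open Pool.Agent.SH

namespace XLLMIN

/-- the weighted degree of a sum of variables -/
lemma wsum_sum {σ : Type} (w : σ → ℤ) {m : ℕ} (x : Fin m → σ) :
    wsum w (∑ i, Finsupp.single (x i) 1) = ∑ i, w (x i) := by
  unfold wsum
  rw [← Finsupp.sum_finsetSum_index (fun _ => by simp) (fun _ _ _ => by push_cast; ring)]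
  refine Finset.sum_congr rfl fun i _ => ?_
  rw [Finsupp.sum_single_index (by simp)]
  simp

lemma degree_sum {σ : Type} {m : ℕ} (x : Fin m → σ) :
    (∑ i, Finsupp.single (x i) 1 : σ →₀ ℕ).degree = m := by
  rw [map_sum]
  simp

/-- the determinant of a product through a smaller space -/
lemma det_zero {m r : ℕ} (h : r < m) (F : Matrix (Fin m) (Fin r) ℂ) (G : Matrix (Fin r) (Fin m) ℂ) :
    (F * G).det = 0 := by
  by_contra hne
  have hu : IsUnit (F * G) := (Matrix.isUnit_iff_isUnit_det _).2 (isUnit_iff_ne_zero.2 hne)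
  have h1 := Matrix.rank_of_isUnit (F * G) hu
  have h2 := (Matrix.rank_mul_le_left F G).trans (Matrix.rank_le_width F)
  rw [h1, Fintype.card_fin] at h2
  omega

/-- rearrangement -/
lemma rearr {m : ℕ} (a b : Fin m → ℤ) (ha : StrictMono a) (hb : StrictMono b)
    (τ : Equiv.Perm (Fin m)) (hτ : τ ≠ 1) : ∑ i, a (τ i) * b i < ∑ i, a i * b i := by
  have hm : Monovary a b := fun i j hij => (ha (hb.lt_iff_lt.1 hij)).le
  rw [hm.sum_comp_perm_mul_lt_sum_mul_iff]
  intro h
  apply hτ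
  rw [← Equiv.Perm.monotone_iff]
  intro i j hij
  rcases hij.eq_or_lt with rfl | hlt
  · exact le_rfl
  · exact ha.le_iff_le.1 (h (hb hlt))

end XLLMIN

theorem I_LMIN : St_LMIN := by
  classical
  intro Q A B ρ o ho q s hs hq
  obtain ⟨x, hx⟩ : ∃ x : Fin (ρ q + 1) → Fin (ρ q + 1) → LCell A B,
      x = fun i j => ⟨((s i).1.1, (s j).1.2), q, (hq i).1, (hq j).2⟩ := ⟨_, rfl⟩
  have hx1 : ∀ i j, (x i j).1 = ((s i).1.1, (s j).1.2) := fun i j => by rw [hx]
  have hxs : ∀ i, x i i = s i := fun i => Subtype.ext (hx1 i i)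
  have ha : StrictMono fun i => ((s i).1.1 : ℤ) := fun i j hij => by
    have h1 := (hs i j hij).1
    show ((s i).1.1 : ℤ) < ((s j).1.1 : ℤ)
    exact_mod_cast h1
  have hb : StrictMono fun i => ((s i).1.2 : ℤ) := fun i j hij => by
    have h1 := (hs i j hij).2
    show ((s i).1.2 : ℤ) < ((s j).1.2 : ℤ)
    exact_mod_cast h1
  obtain ⟨ex, hex⟩ : ∃ ex : Equiv.Perm (Fin (ρ q + 1)) → (LCell A B →₀ ℕ),
      ex = fun τ => ∑ i, Finsupp.single (x (τ i) i) 1 := ⟨_, rfl⟩
  have hex1 : ex 1 = ∑ i, Finsupp.single (s i) 1 := by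
    rw [hex]
    simp only [Equiv.Perm.one_apply, hxs]
  have hw : ∀ τ, wsum wc (ex τ) = -2 * ∑ i, ((s (τ i)).1.1 : ℤ) * ((s i).1.2 : ℤ) := by
    intro τ
    rw [hex]
    show wsum wc (∑ i, Finsupp.single (x (τ i) i) 1) = _
    rw [XLLMIN.wsum_sum, Finset.mul_sum]
    refine Finset.sum_congr rfl fun i _ => ?_
    unfold wc
    rw [hx1]
    ring
  have hlt : ∀ τ, τ ≠ 1 → wsum wc (ex 1) < wsum wc (ex τ) := by
    intro τ hτ
    have h1 := XLLMIN.rearr _ _ ha hb τ hτ
    rw [hw, hw]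
    simp only [Equiv.Perm.one_apply]
    linarith
  have hof : ∀ τ, o.f (ex 1) ≤ o.f (ex τ) := by
    intro τ
    by_cases hτ : τ = 1
    · rw [hτ]
    · refine (ho _ _ ?_ (hlt τ hτ)).le
      rw [hex]
      show (∑ i, Finsupp.single (x ((1 : Equiv.Perm (Fin (ρ q + 1))) i) i) 1 : LCell A B →₀ ℕ).degree =
        (∑ i, Finsupp.single (x (τ i) i) 1 : LCell A B →₀ ℕ).degree
      rw [XLLMIN.degree_sum, XLLMIN.degree_sum]
  have hne : ∀ τ, τ ≠ 1 → ex τ ≠ ex 1 := by
    intro τ hτ h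
    have := hlt τ hτ
    rw [h] at this
    exact lt_irrefl _ this
  -- the minor
  obtain ⟨D, hD⟩ : ∃ D : Matrix (Fin (ρ q + 1)) (Fin (ρ q + 1)) (MvPolynomial (LCell A B) ℂ),
      D = Matrix.of fun i j => MvPolynomial.X (x i j) := ⟨_, rfl⟩
  have hdet : D.det = ∑ τ : Equiv.Perm (Fin (ρ q + 1)),
      Equiv.Perm.sign τ • MvPolynomial.monomial (ex τ) (1 : ℂ) := by
    rw [Matrix.det_apply]
    refine Finset.sum_congr rfl fun τ _ => ?_
    rw [hex]
    show _ = Equiv.Perm.sign τ • MvPolynomial.monomial (∑ i, Finsupp.single (x (τ i) i) 1) (1 : ℂ)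
    rw [MvPolynomial.monomial_sum_one, hD]
    rfl
  have hcoef : ∀ β : LCell A B →₀ ℕ, MvPolynomial.coeff β D.det =
      ∑ τ : Equiv.Perm (Fin (ρ q + 1)), Equiv.Perm.sign τ • (if ex τ = β then (1 : ℂ) else 0) := by
    intro β
    rw [hdet, MvPolynomial.coeff_sum]
    refine Finset.sum_congr rfl fun τ _ => ?_
    rw [← MvPolynomial.coeff_monomial]
    rcases Int.units_eq_one_or (Equiv.Perm.sign τ) with h | h
    · rw [h, one_smul, one_smul]
    · rw [h, Units.neg_smul, Units.neg_smul, one_smul, one_smul, MvPolynomial.coeff_neg]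
  refine ⟨D.det, ?_, ?_, ?_⟩
  · intro M hM
    obtain ⟨f, g, hfg⟩ := hM q
    have h1 : MvPolynomial.aeval M D.det = (Matrix.of (fun i l => f l (s i).1.1) *
        Matrix.of (fun l j => g l (s j).1.2) : Matrix (Fin (ρ q + 1)) (Fin (ρ q + 1)) ℂ).det := by
      rw [AlgHom.map_det]
      congr 1
      ext i j
      rw [Matrix.mul_apply, hD]
      simp only [AlgHom.mapMatrix_apply, Matrix.map_apply, Matrix.of_apply, MvPolynomial.aeval_X]
      rw [hfg (x i j) (by rw [hx1]; exact (hq i).1) (by rw [hx1]; exact (hq j).2), hx1]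
    rw [h1]
    exact XLLMIN.det_zero (Nat.lt_succ_self _) _ _
  · rw [← hex1, MvPolynomial.mem_support_iff, hcoef, Finset.sum_eq_single 1]
    · simp
    · intro τ _ hτ
      rw [if_neg (hne τ hτ), smul_zero]
    · intro h
      exact absurd (Finset.mem_univ _) h
  · intro β hβ
    rw [← hex1]
    rw [MvPolynomial.mem_support_iff, hcoef] at hβ
    obtain ⟨τ, _, hτ⟩ := Finset.exists_ne_zero_of_sum_ne_zero hβ
    have h1 : ex τ = β := by
      by_contra h
      rw [if_neg h, smul_zero] at hτ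
      exact hτ rfl
    rw [← h1]
    exact hof τ

end Pool.Agent.COV
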