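import Pool.Agent.Work.MP_1c6e58_ag.COV.StmtsL

set_option autoImplicit false

open Finset

namespace Pool.Agent.COV

open Pool.Agent.SH

namespace XLLMOD

variable {Q : Type} [Fintype Q]

theorem mem_YF {A B : Q → ℕ} {c : ℕ × ℕ} : c ∈ YF A B ↔ ∃ q, c.1 < A q ∧ c.2 < B q := by
  unfold YF
  simp

theorem mem_FL {A B ρ : Q → ℕ} {c : ℕ × ℕ} :
    c ∈ FL A B ρ ↔ (∃ q, c.1 < A q ∧ c.2 < B q) ∧ 1 ≤ gI A B ρ c := by
  unfold FL
  rw [mem_filter, mem_YF]

end XLLMOD

open XLLMOD in
theorem I_LMOD (hLGF : St_LGF) : St_LMOD := by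
  intro Q _ A B ρ R h1 h2
  have G := hLGF Q A B ρ
  set N : Finset (ℕ × ℕ) := R.image (fun r => (r.1 - 1, r.2 - 1)) with hN
  have hNr : ∀ c ∈ N, (c.1 + 1, c.2 + 1) ∈ R := by
    intro c hc
    rw [hN, mem_image] at hc
    obtain ⟨r, hr, rfl⟩ := hc
    obtain ⟨a1, a2, -⟩ := h1 r hr
    have : ((r.1 - 1) + 1, (r.2 - 1) + 1) = r := by
      ext
      · simp only; omega
      · simp only; omega
    simpa only [this] using hr
  have hN0 : ∀ c ∈ N, gI A B ρ c = 0 := by
    intro c hc
    have a1 := hNr c hc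
    obtain ⟨_, _, _, a2, _⟩ := h1 _ a1
    have a3 := G.diag c
    omega
  have hNF : ∀ c ∈ N, c ∉ FL A B ρ := by
    intro c hc hcF
    have a1 := (mem_FL.mp hcF).2
    have a2 := hN0 c hc
    omega
  have hRF : R ⊆ FL A B ρ := fun r hr => (h1 r hr).2.2.1
  have hmdf : mdf A B ρ R = (FL A B ρ \ R) ∪ N := rfl
  have hmem : ∀ c, c ∈ mdf A B ρ R ↔ (c ∈ FL A B ρ ∧ c ∉ R) ∨ c ∈ N := by
    intro c
    rw [hmdf, mem_union, mem_sdiff]
  have hYN : ∀ c ∈ N, ∃ q, c.1 < A q ∧ c.2 < B q := by
    intro c hc
    obtain ⟨q, a1, a2⟩ := (mem_FL.mp (hRF (hNr c hc))).1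
    exact ⟨q, by simp only at a1; omega, by simp only at a2; omega⟩
  have hY : ∀ c ∈ mdf A B ρ R, ∃ q, c.1 < A q ∧ c.2 < B q := by
    intro c hc
    rcases (hmem c).mp hc with h | h
    · exact (mem_FL.mp h.1).1
    · exact hYN c h
  refine ⟨⟨hY, fun c => if c ∈ FL A B ρ then (gI A B ρ c).toNat else 1, ?_, ?_, ?_⟩, ?_, ?_, ?_⟩
  · intro c _
    by_cases hF : c ∈ FL A B ρ
    · simp only [if_pos hF]
      have := (mem_FL.mp hF).2
      omega
    · simp only [if_neg hF]
      exact le_refl 1
  · intro c hc c' hc' hlt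
    have hg := G.lt c c' hlt
    by_cases hF : c ∈ FL A B ρ
    · have a1 := (mem_FL.mp hF).2
      by_cases hF' : c' ∈ FL A B ρ
      · simp only [if_pos hF, if_pos hF']
        omega
      · exfalso
        rcases (hmem c').mp hc' with h | h
        · exact hF' h.1
        · have := hN0 c' h
          omega
    · have hcN : c ∈ N := by
        rcases (hmem c).mp hc with h | h
        · exact absurd h.1 hF
        · exact h
      by_cases hF' : c' ∈ FL A B ρ
      · simp only [if_neg hF, if_pos hF']
        have hcR : c' ∉ R := by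
          rcases (hmem c').mp hc' with h | h
          · exact h.2
          · exact absurd hF' (hNF c' h)
        have := h2 _ (hNr c hcN) c' hF' hcR hlt.1 hlt.2
        omega
      · exfalso
        have hcN' : c' ∈ N := by
          rcases (hmem c').mp hc' with h | h
          · exact absurd h.1 hF'
          · exact h
        have e1 := hN0 c hcN
        have e2 := hN0 c' hcN'
        omega
  · intro q c hc hA hB
    by_cases hF : c ∈ FL A B ρ
    · simp only [if_pos hF]
      have := G.rect q c hA hB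
      omega
    · simp only [if_neg hF]
      have hcN : c ∈ N := by
        rcases (hmem c).mp hc with h | h
        · exact absurd h.1 hF
        · exact h
      by_contra hcon
      have hz : ρ q = 0 := by omega
      have := (h1 _ (hNr c hcN)).2.2.2.2 q hz
      apply this
      simp only [Nat.add_sub_cancel]
      exact ⟨hA, hB⟩
  · rw [hmdf, card_union_of_disjoint]
    · have e1 : N.card = R.card := by
        rw [hN]
        apply card_image_of_injOn
        intro r hr r' hr' h
        obtain ⟨a1, a2, -⟩ := h1 r hr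
        obtain ⟨b1, b2, -⟩ := h1 r' hr'
        simp only [Prod.mk.injEq] at h
        obtain ⟨h3, h4⟩ := h
        ext
        · omega
        · omega
      rw [e1, card_sdiff_of_subset hRF]
      exact Nat.sub_add_cancel (card_le_card hRF)
    · rw [disjoint_left]
      intro c hc hcN
      exact hNF c hcN (mem_sdiff.mp hc).1
  · intro c hc
    exact mem_YF.mpr (hY c hc)
  · ext c
    rw [mem_sdiff, hmem]
    constructor
    · rintro ⟨h3, h4⟩
      by_contra h5
      exact h4 (Or.inl ⟨h3, h5⟩)
    · intro h3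
      refine ⟨hRF h3, ?_⟩
      rintro (h4 | h4)
      · exact h4.2 h3
      · exact hNF c h4 (hRF h3)

end Pool.Agent.COV
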