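import Pool.Agent.Work.MP_1c6e58_ag.COV.StmtsL

/-!
MP_1c6e58_ag, project COV, ladder half, item LR1: sets without 2-chains.
-/

set_option autoImplicit false

open Finset

namespace Pool.Agent.COV

open Pool.Agent.SH

namespace XLLR1

theorem mono (u : ℕ → ℤ) (S : ℕ)
    (hP : ∀ a : ℕ, u a + 2 * (S : ℤ) * a + 1 ≤ u (a + 1) + 2 * (S : ℤ) * ((a : ℤ) + 1)) :
    ∀ d a : ℕ, u a + 2 * (S : ℤ) * a + d ≤ u (a + d) + 2 * (S : ℤ) * ((a : ℤ) + d) := by
  intro d
  induction d with
  | zero => intro a; simp
  | succ d ih =>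
    intro a
    have h1 := ih a
    have h2 := hP (a + d)
    have h3 : a + (d + 1) = a + d + 1 := by ring
    rw [h3]
    push_cast at h1 h2 ⊢
    linarith

theorem mono' (u : ℕ → ℤ) (S : ℕ)
    (hP : ∀ a : ℕ, u a + 2 * (S : ℤ) * a + 1 ≤ u (a + 1) + 2 * (S : ℤ) * ((a : ℤ) + 1))
    (a a' : ℕ) (h : a ≤ a') :
    u a + 2 * (S : ℤ) * a + ((a' : ℤ) - a) ≤ u a' + 2 * (S : ℤ) * a' := by
  obtain ⟨d, rfl⟩ := Nat.exists_eq_add_of_le h
  have h1 := mono u S hP d a
  push_cast
  linarith

theorem main (S : ℕ) : ∀ (G : Finset (ℕ × ℕ)), (∀ c ∈ G, c.2 < S) →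
    (∀ c ∈ G, ∀ c' ∈ G, ¬ dlt c c') → ∀ y : ℕ × ℕ → ℂ, (∀ c ∈ G, y c ≠ 0) →
    ∃ (u t : ℕ → ℤ) (ξ η : ℕ → ℂ),
      (∀ c ∈ G, ξ c.1 * η c.2 = y c ∧ u c.1 + t c.2 = - (2 * (c.1 : ℤ) * (c.2 : ℤ))) ∧
      (∀ a b : ℕ, b < S → (a, b) ∉ G → - (2 * (a : ℤ) * (b : ℤ)) + 1 ≤ u a + t b) ∧
      (∀ a : ℕ, u a + 2 * (S : ℤ) * a + 1 ≤ u (a + 1) + 2 * (S : ℤ) * ((a : ℤ) + 1)) ∧
      (∀ a, ξ a ≠ 0) ∧ (∀ b, η b ≠ 0) := by
  induction S with
  | zero =>
    intro G hG _ y _
    refine ⟨fun a => a, fun _ => 0, fun _ => 1, fun _ => 1, ?_, ?_, ?_, ?_, ?_⟩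
    · intro c hc
      exact absurd (hG c hc) (Nat.not_lt_zero _)
    · intro a b hb
      exact absurd hb (Nat.not_lt_zero _)
    · intro a
      push_cast
      linarith
    · intro a
      exact one_ne_zero
    · intro b
      exact one_ne_zero
  | succ S ih =>
    intro G hG hchain y hy
    have hG' : ∀ c ∈ G.filter (fun c => c.2 < S), c.2 < S := fun c hc =>
      (Finset.mem_filter.1 hc).2
    have hmem : ∀ c : ℕ × ℕ, c ∈ G.filter (fun c => c.2 < S) ↔ c ∈ G ∧ c.2 < S := fun c =>
      Finset.mem_filter
    obtain ⟨u, t, ξ, η, h1, h2, h3, h4, h5⟩ := ih (G.filter (fun c => c.2 < S)) hG'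
      (fun c hc c' hc' => hchain c (Finset.mem_filter.1 hc).1 c' (Finset.mem_filter.1 hc').1) y
      (fun c hc => hy c (Finset.mem_filter.1 hc).1)
    by_cases hne : (G.filter (fun c => c.2 = S)).Nonempty
    · obtain ⟨c0, hc0, hmax⟩ := Finset.exists_max_image (G.filter (fun c => c.2 = S))
        (fun c => c.1) hne
      obtain ⟨hc0G, hc0S⟩ := Finset.mem_filter.1 hc0
      obtain ⟨m, s0⟩ := c0
      simp only at hc0S hmax
      subst hc0S
      have hmaxS : ∀ a, (a, s0) ∈ G → a ≤ m := fun a ha =>
        hmax (a, s0) (Finset.mem_filter.2 ⟨ha, rfl⟩)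
      have hrow : ∀ a b, (a, b) ∈ G → b < s0 → m ≤ a := by
        intro a b hab hb
        by_contra hlt
        push Not at hlt
        exact hchain (a, b) hab (m, s0) hc0G ⟨hlt, hb⟩
      have hη : y (m, s0) / ξ m ≠ 0 := div_ne_zero (hy _ hc0G) (h4 m)
      classical
      refine ⟨fun a => if a < m then u m + 2 * ((m : ℤ) - a) * s0 +
          (if (a, s0) ∈ G then 0 else 1) else u a,
        fun b => if b = s0 then -(2 * (m : ℤ) * s0) - u m else t b,
        fun a => if a < m then (if (a, s0) ∈ G then y (a, s0) / (y (m, s0) / ξ m) else 1) else ξ a,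
        fun b => if b = s0 then y (m, s0) / ξ m else η b, ?_, ?_, ?_, ?_, ?_⟩
      · rintro ⟨a, b⟩ hc
        have hb := hG _ hc
        simp only at hb ⊢
        rcases Nat.lt_succ_iff_lt_or_eq.1 hb with hb' | hb'
        · have ham := hrow a b hc hb'
          rw [if_neg (not_lt.2 ham), if_neg hb'.ne, if_neg (not_lt.2 ham), if_neg hb'.ne]
          exact h1 (a, b) ((hmem _).2 ⟨hc, hb'⟩)
        · subst hb'
          have ham := hmaxS a hc
          rw [if_pos rfl, if_pos rfl]
          rcases Nat.lt_or_ge a m with hlt | hge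
          · rw [if_pos hlt, if_pos hlt, if_pos hc, if_pos hc]
            constructor
            · field_simp [h4 m, hy _ hc0G]
            · ring
          · have hae : a = m := le_antisymm ham hge
            subst hae
            rw [if_neg (lt_irrefl a), if_neg (lt_irrefl a)]
            constructor
            · field_simp [h4 a]
            · ring
      · intro a b hb hab
        simp only
        rcases Nat.lt_succ_iff_lt_or_eq.1 hb with hb' | hb'
        · rw [if_neg hb'.ne]
          rcases Nat.lt_or_ge a m with hlt | hge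
          · rw [if_pos hlt]
            have h6 : -(2 * (m : ℤ) * (b : ℤ)) ≤ u m + t b := by
              by_cases hmb : (m, b) ∈ G
              · exact (h1 (m, b) ((hmem _).2 ⟨hmb, hb'⟩)).2.symm.le
              · have := h2 m b hb' (fun hh => hmb ((hmem _).1 hh).1)
                linarith
            have h7 : (0 : ℤ) ≤ (if (a, s0) ∈ G then (0 : ℤ) else 1) := by
              split_ifs <;> norm_num
            have h8 : (1 : ℤ) ≤ (m : ℤ) - a := by
              have : (a : ℤ) < m := by exact_mod_cast hlt
              linarith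
            have h9 : (1 : ℤ) ≤ (s0 : ℤ) - b := by
              have : (b : ℤ) < s0 := by exact_mod_cast hb'
              linarith
            nlinarith [mul_le_mul h8 h9 (by norm_num) (by linarith)]
          · rw [if_neg (not_lt.2 hge)]
            exact h2 a b hb' (fun hh => hab ((hmem _).1 hh).1)
        · subst hb'
          rw [if_pos rfl]
          rcases Nat.lt_or_ge a m with hlt | hge
          · rw [if_pos hlt, if_neg hab]
            linarith
          · rw [if_neg (not_lt.2 hge)]
            have hne' : a ≠ m := fun hh => hab (hh ▸ hc0G)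
            have hlt : m < a := lt_of_le_of_ne hge (Ne.symm hne')
            have h6 := mono' u b h3 m a hge
            have h7 : (1 : ℤ) ≤ (a : ℤ) - m := by
              have : (m : ℤ) < a := by exact_mod_cast hlt
              linarith
            linarith
      · intro a
        simp only
        have hi : ∀ a : ℕ, (0 : ℤ) ≤ (if (a, s0) ∈ G then (0 : ℤ) else 1) ∧
            (if (a, s0) ∈ G then (0 : ℤ) else 1) ≤ 1 := by
          intro a
          split_ifs <;> norm_num
        rcases Nat.lt_or_ge a m with hlt | hge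
        · rcases Nat.lt_or_ge (a + 1) m with hlt' | hge'
          · rw [if_pos hlt, if_pos hlt']
            have h6 := hi a
            have h7 := hi (a + 1)
            push_cast
            nlinarith [h6.1, h6.2, h7.1, h7.2]
          · have hae : m = a + 1 := le_antisymm hge' hlt
            rw [if_pos hlt, if_neg (not_lt.2 hge'), hae]
            have h6 := hi a
            push_cast
            nlinarith [h6.1, h6.2]
        · rw [if_neg (not_lt.2 hge), if_neg (not_lt.2 (Nat.le_succ_of_le hge))]
          have h6 := h3 a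
          push_cast
          nlinarith
      · intro a
        simp only
        split_ifs with h6 h7
        · exact div_ne_zero (hy _ h7) hη
        · exact one_ne_zero
        · exact h4 a
      · intro b
        simp only
        split_ifs with h6
        · exact hη
        · exact h5 b
    · have hnoS : ∀ a b, (a, b) ∈ G → b < S := by
        intro a b hab
        rcases Nat.lt_succ_iff_lt_or_eq.1 (hG _ hab) with hb' | hb'
        · exact hb'
        · exact absurd ⟨(a, b), Finset.mem_filter.2 ⟨hab, hb'⟩⟩ hne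
      refine ⟨u, fun b => if b = S then 1 - u 0 else t b, ξ, η, ?_, ?_, ?_, h4, h5⟩
      · rintro ⟨a, b⟩ hc
        have hb := hnoS a b hc
        simp only
        rw [if_neg hb.ne]
        exact h1 (a, b) ((hmem _).2 ⟨hc, hb⟩)
      · intro a b hb hab
        simp only
        rcases Nat.lt_succ_iff_lt_or_eq.1 hb with hb' | hb'
        · rw [if_neg hb'.ne]
          exact h2 a b hb' (fun hh => hab ((hmem _).1 hh).1)
        · subst hb'
          rw [if_pos rfl]
          have h6 := mono' u b h3 0 a (Nat.zero_le a)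
          have h7 : (0 : ℤ) ≤ (a : ℤ) := Int.natCast_nonneg a
          push_cast at h6
          linarith
      · intro a
        have h6 := h3 a
        push_cast
        nlinarith

end XLLR1

/-- LR1. -/
theorem I_LR1 : St_LR1 := by
  intro S G hG hchain y hy
  obtain ⟨u, t, ξ, η, h1, h2, _, _, _⟩ := XLLR1.main S G hG hchain y hy
  exact ⟨u, t, ξ, η, h1, h2⟩

end Pool.Agent.COV
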