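import Pool.Agent.Work.MP_1c6e58_ag.COV.StmtsL

/-!
MP_1c6e58_ag, project COV, item LRHO: the lower bound `ρ + 1` for the number of the largest good
sets.
-/

set_option autoImplicit false

open Finset

namespace Pool.Agent.COV

open Pool.Agent.SH

namespace XLLRHO

/-- The diagonal of the rectangle `l`. -/
def ee {Q : Type} (A B ρ : Q → ℕ) (l : Q) (i : ℕ) : ℕ × ℕ :=
  (A l - ρ l - 1 + i, B l - ρ l - 1 + i)

variable {Q : Type} [Fintype Q] {A B ρ : Q → ℕ}

theorem ee_inj (l : Q) {i j : ℕ} (h : ee A B ρ l i = ee A B ρ l j) : i = j := by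
  have := congrArg Prod.fst h
  simp only [ee] at this
  omega

/-- The term of `q ≠ l`. -/
theorem term_ne (hL : Ladd A B ρ) (l q : Q) (hq : q ≠ l) (i : ℕ) (c : ℕ × ℕ)
    (h1 : A l - ρ l - 1 + i ≤ c.1) (h2 : B l - ρ l - 1 + i ≤ c.2) :
    (i : ℤ) + 1 ≤ (ρ q : ℤ) + max ((c.1 : ℤ) + 1 - A q) ((c.2 : ℤ) + 1 - B q) := by
  have a1 := hL.ltA l
  have a2 := hL.ltB l
  have a3 := hL.ltA q
  have a4 := hL.ltB q
  rcases hL.ord l q (Ne.symm hq) with ⟨_, _, h3, _⟩ | ⟨_, _, _, h4⟩
  · have := le_max_left ((c.1 : ℤ) + 1 - A q) ((c.2 : ℤ) + 1 - B q)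
    omega
  · have := le_max_right ((c.1 : ℤ) + 1 - A q) ((c.2 : ℤ) + 1 - B q)
    omega

theorem gI_ee (hL : Ladd A B ρ) (hG : GF A B ρ) (l : Q) (i : ℕ) :
    gI A B ρ (ee A B ρ l i) = i := by
  have a1 := hL.ltA l
  have a2 := hL.ltB l
  apply le_antisymm
  · by_contra hcon
    have h : (i : ℤ) + 1 ≤ gI A B ρ (ee A B ρ l i) := by omega
    have h2 := ((hG.le _ _).1 h).2.2 l
    have h3 : max (((ee A B ρ l i).1 : ℤ) + 1 - A l) (((ee A B ρ l i).2 : ℤ) + 1 - B l) ≤
        (i : ℤ) - ρ l := by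
      apply max_le
      · simp only [ee]; omega
      · simp only [ee]; omega
    omega
  · rw [hG.le]
    refine ⟨by simp only [ee]; omega, by simp only [ee]; omega, ?_⟩
    intro q
    by_cases hq : q = l
    · subst hq
      have := le_max_left (((ee A B ρ q i).1 : ℤ) + 1 - A q) (((ee A B ρ q i).2 : ℤ) + 1 - B q)
      have h3 : ((ee A B ρ q i).1 : ℤ) = (A q : ℤ) - ρ q - 1 + i := by simp only [ee]; omega
      omega
    · have := term_ne hL l q hq i (ee A B ρ l i) (le_refl _) (le_refl _)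
      omega

/-- The sets. -/
def Fj (A B ρ : Q → ℕ) (l : Q) (j : ℕ) : Finset (ℕ × ℕ) :=
  (insert (ee A B ρ l 0) (FL A B ρ)).erase (ee A B ρ l j)

theorem ee0_not (hL : Ladd A B ρ) (hG : GF A B ρ) (l : Q) : ee A B ρ l 0 ∉ FL A B ρ := by
  intro h
  have h1 := (mem_filter.1 h).2
  rw [gI_ee hL hG] at h1
  norm_num at h1

theorem mem_YF (c : ℕ × ℕ) : c ∈ YF A B ↔ ∃ q, c.1 < A q ∧ c.2 < B q := by
  simp only [YF, mem_biUnion, mem_univ, true_and, mem_product, mem_range]

theorem ee_YF (hL : Ladd A B ρ) (l : Q) (i : ℕ) (hi : i ≤ ρ l) : ee A B ρ l i ∈ YF A B := by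
  rw [mem_YF]
  have a1 := hL.ltA l
  have a2 := hL.ltB l
  exact ⟨l, by simp only [ee]; omega, by simp only [ee]; omega⟩

theorem ee_FL (hL : Ladd A B ρ) (hG : GF A B ρ) (l : Q) (i : ℕ) (hi : i ≤ ρ l) (h1 : 1 ≤ i) :
    ee A B ρ l i ∈ FL A B ρ := by
  rw [FL, mem_filter]
  refine ⟨ee_YF hL l i hi, ?_⟩
  rw [gI_ee hL hG]
  exact_mod_cast h1

theorem Fj_sub (hL : Ladd A B ρ) (l : Q) (j : ℕ) : Fj A B ρ l j ⊆ YF A B := by
  intro c hc
  rcases mem_insert.1 (mem_of_mem_erase hc) with h | h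
  · rw [h]
    exact ee_YF hL l 0 (Nat.zero_le _)
  · exact (mem_filter.1 h).1

theorem Fj_card (hL : Ladd A B ρ) (hG : GF A B ρ) (l : Q) (j : ℕ) (hj : j ≤ ρ l) :
    (Fj A B ρ l j).card = (FL A B ρ).card := by
  have hm : ee A B ρ l j ∈ insert (ee A B ρ l 0) (FL A B ρ) := by
    rcases Nat.eq_zero_or_pos j with h | h
    · subst h
      exact mem_insert_self _ _
    · exact mem_insert_of_mem (ee_FL hL hG l j hj h)
  rw [Fj, card_erase_of_mem hm, card_insert_of_notMem (ee0_not hL hG l)]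
  omega

theorem Fj_inj (hL : Ladd A B ρ) (hG : GF A B ρ) (l : Q) {i j : ℕ} (hi : i ≤ ρ l)
    (h : Fj A B ρ l i = Fj A B ρ l j) : i = j := by
  by_contra hne
  have h1 : ee A B ρ l i ∈ Fj A B ρ l j := by
    rw [Fj, mem_erase]
    refine ⟨fun he => hne (ee_inj l he), ?_⟩
    rcases Nat.eq_zero_or_pos i with h | h
    · subst h
      exact mem_insert_self _ _
    · exact mem_insert_of_mem (ee_FL hL hG l i hi h)
  rw [← h] at h1
  exact (mem_erase.1 h1).1 rfl

theorem Fj_good (hL : Ladd A B ρ) (hG : GF A B ρ) (l : Q) (j : ℕ) (hj : j ≤ ρ l) :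
    GoodF A B ρ (Fj A B ρ l j) := by
  classical
  have a1 := hL.ltA l
  have a2 := hL.ltB l
  refine ⟨fun c hc => (mem_YF c).1 (Fj_sub hL l j hc), ?_⟩
  have hFL : ∀ c ∈ Fj A B ρ l j, (¬ ∃ i, i < j ∧ c = ee A B ρ l i) → 1 ≤ gI A B ρ c := by
    intro c hc hn
    rcases mem_insert.1 (mem_of_mem_erase hc) with h | h
    · exfalso
      rcases Nat.eq_zero_or_pos j with h0 | h0
      · subst h0
        exact (mem_erase.1 hc).1 h
      · exact hn ⟨0, h0, h⟩
    · exact (mem_filter.1 h).2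
  refine ⟨fun c => if (∃ i, i < j ∧ c = ee A B ρ l i) then c.1 + ρ l + 2 - A l else
    (gI A B ρ c).toNat, ?_, ?_, ?_⟩
  · intro c hc
    dsimp only
    split_ifs with h
    · obtain ⟨i, _, rfl⟩ := h
      simp only [ee]
      omega
    · have := hFL c hc h
      omega
  · intro c hc c' hc' hd
    dsimp only
    split_ifs with h h' h'
    · obtain ⟨i, _, rfl⟩ := h
      obtain ⟨i', _, rfl⟩ := h'
      have := hd.1
      simp only [ee] at this ⊢
      omega
    · obtain ⟨i, hi, rfl⟩ := h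
      have d1 := hd.1
      have d2 := hd.2
      simp only [ee] at d1 d2
      have hlev : (i : ℤ) + 2 ≤ gI A B ρ c' := by
        rw [hG.le]
        refine ⟨by omega, by omega, ?_⟩
        intro q
        by_cases hq : q = l
        · subst hq
          have hne : c' ≠ ee A B ρ q (i + 1) := by
            intro he
            by_cases hij : i + 1 < j
            · exact h' ⟨i + 1, hij, he⟩
            · have : i + 1 = j := by omega
              subst this
              exact (mem_erase.1 hc').1 he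
          have hne' : ¬ (c'.1 = A q - ρ q - 1 + (i + 1) ∧ c'.2 = B q - ρ q - 1 + (i + 1)) := by
            rintro ⟨e1, e2⟩
            exact hne (Prod.ext e1 e2)
          have m1 := le_max_left ((c'.1 : ℤ) + 1 - A q) ((c'.2 : ℤ) + 1 - B q)
          have m2 := le_max_right ((c'.1 : ℤ) + 1 - A q) ((c'.2 : ℤ) + 1 - B q)
          omega
        · have := term_ne hL l q hq (i + 1) c' (by omega) (by omega)
          push_cast at this
          omega
      simp only [ee]
      omega
    · obtain ⟨i', _, rfl⟩ := h'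
      have h1 := hG.lt _ _ hd
      rw [gI_ee hL hG] at h1
      have h2 := hFL c hc h
      simp only [ee]
      omega
    · have h1 := hG.lt _ _ hd
      have h2 := hFL c hc h
      omega
  · intro q c hc c1 c2
    dsimp only
    split_ifs with h
    · obtain ⟨i, hi, rfl⟩ := h
      simp only [ee] at c1 c2 ⊢
      by_cases hq : q = l
      · subst hq
        omega
      · have h3 := term_ne hL l q hq i (ee A B ρ l i) (le_refl _) (le_refl _)
        have h4 : max (((ee A B ρ l i).1 : ℤ) + 1 - A q) (((ee A B ρ l i).2 : ℤ) + 1 - B q) ≤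
            0 := by
          apply max_le
          · simp only [ee]; omega
          · simp only [ee]; omega
        omega
    · have := hG.rect q c c1 c2
      omega

end XLLRHO

open XLLRHO in
theorem I_LRHO (hLGF : St_LGF) : St_LRHO := by
  intro Q _ A B ρ hL l
  classical
  have hG : GF A B ρ := hLGF Q A B ρ
  have h1 : ((range (ρ l + 1)).image (Fj A B ρ l)).card = ρ l + 1 := by
    rw [card_image_of_injOn, card_range]
    intro i hi j _ h
    have hi' : i ≤ ρ l := by
      have := mem_range.1 (mem_coe.1 hi)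
      omega
    exact Fj_inj hL hG l hi' h
  rw [← h1]
  unfold NG
  apply card_le_card
  intro F hF
  obtain ⟨j, hj, rfl⟩ := mem_image.1 hF
  have hj' : j ≤ ρ l := by
    have := mem_range.1 hj
    omega
  refine mem_filter.2 ⟨mem_powerset.2 (Fj_sub hL l j), Fj_good hL hG l j hj', ?_⟩
  exact Fj_card hL hG l j hj'

end Pool.Agent.COV
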