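import Pool.Agent.Work.MP_1c6e58_ag.COV.StmtsL

/-!
MP_1c6e58_ag, project COV: `2 ^ τ` largest good sets.
-/

set_option autoImplicit false

open Finset

namespace Pool.Agent.COV

open Pool.Agent.SH

namespace XLLTWO

variable {Q : Type}

/-- The corner cell of `q`. -/
def cr (A B ρ : Q → ℕ) (q : Q) : ℕ × ℕ := (A q - ρ q, B q - ρ q)

theorem dich {A B ρ : Q → ℕ} (h : Ladd A B ρ) {q l : Q} (hne : q ≠ l) :
    A q - ρ q < A l - ρ l ∨ B q - ρ q < B l - ρ l := by
  rcases h.ord q l hne with h1 | h1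
  · exact Or.inr h1.2.2.2
  · exact Or.inl h1.2.2.1

theorem cr_inj {A B ρ : Q → ℕ} (h : Ladd A B ρ) : Function.Injective (cr A B ρ) := by
  intro q l hql
  by_contra hne
  have h1 : A q - ρ q = A l - ρ l := congrArg Prod.fst hql
  have h2 : B q - ρ q = B l - ρ l := congrArg Prod.snd hql
  rcases dich h hne with h3 | h3 <;> omega

theorem term_ge {A B ρ : Q → ℕ} (h : Ladd A B ρ) (l q : Q) (c : ℕ × ℕ)
    (hc1 : A l - ρ l ≤ c.1) (hc2 : B l - ρ l ≤ c.2) (hne : q ≠ l) :
    (2 : ℤ) ≤ (ρ q : ℤ) + max ((c.1 : ℤ) + 1 - A q) ((c.2 : ℤ) + 1 - B q) := by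
  have hA := h.ltA q
  have hB := h.ltB q
  rcases dich h hne with h3 | h3
  · have : (2 : ℤ) - ρ q ≤ (c.1 : ℤ) + 1 - A q := by omega
    have := le_max_of_le_left (b := (c.1 : ℤ) + 1 - A q) (c := (c.2 : ℤ) + 1 - B q) this
    omega
  · have : (2 : ℤ) - ρ q ≤ (c.2 : ℤ) + 1 - B q := by omega
    have := le_max_of_le_right (b := (c.1 : ℤ) + 1 - A q) (c := (c.2 : ℤ) + 1 - B q) this
    omega

theorem term_self {A B ρ : Q → ℕ} (h : Ladd A B ρ) (l : Q) :
    (ρ l : ℤ) + max (((cr A B ρ l).1 : ℤ) + 1 - A l) (((cr A B ρ l).2 : ℤ) + 1 - B l) = 1 := by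
  have hA := h.ltA l
  have hB := h.ltB l
  have e1 : ((cr A B ρ l).1 : ℤ) + 1 - A l = 1 - ρ l := by simp only [cr]; omega
  have e2 : ((cr A B ρ l).2 : ℤ) + 1 - B l = 1 - ρ l := by simp only [cr]; omega
  rw [e1, e2, max_self]; ring

theorem gI_cr [Fintype Q] {A B ρ : Q → ℕ} (h : Ladd A B ρ) (hG : GF A B ρ) (l : Q) :
    gI A B ρ (cr A B ρ l) = 1 := by
  have hA := h.ltA l
  have hB := h.ltB l
  apply le_antisymm
  · by_contra hlt
    have h2 : (2 : ℤ) ≤ gI A B ρ (cr A B ρ l) := by omega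
    have := ((hG.le _ _).1 h2).2.2 l
    rw [term_self h l] at this
    omega
  · rw [hG.le]
    refine ⟨?_, ?_, fun q => ?_⟩
    · have : (0 : ℤ) ≤ ((cr A B ρ l).1 : ℤ) := by positivity
      omega
    · have : (0 : ℤ) ≤ ((cr A B ρ l).2 : ℤ) := by positivity
      omega
    · by_cases hq : q = l
      · subst hq; rw [term_self h q]
      · have := term_ge h l q (cr A B ρ l) le_rfl le_rfl hq
        omega

end XLLTWO

open XLLTWO in
theorem I_LTWO (hLGF : St_LGF) (hLMOD : St_LMOD) : St_LTWO := by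
  classical
  intro Q _ A B ρ h
  have hG := hLGF Q A B ρ
  have hmod : ∀ S ⊆ univ.filter (fun q => 1 ≤ ρ q),
      GoodF A B ρ (mdf A B ρ (S.image (cr A B ρ))) ∧
      (mdf A B ρ (S.image (cr A B ρ))).card = (FL A B ρ).card ∧
      mdf A B ρ (S.image (cr A B ρ)) ⊆ YF A B ∧
      FL A B ρ \ mdf A B ρ (S.image (cr A B ρ)) = S.image (cr A B ρ) := by
    intro S hS
    apply hLMOD
    · intro r hr
      obtain ⟨l, hl, rfl⟩ := mem_image.1 hr
      have hl1 : 1 ≤ ρ l := (mem_filter.1 (hS hl)).2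
      have hA := h.ltA l
      have hB := h.ltB l
      have hg := gI_cr h hG l
      refine ⟨?_, ?_, ?_, hg, ?_⟩
      · simp only [cr]; omega
      · simp only [cr]; omega
      · unfold FL YF
        rw [mem_filter, mem_biUnion]
        refine ⟨⟨l, mem_univ _, ?_⟩, hg.ge⟩
        rw [mem_product, mem_range, mem_range]
        simp only [cr]; omega
      · intro q hq0 hlt
        have hne : q ≠ l := by rintro rfl; omega
        simp only [cr] at hlt
        rcases dich h hne with h3 | h3 <;> omega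
    · intro r hr c _ hcR h1 h2
      obtain ⟨l, hl, rfl⟩ := mem_image.1 hr
      have hl1 : 1 ≤ ρ l := (mem_filter.1 (hS hl)).2
      have hA := h.ltA l
      have hB := h.ltB l
      have hne : c ≠ cr A B ρ l := by
        rintro rfl; exact hcR hr
      have hc : A l - ρ l + 1 ≤ c.1 ∨ B l - ρ l + 1 ≤ c.2 := by
        by_contra hcon
        push Not at hcon
        apply hne
        simp only [cr] at h1 h2
        have e1 : c.1 = A l - ρ l := by omega
        have e2 : c.2 = B l - ρ l := by omega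
        exact Prod.ext e1 e2
      simp only [cr] at h1 h2
      rw [hG.le]
      refine ⟨by omega, by omega, fun q => ?_⟩
      by_cases hq : q = l
      · subst hq
        rcases hc with hc | hc
        · have : (2 : ℤ) - ρ q ≤ (c.1 : ℤ) + 1 - A q := by omega
          have := le_max_of_le_left (b := (c.1 : ℤ) + 1 - A q) (c := (c.2 : ℤ) + 1 - B q) this
          omega
        · have : (2 : ℤ) - ρ q ≤ (c.2 : ℤ) + 1 - B q := by omega
          have := le_max_of_le_right (b := (c.1 : ℤ) + 1 - A q) (c := (c.2 : ℤ) + 1 - B q) this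
          omega
      · exact term_ge h l q c h1 h2 hq
  rw [← card_powerset]
  unfold NG
  refine card_le_card_of_injOn (fun S => mdf A B ρ (S.image (cr A B ρ))) ?_ ?_
  · intro S hS
    have hS' : S ⊆ univ.filter (fun q => 1 ≤ ρ q) := mem_powerset.1 (mem_coe.1 hS)
    obtain ⟨g1, g2, g3, _⟩ := hmod S hS'
    simp only [coe_filter, Set.mem_ofPred_eq, mem_powerset]
    exact ⟨g3, g1, g2⟩
  · intro S hS S' hS' he
    have hS1 : S ⊆ univ.filter (fun q => 1 ≤ ρ q) := mem_powerset.1 (mem_coe.1 hS)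
    have hS2 : S' ⊆ univ.filter (fun q => 1 ≤ ρ q) := mem_powerset.1 (mem_coe.1 hS')
    have g1 := (hmod S hS1).2.2.2
    have g2 := (hmod S' hS2).2.2.2
    have he' : mdf A B ρ (S.image (cr A B ρ)) = mdf A B ρ (S'.image (cr A B ρ)) := he
    rw [he'] at g1
    exact image_injective (cr_inj h) (g1.symm.trans g2)

end Pool.Agent.COV
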