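import Pool.Agent.Work.MP_1c6e58_ag.COV.StmtsL

/-!
MP_1c6e58_ag, project COV, item LUPP: exponents with bad support are lowest exponents.
-/

set_option autoImplicit false

open Finset

namespace Pool.Agent.COV

open Pool.Agent.SH

namespace XLLUPP

theorem sum_single_le {σ : Type} (α : σ →₀ ℕ) (N : ℕ) (s : Fin N → σ)
    (hinj : Function.Injective s) (hs : ∀ i, s i ∈ α.support) :
    (∑ i, Finsupp.single (s i) 1) ≤ α := by
  classical
  intro c
  rw [Finsupp.finset_sum_apply]
  by_cases hc : ∃ i, s i = c
  · obtain ⟨i, rfl⟩ := hc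
    rw [Finset.sum_eq_single i]
    · rw [Finsupp.single_eq_same]
      exact Nat.one_le_iff_ne_zero.mpr (Finsupp.mem_support_iff.mp (hs i))
    · intro j _ hj
      rw [Finsupp.single_apply, if_neg]
      intro h
      exact hj (hinj h)
    · intro h
      exact absurd (Finset.mem_univ i) h
  · rw [Finset.sum_eq_zero]
    · exact Nat.zero_le _
    · intro i _
      rw [Finsupp.single_apply, if_neg]
      intro h
      exact hc ⟨i, h⟩

end XLLUPP

theorem I_LUPP (hLLEV : St_LLEV) (hLMIN : St_LMIN) (hUP : St_UP) : St_LUPP := by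
  intro Q _ A B ρ o ho α hα
  haveI : Finite (LCell A B) := LCell_finite A B
  letI : Fintype (LCell A B) := Fintype.ofFinite _
  obtain ⟨q, s, hs1, hs2, hs3⟩ := hLLEV Q A B ρ (cells α) (by
    intro c hc
    unfold cells at hc
    rw [Finset.mem_map] at hc
    obtain ⟨x, _, rfl⟩ := hc
    exact x.2) hα
  have hx : ∀ i, ∃ x : LCell A B, x ∈ α.support ∧ x.1 = s i := by
    intro i
    have h := hs1 i
    unfold cells at h
    rw [Finset.mem_map] at h
    obtain ⟨x, hx, hx'⟩ := h
    exact ⟨x, hx, hx'⟩
  choose s' h1 h2 using hx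
  have hlt : ∀ i j, i < j → dlt (s' i).1 (s' j).1 := by
    intro i j hij
    rw [h2 i, h2 j]
    exact hs2 i j hij
  have hmem := hLMIN Q A B ρ o ho q s' hlt (by
    intro i
    rw [h2 i]
    exact hs3 i)
  have hinj : Function.Injective s' := by
    intro i j hij
    by_contra hne
    rcases lt_or_gt_of_ne hne with h | h
    · have h3 := (hlt i j h).1
      rw [hij] at h3
      exact lt_irrefl _ h3
    · have h3 := (hlt j i h).1
      rw [hij] at h3
      exact lt_irrefl _ h3
  have hle := XLLUPP.sum_single_le α (ρ q + 1) s' hinj h1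
  have h3 := hUP (LCell A B) o _ _ (α - ∑ i, Finsupp.single (s' i) 1) hmem
  rw [add_tsub_cancel_of_le hle] at h3
  exact h3

end Pool.Agent.COV
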