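import Pool.Agent.Work.MP_1c6e58_ag.COV.StmtsL

/-!
MP_1c6e58_ag, project COV, ladder half: orders refining a weight.
-/

set_option autoImplicit false

open Finset

namespace Pool.Agent.COV

open Pool.Agent.SH

namespace XLORDW

variable {σ : Type}

theorem wsum_zero (w : σ → ℤ) : wsum w 0 = 0 := by
  unfold wsum
  exact Finsupp.sum_zero_index

theorem wsum_add (w : σ → ℤ) (α β : σ →₀ ℕ) : wsum w (α + β) = wsum w α + wsum w β := by
  unfold wsum
  refine Finsupp.sum_add_index' (fun c => by simp) (fun c m m' => ?_)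
  push_cast
  ring

/-- The map into the lexicographic product. -/
noncomputable def F (w : σ → ℤ) (o1 : LOrd σ) : (σ →₀ ℕ) →+ ℕ ×ₗ (ℤ ×ₗ o1.S) where
  toFun γ := toLex (γ.degree, toLex (wsum w γ, o1.f γ))
  map_zero' := by
    rw [wsum_zero]
    simp only [map_zero]
    rfl
  map_add' γ γ' := by
    rw [wsum_add]
    simp only [map_add]
    rfl

end XLORDW

theorem I_ORDW (hORD : St_ORD) : St_ORDW := by
  intro σ _ w
  obtain ⟨o1⟩ := hORD σ
  refine ⟨{ S := ℕ ×ₗ (ℤ ×ₗ o1.S), f := XLORDW.F w o1, inj := ?_, deg := ?_ }, ?_⟩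
  · intro γ γ' h
    have h1 : (γ.degree, toLex (wsum w γ, o1.f γ)) =
        (γ'.degree, toLex (wsum w γ', o1.f γ')) := toLex.injective h
    have h2 := (Prod.mk.inj h1).2
    have h3 : (wsum w γ, o1.f γ) = (wsum w γ', o1.f γ') := toLex.injective h2
    exact o1.inj (Prod.mk.inj h3).2
  · intro γ γ' h
    show toLex (γ.degree, toLex (wsum w γ, o1.f γ)) <
      toLex (γ'.degree, toLex (wsum w γ', o1.f γ'))
    rw [Prod.Lex.toLex_lt_toLex]
    exact Or.inl h
  · intro α β h h'
    show toLex (α.degree, toLex (wsum w α, o1.f α)) <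
      toLex (β.degree, toLex (wsum w β, o1.f β))
    rw [Prod.Lex.toLex_lt_toLex]
    refine Or.inr ⟨h, ?_⟩
    rw [Prod.Lex.toLex_lt_toLex]
    exact Or.inl h'

end Pool.Agent.COV
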