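import Pool.Agent.Work.MP_1c6e58_ag.COV.Stmts

set_option autoImplicit false

open Finset

namespace Pool.Agent.COV

open Pool.Agent.SH

theorem I_COVM (hESS : St_ESS) (hBND : St_BND) (hTYPE1 : St_TYPE1) : St_COVM := by
  intro k A hk hv
  obtain ⟨T, hT⟩ := hESS A.n A.v hv
  rcases hBND k A T hk hT with ⟨t0, ht0, h1, h2⟩ | h
  · exact Or.inl (hTYPE1 k A T hk hT t0 ht0 h1 h2)
  · exact Or.inr h

end Pool.Agent.COV
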