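import Pool.Agent.Work.MP_1c6e58_ag.COV.Stmts

/-!
Item COV LESS: smaller intervals have multiplicity less than `k`.
-/

set_option autoImplicit false
set_option linter.unusedVariables false

open Finset

namespace Pool.Agent.COV

open Pool.Agent.SH

theorem I_LESS (hRKB : St_RKB) (hMEET : St_MEET) (hLB : St_LB) (hMQM : SH.St_MQM) :
    St_LESS := by
  intro k A T s hmin hE hs hlt hcomp
  obtain ⟨n, u, v, hle⟩ := A
  simp only at hE hs hlt hcomp ⊢
  obtain ⟨u', h1, h2, h3⟩ := hMEET n u v T s hle hE hs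
  have hval : ∀ t ∈ T, rkN u' t.1 t.2 = s t := by
    intro t ht
    have hb := hE.bd t ht
    rw [h3 t.1 t.2 hb.2.1.le hb.2.2.2.le]
    apply le_antisymm
    · apply max_le (hs t ht).1
      apply Finset.sup_le
      intro t' ht'
      exact hcomp t ht t' ht'
    · apply le_trans _ (le_max_right _ _)
      have h4 := Finset.le_sup (f := fun t' : ℕ × ℕ => s t' - (t'.1 - t.1) - (t'.2 - t.2)) ht
      simpa using h4
  obtain ⟨d, e, hMQ, hLBd⟩ := hLB n u' v T s hE h2 hval
  refine ⟨e, ?_, hLBd⟩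
  by_contra hk
  push Not at hk
  have hIn : InI k ⟨n, u', v, h2⟩ := ⟨e, hk, hMQM _ _ d e hMQ⟩
  have hPrec : Prec ⟨n, u', v, h2⟩ ⟨n, u, v, hle⟩ :=
    Relation.ReflTransGen.single (Or.inr ⟨n, u', u, v, h2, hle, h1, rfl, rfl⟩)
  have heq := hmin.2 _ hIn hPrec
  have hu : u' = u := by
    injection heq
  obtain ⟨t, ht, hlt'⟩ := hlt
  rw [← hval t ht, hu] at hlt'
  exact lt_irrefl _ hlt'

end Pool.Agent.COV
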