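import Pool.Agent.Work.MP_1c6e58_ag.COV.Stmts

set_option autoImplicit false

open Finset

namespace Pool.Agent.COV

open Pool.Agent.SH

namespace XNEST

/-- The predecessors of `i` in the order by `(k, i)`. -/
def pred {n : ℕ} (k : Fin n → ℕ) (i : Fin n) : Finset (Fin n) :=
  Finset.univ.filter fun j => k j < k i ∨ (k j = k i ∧ j < i)

theorem mem_pred {n : ℕ} (k : Fin n → ℕ) (i j : Fin n) :
    j ∈ pred k i ↔ (k j < k i ∨ (k j = k i ∧ j < i)) := by
  simp [pred]

theorem not_mem_self {n : ℕ} (k : Fin n → ℕ) (i : Fin n) : i ∉ pred k i := by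
  rw [mem_pred]
  rintro (h | ⟨_, h⟩)
  · exact lt_irrefl _ h
  · exact lt_irrefl _ h

theorem pred_lt {n : ℕ} (k : Fin n → ℕ) (i j : Fin n) (h : j ∈ pred k i) :
    (pred k j).card < (pred k i).card := by
  apply Finset.card_lt_card
  rw [Finset.ssubset_iff_of_subset]
  · exact ⟨j, h, not_mem_self k j⟩
  · intro l hl
    rw [mem_pred] at hl h ⊢
    rcases h with h | ⟨h, h'⟩
    · left
      rcases hl with hl | ⟨hl, _⟩ <;> omega
    · rcases hl with hl | ⟨hl, hl'⟩
      · left; omega
      · right; exact ⟨by omega, lt_trans hl' h'⟩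

theorem inj {n : ℕ} (k : Fin n → ℕ) : Function.Injective fun i => (pred k i).card := by
  intro i j hij
  by_contra hne
  have h : i ∈ pred k j ∨ j ∈ pred k i := by
    rw [mem_pred, mem_pred]
    rcases lt_trichotomy (k i) (k j) with h | h | h
    · exact Or.inl (Or.inl h)
    · rcases lt_or_gt_of_ne hne with h' | h'
      · exact Or.inl (Or.inr ⟨h, h'⟩)
      · exact Or.inr (Or.inr ⟨h.symm, h'⟩)
    · exact Or.inr (Or.inl h)
  have hij' : (pred k i).card = (pred k j).card := hij
  rcases h with h | h
  · have := pred_lt k j i h; omega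
  · have := pred_lt k i j h; omega

end XNEST

open XNEST in
theorem I_NEST : St_NEST := by
  classical
  intro n Q _ F hF
  set k : Fin n → ℕ := fun i => (Finset.univ.filter fun q => i ∉ F q).card with hk
  have key : ∀ q i i', i ∈ F q → i' ∉ F q → k i < k i' := by
    intro q i i' hi hi'
    apply Finset.card_lt_card
    rw [Finset.ssubset_iff_of_subset]
    · exact ⟨q, by simp [hi'], by simp [hi]⟩
    · intro q' hq'
      simp only [Finset.mem_filter, Finset.mem_univ, true_and] at hq' ⊢
      rcases hF q q' with h | h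
      · exact absurd (h hi) hq'
      · exact fun hc => hi' (h hc)
  refine ⟨fun i => (pred k i).card, inj k, ?_⟩
  intro q i
  constructor
  · intro hi
    apply Finset.card_lt_card
    rw [Finset.ssubset_iff_of_subset]
    · exact ⟨i, hi, not_mem_self k i⟩
    · intro j hj
      by_contra hjF
      have h1 := key q i j hi hjF
      rw [mem_pred] at hj
      rcases hj with hj | ⟨hj, _⟩ <;> omega
  · intro hlt
    by_contra hi
    have hsub : F q ⊆ pred k i := by
      intro j hj
      rw [mem_pred]
      exact Or.inl (key q j i hj hi)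
    have := Finset.card_le_card hsub
    have hlt' : (pred k i).card < (F q).card := hlt
    omega

end Pool.Agent.COV
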