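import Pool.Agent.Work.MP_1c6e58_ag.COV.Stmts

/-!
MP_1c6e58_ag, project COV: kernels and factorizations.
-/

set_option autoImplicit false

open Finset

namespace Pool.Agent.COV

open Pool.Agent.SH

namespace XRANKF

/-- Factorization of a linear map through a space of dimension at least the rank. -/
theorem fac {A B : Type} [Fintype A] [Fintype B] (L : (B → ℂ) →ₗ[ℂ] (A → ℂ))
    (m : ℕ) (h : Module.finrank ℂ (LinearMap.range L) ≤ m) :
    ∃ (F : (Fin m → ℂ) →ₗ[ℂ] (A → ℂ)) (G : (B → ℂ) →ₗ[ℂ] (Fin m → ℂ)), ∀ c, L c = F (G c) := by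
  set K := LinearMap.range L with hK
  set k := Module.finrank ℂ K with hk
  let e : K ≃ₗ[ℂ] (Fin k → ℂ) := (Module.finBasis ℂ K).equivFun
  have hP : Function.Surjective (LinearMap.funLeft ℂ ℂ (Fin.castLE h)) :=
    LinearMap.funLeft_surjective_of_injective ℂ ℂ _ (Fin.castLE_injective h)
  let Q : (Fin m → ℂ) →ₗ[ℂ] K := e.symm.toLinearMap ∘ₗ LinearMap.funLeft ℂ ℂ (Fin.castLE h)
  have hQ : LinearMap.range Q = ⊤ := by
    rw [LinearMap.range_eq_top]
    exact e.symm.surjective.comp hP
  obtain ⟨R, hR⟩ := Q.exists_rightInverse_of_surjective hQ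
  refine ⟨K.subtype ∘ₗ Q, R ∘ₗ L.rangeRestrict, ?_⟩
  intro c
  have h1 := LinearMap.congr_fun hR (L.rangeRestrict c)
  simp only [LinearMap.comp_apply, LinearMap.id_apply] at h1
  simp only [LinearMap.comp_apply]
  rw [h1]
  rfl

/-- The values of a linear map on a finite power. -/
theorem expand {A : Type} {m : ℕ} (F : (Fin m → ℂ) →ₗ[ℂ] (A → ℂ)) (x : Fin m → ℂ) (i : A) :
    F x i = ∑ l, F (Pi.single l 1) i * x l := by
  conv_lhs => rw [pi_eq_sum_univ' x]
  rw [map_sum, Finset.sum_apply]
  refine Finset.sum_congr rfl fun l _ => ?_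
  rw [map_smul, Pi.smul_apply, smul_eq_mul, mul_comm]

variable {n : ℕ} (u : Equiv.Perm (Fin n)) (t : ℕ × ℕ) (M : Fin n → Fin n → ℂ)

local instance : DecidablePred (tB u t) := fun _ => by unfold tB; infer_instance

local instance : DecidablePred (tA u t) := fun _ => by unfold tA; infer_instance

/-- The submatrix as a linear map. -/
noncomputable def LM : ({j // tB u t j} → ℂ) →ₗ[ℂ] ({i // tA u t i} → ℂ) :=
  (Matrix.of fun (i : {i // tA u t i}) (j : {j // tB u t j}) => M i.1 j.1).mulVecLin

theorem LM_apply (c : {j // tB u t j} → ℂ) (i : {i // tA u t i}) :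
    LM u t M c i = ∑ j : {j // tB u t j}, M i.1 j.1 * c j := by
  unfold LM
  rw [Matrix.mulVecLin_apply]
  simp only [Matrix.mulVec, dotProduct, Matrix.of_apply]

theorem sum_sub {f : Fin n → ℂ} (hf : ∀ j, ¬ tB u t j → f j = 0) :
    ∑ j, f j = ∑ j : {j // tB u t j}, f j.1 := by
  rw [← Finset.sum_subset (Finset.filter_subset (tB u t) univ)]
  · exact Finset.sum_subtype _ (by simp) f
  · intro x _ hx
    exact hf x (by simpa using hx)

/-- The kernel as a subspace of a smaller space. -/
noncomputable def eqv : KerAB u t M ≃ₗ[ℂ] LinearMap.ker (LM u t M) where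
  toFun c := ⟨fun j => c.1 j.1, by
    rw [LinearMap.mem_ker]
    funext i
    rw [LM_apply, ← sum_sub u t (f := fun j => M i.1 j * c.1 j)
      (fun j hj => by rw [c.2.1 j hj, mul_zero])]
    exact c.2.2 i.1 i.2⟩
  map_add' _ _ := rfl
  map_smul' _ _ := rfl
  invFun c := ⟨fun j => if h : tB u t j then c.1 ⟨j, h⟩ else 0, by
    refine ⟨fun j hj => dif_neg hj, fun i hi => ?_⟩
    rw [sum_sub u t (fun j hj => by simp only [dif_neg hj, mul_zero])]
    have h1 := congrFun (LinearMap.mem_ker.mp c.2) ⟨i, hi⟩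
    rw [LM_apply, Pi.zero_apply] at h1
    refine Eq.trans (Finset.sum_congr rfl fun j _ => ?_) h1
    simp only [dif_pos j.2]⟩
  left_inv c := by
    refine Subtype.ext ?_
    funext j
    by_cases hj : tB u t j
    · simp only [dif_pos hj]
    · simp only [dif_neg hj, c.2.1 j hj]
  right_inv c := by
    refine Subtype.ext ?_
    funext j
    simp only [dif_pos j.2]

theorem cardB : Fintype.card {j // tB u t j} = rkN u t.1 t.2 := by
  rw [Fintype.card_subtype]
  rfl

theorem rn : Module.finrank ℂ (LinearMap.range (LM u t M)) + Module.finrank ℂ (KerAB u t M) =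
    rkN u t.1 t.2 := by
  rw [(eqv u t M).finrank_eq, LinearMap.finrank_range_add_finrank_ker,
    Module.finrank_fintype_fun_eq_card, cardB]

theorem main : St_RANKF := by
  intro n u t M r hr
  constructor
  · intro h
    have h1 := rn u t M
    obtain ⟨F, G, hFG⟩ := fac (LM u t M) (rkN u t.1 t.2 - r) (by omega)
    refine ⟨fun l i => if h : tA u t i then F (Pi.single l 1) ⟨i, h⟩ else 0,
      fun l j => if h : tB u t j then G (Pi.single ⟨j, h⟩ 1) l else 0, ?_⟩
    intro i j hi hj
    have h2 : LM u t M (Pi.single ⟨j, hj⟩ 1) ⟨i, hi⟩ = M i j := by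
      rw [LM_apply, Finset.sum_eq_single ⟨j, hj⟩]
      · simp
      · intro b _ hb
        rw [Pi.single_eq_of_ne hb, mul_zero]
      · intro h; exact absurd (Finset.mem_univ _) h
    rw [← h2, hFG, expand]
    refine Finset.sum_congr rfl fun l _ => ?_
    simp only [dif_pos hi, dif_pos hj]
  · rintro ⟨f, g, hfg⟩
    let G : ({j // tB u t j} → ℂ) →ₗ[ℂ] (Fin (rkN u t.1 t.2 - r) → ℂ) :=
      (Matrix.of fun (l : Fin (rkN u t.1 t.2 - r)) (j : {j // tB u t j}) => g l j.1).mulVecLin
    have hker : LinearMap.ker G ≤ LinearMap.ker (LM u t M) := by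
      intro c hc
      rw [LinearMap.mem_ker] at hc ⊢
      funext i
      rw [LM_apply]
      have h1 : ∀ l, ∑ j : {j // tB u t j}, g l j.1 * c j = 0 := by
        intro l
        have := congrFun hc l
        simpa only [G, Matrix.mulVecLin_apply, Matrix.mulVec, dotProduct, Matrix.of_apply,
          Pi.zero_apply] using this
      have h2 : ∀ j : {j // tB u t j}, M i.1 j.1 * c j = ∑ l, f l i.1 * (g l j.1 * c j) := by
        intro j
        rw [hfg i.1 j.1 i.2 j.2, Finset.sum_mul]
        exact Finset.sum_congr rfl fun l _ => by ring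
      simp only [h2]
      rw [Finset.sum_comm]
      simp only [← Finset.mul_sum, h1, mul_zero, Finset.sum_const_zero, Pi.zero_apply]
    have h3 := Submodule.finrank_mono hker
    rw [← (eqv u t M).finrank_eq] at h3
    have h4 := LinearMap.finrank_range_add_finrank_ker G
    rw [Module.finrank_fintype_fun_eq_card, cardB] at h4
    have h5 : Module.finrank ℂ (LinearMap.range G) ≤ rkN u t.1 t.2 - r := by
      have := Submodule.finrank_le (LinearMap.range G)
      rwa [Module.finrank_fintype_fun_eq_card, Fintype.card_fin] at this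
    omega

end XRANKF

theorem I_RANKF (_hRKB : St_RKB) : St_RANKF := XRANKF.main

end Pool.Agent.COV
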