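import Pool.Agent.Work.MP_1c6e58_ag.COV.Stmts2
import Pool.Agent.Work.MP_1c6e58_ag.SH.P_SHEQ

/-!
MP_1c6e58_ag, project COV, item IMIN: minimality of family I.
-/

set_option autoImplicit false

open Finset

namespace Pool.Agent.COV

open Pool.Agent.SH

namespace XQIMIN

/-- An embedding without fixed positions outside of its range is the identity. -/
theorem eq_of_emb (A B : Itv) (hE : Emb B A) (hne : ∀ j, A.u j ≠ A.v j) : B = A := by
  obtain ⟨φ, hv, hu, hoff, -⟩ := hE
  have hsurj : Function.Surjective φ := by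
    intro i
    by_contra hi
    exact hne i (hoff i hi)
  have hn : B.n = A.n := by
    have := Fintype.card_of_bijective ⟨φ.injective, hsurj⟩
    simpa using this
  obtain ⟨n, uA, vA, lA⟩ := A
  obtain ⟨n', uB, vB, lB⟩ := B
  simp only at hn
  subst hn
  have hid := XSHEQ.emb_id φ
  have hvv : vA = vB := by
    apply XSHEQ.perm_eq
    intro j k
    have := hv j k
    simp only [hid] at this
    exact this
  subst hvv
  have huu : uA = uB := by
    ext j
    have := hu j
    simp only [hid] at this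
    rw [this, Equiv.apply_symm_apply]
  subst huu
  rfl

end XQIMIN

open XQIMIN in
theorem I_IMIN (hRKB : St_RKB) (hIFACT : St_IFACT) (hEMBM : St_EMBM) (hSM1 : St_SM1)
    (hMQM : St_MQM) (hEXM : St_EXM) (hBELOW : St_BELOW) (hBPO : St_BPO) : St_IMIN := by
  intro a b k A hA
  obtain ⟨-, hess, hru, hrv, hne⟩ := hIFACT a b A hA
  obtain ⟨ha, hb, hn, -, -⟩ := hA
  constructor
  · intro hm
    refine ⟨?_, hm.1⟩
    by_contra hk
    have hk1 : k ≤ 1 := by omega
    obtain ⟨-, e, he0, heM, -⟩ := hEXM ⟨A.n, A.v, A.v, (hBPO A.n).1 A.v⟩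
    have hB := hm.2 ⟨A.n, A.v, A.v, (hBPO A.n).1 A.v⟩ ⟨e, by omega, heM⟩
      (Relation.ReflTransGen.single (Or.inr
        ⟨A.n, A.v, A.u, A.v, (hBPO A.n).1 A.v, A.le, A.le, rfl, rfl⟩))
    clear heM hm hess hru hrv
    obtain ⟨n, u, v, le⟩ := A
    simp only [Itv.mk.injEq, heq_eq_eq, true_and, and_true] at hB
    simp only at hn
    subst hB
    exact hne ⟨0, by simp only; omega⟩ rfl
  · rintro ⟨hk, hI⟩
    refine ⟨hI, ?_⟩
    intro B hB hPrec
    obtain ⟨u', h, hAu, hE⟩ := (hBELOW A B).1 hPrec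
    obtain ⟨e1, hke1, he1⟩ := hB
    obtain ⟨-, eB, -, -, hBu⟩ := hEXM B
    obtain ⟨-, e, he0, heM, heU⟩ := hEXM ⟨A.n, u', A.v, h⟩
    have h1 : e = eB := hBu e (hEMBM _ _ hE e heM)
    have h2 : e1 = eB := hBu e1 he1
    have he2 : 2 ≤ e := by omega
    have hF : RkF u' := (hRKB A.n).1 u'
    have hr1 : ∀ α β, rkN u' α β ≤ rkN A.u α β := ((hRKB A.n).2.1 A.u u').1 hAu
    have hr2 : ∀ α β, rkN A.v α β ≤ rkN u' α β := ((hRKB A.n).2.1 u' A.v).1 h
    have hpn : a + 1 ≤ A.n := by omega
    have hpu : rkN A.u (a + 1) (a + 1) = a + 1 := by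
      rw [hru _ _ hpn hpn]
      unfold fI
      omega
    have hpv : rkN A.v (a + 1) (a + 1) = a := by
      rw [hrv _ _ hpn hpn]
      unfold fI
      omega
    have h3 := hr1 (a + 1) (a + 1)
    have h4 := hr2 (a + 1) (a + 1)
    rw [hpu] at h3
    rw [hpv] at h4
    have h5 : rkN u' (a + 1) (a + 1) = a + 1 := by
      by_contra h6
      have h7 : rkN u' (a + 1) (a + 1) = a := by omega
      obtain ⟨d, hd⟩ := hSM1 A.n u' A.v {(a + 1, a + 1)} hess h (by
        intro t ht
        rw [Finset.mem_singleton] at ht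
        subst ht
        simp only
        rw [h7, hpv])
      have h8 : MultAt ⟨A.n, u', A.v, h⟩ 1 := hMQM _ _ d 1 hd
      have h9 := heU 1 h8
      omega
    have h10 : u' = A.u := by
      apply (hRKB A.n).2.2 u' A.u
      intro α β hα hβ
      apply le_antisymm (hr1 α β)
      rw [hru α β hα hβ]
      unfold fI
      have h11 := hF.low α β hα hβ
      have h12 := hF.lip α (a + 1) β (a + 1)
      rw [h5] at h12
      omega
    subst h10
    exact eq_of_emb A B hE hne

end Pool.Agent.COV
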