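import Pool.Agent.Work.MP_1c6e58_ag.COV.Defs

/-!
MP_1c6e58_ag, project COV: the statement of the ladder half (captain helper41).
-/

set_option autoImplicit false

namespace Pool.Agent.COV

open Pool.Agent.SH

/-- The ladder theorem. -/
def St_LADM : Prop := ∀ (Q : Type) [Fintype Q] (A B ρ : Q → ℕ), Ladd A B ρ →
  ∃ d e : ℕ, MQ (Zlad A B ρ) d e ∧ LadBd A B ρ e

end Pool.Agent.COV
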