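import Pool.Agent.Work.MP_1c6e58_ag.COV.Defs2
import Pool.Agent.Work.MP_1c6e58_ag.COV.StLADM
import Pool.Agent.Work.MP_1c6e58_ag.SH.Stmts

/-!
MP_1c6e58_ag, project COV: statements of the items (permutation and chart half).
-/

set_option autoImplicit false

open Finset

namespace Pool.Agent.COV

open Pool.Agent.SH

/-- The componentwise order on conditions. -/
def tle (s t : ℕ × ℕ) : Prop := s.1 ≤ t.1 ∧ s.2 ≤ t.2

/-- The set H at `t` as a finset. -/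
noncomputable def HH {n : ℕ} (u : Equiv.Perm (Fin n)) (t : ℕ × ℕ) : Finset (Fin n) := by
  classical exact univ.filter (fun h => tH u t h)

/-- The matrix of the condition `t` alone. -/
noncomputable def PM {n : ℕ} {R : Type} [CommRing R] (u : Equiv.Perm (Fin n)) (t : ℕ × ℕ)
    (U : Fin n → Fin n → R) (i j : Fin n) : R :=
  ∑ k, U i k * cv U (HH u t) j k

/-- The height of a coordinate. -/
def ht {n : ℕ} (c : Co n) : ℕ := (c.1.1 : ℕ) - (c.1.2 : ℕ)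

/-- The positions `j` for which `t` is the largest condition of `T` with `j` of type A. -/
noncomputable def JA {n : ℕ} (u : Equiv.Perm (Fin n)) (T : Finset (ℕ × ℕ)) (t : ℕ × ℕ) :
    Finset (Fin n) := by
  classical exact univ.filter (fun j => tA u t j ∧ ∀ t' ∈ T, tA u t' j → tle t' t)

/-- The positions `j` for which `t` is the smallest condition of `T` with `j` of type B. -/
noncomputable def JB {n : ℕ} (u : Equiv.Perm (Fin n)) (T : Finset (ℕ × ℕ)) (t : ℕ × ℕ) :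
    Finset (Fin n) := by
  classical exact univ.filter (fun j => tB u t j ∧ ∀ t' ∈ T, tB u t' j → tle t t')

/-! ### Block R: ranks -/

/-- RKB. Basic facts on rank functions. -/
def St_RKB : Prop := ∀ n : ℕ, (∀ w : Equiv.Perm (Fin n), RkF w) ∧
  (∀ x w : Equiv.Perm (Fin n), Br x w ↔ ∀ a b, rkN w a b ≤ rkN x a b) ∧
  (∀ x w : Equiv.Perm (Fin n), (∀ a b, a ≤ n → b ≤ n → rkN x a b = rkN w a b) → x = w)

/-- PRK. Permutations from rank functions. -/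
def St_PRK : Prop := ∀ (n : ℕ) (F : ℕ → ℕ → ℕ), (∀ b, b ≤ n → F 0 b = 0) →
  (∀ a, a ≤ n → F a 0 = 0) → (∀ b, b ≤ n → F n b = b) → (∀ a, a ≤ n → F a n = a) →
  (∀ a b, a < n → b < n → F (a + 1) b + F a (b + 1) ≤ F a b + F (a + 1) (b + 1)) →
  ∃ w : Equiv.Perm (Fin n), ∀ a b, a ≤ n → b ≤ n → rkN w a b = F a b

/-- ESS. The essential set of a 3412-avoiding permutation. -/
def St_ESS : Prop := ∀ (n : ℕ) (v : Equiv.Perm (Fin n)), Av3412 v → ∃ T, EssT v T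

/-- MEET. The largest element of an interval with given ranks. -/
def St_MEET : Prop := ∀ (n : ℕ) (u v : Equiv.Perm (Fin n)) (T : Finset (ℕ × ℕ)) (s : ℕ × ℕ → ℕ),
  Br u v → EssT v T → (∀ t ∈ T, rkN v t.1 t.2 ≤ s t ∧ s t ≤ rkN u t.1 t.2) →
  ∃ u' : Equiv.Perm (Fin n), Br u u' ∧ Br u' v ∧ ∀ a b, a ≤ n → b ≤ n →
    rkN u' a b = max (rkN v a b) (T.sup fun t => s t - (t.1 - a) - (t.2 - b))

/-! ### Block S: Schubert varieties through kernels -/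

/-- KNB. Basic facts on the spaces `KN`. -/
def St_KNB : Prop := ∀ (n : ℕ) (x : Equiv.Perm (Fin n)) (z : Co n → ℂ),
  (∀ a a' b b', a ≤ a' → b ≤ b' → KN x z a b ≤ KN x z a' b') ∧
  (∀ a a' b b', Module.finrank ℂ (KN x z a' b') ≤
    Module.finrank ℂ (KN x z a b) + (a' - a) + (b' - b)) ∧
  (∀ a b, a ≤ n → b ≤ n → a + b ≤ n + Module.finrank ℂ (KN x z a b)) ∧
  (∀ a b, Module.finrank ℂ (KN x z a b) ≤ rkN x a b) ∧
  (∀ w : Equiv.Perm (Fin n), z ∈ SV x w ↔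
    ∀ a b, a ≤ n → b ≤ n → rkN w a b ≤ Module.finrank ℂ (KN x z a b))

/-- SVT. The conditions in `T` suffice. -/
def St_SVT : Prop := ∀ (n : ℕ) (u v : Equiv.Perm (Fin n)) (T : Finset (ℕ × ℕ)), EssT v T →
  ∀ z, z ∈ SV u v ↔ ∀ t ∈ T, rkN v t.1 t.2 ≤ Module.finrank ℂ (KN u z t.1 t.2)

/-- UNITRI. Unitriangular changes of coordinates. -/
def St_UNITRI : Prop := ∀ (σ : Type) [Fintype σ] (hgt : σ → ℕ) (g : σ → MvPolynomial σ ℂ),
  (∀ c, MvPolynomial.constantCoeff (g c) = 0) →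
  (∀ c, g c ∈ MvPolynomial.supported ℂ {c' | hgt c' < hgt c}) →
  ∀ Z' : Set (σ → ℂ), HS {z : σ → ℂ | (fun c => z c + MvPolynomial.eval z (g c)) ∈ Z'} = HS Z'

/-! ### Block N: the matrix N -/

/-- CV. The vectors `cv`. -/
def St_CV : Prop := ∀ (n : ℕ) (R : Type) [CommRing R] (U : Fin n → Fin n → R)
  (S : Finset (Fin n)) (j : Fin n), LowUni U →
  cv U S j j = 1 ∧ (∀ k, k ≠ j → k ∉ S → cv U S j k = 0) ∧ (∀ k, k < j → cv U S j k = 0) ∧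
  (∀ h ∈ S, h ≠ j → ∑ k, U h k * cv U S j k = 0) ∧
  (∀ c : Fin n → R, c j = 1 → (∀ k, k ≠ j → k ∉ S → c k = 0) →
    (∀ h ∈ S, h ≠ j → ∑ k, U h k * c k = 0) → c = cv U S j)

/-- CVP. The entries of `N` are polynomials, unitriangular with respect to the height. -/
def St_CVP : Prop := ∀ (n : ℕ) (u : Equiv.Perm (Fin n)) (T : Finset (ℕ × ℕ)),
  (∀ (z : Co n → ℂ) (i j : Fin n),
    MvPolynomial.eval z (NM u T (UmP n) i j) = NM u T (Um z) i j) ∧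
  (∀ c : Co n, MvPolynomial.constantCoeff (NM u T (UmP n) c.1.1 c.1.2 - MvPolynomial.X c) = 0) ∧
  (∀ c : Co n, NM u T (UmP n) c.1.1 c.1.2 - MvPolynomial.X c ∈
    MvPolynomial.supported ℂ {c' | ht c' < ht c})

/-- KERP. The kernel for one condition. -/
def St_KERP : Prop := ∀ (n : ℕ) (u : Equiv.Perm (Fin n)) (z : Co n → ℂ) (t : ℕ × ℕ),
  Module.finrank ℂ (KN u z t.1 t.2) = Module.finrank ℂ (KerAB u t (PM u t (Um z)))

/-- KERN. The kernel through the common matrix. -/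
def St_KERN : Prop := ∀ (n : ℕ) (u : Equiv.Perm (Fin n)) (T : Finset (ℕ × ℕ)),
  (∀ s ∈ T, ∀ t ∈ T, tle s t ∨ tle t s) → ∀ (z : Co n → ℂ), ∀ t ∈ T,
  Module.finrank ℂ (KerAB u t (PM u t (Um z))) = Module.finrank ℂ (KerAB u t (NM u T (Um z)))

/-- RANKF. Kernels and factorizations. -/
def St_RANKF : Prop := ∀ (n : ℕ) (u : Equiv.Perm (Fin n)) (t : ℕ × ℕ) (M : Fin n → Fin n → ℂ)
  (r : ℕ), r ≤ rkN u t.1 t.2 → (r ≤ Module.finrank ℂ (KerAB u t M) ↔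
    ∃ f g : Fin (rkN u t.1 t.2 - r) → Fin n → ℂ, ∀ i j, tA u t i → tB u t j →
      M i j = ∑ l, f l i * g l j)

/-- NEST. Numbering of nested sets. -/
def St_NEST : Prop := ∀ (n : ℕ) (Q : Type) [Fintype Q] (F : Q → Finset (Fin n)),
  (∀ q q', F q ⊆ F q' ∨ F q' ⊆ F q) →
  ∃ ν : Fin n → ℕ, Function.Injective ν ∧ ∀ q i, i ∈ F q ↔ ν i < (F q).card

/-- LADC. From the ladder to the chart. -/
def St_LADC : Prop := ∀ (n : ℕ) (u : Equiv.Perm (Fin n)) (T : Finset (ℕ × ℕ)) (ρ : ℕ × ℕ → ℕ),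
  (∀ s ∈ T, ∀ t ∈ T, tle s t ∨ tle t s) → (∀ t ∈ T, t.1 ≤ n ∧ t.2 ≤ n) → ∀ d e,
  MQ (Zlad (fun t : {t : ℕ × ℕ // t ∈ T} => n + rkN u t.1.1 t.1.2 - t.1.1 - t.1.2)
    (fun t => rkN u t.1.1 t.1.2) (fun t => ρ t.1)) d e → ∃ d', MQ (Z1 u T ρ) d' e

/-- CHART. Schubert varieties in the chart and ladders. -/
def St_CHART : Prop := ∀ (n : ℕ) (u v : Equiv.Perm (Fin n)) (T : Finset (ℕ × ℕ)), EssT v T →
  Br u v → ∀ d e,
  MQ (Zlad (fun t : {t : ℕ × ℕ // t ∈ T} => n + rkN u t.1.1 t.1.2 - t.1.1 - t.1.2)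
    (fun t => rkN u t.1.1 t.1.2) (fun t => rkN u t.1.1 t.1.2 - rkN v t.1.1 t.1.2)) d e →
  ∃ d', MQ (SV u v) d' e

/-- LB. Lower bounds for the multiplicity. -/
def St_LB : Prop := ∀ (n : ℕ) (u v : Equiv.Perm (Fin n)) (T : Finset (ℕ × ℕ)) (s : ℕ × ℕ → ℕ),
  EssT v T → Br u v → (∀ t ∈ T, rkN u t.1 t.2 = s t) → ∃ d e, MQ (SV u v) d e ∧ LBd v T s e

/-- KEYI. The multiplicity depends only on the ranks on `T`. -/
def St_KEYI : Prop := ∀ (n : ℕ) (u u' v : Equiv.Perm (Fin n)) (T : Finset (ℕ × ℕ)),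
  EssT v T → Br u v → Br u' v → (∀ t ∈ T, rkN u t.1 t.2 = rkN u' t.1 t.2) →
  ∃ d d' e, MQ (SV u v) d e ∧ MQ (SV u' v) d' e

/-! ### Block D: deletion of a position -/

/-- SLK. The change of coordinates to the slice. -/
def St_SLK : Prop := ∀ (n : ℕ) (u : Equiv.Perm (Fin n)), ∃ g : Co n → MvPolynomial (Co n) ℂ,
  (∀ c, MvPolynomial.constantCoeff (g c) = 0) ∧
  (∀ c, g c ∈ MvPolynomial.supported ℂ {c' | ht c' < ht c}) ∧
  ∀ (z : Co n → ℂ) (a b : ℕ),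
    KN u (fun c => z c + MvPolynomial.eval z (g c)) a b = KN u (msk u z) a b

/-- SLICE. -/
def St_SLICE : Prop := ∀ (n : ℕ) (u v : Equiv.Perm (Fin n)),
  HS (SV u v) = HS {z | msk u z ∈ SV u v}

/-- VAN. Vanishing of the row and the column of a fixed position on the slice. -/
def St_VAN : Prop := ∀ (n : ℕ) (u v : Equiv.Perm (Fin n)) (i : Fin n), u i = v i →
  rkN u i (u i) = rkN v i (u i) → ∀ z : Co n → ℂ, msk u z ∈ SV u v →
  ∀ c : Co n, (c.1.1 = i ∨ c.1.2 = i) → msk u z c = 0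

/-- RKD. Ranks after the deletion of a position. -/
def St_RKD : Prop := ∀ (m : ℕ) (w : Equiv.Perm (Fin (m + 1))) (i : Fin (m + 1))
  (w' : Equiv.Perm (Fin m)), IsPat w' w (Fin.succAboveOrderEmb i) → ∀ a b, a ≤ m + 1 →
  b ≤ m + 1 → rkN w a b = rkN w' (if (i : ℕ) < a then a - 1 else a)
    (if (w i : ℕ) < b then b - 1 else b) + (if (i : ℕ) < a ∧ (w i : ℕ) < b then 1 else 0)

/-- KND. The spaces `KN` after the deletion of a position. -/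
def St_KND : Prop := ∀ (m : ℕ) (w : Equiv.Perm (Fin (m + 1))) (i : Fin (m + 1))
  (w' : Equiv.Perm (Fin m)), IsPat w' w (Fin.succAboveOrderEmb i) → ∀ z : Co (m + 1) → ℂ,
  (∀ c : Co (m + 1), (c.1.1 = i ∨ c.1.2 = i) → z c = 0) → ∀ a b, a ≤ m + 1 → b ≤ m + 1 →
  Module.finrank ℂ (KN w z a b) =
    Module.finrank ℂ (KN w' (resC (Fin.succAboveOrderEmb i) z)
      (if (i : ℕ) < a then a - 1 else a) (if (w i : ℕ) < b then b - 1 else b)) +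
    (if (i : ℕ) < a ∧ (w i : ℕ) < b then 1 else 0)

/-- DELSV. -/
def St_DELSV : Prop := ∀ (m : ℕ) (u v : Equiv.Perm (Fin (m + 1))) (i : Fin (m + 1))
  (u' v' : Equiv.Perm (Fin m)), u i = v i → IsPat u' u (Fin.succAboveOrderEmb i) →
  IsPat v' v (Fin.succAboveOrderEmb i) → ∀ z : Co (m + 1) → ℂ,
  (∀ c : Co (m + 1), (c.1.1 = i ∨ c.1.2 = i) → z c = 0) →
  (z ∈ SV u v ↔ resC (Fin.succAboveOrderEmb i) z ∈ SV u' v')

/-- REMF. The multiplicity after the deletion. -/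
def St_REMF : Prop := ∀ (m : ℕ) (u v : Equiv.Perm (Fin (m + 1))) (i : Fin (m + 1))
  (u' v' : Equiv.Perm (Fin m)), u i = v i → rkN u i (u i) = rkN v i (u i) →
  IsPat u' u (Fin.succAboveOrderEmb i) → IsPat v' v (Fin.succAboveOrderEmb i) →
  ∀ d e, MQ (SV u' v') d e → ∃ d', MQ (SV u v) d' e

/-- LEND. Length after the deletion of a position. -/
def St_LEND : Prop := ∀ (m : ℕ) (w : Equiv.Perm (Fin (m + 1))) (i : Fin (m + 1))
  (w' : Equiv.Perm (Fin m)), IsPat w' w (Fin.succAboveOrderEmb i) →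
  (len w : ℤ) = len w' + (i : ℕ) + (w i : ℕ) - 2 * (rkN w i (w i) : ℕ)

/-- REM. Deletion of a position. -/
def St_REM : Prop := ∀ (A : Itv) (i : Fin A.n), A.u i = A.v i →
  rkN A.u i (A.u i) = rkN A.v i (A.u i) →
  ∃ B : Itv, B.n + 1 = A.n ∧ Emb B A ∧ ∀ e, MultAt A e → MultAt B e

/-- NOREM. Minimal intervals have no removable positions. -/
def St_NOREM : Prop := ∀ (k : ℕ) (A : Itv), MinI k A → ∀ i, A.u i = A.v i →
  rkN A.u i (A.u i) ≠ rkN A.v i (A.u i)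

/-! ### Block M: minimal intervals -/

/-- MINU. The rank function of the bottom of a minimal interval. -/
def St_MINU : Prop := ∀ (k : ℕ) (A : Itv) (T : Finset (ℕ × ℕ)), MinI k A → EssT A.v T →
  ∀ a b, a ≤ A.n → b ≤ A.n → rkN A.u a b = rkN A.v a b ∨
    ∃ t ∈ T, rkN A.u a b + (t.1 - a) + (t.2 - b) = rkN A.u t.1 t.2

/-- LESS. Smaller intervals have multiplicity less than `k`. -/
def St_LESS : Prop := ∀ (k : ℕ) (A : Itv) (T : Finset (ℕ × ℕ)) (s : ℕ × ℕ → ℕ), MinI k A →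
  EssT A.v T → (∀ t ∈ T, rkN A.v t.1 t.2 ≤ s t ∧ s t ≤ rkN A.u t.1 t.2) →
  (∃ t ∈ T, s t < rkN A.u t.1 t.2) →
  (∀ t ∈ T, ∀ t' ∈ T, s t' - (t'.1 - t.1) - (t'.2 - t.2) ≤ s t) →
  ∃ e, e < k ∧ LBd A.v T s e

/-- REMPOS. Positions which are of no use. -/
def St_REMPOS : Prop := ∀ (n : ℕ) (u v : Equiv.Perm (Fin n)) (T : Finset (ℕ × ℕ)), Br u v →
  EssT v T → (∀ a b, a ≤ n → b ≤ n → rkN u a b = rkN v a b ∨
    ∃ t ∈ T, rkN u a b + (t.1 - a) + (t.2 - b) = rkN u t.1 t.2) → ∀ j : Fin n,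
  (∀ t ∈ T, tA u t j → rkN v t.1 t.2 < rkN u t.1 t.2 →
    ∃ t' ∈ T, tle t t' ∧ tA u t' j ∧ rkN u t'.1 t'.2 = rkN v t'.1 t'.2) →
  (∀ t ∈ T, tB u t j → rkN v t.1 t.2 < rkN u t.1 t.2 →
    ∃ t' ∈ T, tle t' t ∧ tB u t' j ∧ rkN u t'.1 t'.2 = rkN v t'.1 t'.2) →
  u j = v j ∧ rkN u j (u j) = rkN v j (u j)

/-- COVJ. Every position of a minimal interval belongs to a set `JA t` or `JB t`. -/
def St_COVJ : Prop := ∀ (k : ℕ) (A : Itv) (T : Finset (ℕ × ℕ)), MinI k A → EssT A.v T →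
  ∀ j : Fin A.n, ∃ t ∈ T, rkN A.v t.1 t.2 < rkN A.u t.1 t.2 ∧
    (j ∈ JA A.u T t ∨ j ∈ JB A.u T t)

/-- JCNT. The sizes of `JA t` and `JB t`. -/
def St_JCNT : Prop := ∀ (n : ℕ) (u v : Equiv.Perm (Fin n)) (T : Finset (ℕ × ℕ))
  (s : ℕ × ℕ → ℕ) (e : ℕ), Br u v → EssT v T →
  (∀ t ∈ T, rkN v t.1 t.2 ≤ s t ∧ s t ≤ rkN u t.1 t.2) → LBd v T s e →
  ∀ t ∈ T, rkN v t.1 t.2 < s t →
  (JA u T t).card + rkN v t.1 t.2 + 1 ≤ rkN u t.1 t.2 + e ∧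
  (JB u T t).card + rkN v t.1 t.2 + 1 ≤ rkN u t.1 t.2 + e

/-- BND. The bound for the size. -/
def St_BND : Prop := ∀ (k : ℕ) (A : Itv) (T : Finset (ℕ × ℕ)), MinI k A → EssT A.v T →
  (∃ t0 ∈ T, rkN A.u t0.1 t0.2 = rkN A.v t0.1 t0.2 + 1 ∧
    ∀ t ∈ T, t ≠ t0 → rkN A.u t.1 t.2 = rkN A.v t.1 t.2) ∨ A.n ≤ 4 * k * Nat.log 2 k

/-- TYPE1. The case of one condition. -/
def St_TYPE1 : Prop := ∀ (k : ℕ) (A : Itv) (T : Finset (ℕ × ℕ)), MinI k A → EssT A.v T →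
  ∀ t0 ∈ T, rkN A.u t0.1 t0.2 = rkN A.v t0.1 t0.2 + 1 →
  (∀ t ∈ T, t ≠ t0 → rkN A.u t.1 t.2 = rkN A.v t.1 t.2) → IsI A

/-- COVM. Minimal elements with 3412-avoiding top. -/
def St_COVM : Prop := ∀ (k : ℕ) (A : Itv), MinI k A → Av3412 A.v →
  IsI A ∨ A.n ≤ 4 * k * Nat.log 2 k

end Pool.Agent.COV
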