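import Pool.Agent.Work.MP_1c6e58_ag.COV.StLADM
import Pool.Agent.Work.MP_1c6e58_ag.SH.Stmts

/-!
MP_1c6e58_ag, project COV: definitions and statements of the ladder half.
-/

set_option autoImplicit false

open Finset

namespace Pool.Agent.COV

open Pool.Agent.SH

section defs

variable {Q : Type}

/-- Strictly increasing in both coordinates. -/
def dlt (c c' : ℕ × ℕ) : Prop := c.1 < c'.1 ∧ c.2 < c'.2

/-- Good sets of cells (with a level function). -/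
def GoodF (A B ρ : Q → ℕ) (F : Finset (ℕ × ℕ)) : Prop :=
  (∀ c ∈ F, ∃ q, c.1 < A q ∧ c.2 < B q) ∧
  ∃ lv : ℕ × ℕ → ℕ, (∀ c ∈ F, 1 ≤ lv c) ∧ (∀ c ∈ F, ∀ c' ∈ F, dlt c c' → lv c < lv c') ∧
    ∀ q, ∀ c ∈ F, c.1 < A q → c.2 < B q → lv c ≤ ρ q

/-- The cells in the support of an exponent. -/
noncomputable def cells {A B : Q → ℕ} (α : LCell A B →₀ ℕ) : Finset (ℕ × ℕ) :=
  α.support.map (Function.Embedding.subtype _)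

/-- The weighted degree. -/
noncomputable def wsum {σ : Type} (w : σ → ℤ) (α : σ →₀ ℕ) : ℤ := α.sum (fun c m => w c * m)

/-- The order `o` refines the weighted degree `w` (in fixed degree). -/
def OrdW {σ : Type} (w : σ → ℤ) (o : LOrd σ) : Prop :=
  ∀ α β : σ →₀ ℕ, α.degree = β.degree → wsum w α < wsum w β → o.f α < o.f β

/-- The weight of a cell. -/
def wc {A B : Q → ℕ} (c : LCell A B) : ℤ := - (2 * (c.1.1 : ℤ) * (c.1.2 : ℤ))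

theorem LCell_finite [Fintype Q] (A B : Q → ℕ) : Finite (LCell A B) := by
  have h : {c : ℕ × ℕ | ∃ q, c.1 < A q ∧ c.2 < B q} ⊆
      ((⋃ q, (Set.Iio (A q)) ×ˢ (Set.Iio (B q))) : Set (ℕ × ℕ)) := by
    rintro c ⟨q, h1, h2⟩
    exact Set.mem_iUnion.2 ⟨q, Set.mem_prod.2 ⟨h1, h2⟩⟩
  exact (Set.Finite.subset (Set.finite_iUnion fun q =>
    (Set.finite_Iio (A q)).prod (Set.finite_Iio (B q))) h).to_subtype

/-- All the cells. -/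
def YF [Fintype Q] (A B : Q → ℕ) : Finset (ℕ × ℕ) :=
  univ.biUnion (fun q => range (A q) ×ˢ range (B q))

/-- The terms of the function `gI`. -/
def gterm (A B ρ : Q → ℕ) (c : ℕ × ℕ) : Option Q → ℤ
  | none => min (c.1 : ℤ) (c.2 : ℤ) + 1
  | some q => (ρ q : ℤ) + max ((c.1 : ℤ) + 1 - A q) ((c.2 : ℤ) + 1 - B q)

/-- `gI c = min (min(a,b)+1, min_q (ρ q + max (a+1-A q, b+1-B q)))`. -/
def gI [Fintype Q] (A B ρ : Q → ℕ) (c : ℕ × ℕ) : ℤ :=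
  (univ : Finset (Option Q)).inf' univ_nonempty (gterm A B ρ c)

/-- The largest good set `F_L`. -/
def FL [Fintype Q] (A B ρ : Q → ℕ) : Finset (ℕ × ℕ) :=
  (YF A B).filter (fun c => 1 ≤ gI A B ρ c)

/-- The modified set: remove `R`, add the cells of `R` moved by `(-1,-1)`. -/
def mdf [Fintype Q] (A B ρ : Q → ℕ) (R : Finset (ℕ × ℕ)) : Finset (ℕ × ℕ) :=
  (FL A B ρ \ R) ∪ R.image (fun r => (r.1 - 1, r.2 - 1))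

/-- The number of the largest good sets. -/
noncomputable def NG [Fintype Q] (A B ρ : Q → ℕ) : ℕ := by
  classical exact ((YF A B).powerset.filter
    (fun F => GoodF A B ρ F ∧ F.card = (FL A B ρ).card)).card

/-- Facts on `gI`. -/
structure GF [Fintype Q] (A B ρ : Q → ℕ) : Prop where
  le : ∀ (c : ℕ × ℕ) (k : ℤ), k ≤ gI A B ρ c ↔ (k ≤ (c.1 : ℤ) + 1 ∧ k ≤ (c.2 : ℤ) + 1 ∧
    ∀ q, k ≤ (ρ q : ℤ) + max ((c.1 : ℤ) + 1 - A q) ((c.2 : ℤ) + 1 - B q))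
  mono : ∀ c c' : ℕ × ℕ, c.1 ≤ c'.1 → c.2 ≤ c'.2 → gI A B ρ c ≤ gI A B ρ c'
  diag : ∀ c : ℕ × ℕ, gI A B ρ (c.1 + 1, c.2 + 1) = gI A B ρ c + 1
  lt : ∀ c c' : ℕ × ℕ, dlt c c' → gI A B ρ c < gI A B ρ c'
  rect : ∀ (q : Q) (c : ℕ × ℕ), c.1 < A q → c.2 < B q → gI A B ρ c ≤ ρ q
  good : GoodF A B ρ (FL A B ρ)

end defs

/-! ### Statements -/

/-- ORDW. -/
def St_ORDW : Prop := ∀ (σ : Type) [Fintype σ] (w : σ → ℤ), ∃ o : LOrd σ, OrdW w o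

/-- LLEV. A set which is not good contains a long chain. -/
def St_LLEV : Prop := ∀ (Q : Type) (A B ρ : Q → ℕ) (F : Finset (ℕ × ℕ)),
  (∀ c ∈ F, ∃ q, c.1 < A q ∧ c.2 < B q) → ¬ GoodF A B ρ F →
  ∃ (q : Q) (s : Fin (ρ q + 1) → ℕ × ℕ), (∀ i, s i ∈ F) ∧ (∀ i j, i < j → dlt (s i) (s j)) ∧
    ∀ i, (s i).1 < A q ∧ (s i).2 < B q

/-- LR1. Sets without 2-chains. -/
def St_LR1 : Prop := ∀ (S : ℕ) (G : Finset (ℕ × ℕ)), (∀ c ∈ G, c.2 < S) →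
  (∀ c ∈ G, ∀ c' ∈ G, ¬ dlt c c') → ∀ y : ℕ × ℕ → ℂ, (∀ c ∈ G, y c ≠ 0) →
  ∃ (u t : ℕ → ℤ) (ξ η : ℕ → ℂ),
    (∀ c ∈ G, ξ c.1 * η c.2 = y c ∧ u c.1 + t c.2 = - (2 * (c.1 : ℤ) * (c.2 : ℤ))) ∧
    ∀ a b : ℕ, b < S → (a, b) ∉ G → - (2 * (a : ℤ) * (b : ℤ)) + 1 ≤ u a + t b

/-- LMIN. Minors. -/
def St_LMIN : Prop := ∀ (Q : Type) (A B ρ : Q → ℕ) (o : LOrd (LCell A B)), OrdW wc o →
  ∀ (q : Q) (s : Fin (ρ q + 1) → LCell A B), (∀ i j, i < j → dlt (s i).1 (s j).1) →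
  (∀ i, (s i).1.1 < A q ∧ (s i).1.2 < B q) →
  (∑ i, Finsupp.single (s i) 1) ∈ Lset o (MvPolynomial.vanishingIdeal ℂ (Zlad A B ρ))

/-- LUPP. Exponents with bad support are lowest exponents. -/
def St_LUPP : Prop := ∀ (Q : Type) [Fintype Q] (A B ρ : Q → ℕ) (o : LOrd (LCell A B)),
  OrdW wc o → ∀ α : LCell A B →₀ ℕ, ¬ GoodF A B ρ (cells α) →
  α ∈ Lset o (MvPolynomial.vanishingIdeal ℂ (Zlad A B ρ))

/-- LCRV. Curves in the ladder variety. -/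
def St_LCRV : Prop := ∀ (Q : Type) [Fintype Q] (A B ρ : Q → ℕ), Ladd A B ρ →
  ∀ F, GoodF A B ρ F → ∀ y : ℕ × ℕ → ℂ, (∀ c ∈ F, y c ≠ 0) →
  ∃ (K : ℕ) (P : LCell A B → Polynomial ℂ), (∀ c : LCell A B, 2 * c.1.1 * c.1.2 ≤ K) ∧
    (∀ T : ℂ, T ≠ 0 → (fun c => (P c).eval T) ∈ Zlad A B ρ) ∧
    ∀ c : LCell A B, (∀ m, m < K - 2 * c.1.1 * c.1.2 → (P c).coeff m = 0) ∧
      (c.1 ∈ F → (P c).coeff (K - 2 * c.1.1 * c.1.2) = y c.1) ∧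
      (c.1 ∉ F → (P c).coeff (K - 2 * c.1.1 * c.1.2) = 0)

/-- LLOW. Exponents with good support are not lowest exponents. -/
def St_LLOW : Prop := ∀ (Q : Type) [Fintype Q] (A B ρ : Q → ℕ), Ladd A B ρ →
  ∀ o : LOrd (LCell A B), OrdW wc o → ∀ α : LCell A B →₀ ℕ, GoodF A B ρ (cells α) →
  α ∉ Lset o (MvPolynomial.vanishingIdeal ℂ (Zlad A B ρ))

/-- LCNT. The multiplicity if `Lset` is described by supports. -/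
def St_LCNT : Prop := ∀ (σ : Type) [Fintype σ] (Z : Set (σ → ℂ)) (o : LOrd σ)
  (G : Finset (Finset σ)) (N e : ℕ),
  (∀ α : σ →₀ ℕ, α ∈ Lset o (MvPolynomial.vanishingIdeal ℂ Z) ↔ α.support ∉ G) →
  (∀ F ∈ G, F.card ≤ N) → e = (G.filter (fun F => F.card = N)).card → 0 < e → MQ Z N e

/-- LGF. Facts on `gI`. -/
def St_LGF : Prop := ∀ (Q : Type) [Fintype Q] (A B ρ : Q → ℕ), GF A B ρ

/-- LMAX. `FL` is a largest good set. -/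
def St_LMAX : Prop := ∀ (Q : Type) [Fintype Q] (A B ρ : Q → ℕ) (F : Finset (ℕ × ℕ)),
  GoodF A B ρ F → F.card ≤ (FL A B ρ).card

/-- LMOD. Modifications. -/
def St_LMOD : Prop := ∀ (Q : Type) [Fintype Q] (A B ρ : Q → ℕ) (R : Finset (ℕ × ℕ)),
  (∀ r ∈ R, 1 ≤ r.1 ∧ 1 ≤ r.2 ∧ r ∈ FL A B ρ ∧ gI A B ρ r = 1 ∧
    ∀ q, ρ q = 0 → ¬ (r.1 - 1 < A q ∧ r.2 - 1 < B q)) →
  (∀ r ∈ R, ∀ c ∈ FL A B ρ, c ∉ R → r.1 ≤ c.1 → r.2 ≤ c.2 → 2 ≤ gI A B ρ c) →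
  GoodF A B ρ (mdf A B ρ R) ∧ (mdf A B ρ R).card = (FL A B ρ).card ∧
    mdf A B ρ R ⊆ YF A B ∧ FL A B ρ \ mdf A B ρ R = R

/-- LTWO. -/
def St_LTWO : Prop := ∀ (Q : Type) [Fintype Q] (A B ρ : Q → ℕ), Ladd A B ρ →
  2 ^ (Finset.univ.filter (fun q => 1 ≤ ρ q)).card ≤ NG A B ρ

/-- LCOL. -/
def St_LCOL : Prop := ∀ (Q : Type) [Fintype Q] (A B ρ : Q → ℕ), Ladd A B ρ →
  ∀ q, 1 ≤ ρ q → ∀ j, j ≤ B q - ρ q →
    (∀ q', B q' - ρ q' < B q - ρ q → (B q' - ρ q') + j ≤ B q - ρ q) → j + 1 ≤ NG A B ρ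

/-- LROW. -/
def St_LROW : Prop := ∀ (Q : Type) [Fintype Q] (A B ρ : Q → ℕ), Ladd A B ρ →
  ∀ q, 1 ≤ ρ q → ∀ j, j ≤ A q - ρ q →
    (∀ q', A q' - ρ q' < A q - ρ q → (A q' - ρ q') + j ≤ A q - ρ q) → j + 1 ≤ NG A B ρ

/-- LRHO. -/
def St_LRHO : Prop := ∀ (Q : Type) [Fintype Q] (A B ρ : Q → ℕ), Ladd A B ρ →
  ∀ q, ρ q + 1 ≤ NG A B ρ

end Pool.Agent.COV
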