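import Pool.Agent.Work.MP_1c6e58_ag.COV.Stmts
import Pool.Agent.Work.MP_1c6e58_ag.COV.StmtsL

/-!
MP_1c6e58_ag, project COV: statements on family I.
-/

set_option autoImplicit false

open Finset

namespace Pool.Agent.COV

open Pool.Agent.SH

/-- `A` is the interval of family I with the parameters `a`, `b`. -/
def IsIab (a b : ℕ) (A : Itv) : Prop := 1 ≤ a ∧ 1 ≤ b ∧ A.n = a + b + 2 ∧
  (∀ j, (A.u j : ℕ) = if (j : ℕ) ≤ a then a - j else 2 * a + b + 2 - j) ∧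
  (∀ j, (A.v j : ℕ) = if (j : ℕ) = 0 then a + b + 1 else if (j : ℕ) ≤ a then a + 1 - j else
    if (j : ℕ) ≤ a + b then 2 * a + b + 1 - j else 0)

/-- The rank functions of family I. -/
def fI (n p s α β : ℕ) : ℕ := max (α + β - n) (s - (p - α) - (p - β))

/-- IRK. The permutations of family I and their rank functions. -/
def St_IRK : Prop := ∀ a b : ℕ, 1 ≤ a → 1 ≤ b → ∃ u v : Equiv.Perm (Fin (a + b + 2)),
  (∀ j, (u j : ℕ) = if (j : ℕ) ≤ a then a - j else 2 * a + b + 2 - j) ∧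
  (∀ j, (v j : ℕ) = if (j : ℕ) = 0 then a + b + 1 else if (j : ℕ) ≤ a then a + 1 - j else
    if (j : ℕ) ≤ a + b then 2 * a + b + 1 - j else 0) ∧
  (∀ α β, α ≤ a + b + 2 → β ≤ a + b + 2 → rkN u α β = fI (a + b + 2) (a + 1) (a + 1) α β) ∧
  (∀ α β, α ≤ a + b + 2 → β ≤ a + b + 2 → rkN v α β = fI (a + b + 2) (a + 1) a α β)

/-- IFACT. Facts on family I. -/
def St_IFACT : Prop := ∀ (a b : ℕ) (A : Itv), IsIab a b A →
  Av3412 A.v ∧ EssT A.v {(a + 1, a + 1)} ∧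
  (∀ α β, α ≤ A.n → β ≤ A.n → rkN A.u α β = fI A.n (a + 1) (a + 1) α β) ∧
  (∀ α β, α ≤ A.n → β ≤ A.n → rkN A.v α β = fI A.n (a + 1) a α β) ∧ ∀ j, A.u j ≠ A.v j

/-- IEX. Existence and uniqueness. -/
def St_IEX : Prop := (∀ a b : ℕ, 1 ≤ a → 1 ≤ b → ∃ A, IsIab a b A) ∧
  (∀ (a b : ℕ) (A B : Itv), IsIab a b A → IsIab a b B → A = B)

/-- EMBM. Embeddings preserve the multiplicity. -/
def St_EMBM : Prop := ∀ A B : Itv, Emb B A → ∀ e, MultAt A e → MultAt B e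

/-- SM1. Multiplicity 1. -/
def St_SM1 : Prop := ∀ (n : ℕ) (u v : Equiv.Perm (Fin n)) (T : Finset (ℕ × ℕ)), EssT v T →
  Br u v → (∀ t ∈ T, rkN u t.1 t.2 = rkN v t.1 t.2) → ∃ d, MQ (SV u v) d 1

/-- IMIN. Minimality of family I. -/
def St_IMIN : Prop := ∀ (a b k : ℕ) (A : Itv), IsIab a b A → (MinI k A ↔ 2 ≤ k ∧ InI k A)

/-- LADQ. The multiplicity of the ladder variety. -/
def St_LADQ : Prop := ∀ (Q : Type) [Fintype Q] (A B ρ : Q → ℕ), Ladd A B ρ →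
  MQ (Zlad A B ρ) (FL A B ρ).card (NG A B ρ)

open Classical in
/-- PATHS. The number of lattice paths as sets without 2-chains. -/
def St_PATHS : Prop := ∀ a b : ℕ, (((range (b + 1)) ×ˢ (range (a + 1))).powerset.filter
  (fun F => (∀ c ∈ F, ∀ c' ∈ F, ¬ dlt c c') ∧ F.card = a + b + 1)).card = Nat.choose (a + b) a

/-- NGI. -/
def St_NGI : Prop := ∀ (Q : Type) [Fintype Q] [Unique Q] (A B ρ : Q → ℕ) (a b : ℕ),
  A default = b + 1 → B default = a + 1 → ρ default = 1 → NG A B ρ = Nat.choose (a + b) a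

/-- IMULT. The multiplicity of family I. -/
def St_IMULT : Prop := ∀ (a b : ℕ) (A : Itv), IsIab a b A → MultAt A (Nat.choose (a + b) a)

end Pool.Agent.COV
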